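import Pool.Agent.H712R2.MA.Stm

/-!
# From polytopes to general centrally symmetric convex bodies
-/

set_option autoImplicit false

noncomputable section

open MeasureTheory Filter Topology Set
open scoped BigOperators Matrix ENNReal RealInnerProductSpace

namespace H712MA

/-- centrally symmetric convex bodies in `ℝⁿ` -/
structure IsSymConvexBody {n : ℕ} (K : Set (EuclideanSpace ℝ (Fin n))) : Prop where
  isCompact : IsCompact K
  convex : Convex ℝ K
  interior_nonempty : (interior K).Nonempty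
  neg_mem : ∀ x ∈ K, -x ∈ K

/-- the polar body -/
def polarBody {n : ℕ} (K : Set (EuclideanSpace ℝ (Fin n))) : Set (EuclideanSpace ℝ (Fin n)) :=
  {y | ∀ x ∈ K, ⟪x, y⟫ ≤ 1}

/-- the volume product `vol(K) vol(K*)` -/
def volumeProduct {n : ℕ} (K : Set (EuclideanSpace ℝ (Fin n))) : ℝ :=
  (volume K).toReal * (volume (polarBody K)).toReal

namespace GB

/-- symmetric convex bodies in coordinates -/
structure SBody {n : ℕ} (K : Set (Fin n → ℝ)) : Prop where
  comp : IsCompact K
  conv : Convex ℝ K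
  int : (interior K).Nonempty
  symm : ∀ x ∈ K, -x ∈ K

/-- polar in coordinates -/
def plr {n : ℕ} (K : Set (Fin n → ℝ)) : Set (Fin n → ℝ) := {y | ∀ x ∈ K, x ⬝ᵥ y ≤ 1}

variable {n : ℕ} {K : Set (Fin n → ℝ)}

lemma zero_mem_interior (h : SBody K) : (0 : Fin n → ℝ) ∈ interior K := by
  obtain ⟨x, hx⟩ := h.int
  have h1 : -x ∈ interior K := by
    rw [mem_interior] at hx ⊢
    obtain ⟨U, hU, hUo, hxU⟩ := hx
    refine ⟨-U, fun y hy => ?_, hUo.neg, by simpa using hxU⟩
    have := h.symm _ (hU hy)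
    simpa using this
  have h2 := h.conv.interior.midpoint_mem hx h1
  rwa [midpoint_self_neg] at h2

lemma zero_mem (h : SBody K) : (0 : Fin n → ℝ) ∈ K := interior_subset (zero_mem_interior h)

lemma exists_ball (h : SBody K) : ∃ ε : ℝ, 0 < ε ∧ Metric.ball (0 : Fin n → ℝ) ε ⊆ K := by
  have := mem_interior_iff_mem_nhds.1 (zero_mem_interior h)
  exact Metric.mem_nhds_iff.1 this

lemma cont_dot (x : Fin n → ℝ) : Continuous fun y : Fin n → ℝ => x ⬝ᵥ y := by
  unfold dotProduct
  fun_prop

lemma plr_closed (K : Set (Fin n → ℝ)) : IsClosed (plr K) := by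
  have : plr K = ⋂ x ∈ K, {y | x ⬝ᵥ y ≤ 1} := by
    ext y; simp [plr]
  rw [this]
  refine isClosed_biInter fun x _ => isClosed_le (cont_dot x) continuous_const

lemma plr_bdd (h : SBody K) : Bornology.IsBounded (plr K) := by
  obtain ⟨ε, hε, hb⟩ := exists_ball h
  rw [isBounded_iff_forall_norm_le]
  refine ⟨2 / ε, fun y hy => ?_⟩
  rw [pi_norm_le_iff_of_nonneg (by positivity)]
  intro i
  have hmem : ∀ c : ℝ, |c| < ε → c * y i ≤ 1 := by
    intro c hc
    have h1 : (Pi.single i c : Fin n → ℝ) ∈ K := by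
      apply hb
      rw [Metric.mem_ball, dist_zero_right, pi_norm_lt_iff hε]
      intro j
      rcases eq_or_ne j i with rfl | hji
      · simpa using hc
      · rw [Pi.single_eq_of_ne hji]; simpa using hε
    have h2 := hy _ h1
    rwa [single_dotProduct] at h2
  have h1 := hmem (ε / 2) (by rw [abs_of_pos (by positivity)]; linarith)
  have h2 := hmem (-(ε / 2)) (by rw [abs_neg, abs_of_pos (by positivity)]; linarith)
  rw [Real.norm_eq_abs, abs_le, le_div_iff₀ hε, neg_le, ← neg_le_neg_iff]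
  constructor
  · rw [neg_neg, ← neg_div, div_le_iff₀ hε]
    nlinarith
  · nlinarith

lemma neg_plr (h : SBody K) {y : Fin n → ℝ} (hy : y ∈ plr K) : -y ∈ plr K := by
  intro x hx
  have := hy _ (h.symm x hx)
  rw [neg_dotProduct] at this
  rwa [dotProduct_neg]

lemma abs_dot_le (h : SBody K) {y : Fin n → ℝ} (hy : y ∈ plr K) {x : Fin n → ℝ} (hx : x ∈ K) :
    |y ⬝ᵥ x| ≤ 1 := by
  have h1 := hy x hx
  have h2 := hy _ (h.symm x hx)
  rw [neg_dotProduct] at h2
  rw [dotProduct_comm, abs_le]
  constructor <;> linarith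

/-- separation: the bipolar theorem -/
lemma bipolar (h : SBody K) {x : Fin n → ℝ} (hx : x ∉ K) : ∃ y ∈ plr K, 1 < y ⬝ᵥ x := by
  obtain ⟨f, u, hf1, hf2⟩ := geometric_hahn_banach_closed_point h.conv h.comp.isClosed hx
  have hu : 0 < u := by simpa using hf1 0 (zero_mem h)
  set w : Fin n → ℝ := fun i => f (Pi.single i 1) with hwd
  have hw : ∀ a : Fin n → ℝ, a ⬝ᵥ w = f a := by
    intro a
    have h1 := LinearMap.pi_apply_eq_sum_univ f.toLinearMap a
    simp only [ContinuousLinearMap.coe_coe] at h1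
    rw [h1]
    unfold dotProduct
    refine Finset.sum_congr rfl fun i _ => ?_
    have h2 : (Pi.single i 1 : Fin n → ℝ) = fun j => if i = j then 1 else 0 := by
      funext j
      simp [Pi.single_apply, eq_comm]
    simp only [hwd, smul_eq_mul]
    rw [h2]
  refine ⟨u⁻¹ • w, fun a ha => ?_, ?_⟩
  · rw [dotProduct_smul, hw, smul_eq_mul, inv_mul_le_iff₀ hu, mul_one]
    exact (hf1 a ha).le
  · rw [smul_dotProduct, dotProduct_comm, hw, smul_eq_mul, lt_inv_mul_iff₀ hu, mul_one]
    exact hf2

/-- the approximating polytopes -/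
def ll (r : ℝ) (y : ℕ → Fin n → ℝ) (N : ℕ) : Fin n ⊕ Fin N → Fin n → ℝ
  | Sum.inl i => Pi.single i r
  | Sum.inr j => y j

lemma spans_ll (r : ℝ) (hr : 0 < r) (y : ℕ → Fin n → ℝ) (N : ℕ) : Spans (ll r y N) := by
  refine ⟨Sum.inl, ?_⟩
  have : (Matrix.of fun i j => ll r y N (Sum.inl i) j : Matrix (Fin n) (Fin n) ℝ) =
      Matrix.diagonal (fun _ => r) := by
    ext i j
    simp [ll, Matrix.diagonal_apply, Pi.single_apply, eq_comm]
  unfold dt
  rw [this, Matrix.det_diagonal]
  simp [hr.ne']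

lemma Bd_closed {κ : Type} (l : κ → Fin n → ℝ) : IsClosed (Bd l) := by
  have : Bd l = ⋂ k, {x | |l k ⬝ᵥ x| ≤ 1} := by
    ext x; simp [Bd]
  rw [this]
  exact isClosed_iInter fun k => isClosed_le (cont_dot (l k)).abs continuous_const

lemma Bd_anti (r : ℝ) (y : ℕ → Fin n → ℝ) : Antitone fun N => Bd (ll r y N) := by
  intro N M hNM x hx k
  rcases k with i | j
  · exact hx (Sum.inl i)
  · exact hx (Sum.inr (Fin.castLE hNM j))

lemma Bd_bdd (r : ℝ) (hr : 0 < r) (y : ℕ → Fin n → ℝ) (N : ℕ) :
    Bornology.IsBounded (Bd (ll r y N)) := by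
  rw [isBounded_iff_forall_norm_le]
  refine ⟨1 / r, fun x hx => ?_⟩
  rw [pi_norm_le_iff_of_nonneg (by positivity)]
  intro i
  have h1 := hx (Sum.inl i)
  simp only [ll, single_dotProduct] at h1
  rw [abs_mul, abs_of_pos hr] at h1
  rw [Real.norm_eq_abs, le_div_iff₀ hr]
  linarith

/-- Mahler's inequality for symmetric convex bodies in coordinates, from the polytope case -/
theorem coord (hZ : S_Z) (h : SBody K) :
    ENNReal.ofReal ((4 : ℝ) ^ n / n.factorial) ≤ volume K * volume (plr K) := by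
  -- radius of a ball in the polar
  obtain ⟨M, hM⟩ := isBounded_iff_forall_norm_le.1 h.comp.isBounded
  have hM0 : 0 ≤ M := (norm_nonneg _).trans (hM 0 (zero_mem h))
  set r : ℝ := 1 / (M + 1) with hr
  have hr0 : 0 < r := by positivity
  have hne : Nonempty (plr K) := ⟨0, fun x _ => by simp⟩
  set y : ℕ → Fin n → ℝ := fun j => (TopologicalSpace.denseSeq (plr K) j : Fin n → ℝ) with hy
  have hmem : ∀ j, y j ∈ plr K := fun j => (TopologicalSpace.denseSeq (plr K) j).2
  -- K is contained in all polytopes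
  have hsub : ∀ N, K ⊆ Bd (ll r y N) := by
    intro N x hx k
    rcases k with i | j
    · simp only [ll, single_dotProduct]
      rw [abs_mul, abs_of_pos hr0]
      have h1 : |x i| ≤ M := (norm_le_pi_norm x i).trans (hM x hx)
      rw [hr, one_div, inv_mul_le_iff₀ (by positivity)]
      linarith
    · exact abs_dot_le h (hmem j) hx
  have hinter : ⋂ N, Bd (ll r y N) = K := by
    refine Subset.antisymm (fun x hx => ?_) (subset_iInter hsub)
    by_contra hxK
    obtain ⟨w, hw, hw1⟩ := bipolar h hxK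
    have hopen : IsOpen {v : plr K | 1 < (v : Fin n → ℝ) ⬝ᵥ x} := by
      have hc : Continuous fun v : Fin n → ℝ => v ⬝ᵥ x := by
        unfold dotProduct; fun_prop
      exact isOpen_lt continuous_const (hc.comp continuous_subtype_val)
    obtain ⟨j, hj⟩ := (TopologicalSpace.denseRange_denseSeq (plr K)).exists_mem_open hopen ⟨⟨w, hw⟩, hw1⟩
    have h1 := mem_iInter.1 hx (j + 1) (Sum.inr (Fin.last j))
    have h2 : ll r y (j + 1) (Sum.inr (Fin.last j)) = y j := by simp [ll]
    rw [h2] at h1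
    have h3 : 1 < y j ⬝ᵥ x := hj
    linarith [le_abs_self (y j ⬝ᵥ x)]
  have hlim : Tendsto (fun N => volume (Bd (ll r y N))) atTop (𝓝 (volume K)) := by
    have := tendsto_measure_iInter_atTop (μ := volume) (s := fun N => Bd (ll r y N))
      (fun N => (Bd_closed _).measurableSet.nullMeasurableSet) (Bd_anti r y)
      ⟨0, (Bd_bdd r hr0 y 0).measure_lt_top.ne⟩
    rwa [hinter] at this
  have hfin : volume (plr K) ≠ ⊤ := (plr_bdd h).measure_lt_top.ne
  have hpol : ∀ N, Pol (ll r y N) ⊆ plr K := fun N w hw x hx => hw x (hsub N hx)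
  refine ge_of_tendsto' (ENNReal.Tendsto.mul_const hlim (Or.inr hfin)) fun N => ?_
  exact (hZ _ n _ (spans_ll r hr0 y N)).trans (mul_le_mul_right (measure_mono (hpol N)) _)

end GB

open GB in
/-- **Mahler's conjecture for centrally symmetric convex bodies**, from the polytope case -/
theorem G (hZ : S_Z) : ∀ (n : ℕ) (K : Set (EuclideanSpace ℝ (Fin n))), IsSymConvexBody K →
    (4 : ℝ) ^ n / n.factorial ≤ volumeProduct K := by
  intro n K hK
  set K' : Set (Fin n → ℝ) := WithLp.toLp 2 ⁻¹' K with hK'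
  have hcont : Continuous (WithLp.toLp 2 : (Fin n → ℝ) → EuclideanSpace ℝ (Fin n)) :=
    PiLp.continuous_toLp 2 _
  have hcont' : Continuous (WithLp.ofLp : EuclideanSpace ℝ (Fin n) → (Fin n → ℝ)) :=
    PiLp.continuous_ofLp 2 _
  have himg : K' = WithLp.ofLp '' K := by
    ext x
    constructor
    · intro hx; exact ⟨WithLp.toLp 2 x, hx, rfl⟩
    · rintro ⟨z, hz, rfl⟩; exact hz
  have hb : SBody K' := by
    refine ⟨?_, ?_, ?_, ?_⟩
    · rw [himg]; exact hK.isCompact.image hcont'
    · exact hK.convex.linear_preimage (WithLp.linearEquiv 2 ℝ (Fin n → ℝ)).symm.toLinearMap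
    · obtain ⟨z, hz⟩ := hK.interior_nonempty
      refine ⟨WithLp.ofLp z, ?_⟩
      exact preimage_interior_subset_interior_preimage hcont hz
    · intro x hx
      exact hK.neg_mem _ hx
  have h := coord hZ hb
  have hpolar : WithLp.toLp 2 ⁻¹' polarBody K = plr K' := by
    ext y
    constructor
    · intro hy x hx
      have := hy _ hx
      rwa [EuclideanSpace.inner_toLp_toLp, star_trivial, dotProduct_comm] at this
    · intro hy x hx
      have := hy (WithLp.ofLp x) hx
      have h1 : x = WithLp.toLp 2 (WithLp.ofLp x) := rfl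
      rw [h1, EuclideanSpace.inner_toLp_toLp, star_trivial, dotProduct_comm]
      exact this
  have hmp : MeasurePreserving (WithLp.toLp 2 : (Fin n → ℝ) → EuclideanSpace ℝ (Fin n)) :=
    PiLp.volume_preserving_toLp (Fin n)
  have hv1 : volume K' = volume K :=
    hmp.measure_preimage hK.isCompact.measurableSet.nullMeasurableSet
  have hpc : IsClosed (polarBody K) := by
    have : polarBody K = ⋂ x ∈ K, {y | ⟪x, y⟫ ≤ 1} := by
      ext y; simp [polarBody]
    rw [this]
    exact isClosed_biInter fun x _ => isClosed_le (by fun_prop) continuous_const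
  have hv2 : volume (plr K') = volume (polarBody K) := by
    rw [← hpolar]
    exact hmp.measure_preimage hpc.measurableSet.nullMeasurableSet
  have hf1 : volume K ≠ ⊤ := hK.isCompact.measure_lt_top.ne
  have hf2 : volume (polarBody K) ≠ ⊤ := by
    rw [← hv2]; exact (plr_bdd hb).measure_lt_top.ne
  rw [hv1, hv2] at h
  unfold volumeProduct
  rw [← ENNReal.toReal_mul]
  rwa [← ENNReal.ofReal_le_iff_le_toReal (ENNReal.mul_ne_top hf1 hf2)]

end H712MA
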