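import Pool.Agent.H712R2.MA.Stm

set_option autoImplicit false

noncomputable section

open MeasureTheory Filter Topology
open scoped BigOperators Matrix ComplexConjugate

namespace H712MA

namespace A1aux

variable {κ : Type} [Fintype κ] {r : ℕ}

/-- `F` is antisymmetric -/
def Anti (F : (Fin (r + 1) → κ) → ℂ) : Prop :=
  ∀ (σ : Equiv.Perm (Fin (r + 1))) (f : Fin (r + 1) → κ),
    F (f ∘ σ) = ((Equiv.Perm.sign σ : ℤ) : ℂ) * F f

/-- contraction with first argument -/
def g (c : κ → ℂ) (F : (Fin (r + 1) → κ) → ℂ) (s : Fin r → κ) : ℂ :=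
  ∑ k, c k * F (Fin.cons k s)

/-- contraction at place `i` -/
def G (c : κ → ℂ) (F : (Fin (r + 1) → κ) → ℂ) (i : Fin (r + 1)) (f : Fin (r + 1) → κ) : ℂ :=
  ∑ k, c k * F (Function.update f i k)

theorem ins_eq (i : Fin (r + 1)) (k : κ) (s : Fin r → κ) :
    i.insertNth (α := fun _ => κ) k s =
      (Fin.cons k s : Fin (r + 1) → κ) ∘ i.cycleRange := by
  funext j
  refine Fin.succAboveCases i ?_ (fun j => ?_) j
  · simp [Fin.cycleRange_self]
  · simp [Fin.cycleRange_succAbove]

theorem G_ins (c : κ → ℂ) (F : (Fin (r + 1) → κ) → ℂ) (hF : Anti F) (i : Fin (r + 1))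
    (k : κ) (s : Fin r → κ) :
    G c F i (i.insertNth (α := fun _ => κ) k s) = (-1) ^ (i : ℕ) * g c F s := by
  unfold G g
  rw [Finset.mul_sum]
  refine Finset.sum_congr rfl fun k' _ => ?_
  have h1 : Function.update (i.insertNth (α := fun _ => κ) k s) i k' =
      i.insertNth (α := fun _ => κ) k' s := by
    funext j
    refine Fin.succAboveCases i ?_ (fun j => ?_) j
    · simp
    · simp [Function.update_of_ne (Fin.succAbove_ne i j)]
  rw [h1, ins_eq, hF, Fin.sign_cycleRange]
  push_cast
  ring

theorem sum_ins {M : Type*} [AddCommMonoid M] (i : Fin (r + 1)) (H : (Fin (r + 1) → κ) → M) :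
    ∑ f, H f = ∑ s : Fin r → κ, ∑ k : κ, H (i.insertNth (α := fun _ => κ) k s) := by
  rw [← Equiv.sum_comp (Fin.insertNthEquiv (fun _ => κ) i) H, Fintype.sum_prod_type,
    Finset.sum_comm]
  rfl

theorem Y_eq (c : κ → ℂ) (F : (Fin (r + 1) → κ) → ℂ) (hF : Anti F) (i : Fin (r + 1)) :
    ∑ f, F f * (c (f i) * conj (G c F i f)) = ∑ s, g c F s * conj (g c F s) := by
  rw [sum_ins i]
  refine Finset.sum_congr rfl fun s _ => ?_
  have h1 : ∀ k : κ, F (i.insertNth (α := fun _ => κ) k s) *
      (c (i.insertNth (α := fun _ => κ) k s i) *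
        conj (G c F i (i.insertNth (α := fun _ => κ) k s))) =
      (c k * F (Fin.cons k s)) * conj (g c F s) := by
    intro k
    rw [G_ins c F hF, ins_eq, hF, Fin.sign_cycleRange]
    rw [Function.comp_apply, Fin.cycleRange_self, Fin.cons_zero]
    simp only [map_mul, map_pow, map_neg, map_one]
    push_cast
    have h2 : ((-1 : ℂ) ^ (i : ℕ)) * (-1 : ℂ) ^ (i : ℕ) = 1 := by
      rw [← mul_pow]; simp
    linear_combination (F (Fin.cons k s) * c k * conj (g c F s)) * h2
  rw [Finset.sum_congr rfl fun k _ => h1 k, ← Finset.sum_mul]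
  rfl

theorem Z_same (c : κ → ℂ) (F : (Fin (r + 1) → κ) → ℂ) (hF : Anti F) (i : Fin (r + 1)) :
    ∑ f, (conj (c (f i)) * G c F i f) * (c (f i) * conj (G c F i f)) =
      (∑ k, c k * conj (c k)) * ∑ s, g c F s * conj (g c F s) := by
  rw [sum_ins i, Finset.mul_sum]
  refine Finset.sum_congr rfl fun s _ => ?_
  rw [Finset.sum_mul]
  refine Finset.sum_congr rfl fun k _ => ?_
  rw [G_ins c F hF, Fin.insertNth_apply_same]
  simp only [map_mul, map_pow, map_neg, map_one]
  have h2 : ((-1 : ℂ) ^ (i : ℕ)) * (-1 : ℂ) ^ (i : ℕ) = 1 := by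
    rw [← mul_pow]; simp
  linear_combination (conj (c k) * g c F s * c k * conj (g c F s)) * h2

theorem Z_diff (c : κ → ℂ) (F : (Fin (r + 1) → κ) → ℂ) (hF : Anti F) (i j : Fin (r + 1))
    (hij : i ≠ j) :
    ∑ f, (conj (c (f i)) * G c F i f) * (c (f j) * conj (G c F j f)) = 0 := by
  rw [sum_ins j]
  apply Finset.sum_eq_zero
  intro s _
  obtain ⟨i', rfl⟩ := Fin.exists_succAbove_eq hij
  have h1 : ∀ k : κ,
      (conj (c (j.insertNth (α := fun _ => κ) k s (j.succAbove i'))) *
        G c F (j.succAbove i') (j.insertNth (α := fun _ => κ) k s)) *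
      (c (j.insertNth (α := fun _ => κ) k s j) *
        conj (G c F j (j.insertNth (α := fun _ => κ) k s))) =
      (conj (c (s i')) * ((-1) ^ (j : ℕ) * conj (g c F s))) *
        ∑ k' : κ, c k * (c k' * F (Function.update (j.insertNth (α := fun _ => κ) k s)
          (j.succAbove i') k')) := by
    intro k
    rw [G_ins c F hF j, Fin.insertNth_apply_same, Fin.insertNth_apply_succAbove, ← Finset.mul_sum]
    simp only [map_mul, map_pow, map_neg, map_one]
    unfold G
    ring
  rw [Finset.sum_congr rfl fun k _ => h1 k, ← Finset.mul_sum]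
  have h2 : ∑ k : κ, ∑ k' : κ, c k * (c k' *
      F (Function.update (j.insertNth (α := fun _ => κ) k s) (j.succAbove i') k')) = 0 := by
    have h3 : ∀ k k' : κ,
        F (Function.update (j.insertNth (α := fun _ => κ) k s) (j.succAbove i') k') =
        - F (Function.update (j.insertNth (α := fun _ => κ) k' s) (j.succAbove i') k) := by
      intro k k'
      have h4 : Function.update (j.insertNth (α := fun _ => κ) k s) (j.succAbove i') k' =
          (Function.update (j.insertNth (α := fun _ => κ) k' s) (j.succAbove i') k) ∘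
            (Equiv.swap j (j.succAbove i')) := by
        funext x
        simp only [Function.comp_apply]
        by_cases hx : x = j
        · subst hx
          rw [Equiv.swap_apply_left, Function.update_self,
            Function.update_of_ne (Fin.succAbove_ne _ _).symm, Fin.insertNth_apply_same]
        · by_cases hx' : x = j.succAbove i'
          · subst hx'
            rw [Equiv.swap_apply_right, Function.update_self,
              Function.update_of_ne (Fin.succAbove_ne _ _).symm, Fin.insertNth_apply_same]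
          · rw [Equiv.swap_apply_of_ne_of_ne hx hx', Function.update_of_ne hx',
              Function.update_of_ne hx']
            obtain ⟨x', rfl⟩ := Fin.exists_succAbove_eq hx
            simp
      rw [h4, hF, Equiv.Perm.sign_swap (Fin.succAbove_ne _ _).symm]
      simp
    have h5 : ∑ k : κ, ∑ k' : κ, c k * (c k' *
      F (Function.update (j.insertNth (α := fun _ => κ) k s) (j.succAbove i') k')) =
      - ∑ k : κ, ∑ k' : κ, c k * (c k' *
      F (Function.update (j.insertNth (α := fun _ => κ) k s) (j.succAbove i') k')) := by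
      conv_lhs => rw [Finset.sum_comm]
      rw [← Finset.sum_neg_distrib]
      refine Finset.sum_congr rfl fun k _ => ?_
      rw [← Finset.sum_neg_distrib]
      refine Finset.sum_congr rfl fun k' _ => ?_
      rw [h3 k' k]
      ring
    have h6 := self_eq_neg.mp h5
    exact h6
  rw [h2, mul_zero]

theorem main (F : (Fin (r + 1) → κ) → ℂ) (hF : Anti F) (c : κ → ℂ) :
    ((r : ℝ) + 1) * ∑ s, ‖g c F s‖ ^ 2 ≤ (∑ k, ‖c k‖ ^ 2) * ∑ f, ‖F f‖ ^ 2 := by
  set A : ℝ := ∑ s, ‖g c F s‖ ^ 2 with hA
  set C : ℝ := ∑ k, ‖c k‖ ^ 2 with hC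
  set D : ℝ := ∑ f, ‖F f‖ ^ 2 with hD
  have hAc : ∑ s, g c F s * conj (g c F s) = (A : ℂ) := by
    rw [hA]; push_cast
    refine Finset.sum_congr rfl fun s _ => ?_
    rw [Complex.mul_conj, Complex.normSq_eq_norm_sq]; push_cast; rfl
  have hCc : ∑ k, c k * conj (c k) = (C : ℂ) := by
    rw [hC]; push_cast
    refine Finset.sum_congr rfl fun s _ => ?_
    rw [Complex.mul_conj, Complex.normSq_eq_norm_sq]; push_cast; rfl
  have hDc : ∑ f, F f * conj (F f) = (D : ℂ) := by
    rw [hD]; push_cast
    refine Finset.sum_congr rfl fun s _ => ?_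
    rw [Complex.mul_conj, Complex.normSq_eq_norm_sq]; push_cast; rfl
  have hC0 : 0 ≤ C := Finset.sum_nonneg fun _ _ => sq_nonneg _
  have hD0 : 0 ≤ D := Finset.sum_nonneg fun _ _ => sq_nonneg _
  have hA0 : 0 ≤ A := Finset.sum_nonneg fun _ _ => sq_nonneg _
  rcases eq_or_lt_of_le hC0 with h0 | hpos
  · have hc : ∀ k, c k = 0 := by
      intro k
      have := (Finset.sum_eq_zero_iff_of_nonneg (fun k _ => sq_nonneg ‖c k‖)).1 h0.symm k
        (Finset.mem_univ k)
      simpa using this
    have hg : ∀ s, g c F s = 0 := by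
      intro s; unfold g
      exact Finset.sum_eq_zero fun k _ => by rw [hc k, zero_mul]
    have : A = 0 := by rw [hA]; exact Finset.sum_eq_zero fun s _ => by rw [hg s]; simp
    rw [this, ← h0]; simp
  · let w : Fin (r + 1) → (Fin (r + 1) → κ) → ℂ := fun i f => conj (c (f i)) * G c F i f
    have hw : ∀ i f, conj (w i f) = c (f i) * conj (G c F i f) := by
      intro i f; simp [w]
    let v : (Fin (r + 1) → κ) → ℂ := fun f => (C : ℂ) * F f - ∑ i, w i f
    have key : ∑ f, v f * conj (v f) = (C : ℂ) * ((C : ℂ) * D - ((r : ℂ) + 1) * A) := by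
      have e1 : ∀ f, v f * conj (v f) = (C : ℂ) ^ 2 * (F f * conj (F f)) -
          (C : ℂ) * ∑ i, F f * conj (w i f) - (C : ℂ) * ∑ i, conj (F f * conj (w i f)) +
          ∑ i, ∑ j, w i f * conj (w j f) := by
        intro f
        have : conj (v f) = (C : ℂ) * conj (F f) - ∑ i, conj (w i f) := by
          simp [v, map_sub, map_mul, map_sum, Complex.conj_ofReal]
        rw [this]
        simp only [v, map_mul, Complex.conj_conj, ← Finset.mul_sum, ← Finset.sum_mul]
        ring
      rw [Finset.sum_congr rfl fun f _ => e1 f, Finset.sum_add_distrib, Finset.sum_sub_distrib,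
        Finset.sum_sub_distrib, ← Finset.mul_sum, ← Finset.mul_sum, ← Finset.mul_sum, hDc]
      have e2 : ∑ f, ∑ i, F f * conj (w i f) = ((r : ℂ) + 1) * A := by
        rw [Finset.sum_comm]
        rw [Finset.sum_congr rfl fun i _ => (show ∑ f, F f * conj (w i f) = (A : ℂ) by
          rw [← hAc, ← Y_eq c F hF i]
          exact Finset.sum_congr rfl fun f _ => by rw [hw])]
        simp
      have e3 : ∑ f, ∑ i, conj (F f * conj (w i f)) = ((r : ℂ) + 1) * A := by
        have : ∑ f, ∑ i, conj (F f * conj (w i f)) = conj (∑ f, ∑ i, F f * conj (w i f)) := by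
          simp only [map_sum]
        rw [this, e2]
        simp [Complex.conj_ofReal]
      have e4 : ∑ f, ∑ i, ∑ j, w i f * conj (w j f) = ((r : ℂ) + 1) * ((C : ℂ) * A) := by
        rw [Finset.sum_comm]
        have : ∀ i : Fin (r + 1), ∑ f, ∑ j, w i f * conj (w j f) = (C : ℂ) * A := by
          intro i
          rw [Finset.sum_comm, Finset.sum_eq_single i]
          · rw [← hCc, ← hAc, ← Z_same c F hF i]
            exact Finset.sum_congr rfl fun f _ => by rw [hw]
          · intro j _ hj
            rw [← Z_diff c F hF i j hj.symm]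
            exact Finset.sum_congr rfl fun f _ => by rw [hw]
          · intro h; exact absurd (Finset.mem_univ _) h
        rw [Finset.sum_congr rfl fun i _ => this i]
        simp
      rw [e2, e3, e4]
      ring
    have h1 : 0 ≤ ∑ f, ‖v f‖ ^ 2 := Finset.sum_nonneg fun _ _ => sq_nonneg _
    have h2 : ((∑ f, ‖v f‖ ^ 2 : ℝ) : ℂ) = ((C * (C * D - ((r : ℝ) + 1) * A) : ℝ) : ℂ) := by
      push_cast
      rw [← key]
      refine Finset.sum_congr rfl fun s _ => ?_
      rw [Complex.mul_conj, Complex.normSq_eq_norm_sq]; push_cast; rfl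
    have h3 : ∑ f, ‖v f‖ ^ 2 = C * (C * D - ((r : ℝ) + 1) * A) := by exact_mod_cast h2
    rw [h3] at h1
    have h4 := nonneg_of_mul_nonneg_right h1 hpos
    linarith

end A1aux

theorem A1 : S_A1 := by
  intro κ _ r l c d
  let F : (Fin (r + 1) → κ) → ℂ := fun f => (∏ i, d (f i)) * (dt l f : ℂ)
  have hF : A1aux.Anti F := by
    intro σ f
    simp only [F, Function.comp_apply]
    rw [Equiv.prod_comp σ (fun i => d (f i))]
    have : dt l (f ∘ σ) = (Equiv.Perm.sign σ : ℤ) * dt l f := by
      unfold dt
      rw [← Matrix.det_permute σ]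
      rfl
    rw [this]
    push_cast
    ring
  have h := A1aux.main F hF c
  refine le_trans (le_of_eq ?_) (le_trans h (le_of_eq ?_))
  · congr 1
    unfold QS A1aux.g
    refine Finset.sum_congr rfl fun s _ => ?_
    have e1 : ∑ k, c k * F (Fin.cons k s) =
        (∏ i, d (s i)) * ∑ k, c k * d k * (dc l s (l k) : ℂ) := by
      rw [Finset.mul_sum]
      refine Finset.sum_congr rfl fun k _ => ?_
      have e2 : dt l (Fin.cons k s : Fin (r + 1) → κ) = dc l s (l k) := by
        unfold dt dc
        congr 1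
        ext i j
        refine Fin.cases ?_ (fun i => ?_) i
        · simp
        · simp
      simp only [F]
      rw [e2, Fin.prod_univ_succ]
      simp only [Fin.cons_zero, Fin.cons_succ]
      ring
    rw [e1, norm_mul, mul_pow, norm_prod, ← Finset.prod_pow]
  · congr 1
    unfold DS
    refine Finset.sum_congr rfl fun f _ => ?_
    simp only [F]
    rw [norm_mul, mul_pow, norm_prod, ← Finset.prod_pow, Complex.norm_real, Real.norm_eq_abs,
      sq_abs]

end H712MA
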