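import Pool.Agent.H712R2.MA.Stm

set_option autoImplicit false

noncomputable section

open MeasureTheory Filter Topology
open scoped BigOperators Matrix ENNReal

namespace H712MA

theorem A2_dt_comp {κ : Type} {n : ℕ} (l : κ → Fin n → ℝ) (f : Fin n → κ)
    (σ : Equiv.Perm (Fin n)) :
    dt l (f ∘ σ) = ((Equiv.Perm.sign σ : ℤ) : ℝ) * dt l f :=
  Matrix.det_permute σ (Matrix.of fun i j => l (f i) j)

theorem A2_dt_cons {κ : Type} {r : ℕ} (l : κ → Fin (r + 1) → ℝ) (k : κ) (s : Fin r → κ) :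
    dt l (Fin.cons k s : Fin (r + 1) → κ) = dc l s (l k) := by
  unfold dt dc
  congr 1
  ext i j
  refine Fin.cases ?_ (fun i => ?_) i <;> simp

theorem A2_sum_cons {κ : Type} [Fintype κ] {r : ℕ} (F : (Fin (r + 1) → κ) → ℝ) :
    ∑ f, F f = ∑ s : Fin r → κ, ∑ k, F (Fin.cons k s : Fin (r + 1) → κ) := by
  rw [← (Fin.consEquiv (fun _ => κ)).sum_comp, Fintype.sum_prod_type, Finset.sum_comm]
  rfl

/-- the matrix with rows `l (f i)` -/
def A2_M {κ : Type} {n : ℕ} (l : κ → Fin n → ℝ) (f : Fin n → κ) : Matrix (Fin n) (Fin n) ℝ :=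
  Matrix.of fun i j => l (f i) j

theorem A2_cramer {n : ℕ} (M : Matrix (Fin n) (Fin n) ℝ) (v w : Fin n → ℝ) :
    ∑ i, (M.updateRow i v).det * (M i ⬝ᵥ w) = M.det * (v ⬝ᵥ w) := by
  have h := Matrix.mulVec_cramer Mᵀ v
  have h1 : ∀ j, ∑ i, (M.updateRow i v).det * M i j = M.det * v j := by
    intro j
    have h2 := congrFun h j
    rw [Matrix.det_transpose] at h2
    simp only [Matrix.mulVec, dotProduct, Matrix.transpose_apply, Pi.smul_apply, smul_eq_mul] at h2
    rw [← h2]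
    refine Finset.sum_congr rfl fun i _ => ?_
    rw [Matrix.cramer_transpose_apply]
    ring
  simp only [dotProduct]
  rw [Finset.mul_sum]
  have h3 : ∀ i, (M.updateRow i v).det * ∑ j, M i j * w j =
      ∑ j, (M.updateRow i v).det * M i j * w j := by
    intro i
    rw [Finset.mul_sum]
    refine Finset.sum_congr rfl fun j _ => ?_
    ring
  rw [Finset.sum_congr rfl (fun i _ => h3 i), Finset.sum_comm]
  refine Finset.sum_congr rfl fun j _ => ?_
  rw [← Finset.sum_mul, h1 j]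
  ring

theorem A2_update {κ : Type} {r : ℕ} (l : κ → Fin (r + 1) → ℝ) (f : Fin (r + 1) → κ)
    (i : Fin (r + 1)) (v : Fin (r + 1) → ℝ) :
    ((A2_M l (f ∘ Equiv.swap 0 i)).updateRow i v).det =
      ((Equiv.Perm.sign (Equiv.swap (0 : Fin (r + 1)) i) : ℤ) : ℝ) *
        ((A2_M l f).updateRow 0 v).det := by
  have h := Matrix.det_permute (Equiv.swap (0 : Fin (r + 1)) i) ((A2_M l f).updateRow 0 v)
  rw [← h]
  congr 1
  ext a c
  by_cases ha : a = i
  · subst ha
    simp [Matrix.updateRow_apply, Matrix.submatrix]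
  · have h0 : Equiv.swap (0 : Fin (r + 1)) i a ≠ 0 := by
      intro h
      apply ha
      have := congrArg (Equiv.swap (0 : Fin (r + 1)) i) h
      simpa using this
    simp [Matrix.updateRow_apply, Matrix.submatrix, ha, h0, A2_M]

theorem A2_dc {κ : Type} {r : ℕ} (l : κ → Fin (r + 1) → ℝ) (k : κ) (s : Fin r → κ)
    (v : Fin (r + 1) → ℝ) :
    ((A2_M l (Fin.cons k s : Fin (r + 1) → κ)).updateRow 0 v).det = dc l s v := by
  unfold dc
  congr 1
  ext i j
  refine Fin.cases ?_ (fun i => ?_) i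
  · simp [Matrix.updateRow_apply]
  · simp [Matrix.updateRow_apply, A2_M, Fin.succ_ne_zero]

theorem A2 : S_A2 := by
  classical
  intro κ _ r l a v w
  have h1 : (v ⬝ᵥ w) * DS l a = ∑ i : Fin (r + 1), ∑ f : Fin (r + 1) → κ,
      (∏ j, a (f j)) * dt l f * (((A2_M l f).updateRow i v).det * (l (f i) ⬝ᵥ w)) := by
    unfold DS
    rw [Finset.mul_sum, Finset.sum_comm]
    refine Finset.sum_congr rfl fun f _ => ?_
    rw [← Finset.mul_sum]
    have h := A2_cramer (A2_M l f) v w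
    have e : ∑ i, ((A2_M l f).updateRow i v).det * (l (f i) ⬝ᵥ w) =
        dt l f * (v ⬝ᵥ w) := h
    rw [e]
    ring
  have h2 : ∀ i : Fin (r + 1), ∑ f : Fin (r + 1) → κ,
      (∏ j, a (f j)) * dt l f * (((A2_M l f).updateRow i v).det * (l (f i) ⬝ᵥ w)) =
      ∑ s : Fin r → κ, (∏ i, a (s i)) * dc l s v *
        (∑ k, a k * (l k ⬝ᵥ w) * dc l s (l k)) := by
    intro i
    have e0 : ∑ f : Fin (r + 1) → κ,
      (∏ j, a (f j)) * dt l f * (((A2_M l f).updateRow i v).det * (l (f i) ⬝ᵥ w)) =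
      ∑ f : Fin (r + 1) → κ,
      (∏ j, a (f j)) * dt l f * (((A2_M l f).updateRow 0 v).det * (l (f 0) ⬝ᵥ w)) := by
      rw [← (Equiv.arrowCongr (Equiv.swap 0 i) (Equiv.refl κ)).sum_comp]
      refine Finset.sum_congr rfl fun f _ => ?_
      have e1 : (Equiv.arrowCongr (Equiv.swap 0 i) (Equiv.refl κ)) f = f ∘ (Equiv.swap 0 i) := by
        funext j; simp [Equiv.arrowCongr]
      rw [e1, A2_dt_comp, A2_update]
      have e2 : ∏ j, a ((f ∘ (Equiv.swap 0 i)) j) = ∏ j, a (f j) :=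
        Equiv.prod_comp (Equiv.swap 0 i) (fun j => a (f j))
      rw [e2]
      have e3 : ((Equiv.Perm.sign (Equiv.swap (0 : Fin (r + 1)) i) : ℤ) : ℝ) *
          ((Equiv.Perm.sign (Equiv.swap (0 : Fin (r + 1)) i) : ℤ) : ℝ) = 1 := by
        rcases Int.units_eq_one_or (Equiv.Perm.sign (Equiv.swap (0 : Fin (r + 1)) i)) with h | h <;>
          simp [h]
      have e4 : (f ∘ (Equiv.swap 0 i)) i = f 0 := by simp
      rw [e4]
      linear_combination ((∏ j, a (f j)) * dt l f *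
        (((A2_M l f).updateRow 0 v).det * (l (f 0) ⬝ᵥ w))) * e3
    rw [e0, A2_sum_cons]
    refine Finset.sum_congr rfl fun s _ => ?_
    rw [Finset.mul_sum]
    refine Finset.sum_congr rfl fun k _ => ?_
    rw [A2_dt_cons, A2_dc, Fin.prod_univ_succ]
    simp only [Fin.cons_zero, Fin.cons_succ]
    ring
  rw [h1, Finset.sum_congr rfl (fun i _ => h2 i), Finset.sum_const, Finset.card_univ,
    Fintype.card_fin, nsmul_eq_mul]
  push_cast
  ring

end H712MA
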