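import Pool.Agent.H712R2.MA.Stm

set_option autoImplicit false

noncomputable section

open MeasureTheory Filter Topology
open scoped BigOperators Matrix ENNReal

namespace H712MA

theorem A3_dt_comp {κ : Type} {n : ℕ} (l : κ → Fin n → ℝ) (f : Fin n → κ)
    (σ : Equiv.Perm (Fin n)) :
    dt l (f ∘ σ) = ((Equiv.Perm.sign σ : ℤ) : ℝ) * dt l f := by
  have h := Matrix.det_permute σ (Matrix.of fun i j => l (f i) j)
  exact h

theorem A3_det_expand {κ : Type} [Fintype κ] {n : ℕ} (l : κ → Fin n → ℝ) (a : κ → ℝ) :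
    Matrix.det (∑ k, a k • Matrix.vecMulVec (l k) (l k)) =
      ∑ f : Fin n → κ, (∏ i, a (f i)) * (∏ i, l (f i) i) * dt l f := by
  classical
  have h1 : (∑ k, a k • Matrix.vecMulVec (l k) (l k) : Matrix (Fin n) (Fin n) ℝ) =
      fun i => ∑ k, (a k * l k i) • l k := by
    funext i j
    simp only [Matrix.sum_apply, Finset.sum_apply, Matrix.smul_apply, Matrix.vecMulVec_apply,
      Pi.smul_apply, smul_eq_mul]
    refine Finset.sum_congr rfl fun k _ => ?_
    ring
  rw [h1]
  have h2 := (Matrix.detRowAlternating (R := ℝ) (n := Fin n)).toMultilinearMap.map_sum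
    (fun (i : Fin n) (k : κ) => (a k * l k i) • l k)
  have h3 : Matrix.det (fun i => ∑ k, (a k * l k i) • l k : Matrix (Fin n) (Fin n) ℝ) =
      ∑ f : Fin n → κ, Matrix.det (fun i => (a (f i) * l (f i) i) • l (f i) :
        Matrix (Fin n) (Fin n) ℝ) := h2
  rw [h3]
  refine Finset.sum_congr rfl fun f _ => ?_
  have h4 := (Matrix.detRowAlternating (R := ℝ) (n := Fin n)).toMultilinearMap.map_smul_univ
    (fun i : Fin n => a (f i) * l (f i) i) (fun i => l (f i))
  have h5 : Matrix.det (fun i => (a (f i) * l (f i) i) • l (f i) :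
        Matrix (Fin n) (Fin n) ℝ) = (∏ i, (a (f i) * l (f i) i)) • dt l f := h4
  rw [h5, Finset.prod_mul_distrib, smul_eq_mul]

theorem A3 : S_A3 := by
  classical
  intro κ _ n l a
  rw [A3_det_expand]
  have h1 : ∀ σ : Equiv.Perm (Fin n),
      ∑ f : Fin n → κ, (∏ i, a (f i)) * (∏ i, l (f i) i) * dt l f =
      ∑ f : Fin n → κ, (∏ i, a (f i)) *
        (((Equiv.Perm.sign σ : ℤ) : ℝ) * ∏ i, l (f (σ i)) i) * dt l f := by
    intro σ
    rw [← (Equiv.arrowCongr σ.symm (Equiv.refl κ)).sum_comp]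
    refine Finset.sum_congr rfl fun f _ => ?_
    have e1 : (Equiv.arrowCongr σ.symm (Equiv.refl κ)) f = f ∘ σ := by
      funext i; rfl
    rw [e1, A3_dt_comp]
    have e2 : ∏ i, a ((f ∘ σ) i) = ∏ i, a (f i) := by
      exact Equiv.prod_comp σ (fun i => a (f i))
    rw [e2]
    simp only [Function.comp_apply]
    ring
  have h2 : (n.factorial : ℝ) * ∑ f : Fin n → κ, (∏ i, a (f i)) * (∏ i, l (f i) i) * dt l f =
      ∑ σ : Equiv.Perm (Fin n), ∑ f : Fin n → κ, (∏ i, a (f i)) *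
        (((Equiv.Perm.sign σ : ℤ) : ℝ) * ∏ i, l (f (σ i)) i) * dt l f := by
    rw [← Finset.sum_congr rfl (fun σ _ => h1 σ), Finset.sum_const, Finset.card_univ,
      Fintype.card_perm, Fintype.card_fin, nsmul_eq_mul]
  rw [h2, Finset.sum_comm]
  unfold DS
  refine Finset.sum_congr rfl fun f _ => ?_
  have h3 : dt l f = ∑ σ : Equiv.Perm (Fin n),
      (((Equiv.Perm.sign σ : ℤ) : ℝ) * ∏ i, l (f (σ i)) i) := by
    unfold dt
    rw [Matrix.det_apply']
    rfl
  rw [← Finset.sum_mul, ← Finset.mul_sum, ← h3]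
  ring

end H712MA
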