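import Pool.Agent.H712R2.MA.Stm

set_option autoImplicit false

noncomputable section

open MeasureTheory Filter Topology
open scoped BigOperators Matrix ENNReal

namespace H712MA

theorem A4_dt_comp {κ : Type} {n : ℕ} (l : κ → Fin n → ℝ) (f : Fin n → κ)
    (σ : Equiv.Perm (Fin n)) :
    dt l (f ∘ σ) = ((Equiv.Perm.sign σ : ℤ) : ℝ) * dt l f :=
  Matrix.det_permute σ (Matrix.of fun i j => l (f i) j)

theorem A4_dt_comp_sq {κ : Type} {n : ℕ} (l : κ → Fin n → ℝ) (f : Fin n → κ)
    (σ : Equiv.Perm (Fin n)) :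
    (dt l (f ∘ σ)) ^ 2 = (dt l f) ^ 2 := by
  rw [A4_dt_comp, mul_pow]
  have h : (((Equiv.Perm.sign σ : ℤ) : ℝ)) ^ 2 = 1 := by
    rcases Int.units_eq_one_or (Equiv.Perm.sign σ) with h | h <;> simp [h]
  rw [h, one_mul]

theorem A4_dt_cons {κ : Type} {r : ℕ} (l : κ → Fin (r + 1) → ℝ) (k : κ) (s : Fin r → κ) :
    dt l (Fin.cons k s : Fin (r + 1) → κ) = dc l s (l k) := by
  unfold dt dc
  congr 1
  ext i j
  refine Fin.cases ?_ (fun i => ?_) i <;> simp

theorem A4_sum_cons {κ : Type} [Fintype κ] {r : ℕ} (F : (Fin (r + 1) → κ) → ℝ) :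
    ∑ f, F f = ∑ s : Fin r → κ, ∑ k, F (Fin.cons k s : Fin (r + 1) → κ) := by
  rw [← (Fin.consEquiv (fun _ => κ)).sum_comp, Fintype.sum_prod_type, Finset.sum_comm]
  rfl

theorem A4_one {κ : Type} [Fintype κ] {r : ℕ} (l : κ → Fin (r + 1) → ℝ) (a : κ → ℝ) :
    DS l a = ∑ s : Fin r → κ, (∏ i, a (s i)) * ∑ k, a k * (dc l s (l k)) ^ 2 := by
  unfold DS
  rw [A4_sum_cons]
  refine Finset.sum_congr rfl fun s _ => ?_
  rw [Finset.mul_sum]
  refine Finset.sum_congr rfl fun k _ => ?_
  rw [A4_dt_cons, Fin.prod_univ_succ]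
  simp only [Fin.cons_zero, Fin.cons_succ]
  ring

theorem A4_two {κ : Type} [Fintype κ] {r : ℕ} (l : κ → Fin (r + 1) → ℝ) (s : Fin r → κ) :
    ∃ d : Fin (r + 1) → ℝ, (∀ v, dc l s v = v ⬝ᵥ d) ∧ ∀ i, l (s i) ⬝ᵥ d = 0 := by
  refine ⟨fun j => (-1) ^ (j : ℕ) *
    Matrix.det (Matrix.of fun (i : Fin r) (c : Fin r) => l (s i) (j.succAbove c)), ?_, ?_⟩
  · intro v
    unfold dc
    rw [Matrix.det_succ_row_zero, dotProduct]
    refine Finset.sum_congr rfl fun j _ => ?_
    have h : (Matrix.of (Fin.cons v (fun i => l (s i)) :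
        Fin (r + 1) → Fin (r + 1) → ℝ)).submatrix Fin.succ j.succAbove =
        Matrix.of fun (i : Fin r) (c : Fin r) => l (s i) (j.succAbove c) := by
      ext i c
      simp [Matrix.submatrix]
    rw [h]
    simp only [Matrix.of_apply, Fin.cons_zero]
    ring
  · intro i
    have h : dc l s (l (s i)) = l (s i) ⬝ᵥ (fun j => (-1) ^ (j : ℕ) *
    Matrix.det (Matrix.of fun (i : Fin r) (c : Fin r) => l (s i) (j.succAbove c))) := by
      unfold dc
      rw [Matrix.det_succ_row_zero, dotProduct]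
      refine Finset.sum_congr rfl fun j _ => ?_
      have h : (Matrix.of (Fin.cons (l (s i)) (fun i => l (s i)) :
          Fin (r + 1) → Fin (r + 1) → ℝ)).submatrix Fin.succ j.succAbove =
          Matrix.of fun (i : Fin r) (c : Fin r) => l (s i) (j.succAbove c) := by
        ext i c
        simp [Matrix.submatrix]
      rw [h]
      simp only [Matrix.of_apply, Fin.cons_zero]
      ring
    rw [← h]
    unfold dc
    refine Matrix.det_zero_of_row_eq (i := 0) (j := i.succ) (Fin.succ_ne_zero i).symm ?_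
    ext c
    simp

theorem A4_three {κ : Type} [Fintype κ] {r : ℕ} (l : κ → Fin (r + 1) → ℝ) (a : ℝ → κ → ℝ)
    (a' : κ → ℝ) (t : ℝ) (ha : ∀ k, HasDerivAt (fun t => a t k) (a' k) t) :
    HasDerivAt (fun t => DS l (a t))
      (((r : ℝ) + 1) * ∑ s : Fin r → κ, (∏ i, a t (s i)) * ∑ k, a' k * (dc l s (l k)) ^ 2) t := by
  classical
  have h1 : HasDerivAt (fun t => DS l (a t))
      (∑ f : Fin (r + 1) → κ, (∑ i, (∏ j ∈ Finset.univ.erase i, a t (f j)) * a' (f i)) *
        (dt l f) ^ 2) t := by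
    unfold DS
    refine HasDerivAt.fun_sum fun f _ => ?_
    refine HasDerivAt.mul_const ?_ _
    have := HasDerivAt.fun_finsetProd (u := Finset.univ) (f := fun (i : Fin (r + 1)) t => a t (f i))
      (f' := fun i => a' (f i)) (x := t) (fun i _ => ha (f i))
    simpa [smul_eq_mul] using this
  have h2 : ∑ f : Fin (r + 1) → κ, (∑ i, (∏ j ∈ Finset.univ.erase i, a t (f j)) * a' (f i)) *
        (dt l f) ^ 2 =
      ∑ i : Fin (r + 1), ∑ f : Fin (r + 1) → κ,
        (∏ j ∈ Finset.univ.erase i, a t (f j)) * a' (f i) * (dt l f) ^ 2 := by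
    rw [Finset.sum_comm]
    refine Finset.sum_congr rfl fun f _ => ?_
    rw [Finset.sum_mul]
  have h3 : ∀ i : Fin (r + 1), ∑ f : Fin (r + 1) → κ,
        (∏ j ∈ Finset.univ.erase i, a t (f j)) * a' (f i) * (dt l f) ^ 2 =
      ∑ s : Fin r → κ, (∏ i, a t (s i)) * ∑ k, a' k * (dc l s (l k)) ^ 2 := by
    intro i
    have e0 : ∑ f : Fin (r + 1) → κ,
        (∏ j ∈ Finset.univ.erase i, a t (f j)) * a' (f i) * (dt l f) ^ 2 =
        ∑ f : Fin (r + 1) → κ,
        (∏ j ∈ Finset.univ.erase 0, a t (f j)) * a' (f 0) * (dt l f) ^ 2 := by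
      rw [← (Equiv.arrowCongr (Equiv.swap 0 i) (Equiv.refl κ)).sum_comp]
      refine Finset.sum_congr rfl fun f _ => ?_
      have e1 : (Equiv.arrowCongr (Equiv.swap 0 i) (Equiv.refl κ)) f = f ∘ (Equiv.swap 0 i) := by
        funext j; simp [Equiv.arrowCongr]
      rw [e1, A4_dt_comp_sq]
      have e2 : ∏ j ∈ Finset.univ.erase i, a t ((f ∘ (Equiv.swap 0 i)) j) =
          ∏ j ∈ Finset.univ.erase 0, a t (f j) := by
        refine Finset.prod_bij (fun j _ => Equiv.swap 0 i j) ?_ ?_ ?_ ?_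
        · intro j hj
          simp only [Finset.mem_erase, Finset.mem_univ, and_true] at hj ⊢
          intro h
          apply hj
          have := congrArg (Equiv.swap 0 i) h
          simpa using this
        · intro j _ j' _ h
          exact (Equiv.swap 0 i).injective h
        · intro j hj
          refine ⟨Equiv.swap 0 i j, ?_, by simp⟩
          simp only [Finset.mem_erase, Finset.mem_univ, and_true] at hj ⊢
          intro h
          apply hj
          have := congrArg (Equiv.swap 0 i) h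
          simpa using this
        · intro j _
          rfl
      rw [e2]
      simp
    rw [e0, A4_sum_cons]
    refine Finset.sum_congr rfl fun s _ => ?_
    rw [Finset.mul_sum]
    refine Finset.sum_congr rfl fun k _ => ?_
    rw [A4_dt_cons]
    have e3 : ∏ j ∈ Finset.univ.erase (0 : Fin (r + 1)),
        a t ((Fin.cons k s : Fin (r + 1) → κ) j) = ∏ i, a t (s i) := by
      have e4 : (Finset.univ.erase (0 : Fin (r + 1))) = Finset.univ.map (Fin.succEmb r) := by
        ext j
        simp only [Finset.mem_erase, Finset.mem_univ, and_true, Finset.mem_map, true_and]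
        constructor
        · intro h
          obtain ⟨y, hy⟩ := Fin.exists_succ_eq.mpr h
          exact ⟨y, by simpa using hy⟩
        · rintro ⟨y, rfl⟩
          exact Fin.succ_ne_zero y
      rw [e4, Finset.prod_map]
      simp
    rw [e3]
    simp only [Fin.cons_zero]
    ring
  rw [h2, Finset.sum_congr rfl (fun i _ => h3 i), Finset.sum_const, Finset.card_univ,
    Fintype.card_fin, nsmul_eq_mul] at h1
  push_cast at h1
  exact h1

theorem A4 : S_A4 :=
  ⟨fun _ _ _ l a => A4_one l a, fun _ _ _ l s => A4_two l s,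
    fun _ _ _ l a a' t ha => A4_three l a a' t ha⟩

end H712MA
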