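import Pool.Agent.H712R2.MA.Stm

set_option autoImplicit false

noncomputable section

open MeasureTheory Filter Topology
open scoped BigOperators Matrix ENNReal

namespace H712MA

/-- C0: the integral of a directional derivative of a compactly supported `C^1` function is `0`. -/
theorem C0 : S_C0 := by
  intro n F hF hc v
  have hH : (volume : Measure (E2 n)).IsAddHaarMeasure :=
    Measure.prod.instIsAddHaarMeasure (volume : Measure (Fin n → ℝ)) (volume : Measure (Fin n → ℝ))
  have hcont : Continuous (fun z => fderiv ℝ F z v) :=
    (hF.continuous_fderiv (by norm_num)).clm_apply continuous_const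
  have hcs : HasCompactSupport (fun z => fderiv ℝ F z v) := by
    have := hc.fderiv (𝕜 := ℝ)
    exact this.comp_left (g := fun T : (E2 n) →L[ℝ] ℂ => T v) (by simp)
  have hint : Integrable (fun z => fderiv ℝ F z v) := hcont.integrable_of_hasCompactSupport hcs
  have hint2 : Integrable F := hF.continuous.integrable_of_hasCompactSupport hc
  have key := integral_smul_fderiv_eq_neg_fderiv_smul_of_integrable (μ := (volume : Measure (E2 n)))
    (𝕜 := ℝ) (f := fun _ : E2 n => (1 : ℝ)) (g := F) (v := v)
    (by simp) (by simpa using hint) (by simpa using hint2)
    (by intro x _; exact differentiableAt_const _)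
    (by intro x _; exact (hF.differentiable (by norm_num)) x)
  simpa using key

end H712MA
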