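import Pool.Agent.H712R2.MA.Stm

/-!
Task C1: integration by parts.
-/

set_option autoImplicit false

noncomputable section

open MeasureTheory Filter Topology
open scoped BigOperators Matrix ENNReal

namespace H712MA

namespace C1aux

/-- complex direction `ω d` in phase space -/
def dir {n : ℕ} (d : Fin n → ℝ) (ω : ℂ) : E2 n := (ω.re • d, ω.im • d)

lemma pk_dir {n : ℕ} (v d : Fin n → ℝ) (z : E2 n) (ω : ℂ) (t : ℝ) :
    pk v (z + t • dir d ω) = pk v z + (t : ℂ) * (ω * ((v ⬝ᵥ d : ℝ) : ℂ)) := by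
  apply Complex.ext
  · simp only [pk, dir, Prod.fst_add, Prod.smul_fst, dotProduct_add, dotProduct_smul, smul_eq_mul,
      Complex.add_re, Complex.mul_re, Complex.ofReal_re, Complex.ofReal_im]
    ring
  · simp only [pk, dir, Prod.snd_add, Prod.smul_snd, dotProduct_add, dotProduct_smul, smul_eq_mul,
      Complex.add_im, Complex.mul_im, Complex.mul_re, Complex.ofReal_re, Complex.ofReal_im]
    ring

lemma contDiff_pk {n : ℕ} (v : Fin n → ℝ) : ContDiff ℝ (⊤ : ℕ∞) (pk v) := by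
  have h : pk v = fun z : E2 n => ((v ⬝ᵥ z.1 : ℝ) : ℂ) + ((v ⬝ᵥ z.2 : ℝ) : ℂ) * Complex.I := by
    funext z
    apply Complex.ext <;> simp [pk]
  rw [h]
  have h1 : ContDiff ℝ (⊤ : ℕ∞) (fun z : E2 n => v ⬝ᵥ z.1) := by
    unfold dotProduct
    fun_prop
  have h2 : ContDiff ℝ (⊤ : ℕ∞) (fun z : E2 n => v ⬝ᵥ z.2) := by
    unfold dotProduct
    fun_prop
  exact (Complex.ofRealCLM.contDiff.comp h1).add
    ((Complex.ofRealCLM.contDiff.comp h2).mul contDiff_const)

lemma hasDerivAt_gf (L : Lens) (m : ℕ) {p : ℂ} (hp : p ∈ L.W) :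
    HasDerivAt (gf L m) (gd L m p) p := by
  have h1 : HasDerivAt L.e (deriv L.e p) p :=
    (L.diff.differentiableAt (L.isOpen.mem_nhds hp)).hasDerivAt
  have h2 := h1.pow m
  have h3 : gd L m p = (m : ℂ) * L.e p ^ (m - 1) * deriv L.e p := by
    unfold gd
    rw [if_pos hp]
  rw [h3]
  exact h2

lemma hasDerivAt_gd (L : Lens) (m : ℕ) {p : ℂ} (hp : p ∈ L.W) :
    ∃ g2 : ℂ, HasDerivAt (gd L m) g2 p := by
  have h1 : DifferentiableAt ℂ L.e p := L.diff.differentiableAt (L.isOpen.mem_nhds hp)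
  have h2 : DifferentiableAt ℂ (deriv L.e) p :=
    (L.diff.deriv L.isOpen).differentiableAt (L.isOpen.mem_nhds hp)
  have h3 : DifferentiableAt ℂ (fun p => (m : ℂ) * L.e p ^ (m - 1) * deriv L.e p) p :=
    ((h1.pow (m - 1)).const_mul _).mul h2
  have h4 : gd L m =ᶠ[𝓝 p] (fun p => (m : ℂ) * L.e p ^ (m - 1) * deriv L.e p) := by
    filter_upwards [L.isOpen.mem_nhds hp] with q hq
    unfold gd
    rw [if_pos hq]
  exact ⟨_, (h3.congr_of_eventuallyEq h4).hasDerivAt⟩

/-- derivative of a holomorphic function along a real line -/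
lemma hasDerivAt_line {f : ℂ → ℂ} {f' p : ℂ} (h : HasDerivAt f f' p) (μ : ℂ) :
    HasDerivAt (fun t : ℝ => f (p + (t : ℂ) * μ)) (f' * μ) 0 := by
  have h1 : HasDerivAt (fun t : ℝ => p + (t : ℂ) * μ) μ 0 := by
    have h2 : HasDerivAt (fun t : ℝ => (t : ℂ)) 1 0 := Complex.ofRealCLM.hasDerivAt
    have h3 := (h2.mul_const μ).const_add p
    rw [one_mul] at h3
    exact h3
  have h4 : HasDerivAt f f' ((fun t : ℝ => p + (t : ℂ) * μ) 0) := by
    simpa using h
  exact HasDerivAt.comp (0 : ℝ) h4 h1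

section main

variable {κ : Type} [Fintype κ] {r : ℕ} (L : Lens) (m : ℕ) (l : κ → Fin (r + 1) → ℝ)

/-- `a_s` -/
def as (s : Fin r → κ) (z : E2 (r + 1)) : ℝ := ∏ i, af L m (pk (l (s i)) z)

/-- `∂V` in the direction `d_s` -/
def SS (s : Fin r → κ) (z : E2 (r + 1)) : ℂ :=
  ∑ k, starRingEnd ℂ (gf L m (pk (l k) z)) * gd L m (pk (l k) z) * (dc l s (l k) : ℂ)

/-- `Σ |g'|² (l.d)²` -/
def TT (s : Fin r → κ) (z : E2 (r + 1)) : ℝ :=
  ∑ k, af L m (pk (l k) z) * (dc l s (l k)) ^ 2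

/-- the vector field coefficient -/
def Gs (s : Fin r → κ) (z : E2 (r + 1)) : ℂ := (as L m l s z : ℂ) * starRingEnd ℂ (SS L m l s z)

lemma af_eq (p : ℂ) : (af L m p : ℂ) = gd L m p * starRingEnd ℂ (gd L m p) := by
  unfold af
  rw [Complex.mul_conj, Complex.normSq_eq_norm_sq]

lemma VV_line {s : Fin r → κ} {d : Fin (r + 1) → ℝ} (hd : ∀ v, dc l s v = v ⬝ᵥ d)
    {z : E2 (r + 1)} (hz : z ∈ UU L l) (ω : ℂ) :
    HasDerivAt (fun t : ℝ => VV L m l (z + t • dir d ω)) (2 * (ω * SS L m l s z).re) 0 := by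
  have h1 : ∀ k, HasDerivAt (fun t : ℝ => ‖gf L m (pk (l k) (z + t • dir d ω))‖ ^ 2)
      (2 * (ω * (starRingEnd ℂ (gf L m (pk (l k) z)) * gd L m (pk (l k) z) *
        (dc l s (l k) : ℂ))).re) 0 := by
    intro k
    have h2 := hasDerivAt_line (hasDerivAt_gf L m (hz k)) (ω * ((l k ⬝ᵥ d : ℝ) : ℂ))
    have h3 := h2.norm_sq
    simp only [pk_dir]
    refine h3.congr_deriv ?_
    rw [Complex.inner, hd]
    simp only [Complex.ofReal_zero, zero_mul, add_zero]
    congr 2
    ring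
  unfold VV SS
  have h4 := HasDerivAt.fun_sum (u := Finset.univ) (fun k _ => h1 k)
  refine h4.congr_deriv ?_
  rw [Finset.mul_sum, Complex.re_sum, Finset.mul_sum]

omit [Fintype κ] in
lemma as_line {s : Fin r → κ} {d : Fin (r + 1) → ℝ} (hd0 : ∀ i, l (s i) ⬝ᵥ d = 0)
    (z : E2 (r + 1)) (ω : ℂ) (t : ℝ) : as L m l s (z + t • dir d ω) = as L m l s z := by
  unfold as
  refine Finset.prod_congr rfl fun i _ => ?_
  rw [pk_dir, hd0]
  simp

lemma Gs_line {s : Fin r → κ} {d : Fin (r + 1) → ℝ} (hd : ∀ v, dc l s v = v ⬝ᵥ d)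
    (hd0 : ∀ i, l (s i) ⬝ᵥ d = 0) {z : E2 (r + 1)} (hz : z ∈ UU L l) :
    ∃ Y : ℂ, ∀ ω : ℂ, HasDerivAt (fun t : ℝ => Gs L m l s (z + t • dir d ω))
      ((as L m l s z : ℂ) * (ω * (TT L m l s z : ℂ) + starRingEnd ℂ ω * Y)) 0 := by
  choose g2 hg2 using fun k => hasDerivAt_gd L m (hz k)
  refine ⟨∑ k, gf L m (pk (l k) z) * starRingEnd ℂ (g2 k) * (dc l s (l k) : ℂ) ^ 2, fun ω => ?_⟩
  unfold Gs
  simp only [as_line L m l hd0]
  refine HasDerivAt.const_mul _ ?_
  have h1 : ∀ k, HasDerivAt (fun t : ℝ => starRingEnd ℂ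
      (starRingEnd ℂ (gf L m (pk (l k) (z + t • dir d ω))) * gd L m (pk (l k) (z + t • dir d ω)) *
        (dc l s (l k) : ℂ)))
      (ω * ((af L m (pk (l k) z) * (dc l s (l k)) ^ 2 : ℝ) : ℂ) + starRingEnd ℂ ω *
        (gf L m (pk (l k) z) * starRingEnd ℂ (g2 k) * (dc l s (l k) : ℂ) ^ 2)) 0 := by
    intro k
    have h2 := hasDerivAt_line (hasDerivAt_gf L m (hz k)) (ω * ((l k ⬝ᵥ d : ℝ) : ℂ))
    have h3 := hasDerivAt_line (hg2 k) (ω * ((l k ⬝ᵥ d : ℝ) : ℂ))
    have h4 := (h2.star.mul h3).mul_const (dc l s (l k) : ℂ)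
    have h5 := h4.star
    simp only [pk_dir]
    refine h5.congr_deriv ?_
    simp only [Complex.ofReal_zero, zero_mul, add_zero, Complex.star_def, map_mul, map_add,
      Complex.conj_conj, Complex.conj_ofReal]
    push_cast
    rw [af_eq, hd]
    ring
  unfold SS TT
  simp only [map_sum]
  have h6 := HasDerivAt.fun_sum (u := Finset.univ) (fun k _ => h1 k)
  refine h6.congr_deriv ?_
  rw [Finset.sum_add_distrib]
  push_cast
  rw [Finset.mul_sum, Finset.mul_sum]

/-- derivative of the field in complex directions -/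
lemma F_line {s : Fin r → κ} {d : Fin (r + 1) → ℝ} (hd : ∀ v, dc l s v = v ⬝ᵥ d)
    (hd0 : ∀ i, l (s i) ⬝ᵥ d = 0) {z : E2 (r + 1)} (hz : z ∈ UU L l) {ψ : ℝ → ℝ}
    (hψ : Differentiable ℝ ψ) (c : ℝ) :
    ∃ Y : ℂ, ∀ ω : ℂ, HasDerivAt
      (fun t : ℝ => (ψ (c * VV L m l (z + t • dir d ω)) : ℂ) * Gs L m l s (z + t • dir d ω))
      (((deriv ψ (c * VV L m l z) * (c * (2 * (ω * SS L m l s z).re)) : ℝ) : ℂ) * Gs L m l s z +
        (ψ (c * VV L m l z) : ℂ) *
          ((as L m l s z : ℂ) * (ω * (TT L m l s z : ℂ) + starRingEnd ℂ ω * Y))) 0 := by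
  obtain ⟨Y, hY⟩ := Gs_line L m l hd hd0 hz
  refine ⟨Y, fun ω => ?_⟩
  have h1 := (VV_line L m l hd hz ω).const_mul c
  have h2 : HasDerivAt ψ (deriv ψ (c * VV L m l z))
      ((fun t : ℝ => c * VV L m l (z + t • dir d ω)) 0) := by
    have : (fun t : ℝ => c * VV L m l (z + t • dir d ω)) 0 = c * VV L m l z := by simp
    rw [this]
    exact (hψ _).hasDerivAt
  have h3 := HasDerivAt.comp (0 : ℝ) h2 h1
  have h4 := (h3.ofReal_comp).mul (hY ω)
  refine h4.congr_deriv ?_
  simp only [zero_smul, add_zero, Function.comp_apply]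

omit [Fintype κ] in
lemma contDiffOn_as (hgd : ContDiffOn ℝ (⊤ : ℕ∞) (gd L m) L.W) (s : Fin r → κ) :
    ContDiffOn ℝ (⊤ : ℕ∞) (as L m l s) (UU L l) := by
  unfold as af
  refine contDiffOn_prod fun i _ => ?_
  refine ContDiffOn.norm_sq ℝ ?_
  exact hgd.comp (contDiff_pk _).contDiffOn (fun z hz => hz (s i))

lemma contDiffOn_SS (hgf : ContDiffOn ℝ (⊤ : ℕ∞) (gf L m) L.W)
    (hgd : ContDiffOn ℝ (⊤ : ℕ∞) (gd L m) L.W) (s : Fin r → κ) :
    ContDiffOn ℝ (⊤ : ℕ∞) (SS L m l s) (UU L l) := by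
  unfold SS
  refine ContDiffOn.sum fun k _ => ?_
  have h1 : ContDiffOn ℝ (⊤ : ℕ∞) (fun z : E2 (r + 1) => gf L m (pk (l k) z)) (UU L l) :=
    hgf.comp (contDiff_pk _).contDiffOn (fun z hz => hz k)
  have h2 : ContDiffOn ℝ (⊤ : ℕ∞) (fun z : E2 (r + 1) => gd L m (pk (l k) z)) (UU L l) :=
    hgd.comp (contDiff_pk _).contDiffOn (fun z hz => hz k)
  have h3 : ContDiffOn ℝ (⊤ : ℕ∞)
      (fun z : E2 (r + 1) => starRingEnd ℂ (gf L m (pk (l k) z))) (UU L l) :=
    Complex.conjCLE.contDiff.comp_contDiffOn h1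
  exact (h3.mul h2).mul contDiffOn_const

lemma contDiffOn_TT (hgd : ContDiffOn ℝ (⊤ : ℕ∞) (gd L m) L.W) (s : Fin r → κ) :
    ContDiffOn ℝ (⊤ : ℕ∞) (TT L m l s) (UU L l) := by
  unfold TT af
  refine ContDiffOn.sum fun k _ => ?_
  refine ContDiffOn.mul ?_ contDiffOn_const
  refine ContDiffOn.norm_sq ℝ ?_
  exact hgd.comp (contDiff_pk _).contDiffOn (fun z hz => hz k)

end main

/-- the directional derivatives of a `C¹` function from its restriction to a line -/
lemma fderiv_of_line {n : ℕ} {F : E2 n → ℂ} (hF : ContDiff ℝ 1 F) (z v : E2 n) {F' : ℂ}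
    (h : HasDerivAt (fun t : ℝ => F (z + t • v)) F' 0) : fderiv ℝ F z v = F' := by
  have h1 : HasFDerivAt F (fderiv ℝ F z) z :=
    (hF.differentiable one_ne_zero).differentiableAt.hasFDerivAt
  have h2 : HasDerivAt (fun t : ℝ => z + t • v) v 0 := by
    have h3 := ((hasDerivAt_id (0 : ℝ)).smul_const v).const_add z
    simpa using h3
  have h4 : HasFDerivAt F (fderiv ℝ F z) ((fun t : ℝ => z + t • v) 0) := by
    simpa using h1
  exact (h4.comp_hasDerivAt (0 : ℝ) h2).unique h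

end C1aux

open C1aux in
theorem C1 (hP : S_P) (hC0 : S_C0) (hA4 : S_A4) : S_C1 := by
  intro κ _ r L m hm l hl ψ v1 hψ c hc
  obtain ⟨hUo, -, hV1, hVc, -, hgf, hgd, hcut⟩ := hP κ (r + 1) L m hm l hl
  obtain ⟨hA1, hA2, -⟩ := hA4
  have hψd : Differentiable ℝ ψ := hψ.smooth.differentiable (by simp)
  -- the cut-off function and its derivative vanish far away
  set v2 : ℝ := (v1 + 1) / 2 with hv2
  have hv12 : v1 < v2 := by have := hψ.lt1; rw [hv2]; linarith
  have hv2l : v2 < 1 := by have := hψ.lt1; rw [hv2]; linarith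
  have hψ' : ∀ v, v2 ≤ v → deriv ψ v = 0 := by
    intro v hv
    have h1 : ψ =ᶠ[𝓝 v] fun _ => 0 := by
      filter_upwards [lt_mem_nhds (lt_of_lt_of_le hv12 hv)] with w hw
      exact hψ.zero w hw.le
    rw [h1.deriv_eq]
    simp
  have hψ's : ContDiff ℝ (⊤ : ℕ∞) (deriv ψ) := by
    have := hψ.smooth
    exact ((contDiff_infty_iff_deriv (𝕜 := ℝ)).1 this).2
  -- the integrands
  set A : (Fin r → κ) → E2 (r + 1) → ℂ := fun s z => ((deriv ψ (c * VV L m l z) : ℝ) : ℂ) *
    ((as L m l s z : ℂ) * (SS L m l s z * starRingEnd ℂ (SS L m l s z))) with hA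
  set B : (Fin r → κ) → E2 (r + 1) → ℂ := fun s z => (ψ (c * VV L m l z) : ℂ) *
    ((as L m l s z : ℂ) * (TT L m l s z : ℂ)) with hB
  have hofR : ∀ {f : E2 (r + 1) → ℝ}, ContDiffOn ℝ (⊤ : ℕ∞) f (UU L l) →
      ContDiffOn ℝ (⊤ : ℕ∞) (fun z => (f z : ℂ)) (UU L l) := fun hf =>
    Complex.ofRealCLM.contDiff.comp_contDiffOn hf
  have hconj : ∀ {f : E2 (r + 1) → ℂ}, ContDiffOn ℝ (⊤ : ℕ∞) f (UU L l) →
      ContDiffOn ℝ (⊤ : ℕ∞) (fun z => starRingEnd ℂ (f z)) (UU L l) := fun hf =>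
    Complex.conjCLE.contDiff.comp_contDiffOn hf
  have hAi : ∀ s, Integrable (A s) := by
    intro s
    obtain ⟨h1, h2⟩ := hcut (deriv ψ) v2 hψ's hv2l hψ' c hc
      (fun z => (as L m l s z : ℂ) * (SS L m l s z * starRingEnd ℂ (SS L m l s z)))
      ((hofR (contDiffOn_as L m l hgd s)).mul ((contDiffOn_SS L m l hgf hgd s).mul
        (hconj (contDiffOn_SS L m l hgf hgd s))))
    exact h1.continuous.integrable_of_hasCompactSupport h2
  have hBi : ∀ s, Integrable (B s) := by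
    intro s
    obtain ⟨h1, h2⟩ := hcut ψ v1 hψ.smooth hψ.lt1 hψ.zero c hc
      (fun z => (as L m l s z : ℂ) * (TT L m l s z : ℂ))
      ((hofR (contDiffOn_as L m l hgd s)).mul (hofR (contDiffOn_TT L m l hgd s)))
    exact h1.continuous.integrable_of_hasCompactSupport h2
  -- the basic identity
  have key : ∀ s, (∫ z, B s z) = - (c : ℂ) * ∫ z, A s z := by
    intro s
    obtain ⟨d, hd, hd0⟩ := hA2 κ r l s
    obtain ⟨h1, h2⟩ := hcut ψ v1 hψ.smooth hψ.lt1 hψ.zero c hc (fun z => Gs L m l s z)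
      ((hofR (contDiffOn_as L m l hgd s)).mul (hconj (contDiffOn_SS L m l hgf hgd s)))
    set F : E2 (r + 1) → ℂ := fun z => (ψ (c * VV L m l z) : ℂ) * Gs L m l s z with hF
    have hF1 : ContDiff ℝ 1 F := h1.of_le (by simp)
    have hpt : ∀ z, fderiv ℝ F z (dir d 1) - Complex.I * fderiv ℝ F z (dir d Complex.I) =
        2 * ((c : ℂ) * A s z + B s z) := by
      intro z
      by_cases hz : z ∈ UU L l
      · obtain ⟨Y, hY⟩ := F_line L m l hd hd0 hz hψd c
        rw [fderiv_of_line hF1 z (dir d 1) (hY 1),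
          fderiv_of_line hF1 z (dir d Complex.I) (hY Complex.I)]
        simp only [hA, hB, Gs]
        have e1 : ∀ S : ℂ, (((1 : ℂ) * S).re : ℂ) - Complex.I * ((Complex.I * S).re : ℂ) = S := by
          intro S
          apply Complex.ext <;> simp
        have e2 := e1 (SS L m l s z)
        generalize ((1 : ℂ) * SS L m l s z).re = x1 at e2 ⊢
        generalize (Complex.I * SS L m l s z).re = x2 at e2 ⊢
        push_cast
        rw [Complex.conj_I, map_one]
        have hI : Complex.I * Complex.I = -1 := Complex.I_mul_I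
        linear_combination (2 * (c : ℂ) * ((deriv ψ (c * VV L m l z) : ℝ) : ℂ) *
          (as L m l s z : ℂ) * starRingEnd ℂ (SS L m l s z)) * e2 +
          ((ψ (c * VV L m l z) : ℂ) * (as L m l s z : ℂ) * (Y - (TT L m l s z : ℂ))) * hI
      · have hV := hV1 z hz
        have hcV : v2 < c * VV L m l z := by nlinarith
        have h3 : F =ᶠ[𝓝 z] fun _ => 0 := by
          have hcont : ContinuousAt (fun z => c * VV L m l z) z :=
            (hVc.continuousAt).const_mul c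
          filter_upwards [hcont.eventually (lt_mem_nhds hcV)] with w hw
          simp only [hF]
          rw [hψ.zero _ (hv12.trans hw).le]
          simp
        have h4 : fderiv ℝ F z = 0 := by
          rw [h3.fderiv_eq]
          simp
        simp only [hA, hB]
        rw [h4, hψ' _ hcV.le, hψ.zero _ (hv12.trans hcV).le]
        simp
    have hint : ∀ v : E2 (r + 1), Integrable (fun z => fderiv ℝ F z v) := fun v =>
      ((hF1.continuous_fderiv one_ne_zero).clm_apply continuous_const).integrable_of_hasCompactSupport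
        (h2.fderiv_apply (𝕜 := ℝ) v)
    have h5 : ∫ z, 2 * ((c : ℂ) * A s z + B s z) = 0 := by
      rw [← integral_congr_ae (Filter.Eventually.of_forall hpt)]
      rw [integral_sub (hint _) ((hint _).const_mul _), integral_const_mul,
        hC0 (r + 1) F hF1 h2, hC0 (r + 1) F hF1 h2]
      simp
    rw [integral_const_mul, integral_add ((hAi s).const_mul _) (hBi s), integral_const_mul] at h5
    have h6 : (c : ℂ) * (∫ z, A s z) + ∫ z, B s z = 0 := by
      rcases mul_eq_zero.1 h5 with h | h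
      · norm_num at h
      · exact h
    linear_combination h6
  -- sum over s
  have hsB : ∀ z, ((ψ (c * VV L m l z) * DS l (fun k => af L m (pk (l k) z)) : ℝ) : ℂ) =
      ∑ s, B s z := by
    intro z
    rw [hA1]
    simp only [hB, as, TT]
    push_cast
    rw [Finset.mul_sum]
  have hsA : ∀ z, ((deriv ψ (c * VV L m l z) * QS l (fun k => af L m (pk (l k) z))
      (fun k => starRingEnd ℂ (gf L m (pk (l k) z)) * gd L m (pk (l k) z)) : ℝ) : ℂ) =
      ∑ s, A s z := by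
    intro z
    unfold QS
    simp only [hA, as, SS]
    push_cast
    rw [Finset.mul_sum]
    refine Finset.sum_congr rfl fun s _ => ?_
    rw [Complex.mul_conj, Complex.normSq_eq_norm_sq]
    push_cast
    rfl
  have hfin : ((∫ z : E2 (r + 1), ψ (c * VV L m l z) * DS l (fun k => af L m (pk (l k) z)) : ℝ) : ℂ) =
      ((- c * ∫ z : E2 (r + 1), deriv ψ (c * VV L m l z) *
        QS l (fun k => af L m (pk (l k) z))
          (fun k => starRingEnd ℂ (gf L m (pk (l k) z)) * gd L m (pk (l k) z)) : ℝ) : ℂ) := by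
    rw [← integral_complex_ofReal, integral_congr_ae (Filter.Eventually.of_forall hsB),
      integral_finsetSum _ (fun s _ => hBi s)]
    push_cast
    rw [← integral_complex_ofReal, integral_congr_ae (Filter.Eventually.of_forall hsA),
      integral_finsetSum _ (fun s _ => hAi s), Finset.mul_sum]
    refine Finset.sum_congr rfl fun s _ => ?_
    rw [key s]
  exact Complex.ofReal_injective hfin

end H712MA
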