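import Pool.Agent.H712R2.MA.Stm

/-!
Task C2: `N(c) = c^n ∫ ψ(cV) D` is antitone on `[1, ∞)`.
-/

set_option autoImplicit false

noncomputable section

open MeasureTheory Filter Topology
open scoped BigOperators Matrix ENNReal

namespace H712MA

namespace C2aux

lemma integ_of {n : ℕ} {K : Set (E2 n)} (hK : IsCompact K) {f : E2 n → ℝ}
    (hf : ContinuousOn f K) (h0 : ∀ z, z ∉ K → f z = 0) : Integrable f := by
  have h1 : f = K.indicator f := by
    ext z
    by_cases hz : z ∈ K
    · simp [hz]
    · simp [hz, h0 z hz]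
  rw [h1, integrable_indicator_iff hK.measurableSet]
  exact hf.integrableOn_compact hK

lemma deriv_zero_of {ψ : ℝ → ℝ} {v1 : ℝ} (h : ∀ v, v1 ≤ v → ψ v = 0) {v : ℝ} (hv : v1 < v) :
    deriv ψ v = 0 := by
  have h1 : ψ =ᶠ[𝓝 v] (fun _ => (0 : ℝ)) := by
    filter_upwards [lt_mem_nhds hv] with w hw
    exact h w hw.le
  rw [h1.deriv_eq]
  simp

lemma continuous_pk {n : ℕ} (v : Fin n → ℝ) : Continuous (pk v) := by
  have h1 : pk v = fun z : E2 n => ((v ⬝ᵥ z.1 : ℝ) : ℂ) + ((v ⬝ᵥ z.2 : ℝ) : ℂ) * Complex.I := by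
    ext z
    simp only [pk]
    rw [Complex.mk_eq_add_mul_I]
  rw [h1]
  have h2 : Continuous fun z : E2 n => v ⬝ᵥ z.1 := by
    unfold dotProduct
    fun_prop
  have h3 : Continuous fun z : E2 n => v ⬝ᵥ z.2 := by
    unfold dotProduct
    fun_prop
  fun_prop

end C2aux

open C2aux

theorem C2 (hP : S_P) (hC1 : S_C1) (hA1 : S_A1) : S_C2 := by
  intro κ _ r L m hm l hl ψ v1 hψ c c' hc hcc
  obtain ⟨hUo, hKc, hoff, hVc, -, hgf, hgd, -⟩ := hP κ (r + 1) L m hm l hl
  set V : E2 (r + 1) → ℝ := VV L m l with hV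
  set D : E2 (r + 1) → ℝ := fun z => DS l (fun k => af L m (pk (l k) z)) with hD
  set Q : E2 (r + 1) → ℝ := fun z => QS l (fun k => af L m (pk (l k) z))
          (fun k => starRingEnd ℂ (gf L m (pk (l k) z)) * gd L m (pk (l k) z)) with hQ
  set K : Set (E2 (r + 1)) := {z | V z ≤ v1} with hKdef
  have hK : IsCompact K := hKc v1 hψ.lt1
  have hKU : K ⊆ UU L l := by
    intro z hz
    by_contra h
    have := hoff z h
    have h2 := hψ.lt1
    have h3 : V z ≤ v1 := hz
    linarith
  have hV0 : ∀ z, 0 ≤ V z := by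
    intro z
    simp only [hV, VV]
    positivity
  -- continuity on `K`
  have hpkW : ∀ k, Set.MapsTo (pk (l k)) K L.W := fun k z hz => hKU hz k
  have hgdK : ∀ k, ContinuousOn (fun z => gd L m (pk (l k) z)) K := fun k =>
    hgd.continuousOn.comp (continuous_pk (l k)).continuousOn (hpkW k)
  have hgfK : ∀ k, ContinuousOn (fun z => gf L m (pk (l k) z)) K := fun k =>
    hgf.continuousOn.comp (continuous_pk (l k)).continuousOn (hpkW k)
  have hafK : ∀ k, ContinuousOn (fun z => af L m (pk (l k) z)) K := by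
    intro k
    unfold af
    exact (hgdK k).norm.pow 2
  have hDK : ContinuousOn D K := by
    simp only [hD, DS]
    refine continuousOn_finsetSum _ fun f _ => ?_
    refine ContinuousOn.mul ?_ continuousOn_const
    exact continuousOn_finsetProd _ fun i _ => hafK (f i)
  have hQK : ContinuousOn Q K := by
    simp only [hQ, QS]
    refine continuousOn_finsetSum _ fun s _ => ?_
    refine ContinuousOn.mul ?_ ?_
    · exact continuousOn_finsetProd _ fun i _ => hafK (s i)
    · refine (ContinuousOn.norm ?_).pow 2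
      refine continuousOn_finsetSum _ fun k _ => ?_
      refine ContinuousOn.mul ?_ continuousOn_const
      exact (Complex.continuous_conj.comp_continuousOn (hgfK k)).mul (hgdK k)
  have hVK : ContinuousOn V K := hVc.continuousOn
  -- the cut-off and its derivative
  have hψc : Continuous ψ := hψ.smooth.continuous
  have hψd : Differentiable ℝ ψ := hψ.smooth.differentiable (by simp)
  have hψ'c : Continuous (deriv ψ) := hψ.smooth.continuous_deriv (by simp)
  have hψ'neg : ∀ v, deriv ψ v ≤ 0 := fun v => hψ.anti.deriv_nonpos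
  obtain ⟨M, hM⟩ := (isCompact_Icc (a := (0 : ℝ)) (b := v1)).exists_bound_of_continuousOn
    hψ'c.continuousOn
  have hM0 : 0 ≤ M := le_trans (norm_nonneg _) (hM 0 ⟨le_rfl, hψ.pos1.le⟩)
  have hbig : ∀ x : ℝ, 1 ≤ x → ∀ z, z ∉ K → v1 < x * V z := by
    intro x hx z hz
    have h1 : v1 < V z := not_le.1 hz
    nlinarith [hV0 z]
  have hzero : ∀ x : ℝ, 1 ≤ x → ∀ z, z ∉ K → ψ (x * V z) = 0 := fun x hx z hz =>
    hψ.zero _ (hbig x hx z hz).le
  have hzero' : ∀ x : ℝ, 1 ≤ x → ∀ z, z ∉ K → deriv ψ (x * V z) = 0 := fun x hx z hz =>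
    deriv_zero_of hψ.zero (hbig x hx z hz)
  have hFint : ∀ x : ℝ, 1 ≤ x → Integrable (fun z => ψ (x * V z) * D z) := by
    intro x hx
    refine integ_of hK ?_ ?_
    · exact (hψc.comp_continuousOn (continuousOn_const.mul hVK)).mul hDK
    · intro z hz
      rw [hzero x hx z hz, zero_mul]
  have hF'int : ∀ x : ℝ, 1 ≤ x → Integrable (fun z => deriv ψ (x * V z) * V z * D z) := by
    intro x hx
    refine integ_of hK ?_ ?_
    · exact ((hψ'c.comp_continuousOn (continuousOn_const.mul hVK)).mul hVK).mul hDK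
    · intro z hz
      rw [hzero' x hx z hz]
      ring
  have hQint : ∀ x : ℝ, 1 ≤ x → Integrable (fun z => deriv ψ (x * V z) * Q z) := by
    intro x hx
    refine integ_of hK ?_ ?_
    · exact (hψ'c.comp_continuousOn (continuousOn_const.mul hVK)).mul hQK
    · intro z hz
      rw [hzero' x hx z hz]
      ring
  -- bounds
  have hb0 : Integrable (K.indicator fun z => ψ 0 * ‖D z‖) := by
    rw [integrable_indicator_iff hK.measurableSet]
    exact (continuousOn_const.mul hDK.norm).integrableOn_compact hK
  have hb1 : Integrable (K.indicator fun z => M * ‖V z * D z‖) := by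
    rw [integrable_indicator_iff hK.measurableSet]
    exact (continuousOn_const.mul (hVK.mul hDK).norm).integrableOn_compact hK
  set I : ℝ → ℝ := fun x => ∫ z, ψ (x * V z) * D z with hI
  have hIcont : ContinuousOn I (Set.Ici 1) := by
    refine continuousOn_of_dominated (bound := K.indicator fun z => ψ 0 * ‖D z‖) ?_ ?_ hb0 ?_
    · intro x hx
      exact (hFint x hx).aestronglyMeasurable
    · intro x hx
      refine Eventually.of_forall fun z => ?_
      have hx1 : (1 : ℝ) ≤ x := hx
      by_cases hz : z ∈ K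
      · rw [Set.indicator_of_mem hz, norm_mul]
        refine mul_le_mul_of_nonneg_right ?_ (norm_nonneg _)
        rw [Real.norm_of_nonneg (hψ.nonneg _)]
        exact hψ.anti (mul_nonneg (by linarith) (hV0 z))
      · rw [Set.indicator_of_notMem hz, hzero x hx1 z hz]
        simp
    · refine Eventually.of_forall fun z => ?_
      exact (hψc.comp (continuous_id.mul continuous_const)).continuousOn.mul continuousOn_const
  have hIder : ∀ x : ℝ, 1 < x → HasDerivAt I (∫ z, deriv ψ (x * V z) * V z * D z) x := by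
    intro x hx
    refine (hasDerivAt_integral_of_dominated_loc_of_deriv_le
      (F := fun x z => ψ (x * V z) * D z) (F' := fun x z => deriv ψ (x * V z) * V z * D z)
      (bound := K.indicator fun z => M * ‖V z * D z‖) (s := Set.Ioi 1)
      (Ioi_mem_nhds hx) ?_ (hFint x hx.le) (hF'int x hx.le).aestronglyMeasurable ?_ hb1 ?_).2
    · filter_upwards [Ioi_mem_nhds hx] with y hy
      exact (hFint y (le_of_lt hy)).aestronglyMeasurable
    · refine Eventually.of_forall fun z => ?_
      intro y hy
      have hy1 : (1 : ℝ) ≤ y := le_of_lt hy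
      by_cases hz : z ∈ K
      · rw [Set.indicator_of_mem hz, mul_assoc, norm_mul]
        refine mul_le_mul_of_nonneg_right ?_ (norm_nonneg _)
        by_cases h : y * V z ≤ v1
        · exact hM _ ⟨mul_nonneg (by linarith) (hV0 z), h⟩
        · rw [deriv_zero_of hψ.zero (not_le.1 h)]
          simpa using hM0
      · rw [Set.indicator_of_notMem hz, hzero' y hy1 z hz]
        simp
    · refine Eventually.of_forall fun z => ?_
      intro y _
      have h1 : HasDerivAt (fun y : ℝ => y * V z) (V z) y := by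
        simpa using (hasDerivAt_id y).mul_const (V z)
      have h2 : HasDerivAt (fun y : ℝ => ψ (y * V z)) (deriv ψ (y * V z) * V z) y :=
        ((hψd (y * V z)).hasDerivAt).comp y h1
      exact h2.mul_const (D z)
  have hN : ∀ x, NN ψ L m l x = x ^ (r + 1) * I x := fun x => rfl
  have hanti : AntitoneOn (fun x : ℝ => x ^ (r + 1) * I x) (Set.Ici 1) := by
    have hder : ∀ x : ℝ, 1 < x → HasDerivAt (fun x : ℝ => x ^ (r + 1) * I x)
        (((r + 1 : ℕ) : ℝ) * x ^ r * I x + x ^ (r + 1) *
          ∫ z, deriv ψ (x * V z) * V z * D z) x := by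
      intro x hx
      have h1 : HasDerivAt (fun x : ℝ => x ^ (r + 1)) (((r + 1 : ℕ) : ℝ) * x ^ r) x := by
        simpa using hasDerivAt_pow (r + 1) x
      exact h1.mul (hIder x hx)
    refine antitoneOn_of_deriv_nonpos (convex_Ici 1) ?_ ?_ ?_
    · exact (continuousOn_id.pow _).mul hIcont
    · intro x hx
      rw [interior_Ici] at hx
      exact (hder x hx).differentiableAt.differentiableWithinAt
    · intro x hx
      rw [interior_Ici] at hx
      have hx1 : (1 : ℝ) < x := hx
      rw [(hder x hx).deriv]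
      have hx0 : (0 : ℝ) < x := by linarith
      have e1 : I x = -x * ∫ z, deriv ψ (x * V z) * Q z :=
        hC1 κ r L m hm l hl ψ v1 hψ x hx1.le
      have e2 : ∫ z, deriv ψ (x * V z) * V z * D z ≤
          ((r : ℝ) + 1) * ∫ z, deriv ψ (x * V z) * Q z := by
        rw [← integral_const_mul]
        refine integral_mono (hF'int x hx1.le) ((hQint x hx1.le).const_mul _) ?_
        intro z
        have h3 : ((r : ℝ) + 1) * Q z ≤ V z * D z := by
          have h4 := hA1 κ r l (fun k => starRingEnd ℂ (gf L m (pk (l k) z)))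
            (fun k => gd L m (pk (l k) z))
          have h5 : ∑ k, ‖starRingEnd ℂ (gf L m (pk (l k) z))‖ ^ 2 = V z := by
            simp only [hV, VV]
            refine Finset.sum_congr rfl fun k _ => ?_
            rw [Complex.norm_conj]
          rw [h5] at h4
          exact h4
        have h6 := hψ'neg (x * V z)
        show deriv ψ (x * V z) * V z * D z ≤ ((r : ℝ) + 1) * (deriv ψ (x * V z) * Q z)
        nlinarith
      rw [e1]
      have h7 : (0 : ℝ) < x ^ (r + 1) := by positivity
      have h8 : ((r + 1 : ℕ) : ℝ) * x ^ r * (-x * ∫ z, deriv ψ (x * V z) * Q z) =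
          - (x ^ (r + 1) * (((r : ℝ) + 1) * ∫ z, deriv ψ (x * V z) * Q z)) := by
        push_cast
        ring
      rw [h8]
      have h9 := mul_le_mul_of_nonneg_left e2 h7.le
      linarith
  rw [hN, hN]
  exact hanti (show c ∈ Set.Ici (1 : ℝ) from hc) (show c' ∈ Set.Ici (1 : ℝ) from hc.trans hcc) hcc

end H712MA
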