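import Pool.Agent.H712R2.MA.Stm

/-!
Task C3: the limit `c → ∞`.
-/

set_option autoImplicit false
set_option linter.unusedSectionVars false
set_option linter.unusedSimpArgs false

noncomputable section

open MeasureTheory Filter Topology
open scoped BigOperators Matrix ENNReal

namespace H712MA

namespace C3

variable {κ : Type} [Fintype κ]

theorem pk_smul {n : ℕ} (v : Fin n → ℝ) (t : ℝ) (z : E2 n) : pk v (t • z) = (t : ℂ) * pk v z := by
  apply Complex.ext <;> simp [pk]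

theorem DS_smul {n : ℕ} (l : κ → Fin n → ℝ) (a : κ → ℝ) (s : ℝ) :
    DS l (fun k => s * a k) = s ^ n * DS l a := by
  unfold DS
  rw [Finset.mul_sum]
  refine Finset.sum_congr rfl fun f _ => ?_
  rw [Finset.prod_mul_distrib, Finset.prod_const, Finset.card_univ, Fintype.card_fin]
  ring

theorem norm_gf (L : Lens) (m : ℕ) (p : ℂ) : ‖gf L m p‖ ^ 2 = ‖L.e p‖ ^ (2 * m) := by
  unfold gf
  rw [norm_pow, ← pow_mul, mul_comm]

theorem meas_e (L : Lens) : Measurable L.e := by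
  classical
  have h : L.e = L.W.piecewise L.e (fun _ => 1) := by
    funext p
    by_cases hp : p ∈ L.W
    · rw [Set.piecewise_eq_of_mem _ _ _ hp]
    · rw [Set.piecewise_eq_of_notMem _ _ _ hp, L.off p hp]
  rw [h]
  exact ContinuousOn.measurable_piecewise L.diff.continuousOn continuousOn_const
    L.isOpen.measurableSet

theorem meas_gf (L : Lens) (m : ℕ) : Measurable (gf L m) := (meas_e L).pow_const m

theorem meas_gd (L : Lens) (m : ℕ) : Measurable (gd L m) := by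
  unfold gd
  refine Measurable.ite L.isOpen.measurableSet ?_ measurable_const
  exact (measurable_const.mul ((meas_e L).pow_const _)).mul (measurable_deriv _)

theorem cont_pk {n : ℕ} (v : Fin n → ℝ) : Continuous (fun z : E2 n => pk v z) := by
  have h : (fun z : E2 n => pk v z) = fun z : E2 n =>
      ((v ⬝ᵥ z.1 : ℝ) : ℂ) + ((v ⬝ᵥ z.2 : ℝ) : ℂ) * Complex.I := by
    funext z
    apply Complex.ext <;> simp [pk]
  rw [h]
  unfold dotProduct
  fun_prop

theorem meas_VV {n : ℕ} (L : Lens) (m : ℕ) (l : κ → Fin n → ℝ) : Measurable (VV L m l) := by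
  unfold VV
  refine Finset.measurable_sum _ fun k _ => ?_
  exact (((meas_gf L m).comp (cont_pk (l k)).measurable).norm).pow_const 2

theorem meas_DS {n : ℕ} (L : Lens) (m : ℕ) (l : κ → Fin n → ℝ) :
    Measurable (fun z : E2 n => DS l (fun k => af L m (pk (l k) z))) := by
  unfold DS af
  refine Finset.measurable_sum _ fun f _ => ?_
  refine (Finset.measurable_prod _ fun i _ => ?_).mul_const _
  exact (((meas_gd L m).comp (cont_pk (l (f i))).measurable).norm).pow_const 2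

/-- the compact set -/
def KK {n : ℕ} (l : κ → Fin n → ℝ) (f : Fin n → κ) (C : ℝ) : Set (E2 n) :=
  {z | ∀ i, ‖pk (l (f i)) z‖ ≤ C}

theorem compact_KK {n : ℕ} (l : κ → Fin n → ℝ) (f : Fin n → κ) (hf : dt l f ≠ 0) (C : ℝ) :
    IsCompact (KK l f C) := by
  let T : E2 n →ₗ[ℝ] (Fin n → ℂ) :=
    { toFun := fun z i => pk (l (f i)) z
      map_add' := fun z z' => by
        funext i
        apply Complex.ext <;> simp [pk]
      map_smul' := fun t z => by
        funext i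
        rw [Pi.smul_apply, pk_smul]
        simp }
  have hT : LinearMap.ker T = ⊥ := by
    rw [LinearMap.ker_eq_bot']
    intro z hz
    have h1 : ∀ i, l (f i) ⬝ᵥ z.1 = 0 := fun i => by
      have := congrArg Complex.re (congrFun hz i)
      simpa [T, pk] using this
    have h2 : ∀ i, l (f i) ⬝ᵥ z.2 = 0 := fun i => by
      have := congrArg Complex.im (congrFun hz i)
      simpa [T, pk] using this
    have g1 : z.1 = 0 := Matrix.eq_zero_of_mulVec_eq_zero hf (by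
      funext i; exact h1 i)
    have g2 : z.2 = 0 := Matrix.eq_zero_of_mulVec_eq_zero hf (by
      funext i; exact h2 i)
    exact Prod.ext g1 g2
  have hcl := LinearMap.isClosedEmbedding_of_injective hT
  have hK : KK l f C = T ⁻¹' (Set.univ.pi fun _ => Metric.closedBall (0 : ℂ) C) := by
    ext z
    simp [KK, T, Set.mem_univ_pi]
  rw [hK]
  exact hcl.isCompact_preimage (isCompact_univ_pi fun _ => isCompact_closedBall _ _)

/-- the scaling -/
def tt (m : ℕ) (c : ℝ) : ℝ := c ^ (-(1 / (2 * m : ℝ)))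

theorem tt_pos (m : ℕ) {c : ℝ} (hc : 0 < c) : 0 < tt m c := Real.rpow_pos_of_pos hc _

theorem tt_pow (m : ℕ) (hm : 1 ≤ m) {c : ℝ} (hc : 0 < c) : c * tt m c ^ (2 * m) = 1 := by
  unfold tt
  have hm0 : (m : ℝ) ≠ 0 := by positivity
  rw [← Real.rpow_natCast, ← Real.rpow_mul hc.le]
  have : -(1 / (2 * m : ℝ)) * ((2 * m : ℕ) : ℝ) = -1 := by
    push_cast; field_simp
  rw [this, Real.rpow_neg_one, mul_inv_cancel₀ hc.ne']

theorem tt_le (m : ℕ) {c : ℝ} (hc : 1 ≤ c) : tt m c ≤ 1 := by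
  unfold tt
  apply Real.rpow_le_one_of_one_le_of_nonpos hc
  rw [neg_nonpos]
  positivity

theorem tt_lim (m : ℕ) (hm : 1 ≤ m) : Tendsto (tt m) atTop (𝓝 0) := by
  unfold tt
  exact tendsto_rpow_neg_atTop (by positivity)

theorem lim_e (L : Lens) (m : ℕ) (hm : 1 ≤ m) (p : ℂ) :
    Tendsto (fun c => ‖L.e ((tt m c : ℂ) * p)‖ / tt m c) atTop (𝓝 (L.c0 * ‖p‖)) := by
  have hd : HasDerivAt L.e (L.c0 : ℂ) 0 := by
    have := (L.diff.differentiableAt (L.isOpen.mem_nhds L.zero_mem)).hasDerivAt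
    rwa [L.deriv_zero] at this
  have h1 : HasDerivAt (fun s : ℂ => L.e (s * p)) ((L.c0 : ℂ) * p) ((0 : ℝ) : ℂ) := by
    have h2 : HasDerivAt (fun s : ℂ => s * p) p ((0 : ℝ) : ℂ) := by
      simpa using (hasDerivAt_id ((0 : ℝ) : ℂ)).mul_const p
    have h3 : HasDerivAt L.e (L.c0 : ℂ) (((0 : ℝ) : ℂ) * p) := by simpa using hd
    exact HasDerivAt.comp ((0 : ℝ) : ℂ) (h := fun s : ℂ => s * p) h3 h2
  have h4 := h1.comp_ofReal
  rw [hasDerivAt_iff_tendsto_slope_zero] at h4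
  have h5 : Tendsto (tt m) atTop (𝓝[≠] 0) := by
    rw [tendsto_nhdsWithin_iff]
    refine ⟨tt_lim m hm, ?_⟩
    filter_upwards [eventually_gt_atTop 0] with c hc
    exact (tt_pos m hc).ne'
  have h6 := (h4.comp h5).norm
  have e1 : ‖(L.c0 : ℂ) * p‖ = L.c0 * ‖p‖ := by
    rw [norm_mul, Complex.norm_real, Real.norm_eq_abs, abs_of_pos L.c0_pos]
  rw [e1] at h6
  refine h6.congr' ?_
  filter_upwards [eventually_gt_atTop 0] with c hc
  have ht := tt_pos m hc
  simp only [Function.comp, zero_add, Complex.ofReal_zero, zero_mul, L.e_zero, sub_zero]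
  rw [norm_smul, norm_inv, Real.norm_eq_abs, abs_of_pos ht]
  ring

theorem lim_tp (m : ℕ) (hm : 1 ≤ m) (p : ℂ) :
    Tendsto (fun c => (tt m c : ℂ) * p) atTop (𝓝 0) := by
  have h : Tendsto (fun c => (tt m c : ℂ)) atTop (𝓝 ((0 : ℝ) : ℂ)) :=
    (Complex.continuous_ofReal.tendsto 0).comp (tt_lim m hm)
  simpa using h.mul_const p

theorem lim_deriv (L : Lens) (m : ℕ) (hm : 1 ≤ m) (p : ℂ) :
    Tendsto (fun c => ‖deriv L.e ((tt m c : ℂ) * p)‖) atTop (𝓝 L.c0) := by
  have hc : ContinuousAt (deriv L.e) 0 :=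
    ((L.diff.deriv L.isOpen).continuousOn).continuousAt (L.isOpen.mem_nhds L.zero_mem)
  have h := (hc.tendsto.comp (lim_tp m hm p)).norm
  rw [L.deriv_zero, Complex.norm_real, Real.norm_eq_abs, abs_of_pos L.c0_pos] at h
  exact h

/-- the scaled `c ‖g‖²` -/
theorem cgf (L : Lens) (m : ℕ) (hm : 1 ≤ m) {c : ℝ} (hc : 0 < c) (p : ℂ) :
    c * ‖gf L m ((tt m c : ℂ) * p)‖ ^ 2 = (‖L.e ((tt m c : ℂ) * p)‖ / tt m c) ^ (2 * m) := by
  rw [norm_gf, div_pow]
  have h := tt_pow m hm hc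
  have ht := tt_pos m hc
  rw [eq_div_iff (by positivity)]
  calc c * ‖L.e ((tt m c : ℂ) * p)‖ ^ (2 * m) * tt m c ^ (2 * m)
      = (c * tt m c ^ (2 * m)) * ‖L.e ((tt m c : ℂ) * p)‖ ^ (2 * m) := by ring
    _ = _ := by rw [h, one_mul]

theorem caf (L : Lens) (q : ℕ) {c : ℝ} (hc : 0 < c) (p : ℂ)
    (hp : ((tt (q + 1) c : ℂ) * p) ∈ L.W) :
    c * tt (q + 1) c ^ 2 * af L (q + 1) ((tt (q + 1) c : ℂ) * p) =
      ((q + 1 : ℕ) : ℝ) ^ 2 * (‖L.e ((tt (q + 1) c : ℂ) * p)‖ / tt (q + 1) c) ^ (2 * q) *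
        ‖deriv L.e ((tt (q + 1) c : ℂ) * p)‖ ^ 2 := by
  unfold af gd
  rw [if_pos hp]
  have h := tt_pow (q + 1) (by omega) hc
  have ht := tt_pos (q + 1) hc
  rw [norm_mul, norm_mul, norm_pow, Complex.norm_natCast, div_pow, Nat.add_sub_cancel]
  generalize ‖L.e ((tt (q + 1) c : ℂ) * p)‖ = E
  generalize ‖deriv L.e ((tt (q + 1) c : ℂ) * p)‖ = F
  generalize ((q + 1 : ℕ) : ℝ) = M
  generalize tt (q + 1) c = t at h ht ⊢
  have e2 : c * t ^ 2 = 1 / t ^ (2 * q) := by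
    rw [eq_div_iff (by positivity)]
    calc c * t ^ 2 * t ^ (2 * q) = c * t ^ (2 * (q + 1)) := by ring
      _ = 1 := h
  rw [e2]
  ring

/-- the integrand after scaling -/
def Fc {n : ℕ} (ψ : ℝ → ℝ) (L : Lens) (m : ℕ) (l : κ → Fin n → ℝ) (c : ℝ) (z : E2 n) : ℝ :=
  ψ (c * VV L m l (tt m c • z)) * DS l (fun k => c * tt m c ^ 2 * af L m (pk (l k) (tt m c • z)))

theorem NN_eq {n : ℕ} (ψ : ℝ → ℝ) (L : Lens) (m : ℕ) (l : κ → Fin n → ℝ) {c : ℝ} (hc : 0 < c) :
    NN ψ L m l c = ∫ z : E2 n, Fc ψ L m l c z := by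
  have ht := tt_pos m hc
  have hH : (volume : Measure (E2 n)).IsAddHaarMeasure :=
    Measure.prod.instIsAddHaarMeasure (volume : Measure (Fin n → ℝ)) (volume : Measure (Fin n → ℝ))
  have h := Measure.integral_comp_smul (volume : Measure (E2 n))
    (fun z => ψ (c * VV L m l z) * DS l (fun k => af L m (pk (l k) z))) (tt m c)
  have hfr : Module.finrank ℝ (E2 n) = 2 * n := by
    rw [Module.finrank_prod, Module.finrank_fin_fun]; ring
  rw [hfr, abs_of_pos (by positivity), smul_eq_mul] at h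
  have h2 : (∫ z : E2 n, Fc ψ L m l c z) = (c * tt m c ^ 2) ^ n *
      ∫ z : E2 n, ψ (c * VV L m l (tt m c • z)) * DS l (fun k => af L m (pk (l k) (tt m c • z))) := by
    rw [← integral_const_mul]
    refine integral_congr_ae (Eventually.of_forall fun z => ?_)
    simp only [Fc]
    rw [DS_smul]
    ring
  rw [h2, h]
  unfold NN
  generalize (∫ z : E2 n, ψ (c * VV L m l z) * DS l (fun k => af L m (pk (l k) z))) = I
  generalize tt m c = t at ht ⊢
  have : (c * t ^ 2) ^ n * ((t ^ (2 * n))⁻¹ * I) = c ^ n * I * (t ^ (2 * n) * (t ^ (2 * n))⁻¹) := by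
    rw [mul_pow, ← pow_mul]; ring
  rw [this, mul_inv_cancel₀ (by positivity), mul_one]

theorem meas_Fc {n : ℕ} (ψ : ℝ → ℝ) (hψ : Measurable ψ) (L : Lens) (m : ℕ) (l : κ → Fin n → ℝ)
    (c : ℝ) : Measurable (Fc ψ L m l c) := by
  unfold Fc
  have hs : Measurable (fun z : E2 n => tt m c • z) := measurable_const_smul _
  refine (hψ.comp (((meas_VV L m l).comp hs).const_mul c)).mul ?_
  have h : (fun z : E2 n => DS l (fun k => c * tt m c ^ 2 * af L m (pk (l k) (tt m c • z)))) =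
      fun z : E2 n => (c * tt m c ^ 2) ^ n * DS l (fun k => af L m (pk (l k) (tt m c • z))) := by
    funext z; rw [DS_smul]
  rw [h]
  exact ((meas_DS L m l).comp hs).const_mul _

theorem lim_F {n : ℕ} (ψ : ℝ → ℝ) (hψ : Continuous ψ) (L : Lens) (q : ℕ) (l : κ → Fin n → ℝ)
    (z : E2 n) :
    Tendsto (fun c => Fc ψ L (q + 1) l c z) atTop
      (𝓝 (ψ (V0 (q + 1) l (fun _ => L.c0 ^ (2 * (q + 1))) z) *
        DS l (a0 (q + 1) l (fun _ => L.c0 ^ (2 * (q + 1))) z))) := by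
  have hm : 1 ≤ q + 1 := by omega
  unfold Fc
  refine Tendsto.mul ?_ ?_
  · refine (hψ.tendsto _).comp ?_
    have h1 : Tendsto (fun c => ∑ k, (‖L.e ((tt (q + 1) c : ℂ) * pk (l k) z)‖ / tt (q + 1) c)
        ^ (2 * (q + 1))) atTop (𝓝 (∑ k, (L.c0 * ‖pk (l k) z‖) ^ (2 * (q + 1)))) :=
      tendsto_finsetSum _ fun k _ => (lim_e L (q + 1) hm (pk (l k) z)).pow _
    have e1 : V0 (q + 1) l (fun _ => L.c0 ^ (2 * (q + 1))) z =
        ∑ k, (L.c0 * ‖pk (l k) z‖) ^ (2 * (q + 1)) := by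
      unfold V0
      exact Finset.sum_congr rfl fun k _ => (mul_pow _ _ _).symm
    rw [e1]
    refine h1.congr' ?_
    filter_upwards [eventually_gt_atTop 0] with c hc
    unfold VV
    rw [Finset.mul_sum]
    refine Finset.sum_congr rfl fun k _ => ?_
    rw [pk_smul, cgf L (q + 1) hm hc]
  · unfold DS
    refine tendsto_finsetSum _ fun f _ => Tendsto.mul_const _ (tendsto_finsetProd _ fun i _ => ?_)
    set p := pk (l (f i)) z with hp
    have h1 : Tendsto (fun c => ((q + 1 : ℕ) : ℝ) ^ 2 *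
        (‖L.e ((tt (q + 1) c : ℂ) * p)‖ / tt (q + 1) c) ^ (2 * q) *
        ‖deriv L.e ((tt (q + 1) c : ℂ) * p)‖ ^ 2) atTop
        (𝓝 (((q + 1 : ℕ) : ℝ) ^ 2 * (L.c0 * ‖p‖) ^ (2 * q) * L.c0 ^ 2)) :=
      (((lim_e L (q + 1) hm p).pow _).const_mul _).mul ((lim_deriv L (q + 1) hm p).pow 2)
    have e1 : a0 (q + 1) l (fun _ => L.c0 ^ (2 * (q + 1))) z (f i) =
        ((q + 1 : ℕ) : ℝ) ^ 2 * (L.c0 * ‖p‖) ^ (2 * q) * L.c0 ^ 2 := by
      unfold a0
      have : 2 * (q + 1) - 2 = 2 * q := by omega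
      rw [this, ← hp]
      ring
    rw [e1]
    refine h1.congr' ?_
    have hW : ∀ᶠ c in atTop, ((tt (q + 1) c : ℂ) * p) ∈ L.W :=
      (lim_tp (q + 1) hm p).eventually (L.isOpen.mem_nhds L.zero_mem)
    filter_upwards [eventually_gt_atTop 0, hW] with c hc hcW
    rw [pk_smul, ← hp, caf L q hc p hcW]

theorem VV_nonneg {n : ℕ} (L : Lens) (m : ℕ) (l : κ → Fin n → ℝ) (z : E2 n) : 0 ≤ VV L m l z :=
  Finset.sum_nonneg fun _ _ => by positivity

theorem DS_nonneg {n : ℕ} (l : κ → Fin n → ℝ) (a : κ → ℝ) (ha : ∀ k, 0 ≤ a k) : 0 ≤ DS l a :=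
  Finset.sum_nonneg fun _ _ => mul_nonneg (Finset.prod_nonneg fun _ _ => ha _) (sq_nonneg _)

theorem DS_mono {n : ℕ} (l : κ → Fin n → ℝ) (a b : κ → ℝ) (ha : ∀ k, 0 ≤ a k)
    (hab : ∀ k, a k ≤ b k) : DS l a ≤ DS l b :=
  Finset.sum_le_sum fun _ _ => mul_le_mul_of_nonneg_right
    (Finset.prod_le_prod (fun _ _ => ha _) fun _ _ => hab _) (sq_nonneg _)

/-- the domination -/
theorem dom {n : ℕ} (ψ : ℝ → ℝ) (v1 : ℝ) (hψ : Cut ψ v1) (L : Lens) (q : ℕ) (l : κ → Fin n → ℝ)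
    (f : Fin n → κ) {c : ℝ} (hc : 1 ≤ c) (z : E2 n) :
    ‖Fc ψ L (q + 1) l c z‖ ≤ (KK l f L.C).indicator
      (fun _ => ψ 0 * DS l (fun _ => ((q + 1 : ℕ) : ℝ) ^ 2 * L.B ^ 2)) z := by
  have hc0 : 0 < c := by linarith
  have hm : 1 ≤ q + 1 := by omega
  have ht := tt_pos (q + 1) hc0
  have hV0 : 0 ≤ c * VV L (q + 1) l (tt (q + 1) c • z) := mul_nonneg hc0.le (VV_nonneg _ _ _ _)
  have haf : ∀ k, 0 ≤ c * tt (q + 1) c ^ 2 * af L (q + 1) (pk (l k) (tt (q + 1) c • z)) :=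
    fun k => by unfold af; positivity
  have hbd : 0 ≤ ψ 0 * DS l (fun _ => ((q + 1 : ℕ) : ℝ) ^ 2 * L.B ^ 2) :=
    mul_nonneg (hψ.nonneg 0) (DS_nonneg _ _ fun _ => by positivity)
  by_cases hv : c * VV L (q + 1) l (tt (q + 1) c • z) < v1
  · -- inside
    have hk : ∀ k, ‖L.e ((tt (q + 1) c : ℂ) * pk (l k) z)‖ / tt (q + 1) c ≤ 1 := by
      intro k
      have h1 : c * ‖gf L (q + 1) (pk (l k) (tt (q + 1) c • z))‖ ^ 2 ≤
          c * VV L (q + 1) l (tt (q + 1) c • z) := by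
        refine mul_le_mul_of_nonneg_left ?_ hc0.le
        unfold VV
        exact Finset.single_le_sum (f := fun k => ‖gf L (q + 1) (pk (l k) (tt (q + 1) c • z))‖ ^ 2)
          (fun _ _ => by positivity) (Finset.mem_univ k)
      rw [pk_smul, cgf L (q + 1) hm hc0] at h1
      have h2 := hψ.lt1
      by_contra hlt
      rw [not_le] at hlt
      have h3 : 1 < (‖L.e ((tt (q + 1) c : ℂ) * pk (l k) z)‖ / tt (q + 1) c) ^ (2 * (q + 1)) :=
        one_lt_pow₀ hlt (by omega)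
      linarith
    have hle1 := tt_le (q + 1) hc
    have hv1 := hψ.lt1
    have hW : ∀ k, ((tt (q + 1) c : ℂ) * pk (l k) z) ∈ L.W := by
      intro k
      by_contra hno
      have h4 := L.off _ hno
      have h1 : c * ‖gf L (q + 1) (pk (l k) (tt (q + 1) c • z))‖ ^ 2 ≤
          c * VV L (q + 1) l (tt (q + 1) c • z) := by
        refine mul_le_mul_of_nonneg_left ?_ hc0.le
        unfold VV
        exact Finset.single_le_sum (f := fun k => ‖gf L (q + 1) (pk (l k) (tt (q + 1) c • z))‖ ^ 2)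
          (fun _ _ => by positivity) (Finset.mem_univ k)
      rw [pk_smul] at h1
      unfold gf at h1
      rw [h4] at h1
      simp at h1
      linarith
    have hK : z ∈ KK l f L.C := by
      intro i
      have h5 := L.hC _ (hW (f i))
      have h6 := hk (f i)
      rw [div_le_one ht] at h6
      rw [norm_mul, Complex.norm_real, Real.norm_eq_abs, abs_of_pos ht] at h5
      have hC0 : 0 ≤ L.C := by
        by_contra hneg
        rw [not_le] at hneg
        obtain ⟨k, hk0⟩ : ∃ p ∈ L.W, p ≠ 0 := by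
          obtain ⟨ε, hε, hball⟩ := Metric.isOpen_iff.1 L.isOpen 0 L.zero_mem
          refine ⟨((ε / 2 : ℝ) : ℂ), hball ?_, ?_⟩
          · rw [Metric.mem_ball, dist_zero_right, Complex.norm_real, Real.norm_eq_abs,
              abs_of_pos (by positivity)]
            linarith
          · exact_mod_cast (by positivity : (0 : ℝ) < ε / 2).ne'
        have h7 := L.hC k hk0.1
        have h8 : L.C * ‖L.e k‖ ≤ 0 := mul_nonpos_of_nonpos_of_nonneg hneg.le (norm_nonneg _)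
        have h9 : 0 < ‖k‖ := norm_pos_iff.2 hk0.2
        linarith
      have h7 : tt (q + 1) c * ‖pk (l (f i)) z‖ ≤ tt (q + 1) c * L.C := by
        calc _ ≤ L.C * ‖L.e ((tt (q + 1) c : ℂ) * pk (l (f i)) z)‖ := h5
          _ ≤ L.C * tt (q + 1) c := mul_le_mul_of_nonneg_left h6 hC0
          _ = _ := mul_comm _ _
      exact le_of_mul_le_mul_left h7 ht
    rw [Set.indicator_of_mem hK]
    unfold Fc
    rw [norm_mul, Real.norm_eq_abs, Real.norm_eq_abs, abs_of_nonneg (hψ.nonneg _),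
      abs_of_nonneg (DS_nonneg _ _ haf)]
    refine mul_le_mul (hψ.anti hV0) (DS_mono _ _ _ haf fun k => ?_) (DS_nonneg _ _ haf)
      (hψ.nonneg 0)
    rw [pk_smul, caf L q hc0 _ (hW k)]
    have h1 : (‖L.e ((tt (q + 1) c : ℂ) * pk (l k) z)‖ / tt (q + 1) c) ^ (2 * q) ≤ 1 :=
      pow_le_one₀ (by positivity) (hk k)
    have h2 : ‖deriv L.e ((tt (q + 1) c : ℂ) * pk (l k) z)‖ ^ 2 ≤ L.B ^ 2 :=
      pow_le_pow_left₀ (norm_nonneg _) (L.hB _ (hW k)) 2
    calc _ ≤ ((q + 1 : ℕ) : ℝ) ^ 2 * 1 * L.B ^ 2 := by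
          refine mul_le_mul (mul_le_mul_of_nonneg_left h1 (by positivity)) h2 (by positivity)
            (by positivity)
      _ = _ := by ring
  · rw [not_lt] at hv
    unfold Fc
    rw [hψ.zero _ hv, zero_mul, norm_zero]
    exact Set.indicator_nonneg (fun _ _ => hbd) z

end C3

open C3 in
theorem C3 : S_C3 := by
  intro κ _ r L m hm l ⟨f, hf⟩ ψ v1 hψ
  obtain ⟨q, rfl⟩ : ∃ q, m = q + 1 := ⟨m - 1, by omega⟩
  have hK := compact_KK l f hf L.C
  have hψc : Continuous ψ := hψ.smooth.continuous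
  have hmain : Tendsto (fun c => ∫ z : E2 (r + 1), Fc ψ L (q + 1) l c z) atTop
      (𝓝 (∫ z : E2 (r + 1), ψ (V0 (q + 1) l (fun _ => L.c0 ^ (2 * (q + 1))) z) *
        DS l (a0 (q + 1) l (fun _ => L.c0 ^ (2 * (q + 1))) z))) := by
    refine tendsto_integral_filter_of_dominated_convergence
      ((KK l f L.C).indicator
        (fun _ => ψ 0 * DS l (fun _ => ((q + 1 : ℕ) : ℝ) ^ 2 * L.B ^ 2))) ?_ ?_ ?_ ?_
    · exact Eventually.of_forall fun c => (meas_Fc ψ hψc.measurable L (q + 1) l c).aestronglyMeasurable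
    · filter_upwards [eventually_ge_atTop 1] with c hc
      exact Eventually.of_forall fun z => dom ψ v1 hψ L q l f hc z
    · rw [integrable_indicator_iff hK.measurableSet]
      exact integrableOn_const hK.measure_lt_top.ne
    · exact Eventually.of_forall fun z => lim_F ψ hψc L q l z
  refine Tendsto.congr' ?_ hmain
  filter_upwards [eventually_gt_atTop 0] with c hc
  exact (NN_eq ψ L (q + 1) l hc).symm

end H712MA
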