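import Pool.Agent.H712R2.MA.Stm

set_option autoImplicit false

noncomputable section

open MeasureTheory Filter Topology
open scoped BigOperators Matrix ENNReal

namespace H712MA

namespace C4aux

variable {κ : Type} [Fintype κ] {n : ℕ}

/-- `|l_k(z)|²` -/
def rho (l : κ → Fin n → ℝ) (k : κ) (z : E2 n) : ℝ := (l k ⬝ᵥ z.1) ^ 2 + (l k ⬝ᵥ z.2) ^ 2

/-- the potential -/
def VV' (q : ℕ) (l : κ → Fin n → ℝ) (c : κ → ℝ) (z : E2 n) : ℝ :=
  ∑ k, c k * rho l k z ^ (q + 1)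

/-- the coefficients -/
def aa (q : ℕ) (l : κ → Fin n → ℝ) (c : κ → ℝ) (z : E2 n) (k : κ) : ℝ :=
  c k * ((q : ℝ) + 1) ^ 2 * rho l k z ^ q

omit [Fintype κ] in
theorem norm_pk_sq (l : κ → Fin n → ℝ) (k : κ) (z : E2 n) : ‖pk (l k) z‖ ^ 2 = rho l k z := by
  unfold pk rho
  rw [Complex.sq_norm, Complex.normSq_mk]
  ring

omit [Fintype κ] in
theorem rho_nonneg (l : κ → Fin n → ℝ) (k : κ) (z : E2 n) : 0 ≤ rho l k z := by
  unfold rho
  positivity

theorem V0_eq (q : ℕ) (l : κ → Fin n → ℝ) (c : κ → ℝ) (z : E2 n) :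
    V0 (q + 1) l c z = VV' q l c z := by
  unfold V0 VV'
  refine Finset.sum_congr rfl fun k _ => ?_
  rw [pow_mul, norm_pk_sq]

omit [Fintype κ] in
theorem a0_eq (q : ℕ) (l : κ → Fin n → ℝ) (c : κ → ℝ) (z : E2 n) :
    a0 (q + 1) l c z = aa q l c z := by
  funext k
  unfold a0 aa
  rw [show 2 * (q + 1) - 2 = 2 * q by omega, pow_mul, norm_pk_sq]
  push_cast
  ring

omit [Fintype κ] in
theorem continuous_rho (l : κ → Fin n → ℝ) (k : κ) : Continuous (fun z : E2 n => rho l k z) := by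
  unfold rho
  simp only [dotProduct]
  fun_prop

omit [Fintype κ] in
theorem contDiff_X (l : κ → Fin n → ℝ) (k : κ) :
    ContDiff ℝ (⊤ : ℕ∞) (fun z : E2 n => l k ⬝ᵥ z.1) := by
  simp only [dotProduct]
  fun_prop

omit [Fintype κ] in
theorem contDiff_Y (l : κ → Fin n → ℝ) (k : κ) :
    ContDiff ℝ (⊤ : ℕ∞) (fun z : E2 n => l k ⬝ᵥ z.2) := by
  simp only [dotProduct]
  fun_prop

omit [Fintype κ] in
theorem contDiff_rho (l : κ → Fin n → ℝ) (k : κ) :
    ContDiff ℝ (⊤ : ℕ∞) (fun z : E2 n => rho l k z) := by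
  unfold rho
  exact ((contDiff_X l k).pow 2).add ((contDiff_Y l k).pow 2)

theorem contDiff_V (q : ℕ) (l : κ → Fin n → ℝ) (c : κ → ℝ) :
    ContDiff ℝ (⊤ : ℕ∞) (fun z : E2 n => VV' q l c z) := by
  unfold VV'
  refine ContDiff.sum fun k _ => ?_
  exact contDiff_const.mul ((contDiff_rho l k).pow _)

omit [Fintype κ] in
theorem contDiff_aa (q : ℕ) (l : κ → Fin n → ℝ) (c : κ → ℝ) (k : κ) :
    ContDiff ℝ (⊤ : ℕ∞) (fun z : E2 n => aa q l c z k) := by
  unfold aa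
  exact contDiff_const.mul ((contDiff_rho l k).pow _)

/-- the compact set -/
def KK (l : κ → Fin n → ℝ) (b : Fin n → κ) (R : ℝ) : Set (E2 n) :=
  {z | ∀ i, rho l (b i) z ≤ R}

omit [Fintype κ] in
theorem isCompact_KK (l : κ → Fin n → ℝ) (b : Fin n → κ) (hb : dt l b ≠ 0) (R : ℝ) :
    IsCompact (KK l b R) := by
  set M : Matrix (Fin n) (Fin n) ℝ := Matrix.of fun i j => l (b i) j with hM
  have hdet : IsUnit M.det := isUnit_iff_ne_zero.mpr hb
  set g : E2 n → E2 n := fun y => (M⁻¹ *ᵥ y.1, M⁻¹ *ᵥ y.2) with hg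
  have hgc : Continuous g := by
    rw [hg]
    refine Continuous.prodMk ?_ ?_
    · exact Continuous.matrix_mulVec continuous_const continuous_fst
    · exact Continuous.matrix_mulVec continuous_const continuous_snd
  have hcl : IsClosed (KK l b R) := by
    have : KK l b R = ⋂ i, {z | rho l (b i) z ≤ R} := by
      ext z; simp [KK]
    rw [this]
    exact isClosed_iInter fun i => isClosed_le (continuous_rho l (b i)) continuous_const
  have hsub : KK l b R ⊆ g '' (Metric.closedBall (0 : E2 n) (Real.sqrt (max R 0))) := by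
    intro z hz
    refine ⟨(M *ᵥ z.1, M *ᵥ z.2), ?_, ?_⟩
    · rw [mem_closedBall_zero_iff, Prod.norm_def]
      refine max_le ?_ ?_
      · rw [pi_norm_le_iff_of_nonneg (Real.sqrt_nonneg _)]
        intro i
        rw [Real.norm_eq_abs]
        refine Real.abs_le_sqrt ?_
        have h1 := hz i
        unfold rho at h1
        have h2 : (M *ᵥ z.1) i = l (b i) ⬝ᵥ z.1 := rfl
        show ((M *ᵥ z.1) i) ^ 2 ≤ max R 0
        rw [h2]
        have := sq_nonneg (l (b i) ⬝ᵥ z.2)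
        exact le_max_of_le_left (by linarith)
      · rw [pi_norm_le_iff_of_nonneg (Real.sqrt_nonneg _)]
        intro i
        rw [Real.norm_eq_abs]
        refine Real.abs_le_sqrt ?_
        have h1 := hz i
        unfold rho at h1
        have h2 : (M *ᵥ z.2) i = l (b i) ⬝ᵥ z.2 := rfl
        show ((M *ᵥ z.2) i) ^ 2 ≤ max R 0
        rw [h2]
        have := sq_nonneg (l (b i) ⬝ᵥ z.1)
        exact le_max_of_le_left (by linarith)
    · rw [hg]
      dsimp only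
      rw [Matrix.mulVec_mulVec, Matrix.mulVec_mulVec, Matrix.nonsing_inv_mul M hdet,
        Matrix.one_mulVec, Matrix.one_mulVec]
  exact ((isCompact_closedBall _ _).image hgc).of_isClosed_subset hcl hsub

theorem mem_KK (q : ℕ) (l : κ → Fin n → ℝ) (b : Fin n → κ) (c : κ → ℝ) (w : ℝ) (hw : 0 < w)
    (hc : ∀ k, 0 ≤ c k) (hcb : ∀ i, c (b i) = w) (z : E2 n) (hz : VV' q l c z < 1) :
    z ∈ KK l b (1 + 1 / w) := by
  intro i
  by_contra hcon
  push Not at hcon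
  have h0 : 0 < 1 / w := by positivity
  have h1 : 1 ≤ rho l (b i) z := by linarith
  have h2 : rho l (b i) z ≤ rho l (b i) z ^ (q + 1) := by
    calc rho l (b i) z = rho l (b i) z ^ 1 := (pow_one _).symm
      _ ≤ _ := pow_le_pow_right₀ h1 (by omega)
  have h3 : c (b i) * rho l (b i) z ^ (q + 1) ≤ VV' q l c z := by
    unfold VV'
    exact Finset.single_le_sum (f := fun k => c k * rho l k z ^ (q + 1))
      (fun k _ => mul_nonneg (hc k) (pow_nonneg (rho_nonneg l k z) _)) (Finset.mem_univ (b i))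
  rw [hcb] at h3
  have h4 : w * (1 / w) < w * rho l (b i) z ^ (q + 1) :=
    mul_lt_mul_of_pos_left (by linarith) hw
  rw [mul_one_div_cancel hw.ne'] at h4
  linarith

theorem int_dir (hC0 : S_C0) (F : E2 n → ℝ) (hF : ContDiff ℝ 1 F) (hs : HasCompactSupport F)
    (v : E2 n) :
    Integrable (fun z => fderiv ℝ F z v) ∧ ∫ z, fderiv ℝ F z v = 0 := by
  have hcont : Continuous (fun z => fderiv ℝ F z v) :=
    (hF.continuous_fderiv (by norm_num)).clm_apply continuous_const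
  have hcs : HasCompactSupport (fun z => fderiv ℝ F z v) := hs.fderiv_apply (𝕜 := ℝ) v
  refine ⟨hcont.integrable_of_hasCompactSupport hcs, ?_⟩
  have h1 := hC0 n (fun z => (F z : ℂ)) (Complex.ofRealCLM.contDiff.comp hF)
    (hs.comp_left Complex.ofReal_zero) v
  have h2 : ∀ z, fderiv ℝ (fun z => (F z : ℂ)) z v = ((fderiv ℝ F z v : ℝ) : ℂ) := by
    intro z
    have h3 : HasFDerivAt (fun z => (F z : ℂ)) (Complex.ofRealCLM.comp (fderiv ℝ F z)) z :=
      (Complex.ofRealCLM.hasFDerivAt (x := F z)).comp z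
        (hF.differentiable (by norm_num) z).hasFDerivAt
    rw [h3.fderiv]
    rfl
  simp only [h2] at h1
  rw [integral_complex_ofReal] at h1
  exact_mod_cast h1

omit [Fintype κ] in
theorem line_X (l : κ → Fin n → ℝ) (k : κ) (z v : E2 n) :
    HasDerivAt (fun t : ℝ => l k ⬝ᵥ (z + t • v).1) (l k ⬝ᵥ v.1) 0 := by
  have h : (fun t : ℝ => l k ⬝ᵥ (z + t • v).1) = fun t => l k ⬝ᵥ z.1 + t * (l k ⬝ᵥ v.1) := by
    funext t
    rw [Prod.fst_add, Prod.smul_fst, dotProduct_add, dotProduct_smul, smul_eq_mul]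
  rw [h]
  simpa using (hasDerivAt_id (0 : ℝ)).mul_const (l k ⬝ᵥ v.1) |>.const_add (l k ⬝ᵥ z.1)

omit [Fintype κ] in
theorem line_Y (l : κ → Fin n → ℝ) (k : κ) (z v : E2 n) :
    HasDerivAt (fun t : ℝ => l k ⬝ᵥ (z + t • v).2) (l k ⬝ᵥ v.2) 0 := by
  have h : (fun t : ℝ => l k ⬝ᵥ (z + t • v).2) = fun t => l k ⬝ᵥ z.2 + t * (l k ⬝ᵥ v.2) := by
    funext t
    rw [Prod.snd_add, Prod.smul_snd, dotProduct_add, dotProduct_smul, smul_eq_mul]
  rw [h]
  simpa using (hasDerivAt_id (0 : ℝ)).mul_const (l k ⬝ᵥ v.2) |>.const_add (l k ⬝ᵥ z.2)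

/-- derivative of `rho` in direction `v` -/
def rd (l : κ → Fin n → ℝ) (k : κ) (z v : E2 n) : ℝ :=
  2 * (l k ⬝ᵥ z.1) * (l k ⬝ᵥ v.1) + 2 * (l k ⬝ᵥ z.2) * (l k ⬝ᵥ v.2)

omit [Fintype κ] in
theorem line_rho (l : κ → Fin n → ℝ) (k : κ) (z v : E2 n) :
    HasDerivAt (fun t : ℝ => rho l k (z + t • v)) (rd l k z v) 0 := by
  unfold rho rd
  have h1 := (line_X l k z v).fun_pow 2
  have h2 := (line_Y l k z v).fun_pow 2
  have h3 := h1.fun_add h2
  refine h3.congr_deriv ?_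
  simp

omit [Fintype κ] in
theorem line_rho_pow (l : κ → Fin n → ℝ) (k : κ) (z v : E2 n) (q : ℕ) :
    HasDerivAt (fun t : ℝ => rho l k (z + t • v) ^ q)
      ((q : ℝ) * rho l k z ^ (q - 1) * rd l k z v) 0 := by
  have h := (line_rho l k z v).fun_pow q
  refine h.congr_deriv ?_
  simp

theorem line_V (q : ℕ) (l : κ → Fin n → ℝ) (c : κ → ℝ) (z v : E2 n) :
    HasDerivAt (fun t : ℝ => VV' q l c (z + t • v))
      (∑ k, c k * (((q : ℝ) + 1) * rho l k z ^ q * rd l k z v)) 0 := by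
  unfold VV'
  refine HasDerivAt.fun_sum fun k _ => ?_
  have h := (line_rho_pow l k z v (q + 1)).const_mul (c k)
  refine h.congr_deriv ?_
  simp

theorem line_psi (ψ : ℝ → ℝ) (hψ : ContDiff ℝ (⊤ : ℕ∞) ψ) (q : ℕ) (l : κ → Fin n → ℝ)
    (c : κ → ℝ) (z v : E2 n) :
    HasDerivAt (fun t : ℝ => ψ (VV' q l c (z + t • v)))
      (deriv ψ (VV' q l c z) *
        ∑ k, c k * (((q : ℝ) + 1) * rho l k z ^ q * rd l k z v)) 0 := by
  have h1 : HasDerivAt ψ (deriv ψ (VV' q l c z)) (VV' q l c (z + (0 : ℝ) • v)) := by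
    rw [zero_smul, add_zero]
    exact (hψ.differentiable (by simp) _).hasDerivAt
  exact h1.comp (0 : ℝ) (line_V q l c z v)

/-- the two components of the vector field -/
def vfX (ψ : ℝ → ℝ) (q : ℕ) (l : κ → Fin n → ℝ) (c : κ → ℝ) {r : ℕ} (s : Fin r → κ) (j : κ)
    (z : E2 n) : ℝ :=
  ψ (VV' q l c z) * (∏ i, aa q l c z (s i)) * rho l j z ^ q * (l j ⬝ᵥ z.1)

/-- second component -/
def vfY (ψ : ℝ → ℝ) (q : ℕ) (l : κ → Fin n → ℝ) (c : κ → ℝ) {r : ℕ} (s : Fin r → κ) (j : κ)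
    (z : E2 n) : ℝ :=
  ψ (VV' q l c z) * (∏ i, aa q l c z (s i)) * rho l j z ^ q * (l j ⬝ᵥ z.2)

theorem contDiff_vf (ψ : ℝ → ℝ) (hψ : ContDiff ℝ (⊤ : ℕ∞) ψ) (q : ℕ) (l : κ → Fin n → ℝ)
    (c : κ → ℝ) {r : ℕ} (s : Fin r → κ) (j : κ) :
    ContDiff ℝ (⊤ : ℕ∞) (vfX ψ q l c s j) ∧ ContDiff ℝ (⊤ : ℕ∞) (vfY ψ q l c s j) := by
  have h1 : ContDiff ℝ (⊤ : ℕ∞) (fun z : E2 n =>
      ψ (VV' q l c z) * (∏ i, aa q l c z (s i)) * rho l j z ^ q) := by
    refine ContDiff.mul (ContDiff.mul (hψ.comp (contDiff_V q l c)) ?_) ((contDiff_rho l j).pow q)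
    exact contDiff_prod fun i _ => contDiff_aa q l c (s i)
  exact ⟨h1.mul (contDiff_X l j), h1.mul (contDiff_Y l j)⟩

omit [Fintype κ] in
theorem aa_line (q : ℕ) (l : κ → Fin n → ℝ) (c : κ → ℝ) (k : κ) (z v : E2 n)
    (h1 : l k ⬝ᵥ v.1 = 0) (h2 : l k ⬝ᵥ v.2 = 0) (t : ℝ) :
    aa q l c (z + t • v) k = aa q l c z k := by
  unfold aa rho
  rw [Prod.fst_add, Prod.smul_fst, dotProduct_add, dotProduct_smul, smul_eq_mul, h1,
    Prod.snd_add, Prod.smul_snd, dotProduct_add, dotProduct_smul, smul_eq_mul, h2]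
  simp

theorem fderiv_vf (ψ : ℝ → ℝ) (hψ : ContDiff ℝ (⊤ : ℕ∞) ψ) (q : ℕ) (l : κ → Fin n → ℝ)
    (c : κ → ℝ) {r : ℕ} (s : Fin r → κ) (j : κ) (z v : E2 n)
    (h1 : ∀ i, l (s i) ⬝ᵥ v.1 = 0) (h2 : ∀ i, l (s i) ⬝ᵥ v.2 = 0) :
    fderiv ℝ (vfX ψ q l c s j) z v = (∏ i, aa q l c z (s i)) *
      (deriv ψ (VV' q l c z) * (∑ k, c k * (((q : ℝ) + 1) * rho l k z ^ q * rd l k z v)) *
          rho l j z ^ q * (l j ⬝ᵥ z.1) +
        ψ (VV' q l c z) * ((q : ℝ) * rho l j z ^ (q - 1) * rd l j z v) * (l j ⬝ᵥ z.1) +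
        ψ (VV' q l c z) * rho l j z ^ q * (l j ⬝ᵥ v.1)) ∧
    fderiv ℝ (vfY ψ q l c s j) z v = (∏ i, aa q l c z (s i)) *
      (deriv ψ (VV' q l c z) * (∑ k, c k * (((q : ℝ) + 1) * rho l k z ^ q * rd l k z v)) *
          rho l j z ^ q * (l j ⬝ᵥ z.2) +
        ψ (VV' q l c z) * ((q : ℝ) * rho l j z ^ (q - 1) * rd l j z v) * (l j ⬝ᵥ z.2) +
        ψ (VV' q l c z) * rho l j z ^ q * (l j ⬝ᵥ v.2)) := by
  have hP : ∀ t : ℝ, (∏ i, aa q l c (z + t • v) (s i)) = ∏ i, aa q l c z (s i) := fun t =>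
    Finset.prod_congr rfl fun i _ => aa_line q l c (s i) z v (h1 i) (h2 i) t
  have hpsi := line_psi ψ hψ q l c z v
  have hrho := line_rho_pow l j z v q
  constructor
  · rw [← DifferentiableAt.lineDeriv_eq_fderiv
      (((contDiff_vf ψ hψ q l c s j).1.differentiable (by simp)) z)]
    apply HasLineDerivAt.lineDeriv
    unfold HasLineDerivAt vfX
    simp only [hP]
    have h := ((hpsi.mul_const (∏ i, aa q l c z (s i))).fun_mul hrho).fun_mul (line_X l j z v)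
    refine h.congr_deriv ?_
    simp only [zero_smul, add_zero]
    ring
  · rw [← DifferentiableAt.lineDeriv_eq_fderiv
      (((contDiff_vf ψ hψ q l c s j).2.differentiable (by simp)) z)]
    apply HasLineDerivAt.lineDeriv
    unfold HasLineDerivAt vfY
    simp only [hP]
    have h := ((hpsi.mul_const (∏ i, aa q l c z (s i))).fun_mul hrho).fun_mul (line_Y l j z v)
    refine h.congr_deriv ?_
    simp only [zero_smul, add_zero]
    ring

theorem div_vf (ψ : ℝ → ℝ) (hψ : ContDiff ℝ (⊤ : ℕ∞) ψ) (q : ℕ) (l : κ → Fin n → ℝ)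
    (c : κ → ℝ) {r : ℕ} (s : Fin r → κ) (j : κ) (z : E2 n) (d : Fin n → ℝ)
    (hd : ∀ i, l (s i) ⬝ᵥ d = 0) :
    fderiv ℝ (vfX ψ q l c s j) z (d, 0) + fderiv ℝ (vfY ψ q l c s j) z (0, d) =
      (∏ i, aa q l c z (s i)) * (deriv ψ (VV' q l c z) * rho l j z ^ q *
        (∑ k, c k * (((q : ℝ) + 1) * rho l k z ^ q) * (2 * (l k ⬝ᵥ d) *
          ((l k ⬝ᵥ z.1) * (l j ⬝ᵥ z.1) + (l k ⬝ᵥ z.2) * (l j ⬝ᵥ z.2)))) +
        2 * ((q : ℝ) + 1) * ψ (VV' q l c z) * rho l j z ^ q * (l j ⬝ᵥ d)) := by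
  rw [(fderiv_vf ψ hψ q l c s j z (d, 0) hd (by simp)).1,
    (fderiv_vf ψ hψ q l c s j z (0, d) (by simp) hd).2, ← mul_add]
  congr 1
  have hsum : (∑ k, c k * (((q : ℝ) + 1) * rho l k z ^ q) * (2 * (l k ⬝ᵥ d) *
          ((l k ⬝ᵥ z.1) * (l j ⬝ᵥ z.1) + (l k ⬝ᵥ z.2) * (l j ⬝ᵥ z.2)))) =
      (∑ k, c k * (((q : ℝ) + 1) * rho l k z ^ q * rd l k z (d, 0))) * (l j ⬝ᵥ z.1) +
      (∑ k, c k * (((q : ℝ) + 1) * rho l k z ^ q * rd l k z (0, d))) * (l j ⬝ᵥ z.2) := by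
    rw [Finset.sum_mul, Finset.sum_mul, ← Finset.sum_add_distrib]
    refine Finset.sum_congr rfl fun k _ => ?_
    unfold rd
    simp only [dotProduct_zero]
    ring
  rw [hsum]
  have hq : (q : ℝ) * rho l j z ^ (q - 1) * rho l j z = q * rho l j z ^ q := by
    rcases Nat.eq_zero_or_pos q with h | h
    · subst h; simp
    · obtain ⟨p, rfl⟩ : ∃ p, q = p + 1 := ⟨q - 1, by omega⟩
      rw [Nat.add_sub_cancel, pow_succ]
      ring
  have hrd : rd l j z (d, 0) * (l j ⬝ᵥ z.1) + rd l j z (0, d) * (l j ⬝ᵥ z.2) =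
      2 * (l j ⬝ᵥ d) * rho l j z := by
    unfold rd rho
    simp only [dotProduct_zero]
    ring
  have e : ψ (VV' q l c z) * ((q : ℝ) * rho l j z ^ (q - 1) * rd l j z (d, 0)) * (l j ⬝ᵥ z.1) +
      ψ (VV' q l c z) * ((q : ℝ) * rho l j z ^ (q - 1) * rd l j z (0, d)) * (l j ⬝ᵥ z.2) =
      2 * (q : ℝ) * ψ (VV' q l c z) * rho l j z ^ q * (l j ⬝ᵥ d) := by
    calc _ = ψ (VV' q l c z) * ((q : ℝ) * rho l j z ^ (q - 1)) *
          (rd l j z (d, 0) * (l j ⬝ᵥ z.1) + rd l j z (0, d) * (l j ⬝ᵥ z.2)) := by ring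
      _ = ψ (VV' q l c z) * 2 * (l j ⬝ᵥ d) * ((q : ℝ) * rho l j z ^ (q - 1) * rho l j z) := by
          rw [hrd]; ring
      _ = _ := by rw [hq]; ring
  linear_combination e

theorem hasCompactSupport_vf (ψ : ℝ → ℝ) (v1 : ℝ) (hψ : Cut ψ v1) (q : ℕ) (l : κ → Fin n → ℝ)
    (b : Fin n → κ) (hb : dt l b ≠ 0) (c : κ → ℝ) (w : ℝ) (hw : 0 < w)
    (hc : ∀ k, 0 ≤ c k) (hcb : ∀ i, c (b i) = w) {r : ℕ} (s : Fin r → κ) (j : κ) :
    HasCompactSupport (vfX ψ q l c s j) ∧ HasCompactSupport (vfY ψ q l c s j) := by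
  have h0 : ∀ z : E2 n, z ∉ KK l b (1 + 1 / w) → ψ (VV' q l c z) = 0 := by
    intro z hz
    by_cases h : VV' q l c z < 1
    · exact absurd (mem_KK q l b c w hw hc hcb z h) hz
    · push Not at h
      exact hψ.zero _ (hψ.lt1.le.trans h)
  constructor
  · refine HasCompactSupport.intro (isCompact_KK l b hb (1 + 1 / w)) fun z hz => ?_
    unfold vfX
    rw [h0 z hz]
    simp
  · refine HasCompactSupport.intro (isCompact_KK l b hb (1 + 1 / w)) fun z hz => ?_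
    unfold vfY
    rw [h0 z hz]
    simp

variable {r : ℕ}

/-- the integrand of `dJ/dc_j` -/
def HH (ψ : ℝ → ℝ) (q : ℕ) (l : κ → Fin (r + 1) → ℝ) (c : κ → ℝ) (j : κ) (z : E2 (r + 1)) : ℝ :=
  deriv ψ (VV' q l c z) * rho l j z ^ (q + 1) * DS l (aa q l c z) +
    ψ (VV' q l c z) * (((r : ℝ) + 1) * ∑ s : Fin r → κ, (∏ i, aa q l c z (s i)) *
      (((q : ℝ) + 1) ^ 2 * rho l j z ^ q * (dc l s (l j)) ^ 2))

theorem HH_eq (hA2 : S_A2) (ψ : ℝ → ℝ) (hψ : ContDiff ℝ (⊤ : ℕ∞) ψ) (q : ℕ)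
    (l : κ → Fin (r + 1) → ℝ) (c : κ → ℝ) (j : κ) (z : E2 (r + 1))
    (ds : (Fin r → κ) → Fin (r + 1) → ℝ) (hds1 : ∀ s v, dc l s v = v ⬝ᵥ ds s)
    (hds2 : ∀ s i, l (s i) ⬝ᵥ ds s = 0) :
    HH ψ q l c j z = ∑ s : Fin r → κ, (((r : ℝ) + 1) * ((q : ℝ) + 1) / 2 * dc l s (l j)) *
      (fderiv ℝ (vfX ψ q l c s j) z (ds s, 0) + fderiv ℝ (vfY ψ q l c s j) z (0, ds s)) := by
  have hX := hA2 κ r l (aa q l c z) (l j) z.1
  have hY := hA2 κ r l (aa q l c z) (l j) z.2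
  have hterm : ∀ s : Fin r → κ, (((r : ℝ) + 1) * ((q : ℝ) + 1) / 2 * dc l s (l j)) *
      (fderiv ℝ (vfX ψ q l c s j) z (ds s, 0) + fderiv ℝ (vfY ψ q l c s j) z (0, ds s)) =
      deriv ψ (VV' q l c z) * rho l j z ^ q *
        ((l j ⬝ᵥ z.1) * (((r : ℝ) + 1) * ((∏ i, aa q l c z (s i)) * dc l s (l j) *
          (∑ k, aa q l c z k * (l k ⬝ᵥ z.1) * dc l s (l k)))) +
        (l j ⬝ᵥ z.2) * (((r : ℝ) + 1) * ((∏ i, aa q l c z (s i)) * dc l s (l j) *
          (∑ k, aa q l c z k * (l k ⬝ᵥ z.2) * dc l s (l k))))) +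
      ψ (VV' q l c z) * (((r : ℝ) + 1) * ((∏ i, aa q l c z (s i)) *
        (((q : ℝ) + 1) ^ 2 * rho l j z ^ q * (dc l s (l j)) ^ 2))) := by
    intro s
    rw [div_vf ψ hψ q l c s j z (ds s) (hds2 s)]
    simp only [← hds1]
    have hs : (∑ k, c k * (((q : ℝ) + 1) * rho l k z ^ q) * (2 * dc l s (l k) *
          ((l k ⬝ᵥ z.1) * (l j ⬝ᵥ z.1) + (l k ⬝ᵥ z.2) * (l j ⬝ᵥ z.2)))) * ((q : ℝ) + 1) =
        2 * ((l j ⬝ᵥ z.1) * (∑ k, aa q l c z k * (l k ⬝ᵥ z.1) * dc l s (l k)) +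
          (l j ⬝ᵥ z.2) * (∑ k, aa q l c z k * (l k ⬝ᵥ z.2) * dc l s (l k))) := by
      rw [Finset.sum_mul, Finset.mul_sum, Finset.mul_sum, ← Finset.sum_add_distrib, Finset.mul_sum]
      refine Finset.sum_congr rfl fun k _ => ?_
      unfold aa
      ring
    linear_combination (((r : ℝ) + 1) / 2 * dc l s (l j) * (∏ i, aa q l c z (s i)) *
      deriv ψ (VV' q l c z) * rho l j z ^ q) * hs
  rw [Finset.sum_congr rfl fun s _ => hterm s, Finset.sum_add_distrib, ← Finset.mul_sum,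
    Finset.sum_add_distrib, ← Finset.mul_sum, ← Finset.mul_sum, ← Finset.mul_sum,
    ← Finset.mul_sum, ← Finset.mul_sum, ← Finset.mul_sum, hX, hY]
  unfold HH
  have hr : rho l j z ^ (q + 1) = rho l j z ^ q *
      ((l j ⬝ᵥ z.1) * (l j ⬝ᵥ z.1) + (l j ⬝ᵥ z.2) * (l j ⬝ᵥ z.2)) := by
    rw [pow_succ]
    congr 1
    unfold rho
    ring
  rw [hr]
  ring

theorem int_HH (hA2 : S_A2) (hA4 : S_A4) (hC0 : S_C0) (ψ : ℝ → ℝ) (v1 : ℝ) (hψ : Cut ψ v1) (q : ℕ)
    (l : κ → Fin (r + 1) → ℝ) (b : Fin (r + 1) → κ) (hb : dt l b ≠ 0) (c : κ → ℝ) (w : ℝ)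
    (hw : 0 < w) (hc : ∀ k, 0 ≤ c k) (hcb : ∀ i, c (b i) = w) (j : κ) :
    Integrable (HH ψ q l c j) ∧ ∫ z, HH ψ q l c j z = 0 := by
  choose ds hds1 hds2 using fun s : Fin r → κ => hA4.2.1 κ r l s
  have hpt : HH ψ q l c j = fun z => ∑ s : Fin r → κ,
      (((r : ℝ) + 1) * ((q : ℝ) + 1) / 2 * dc l s (l j)) *
      (fderiv ℝ (vfX ψ q l c s j) z (ds s, 0) + fderiv ℝ (vfY ψ q l c s j) z (0, ds s)) := by
    funext z
    exact HH_eq hA2 ψ hψ.smooth q l c j z ds hds1 hds2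
  have hX : ∀ s : Fin r → κ, Integrable (fun z => fderiv ℝ (vfX ψ q l c s j) z (ds s, 0)) ∧
      ∫ z, fderiv ℝ (vfX ψ q l c s j) z (ds s, 0) = 0 := fun s =>
    int_dir hC0 _ ((contDiff_vf ψ hψ.smooth q l c s j).1.of_le (by exact_mod_cast le_top))
      (hasCompactSupport_vf ψ v1 hψ q l b hb c w hw hc hcb s j).1 _
  have hY : ∀ s : Fin r → κ, Integrable (fun z => fderiv ℝ (vfY ψ q l c s j) z (0, ds s)) ∧
      ∫ z, fderiv ℝ (vfY ψ q l c s j) z (0, ds s) = 0 := fun s =>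
    int_dir hC0 _ ((contDiff_vf ψ hψ.smooth q l c s j).2.of_le (by exact_mod_cast le_top))
      (hasCompactSupport_vf ψ v1 hψ q l b hb c w hw hc hcb s j).2 _
  have hI : ∀ s : Fin r → κ, Integrable (fun z =>
      (((r : ℝ) + 1) * ((q : ℝ) + 1) / 2 * dc l s (l j)) *
      (fderiv ℝ (vfX ψ q l c s j) z (ds s, 0) + fderiv ℝ (vfY ψ q l c s j) z (0, ds s))) :=
    fun s => ((hX s).1.add (hY s).1).const_mul _
  rw [hpt]
  refine ⟨integrable_finsetSum _ fun s _ => hI s, ?_⟩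
  rw [integral_finsetSum _ fun s _ => hI s]
  refine Finset.sum_eq_zero fun s _ => ?_
  rw [integral_const_mul, integral_add (hX s).1 (hY s).1, (hX s).2, (hY s).2]
  simp

open Classical in
/-- the path of weights -/
def ct (b : Fin (r + 1) → κ) (w t : ℝ) (k : κ) : ℝ := if k ∈ Set.range b then w else t ^ 2 * w

open Classical in
/-- its derivative -/
def ct' (b : Fin (r + 1) → κ) (w t : ℝ) (k : κ) : ℝ := if k ∈ Set.range b then 0 else 2 * t * w

omit [Fintype κ] in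
theorem ct_nonneg (b : Fin (r + 1) → κ) (w : ℝ) (hw : 0 < w) (t : ℝ) (k : κ) :
    0 ≤ ct b w t k := by
  unfold ct
  split_ifs
  · exact hw.le
  · positivity

omit [Fintype κ] in
theorem ct_b (b : Fin (r + 1) → κ) (w : ℝ) (t : ℝ) (i : Fin (r + 1)) :
    ct b w t (b i) = w := by
  unfold ct
  rw [if_pos ⟨i, rfl⟩]

omit [Fintype κ] in
theorem hasDerivAt_ct (b : Fin (r + 1) → κ) (w : ℝ) (t : ℝ) (k : κ) :
    HasDerivAt (fun t => ct b w t k) (ct' b w t k) t := by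
  unfold ct ct'
  split_ifs
  · exact hasDerivAt_const t w
  · have h := (hasDerivAt_pow 2 t).mul_const w
    refine h.congr_deriv ?_
    simp

omit [Fintype κ] in
theorem continuous_ct (b : Fin (r + 1) → κ) (w : ℝ) (k : κ) :
    Continuous (fun t => ct b w t k) := by
  unfold ct
  split_ifs <;> fun_prop

omit [Fintype κ] in
theorem continuous_ct' (b : Fin (r + 1) → κ) (w : ℝ) (k : κ) :
    Continuous (fun t => ct' b w t k) := by
  unfold ct'
  split_ifs <;> fun_prop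

theorem hasDerivAt_F (hA4 : S_A4) (ψ : ℝ → ℝ) (hψ : ContDiff ℝ (⊤ : ℕ∞) ψ) (q : ℕ)
    (l : κ → Fin (r + 1) → ℝ) (b : Fin (r + 1) → κ) (w t : ℝ) (z : E2 (r + 1)) :
    HasDerivAt (fun t => ψ (VV' q l (ct b w t) z) * DS l (aa q l (ct b w t) z))
      (∑ k, ct' b w t k * HH ψ q l (ct b w t) k z) t := by
  have h1 : HasDerivAt (fun t => VV' q l (ct b w t) z)
      (∑ k, ct' b w t k * rho l k z ^ (q + 1)) t := by
    unfold VV'
    exact HasDerivAt.fun_sum fun k _ => (hasDerivAt_ct b w t k).mul_const _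
  have h2 : HasDerivAt (fun t => ψ (VV' q l (ct b w t) z))
      (deriv ψ (VV' q l (ct b w t) z) * ∑ k, ct' b w t k * rho l k z ^ (q + 1)) t :=
    HasDerivAt.comp t (hψ.differentiable (by simp) _).hasDerivAt h1
  have h3 := hA4.2.2 κ r l (fun t => aa q l (ct b w t) z)
    (fun k => ct' b w t k * ((q : ℝ) + 1) ^ 2 * rho l k z ^ q) t (by
      intro k
      unfold aa
      exact ((hasDerivAt_ct b w t k).mul_const _).mul_const _)
  have h4 := h2.fun_mul h3
  refine h4.congr_deriv ?_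
  unfold HH
  have e1 : (∑ k, ct' b w t k * rho l k z ^ (q + 1)) * DS l (aa q l (ct b w t) z) *
      deriv ψ (VV' q l (ct b w t) z) = ∑ k, ct' b w t k * (deriv ψ (VV' q l (ct b w t) z) *
        rho l k z ^ (q + 1) * DS l (aa q l (ct b w t) z)) := by
    rw [Finset.sum_mul, Finset.sum_mul]
    refine Finset.sum_congr rfl fun k _ => ?_
    ring
  have e2 : ψ (VV' q l (ct b w t) z) * (((r : ℝ) + 1) * ∑ s : Fin r → κ,
      (∏ i, aa q l (ct b w t) z (s i)) *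
        ∑ k, ct' b w t k * ((q : ℝ) + 1) ^ 2 * rho l k z ^ q * (dc l s (l k)) ^ 2) =
      ∑ k, ct' b w t k * (ψ (VV' q l (ct b w t) z) * (((r : ℝ) + 1) * ∑ s : Fin r → κ,
        (∏ i, aa q l (ct b w t) z (s i)) *
          (((q : ℝ) + 1) ^ 2 * rho l k z ^ q * (dc l s (l k)) ^ 2))) := by
    simp only [Finset.mul_sum]
    rw [Finset.sum_comm]
    refine Finset.sum_congr rfl fun k _ => ?_
    refine Finset.sum_congr rfl fun s _ => ?_
    ring
  simp only [mul_add]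
  rw [Finset.sum_add_distrib, ← e1, ← e2]
  ring

theorem continuous_V2 (q : ℕ) (l : κ → Fin (r + 1) → ℝ) (b : Fin (r + 1) → κ) (w : ℝ) :
    Continuous (fun p : ℝ × E2 (r + 1) => VV' q l (ct b w p.1) p.2) := by
  unfold VV'
  refine continuous_finsetSum _ fun k _ => ?_
  exact ((continuous_ct b w k).comp continuous_fst).mul
    (((continuous_rho l k).comp continuous_snd).pow _)

omit [Fintype κ] in
theorem continuous_aa2 (q : ℕ) (l : κ → Fin (r + 1) → ℝ) (b : Fin (r + 1) → κ) (w : ℝ) (k : κ) :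
    Continuous (fun p : ℝ × E2 (r + 1) => aa q l (ct b w p.1) p.2 k) := by
  unfold aa
  exact (((continuous_ct b w k).comp continuous_fst).mul continuous_const).mul
    (((continuous_rho l k).comp continuous_snd).pow _)

theorem continuous_DS2 (q : ℕ) (l : κ → Fin (r + 1) → ℝ) (b : Fin (r + 1) → κ) (w : ℝ) :
    Continuous (fun p : ℝ × E2 (r + 1) => DS l (aa q l (ct b w p.1) p.2)) := by
  unfold DS
  refine continuous_finsetSum _ fun f _ => ?_
  exact (continuous_finsetProd _ fun i _ => continuous_aa2 q l b w (f i)).mul continuous_const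

theorem continuous_HH2 (ψ : ℝ → ℝ) (hψ : ContDiff ℝ (⊤ : ℕ∞) ψ) (q : ℕ)
    (l : κ → Fin (r + 1) → ℝ) (b : Fin (r + 1) → κ) (w : ℝ) (k : κ) :
    Continuous (fun p : ℝ × E2 (r + 1) => HH ψ q l (ct b w p.1) k p.2) := by
  unfold HH
  have hd : Continuous (deriv ψ) := hψ.continuous_deriv (by simp)
  refine Continuous.add ?_ ?_
  · exact ((hd.comp (continuous_V2 q l b w)).mul
      (((continuous_rho l k).comp continuous_snd).pow _)).mul (continuous_DS2 q l b w)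
  · refine (hψ.continuous.comp (continuous_V2 q l b w)).mul (continuous_const.mul ?_)
    refine continuous_finsetSum _ fun s _ => ?_
    refine (continuous_finsetProd _ fun i _ => continuous_aa2 q l b w (s i)).mul ?_
    exact (continuous_const.mul (((continuous_rho l k).comp continuous_snd).pow _)).mul
      continuous_const

theorem HH_zero (ψ : ℝ → ℝ) (v1 : ℝ) (hψ : Cut ψ v1) (q : ℕ)
    (l : κ → Fin (r + 1) → ℝ) (b : Fin (r + 1) → κ) (c : κ → ℝ) (w : ℝ)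
    (hw : 0 < w) (hc : ∀ k, 0 ≤ c k) (hcb : ∀ i, c (b i) = w) (j : κ) (z : E2 (r + 1))
    (hz : z ∉ KK l b (1 + 1 / w)) : HH ψ q l c j z = 0 := by
  have hV : 1 ≤ VV' q l c z := by
    by_contra h
    push Not at h
    exact hz (mem_KK q l b c w hw hc hcb z h)
  have h1 : ψ (VV' q l c z) = 0 := hψ.zero _ (hψ.lt1.le.trans hV)
  have h2 : deriv ψ (VV' q l c z) = 0 := by
    have hev : ψ =ᶠ[𝓝 (VV' q l c z)] fun _ => 0 := by
      filter_upwards [eventually_gt_nhds (hψ.lt1.trans_le hV)] with v hv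
      exact hψ.zero v hv.le
    rw [hev.deriv_eq]
    simp
  unfold HH
  rw [h1, h2]
  simp

/-- the function `J` along the path is constant -/
theorem J_const (hA2 : S_A2) (hA4 : S_A4) (hC0 : S_C0) (ψ : ℝ → ℝ) (v1 : ℝ) (hψ : Cut ψ v1) (q : ℕ)
    (l : κ → Fin (r + 1) → ℝ) (b : Fin (r + 1) → κ) (hb : dt l b ≠ 0) (w : ℝ)
    (hw : 0 < w) :
    ∫ z, ψ (VV' q l (ct b w 1) z) * DS l (aa q l (ct b w 1) z) =
      ∫ z, ψ (VV' q l (ct b w 0) z) * DS l (aa q l (ct b w 0) z) := by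
  set F : ℝ → E2 (r + 1) → ℝ := fun t z => ψ (VV' q l (ct b w t) z) * DS l (aa q l (ct b w t) z)
    with hF
  set F' : ℝ → E2 (r + 1) → ℝ := fun t z => ∑ k, ct' b w t k * HH ψ q l (ct b w t) k z with hF'
  have hK := isCompact_KK l b hb (1 + 1 / w)
  have hFc2 : Continuous (fun p : ℝ × E2 (r + 1) => F p.1 p.2) := by
    rw [hF]
    exact (hψ.smooth.continuous.comp (continuous_V2 q l b w)).mul (continuous_DS2 q l b w)
  have hF'c2 : Continuous (fun p : ℝ × E2 (r + 1) => F' p.1 p.2) := by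
    rw [hF']
    refine continuous_finsetSum _ fun k _ => ?_
    exact ((continuous_ct' b w k).comp continuous_fst).mul (continuous_HH2 ψ hψ.smooth q l b w k)
  have hFc : ∀ t, Continuous (F t) := fun t =>
    hFc2.comp (continuous_const.prodMk continuous_id)
  have hF'c : ∀ t, Continuous (F' t) := fun t =>
    hF'c2.comp (continuous_const.prodMk continuous_id)
  have hF0 : ∀ t z, z ∉ KK l b (1 + 1 / w) → F t z = 0 := by
    intro t z hz
    have hV : 1 ≤ VV' q l (ct b w t) z := by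
      by_contra h
      push Not at h
      exact hz (mem_KK q l b _ w hw (ct_nonneg b w hw t) (ct_b b w t) z h)
    rw [hF]
    dsimp only
    rw [hψ.zero _ (hψ.lt1.le.trans hV), zero_mul]
  have hF'0 : ∀ t z, z ∉ KK l b (1 + 1 / w) → F' t z = 0 := by
    intro t z hz
    rw [hF']
    refine Finset.sum_eq_zero fun k _ => ?_
    rw [HH_zero ψ v1 hψ q l b _ w hw (ct_nonneg b w hw t) (ct_b b w t) k z hz, mul_zero]
  have hderiv : ∀ t, HasDerivAt (fun t => ∫ z, F t z) 0 t := by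
    intro t
    obtain ⟨C, hC⟩ := ((isCompact_closedBall t 1).prod hK).exists_bound_of_continuousOn
      hF'c2.continuousOn
    have hCn : 0 ≤ max C 0 := le_max_right _ _
    have h := hasDerivAt_integral_of_dominated_loc_of_deriv_le (μ := volume) (F := F) (F' := F')
      (x₀ := t) (s := Metric.closedBall t 1)
      (bound := (KK l b (1 + 1 / w)).indicator (fun _ => max C 0))
      (Metric.closedBall_mem_nhds t one_pos)
      (Eventually.of_forall fun t' => (hFc t').aestronglyMeasurable)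
      ((hFc t).integrable_of_hasCompactSupport (HasCompactSupport.intro hK (hF0 t)))
      ((hF'c t).aestronglyMeasurable)
      (Eventually.of_forall fun z t' ht' => by
        by_cases hz : z ∈ KK l b (1 + 1 / w)
        · rw [Set.indicator_of_mem hz]
          exact (hC (t', z) ⟨ht', hz⟩).trans (le_max_left _ _)
        · rw [Set.indicator_of_notMem hz, hF'0 t' z hz, norm_zero])
      ((integrable_indicator_iff hK.measurableSet).mpr
        (integrableOn_const hK.measure_lt_top.ne))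
      (Eventually.of_forall fun z t' _ => hasDerivAt_F hA4 ψ hψ.smooth q l b w t' z)
    have h0 : ∫ z, F' t z = 0 := by
      rw [hF']
      dsimp only
      have hi := fun k => int_HH hA2 hA4 hC0 ψ v1 hψ q l b hb (ct b w t) w hw
        (ct_nonneg b w hw t) (ct_b b w t) k
      rw [integral_finsetSum _ fun k _ => (hi k).1.const_mul _]
      refine Finset.sum_eq_zero fun k _ => ?_
      rw [integral_const_mul, (hi k).2, mul_zero]
    rw [← h0]
    exact h.2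
  exact is_const_of_deriv_eq_zero (fun t => (hderiv t).differentiableAt)
    (fun t => (hderiv t).deriv) 1 0

omit [Fintype κ] in
theorem b_inj (l : κ → Fin n → ℝ) (b : Fin n → κ) (hb : dt l b ≠ 0) : Function.Injective b := by
  intro i j hij
  by_contra hne
  apply hb
  unfold dt
  refine Matrix.det_zero_of_row_eq hne ?_
  funext k
  simp only [Matrix.of_apply, hij]

theorem V_zero (q : ℕ) (l : κ → Fin (r + 1) → ℝ) (b : Fin (r + 1) → κ)
    (hb : Function.Injective b) (w : ℝ) (z : E2 (r + 1)) :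
    VV' q l (ct b w 0) z = VV' q (fun i => l (b i)) (fun _ => w) z := by
  unfold VV'
  symm
  refine Finset.sum_of_injOn b hb.injOn (fun _ _ => Finset.mem_coe.mpr (Finset.mem_univ _))
    ?_ ?_
  · intro k _ hk
    have hk' : k ∉ Set.range b := by
      rintro ⟨i, hi⟩
      exact hk ⟨i, Finset.mem_coe.mpr (Finset.mem_univ _), hi⟩
    unfold ct
    rw [if_neg hk']
    simp
  · intro i _
    rw [ct_b]
    rfl

theorem DS_zero (q : ℕ) (l : κ → Fin (r + 1) → ℝ) (b : Fin (r + 1) → κ)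
    (hb : Function.Injective b) (w : ℝ) (z : E2 (r + 1)) :
    DS l (aa q l (ct b w 0) z) = DS (fun i => l (b i)) (aa q (fun i => l (b i)) (fun _ => w) z) := by
  unfold DS
  symm
  refine Finset.sum_of_injOn (fun g : Fin (r + 1) → Fin (r + 1) => b ∘ g) ?_
    (fun _ _ => Finset.mem_coe.mpr (Finset.mem_univ _)) ?_ ?_
  · intro g _ g' _ h
    exact hb.comp_left h
  · intro f _ hf
    have : ∃ i, f i ∉ Set.range b := by
      by_contra hcon
      push Not at hcon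
      choose g hg using hcon
      exact hf ⟨g, Finset.mem_coe.mpr (Finset.mem_univ _), funext hg⟩
    obtain ⟨i, hi⟩ := this
    rw [Finset.prod_eq_zero (Finset.mem_univ i), zero_mul]
    unfold aa ct
    rw [if_neg hi]
    simp
  · intro g _
    have h1 : dt (fun i => l (b i)) g = dt l (b ∘ g) := rfl
    rw [h1]
    congr 1
    refine Finset.prod_congr rfl fun i _ => ?_
    show aa q (fun i => l (b i)) (fun _ => w) z (g i) = aa q l (ct b w 0) z (b (g i))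
    unfold aa
    rw [ct_b]
    rfl

end C4aux

open C4aux in
theorem C4 (hC0 : S_C0) (hA2 : S_A2) (hA4 : S_A4) : S_C4 := by
  intro κ _ r m hm l b hb ψ v1 hψ w hw
  obtain ⟨q, rfl⟩ : ∃ q, m = q + 1 := ⟨m - 1, by omega⟩
  have hinj := b_inj l b hb
  have h := J_const hA2 hA4 hC0 ψ v1 hψ q l b hb w hw
  have h1 : ct b w 1 = fun _ => w := by
    funext k
    unfold ct
    split_ifs <;> simp
  rw [h1] at h
  simp only [V_zero q l b hinj, DS_zero q l b hinj] at h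
  unfold J0
  simp only [V0_eq, a0_eq]
  exact h

end H712MA
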