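import Pool.Agent.H712R2.MA.Stm

set_option autoImplicit false

noncomputable section

open MeasureTheory Filter Topology
open scoped BigOperators Matrix ENNReal

namespace H712MA

/-- C6: assembly of the complex side. -/
theorem C6 (h2 : S_C2) (h3 : S_C3) (h4 : S_C4) (h5 : S_C5) : S_C6 := by
  intro κ _ r L m hm l hl ψ v1 hψ
  have hlim := h3 κ r L m hm l hl ψ v1 hψ
  have hle : J0 ψ m l (fun _ => L.c0 ^ (2 * m)) ≤ NN ψ L m l 1 := by
    refine le_of_tendsto hlim ?_
    filter_upwards [eventually_ge_atTop (1 : ℝ)] with c hc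
    exact h2 κ r L m hm l hl ψ v1 hψ 1 c le_rfl hc
  have hNN : NN ψ L m l 1 =
      ∫ z : E2 (r + 1), ψ (VV L m l z) * DS l (fun k => af L m (pk (l k) z)) := by
    unfold NN
    simp only [one_pow, one_mul]
  obtain ⟨b, hb⟩ := hl
  have hw : 0 < L.c0 ^ (2 * m) := pow_pos L.c0_pos _
  have e1 := h4 κ r m hm l b hb ψ v1 hψ _ hw
  have hb' : dt (fun i => l (b i)) id ≠ 0 := hb
  have e2 := h5 (r + 1) m hm (fun i => l (b i)) hb' ψ v1 hψ _ hw
  rw [← hNN, ← e2, ← e1]
  exact hle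

end H712MA
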