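import Pool.Agent.H712R2.MA.Stm

set_option autoImplicit false

noncomputable section

open MeasureTheory Filter Topology
open scoped BigOperators Matrix ENNReal

namespace H712MA

namespace TE

lemma prod_le_aux {ι : Type} [DecidableEq ι] (s : Finset ι) (a b : ι → ℝ)
    (hb : ∀ i, 0 ≤ b i) (hab : ∀ i, b i ≤ a i) :
    ∏ i ∈ s, a i ≤ ∏ i ∈ s, b i + ∑ i ∈ s, ((a i - b i) * ∏ j ∈ s.erase i, a j) := by
  classical
  have ha : ∀ i, 0 ≤ a i := fun i => (hb i).trans (hab i)
  induction s using Finset.induction_on with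
  | empty => simp
  | insert i s hi ih =>
    have hS : 0 ≤ ∑ k ∈ s, ((a k - b k) * ∏ j ∈ s.erase k, a j) :=
      Finset.sum_nonneg fun k _ => mul_nonneg (sub_nonneg.2 (hab k))
        (Finset.prod_nonneg fun j _ => ha j)
    have h1 : ∑ k ∈ s, ((a k - b k) * ∏ j ∈ (insert i s).erase k, a j) =
        a i * ∑ k ∈ s, ((a k - b k) * ∏ j ∈ s.erase k, a j) := by
      rw [Finset.mul_sum]
      refine Finset.sum_congr rfl fun k hk => ?_
      have hne : i ≠ k := fun h => hi (h ▸ hk)
      rw [Finset.erase_insert_of_ne hne, Finset.prod_insert (by simp [hi])]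
      ring
    rw [Finset.prod_insert hi, Finset.prod_insert hi, Finset.sum_insert hi,
      Finset.erase_insert hi, h1]
    have h2 : b i * ∏ j ∈ s, a j ≤ b i * (∏ j ∈ s, b j +
        ∑ k ∈ s, ((a k - b k) * ∏ j ∈ s.erase k, a j)) := mul_le_mul_of_nonneg_left ih (hb i)
    have h3 : b i * ∑ k ∈ s, ((a k - b k) * ∏ j ∈ s.erase k, a j) ≤
        a i * ∑ k ∈ s, ((a k - b k) * ∏ j ∈ s.erase k, a j) :=
      mul_le_mul_of_nonneg_right (hab i) hS
    nlinarith [h2, h3]

lemma prod_le {n : ℕ} (a b : Fin n → ℝ)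
    (hb : ∀ i, 0 ≤ b i) (hab : ∀ i, b i ≤ a i) :
    ∏ i, a i ≤ ∏ i, b i + ∑ i, ∏ j, (if j = i then a j - b j else a j) := by
  refine (prod_le_aux Finset.univ a b hb hab).trans (le_of_eq ?_)
  congr 1
  refine Finset.sum_congr rfl fun i _ => ?_
  rw [← Finset.mul_prod_erase Finset.univ _ (Finset.mem_univ i)]
  rw [if_pos rfl]
  congr 1
  refine Finset.prod_congr rfl fun j hj => ?_
  rw [if_neg (Finset.ne_of_mem_erase hj)]

lemma continuous_pk {n : ℕ} (v : Fin n → ℝ) : Continuous (pk v) := by
  have h : pk v = fun z => Complex.equivRealProdCLM.symm (v ⬝ᵥ z.1, v ⬝ᵥ z.2) := by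
    funext z
    apply Complex.ext <;> simp [pk]
  rw [h]
  apply Complex.equivRealProdCLM.symm.continuous.comp
  unfold dotProduct
  fun_prop

lemma measurable_gd (L : Lens) (m : ℕ) (he : Measurable L.e) : Measurable (gd L m) := by
  classical
  have hW : MeasurableSet {p | p ∈ L.W} := L.isOpen.measurableSet
  unfold gd
  refine Measurable.ite hW ?_ measurable_const
  exact (measurable_const.mul (he.pow_const _)).mul (measurable_deriv _)

lemma measurable_af (L : Lens) (m : ℕ) (he : Measurable L.e) : Measurable (af L m) := by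
  unfold af
  exact (measurable_gd L m he).norm.pow_const _

lemma measurable_qq (h2 : S_H2) (h3 : S_H3) : Measurable qq := by
  classical
  obtain ⟨hWo, hin, -, hout, -, -, -, hem, -, -⟩ := h2
  obtain ⟨-, -, -, -, -, hg⟩ := h3
  have hW : MeasurableSet WW := hWo.measurableSet
  have h0 : Measurable ((Metric.ball (0:ℂ) 1).piecewise gg (fun _ => (0:ℂ))) :=
    ContinuousOn.measurable_piecewise hg continuousOn_const Metric.isOpen_ball.measurableSet
  have h1 : Measurable (fun p => gg (eta p)) := by
    have : (fun p => gg (eta p)) =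
        WW.piecewise (fun p => ((Metric.ball (0:ℂ) 1).piecewise gg (fun _ => (0:ℂ))) (eta p))
          (fun _ => gg 1) := by
      funext p
      by_cases hp : p ∈ WW
      · rw [Set.piecewise_eq_of_mem _ _ _ hp]
        rw [Set.piecewise_eq_of_mem]
        simpa using (hin p hp).1
      · rw [Set.piecewise_eq_of_notMem _ _ _ hp, hout p hp]
    rw [this]
    exact Measurable.piecewise hW (h0.comp hem) measurable_const
  unfold qq
  exact measurable_const.mul (measurable_norm.comp (Complex.measurable_im.comp h1))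

end TE

open TE in
theorem E (h2 : S_H2) (h3 : S_H3) (h5 : S_H5) (hF : S_F) : S_E := by
  classical
  intro L hLW hLe κ _ r m hm l
  have hqm : Measurable qq := measurable_qq h2 h3
  have hem : Measurable L.e := by
    rw [hLe]; exact h2.2.2.2.2.2.2.2.1
  have ham : Measurable (af L m) := measurable_af L m hem
  have ha0 : ∀ p, 0 ≤ af L m p := fun p => by unfold af; positivity
  have hq0 : ∀ p, 0 ≤ qq p := fun p => by unfold qq; positivity
  have hqa : ∀ p, qq p * af L m p ≤ af L m p := by
    intro p
    by_cases hp : p ∈ WW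
    · have h1 : qq p ≤ 1 := by
        unfold qq
        exact h3.2.2.2.1 _ (h2.2.1 p hp).1
      calc qq p * af L m p ≤ 1 * af L m p := mul_le_mul_of_nonneg_right h1 (ha0 p)
        _ = af L m p := one_mul _
    · have h0 : af L m p = 0 := by
        unfold af gd
        rw [if_neg (by rw [hLW]; exact hp)]
        simp
      rw [h0]; simp
  -- the functions
  set bb : Fin (r+1) → Fin (r+1) → ℂ → ℝ≥0∞ := fun i j p =>
    if j = i then ENNReal.ofReal (af L m p * (1 - qq p)) else ENNReal.ofReal (af L m p) with hbb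
  have hbbm : ∀ i j, Measurable (bb i j) := by
    intro i j
    by_cases hij : j = i
    · simp only [hbb, if_pos hij]
      exact ENNReal.measurable_ofReal.comp (ham.mul (measurable_const.sub hqm))
    · simp only [hbb, if_neg hij]
      exact ENNReal.measurable_ofReal.comp ham
  have hpt : ∀ z : E2 (r+1), ENNReal.ofReal (DS l (fun k => af L m (pk (l k) z))) ≤
      ENNReal.ofReal (DS l (fun k => qq (pk (l k) z) * af L m (pk (l k) z))) +
      ∑ f : Fin (r+1) → κ, ∑ i : Fin (r+1),
        ENNReal.ofReal ((dt l f)^2) * ∏ j, bb i j (pk (l (f j)) z) := by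
    intro z
    have e1 : ∀ (f : Fin (r+1) → κ) (i : Fin (r+1)),
        ENNReal.ofReal ((dt l f)^2) * ∏ j, bb i j (pk (l (f j)) z) =
        ENNReal.ofReal ((dt l f)^2 * ∏ j, (if j = i then
          af L m (pk (l (f j)) z) - qq (pk (l (f j)) z) * af L m (pk (l (f j)) z)
          else af L m (pk (l (f j)) z))) := by
      intro f i
      rw [ENNReal.ofReal_mul (sq_nonneg _)]
      congr 1
      rw [ENNReal.ofReal_prod_of_nonneg]
      · refine Finset.prod_congr rfl fun j _ => ?_
        by_cases hij : j = i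
        · simp only [hbb, if_pos hij]
          congr 1
          ring
        · simp only [hbb, if_neg hij]
      · intro j _
        by_cases hij : j = i
        · rw [if_pos hij]
          exact sub_nonneg.2 (hqa _)
        · rw [if_neg hij]
          exact ha0 _
    have hnn : ∀ (f : Fin (r+1) → κ) (i : Fin (r+1)), 0 ≤ (dt l f)^2 * ∏ j, (if j = i then
          af L m (pk (l (f j)) z) - qq (pk (l (f j)) z) * af L m (pk (l (f j)) z)
          else af L m (pk (l (f j)) z)) := by
      intro f i
      refine mul_nonneg (sq_nonneg _) (Finset.prod_nonneg fun j _ => ?_)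
      by_cases hij : j = i
      · rw [if_pos hij]
        exact sub_nonneg.2 (hqa _)
      · rw [if_neg hij]
        exact ha0 _
    have hD0 : 0 ≤ DS l (fun k => qq (pk (l k) z) * af L m (pk (l k) z)) := by
      unfold DS
      exact Finset.sum_nonneg fun f _ => mul_nonneg
        (Finset.prod_nonneg fun j _ => mul_nonneg (hq0 _) (ha0 _)) (sq_nonneg _)
    simp_rw [e1]
    rw [show (∑ f : Fin (r+1) → κ, ∑ i : Fin (r+1), ENNReal.ofReal ((dt l f)^2 * ∏ j,
          (if j = i then
          af L m (pk (l (f j)) z) - qq (pk (l (f j)) z) * af L m (pk (l (f j)) z)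
          else af L m (pk (l (f j)) z)))) =
        ENNReal.ofReal (∑ f : Fin (r+1) → κ, ∑ i : Fin (r+1), ((dt l f)^2 * ∏ j,
          (if j = i then
          af L m (pk (l (f j)) z) - qq (pk (l (f j)) z) * af L m (pk (l (f j)) z)
          else af L m (pk (l (f j)) z)))) by
      rw [ENNReal.ofReal_sum_of_nonneg (fun f _ => Finset.sum_nonneg fun i _ => hnn f i)]
      refine Finset.sum_congr rfl fun f _ => ?_
      rw [ENNReal.ofReal_sum_of_nonneg (fun i _ => hnn f i)]]
    rw [← ENNReal.ofReal_add hD0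
      (Finset.sum_nonneg fun f _ => Finset.sum_nonneg fun i _ => hnn f i)]
    apply ENNReal.ofReal_le_ofReal
    unfold DS
    rw [← Finset.sum_add_distrib]
    refine Finset.sum_le_sum fun f _ => ?_
    have h := prod_le (fun j => af L m (pk (l (f j)) z))
      (fun j => qq (pk (l (f j)) z) * af L m (pk (l (f j)) z))
      (fun j => mul_nonneg (hq0 _) (ha0 _)) (fun j => hqa _)
    have h' := mul_le_mul_of_nonneg_left h (sq_nonneg (dt l f))
    rw [mul_add, Finset.mul_sum] at h'
    calc (∏ i, af L m (pk (l (f i)) z)) * dt l f ^ 2 =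
        dt l f ^ 2 * ∏ i, af L m (pk (l (f i)) z) := by ring
      _ ≤ _ := h'
      _ = _ := by rw [mul_comm (dt l f ^ 2) (∏ i, qq (pk (l (f i)) z) * af L m (pk (l (f i)) z))]
  have hmeas : ∀ (f : Fin (r+1) → κ) (i : Fin (r+1)), Measurable (fun z : E2 (r+1) =>
      ENNReal.ofReal ((dt l f)^2) * ∏ j, bb i j (pk (l (f j)) z)) := by
    intro f i
    refine measurable_const.mul ?_
    exact Finset.measurable_prod _ fun j _ => (hbbm i j).comp (continuous_pk _).measurable
  have hterm : ∀ (f : Fin (r+1) → κ) (i : Fin (r+1)),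
      ∫⁻ z : E2 (r+1), ENNReal.ofReal ((dt l f)^2) * ∏ j, bb i j (pk (l (f j)) z) ≤
      ENNReal.ofReal (m * Real.pi) ^ r * ∫⁻ p, ENNReal.ofReal (af L m p * (1 - qq p)) := by
    intro f i
    refine (hF κ (r+1) l f (bb i) (hbbm i)).trans (le_of_eq ?_)
    rw [← Finset.mul_prod_erase Finset.univ _ (Finset.mem_univ i)]
    have e1 : ∫⁻ p, bb i i p = ∫⁻ p, ENNReal.ofReal (af L m p * (1 - qq p)) := by
      simp only [hbb, if_pos]
    have e2 : ∏ j ∈ Finset.univ.erase i, ∫⁻ p, bb i j p = ENNReal.ofReal (m * Real.pi) ^ r := by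
      rw [Finset.prod_congr rfl (g := fun _ => ENNReal.ofReal (m * Real.pi))]
      · rw [Finset.prod_const, Finset.card_erase_of_mem (Finset.mem_univ i)]
        simp
      · intro j hj
        simp only [hbb, if_neg (Finset.ne_of_mem_erase hj)]
        exact (h5 L hLW hLe).1 m hm
    rw [e1, e2, mul_comm]
  calc ∫⁻ z in {z : E2 (r + 1) | VV L m l z < 1}, ENNReal.ofReal (DS l (fun k => af L m (pk (l k) z)))
      ≤ ∫⁻ z in {z : E2 (r + 1) | VV L m l z < 1},
        (ENNReal.ofReal (DS l (fun k => qq (pk (l k) z) * af L m (pk (l k) z))) +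
        ∑ f : Fin (r+1) → κ, ∑ i : Fin (r+1),
          ENNReal.ofReal ((dt l f)^2) * ∏ j, bb i j (pk (l (f j)) z)) :=
        lintegral_mono fun z => hpt z
    _ = (∫⁻ z in {z : E2 (r + 1) | VV L m l z < 1},
        ENNReal.ofReal (DS l (fun k => qq (pk (l k) z) * af L m (pk (l k) z)))) +
        ∫⁻ z in {z : E2 (r + 1) | VV L m l z < 1}, ∑ f : Fin (r+1) → κ, ∑ i : Fin (r+1),
          ENNReal.ofReal ((dt l f)^2) * ∏ j, bb i j (pk (l (f j)) z) := by
        refine lintegral_add_right _ ?_
        exact Finset.measurable_sum _ fun f _ => Finset.measurable_sum _ fun i _ => hmeas f i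
    _ ≤ _ := by
        gcongr
        calc ∫⁻ z in {z : E2 (r + 1) | VV L m l z < 1}, ∑ f : Fin (r+1) → κ, ∑ i : Fin (r+1),
              ENNReal.ofReal ((dt l f)^2) * ∏ j, bb i j (pk (l (f j)) z)
            ≤ ∫⁻ z : E2 (r+1), ∑ f : Fin (r+1) → κ, ∑ i : Fin (r+1),
              ENNReal.ofReal ((dt l f)^2) * ∏ j, bb i j (pk (l (f j)) z) :=
              setLIntegral_le_lintegral _ _
          _ = ∑ f : Fin (r+1) → κ, ∑ i : Fin (r+1), ∫⁻ z : E2 (r+1),
              ENNReal.ofReal ((dt l f)^2) * ∏ j, bb i j (pk (l (f j)) z) := by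
              rw [lintegral_finsetSum _ fun f _ => Finset.measurable_sum _ fun i _ => hmeas f i]
              refine Finset.sum_congr rfl fun f _ => ?_
              rw [lintegral_finsetSum _ fun i _ => hmeas f i]
          _ ≤ ∑ f : Fin (r+1) → κ, ∑ i : Fin (r+1), (ENNReal.ofReal (m * Real.pi) ^ r *
              ∫⁻ p, ENNReal.ofReal (af L m p * (1 - qq p))) :=
              Finset.sum_le_sum fun f _ => Finset.sum_le_sum fun i _ => hterm f i
          _ = _ := by
              rw [Finset.sum_const, Finset.sum_const, Finset.card_univ, Finset.card_univ,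
                Fintype.card_pi_const, Fintype.card_fin, nsmul_eq_mul, nsmul_eq_mul]
              push_cast
              ring

end H712MA
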