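import Pool.Agent.H712R2.MA.Stm

/-!
Task F: change of variables `z ↦ (l_{f i}(z))_i`.
-/

set_option autoImplicit false

noncomputable section

open MeasureTheory Filter Topology
open scoped BigOperators Matrix ENNReal

namespace H712MA

namespace FF

/-- product of lower integrals -/
lemma lintegral_prod_fin : ∀ (n : ℕ) (b : Fin n → ℂ → ℝ≥0∞), (∀ i, Measurable (b i)) →
    ∫⁻ z : Fin n → ℂ, ∏ i, b i (z i) = ∏ i, ∫⁻ p, b i p := by
  intro n
  induction n with
  | zero =>
    intro b hb
    simp [volume_pi, Measure.pi_empty_univ]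
  | succ n ih =>
    intro b hb
    have h := volume_preserving_piFinSuccAbove (fun _ : Fin (n + 1) => ℂ) 0
    have hF : Measurable (fun z : Fin (n + 1) → ℂ => ∏ i, b i (z i)) :=
      Finset.measurable_fun_prod _ fun i _ => (hb i).comp (measurable_pi_apply i)
    rw [← h.symm.lintegral_comp hF]
    have e : ∀ ty : ℂ × (Fin n → ℂ),
        ∏ i, b i ((MeasurableEquiv.piFinSuccAbove (fun _ : Fin (n + 1) => ℂ) 0).symm ty i) =
          b 0 ty.1 * ∏ i : Fin n, b i.succ (ty.2 i) := by
      intro ty
      rw [Fin.prod_univ_succ]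
      congr 1
    rw [lintegral_congr e]
    have hG : Measurable (fun y : Fin n → ℂ => ∏ i : Fin n, b i.succ (y i)) :=
      Finset.measurable_fun_prod _ fun i _ => (hb i.succ).comp (measurable_pi_apply i)
    have h2 := lintegral_prod_mul (μ := (volume : Measure ℂ))
      (ν := (volume : Measure (Fin n → ℂ))) (hb 0).aemeasurable hG.aemeasurable
    rw [Fin.prod_univ_succ, ← ih (fun i => b i.succ) (fun i => hb i.succ), ← h2]
    rfl

/-- splitting real and imaginary parts preserves volume -/
lemma mp_split (n : ℕ) :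
    MeasurePreserving (fun z : Fin n → ℂ => ((fun i => (z i).re, fun i => (z i).im) : E2 n)) := by
  have h1 : MeasurePreserving (fun (z : Fin n → ℂ) (i : Fin n) =>
      Complex.measurableEquivRealProd (z i)) :=
    volume_preserving_pi fun _ => Complex.volume_preserving_equiv_real_prod
  have h2 := volume_measurePreserving_arrowProdEquivProdArrow ℝ ℝ (Fin n)
  exact h2.comp h1

end FF

theorem F : S_F := by
  intro κ n l f b hb
  by_cases h0 : dt l f = 0
  · have : ∀ z : E2 n, ENNReal.ofReal ((dt l f) ^ 2) * ∏ i, b i (pk (l (f i)) z) = 0 := by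
      intro z
      rw [h0]
      simp
    rw [lintegral_congr this]
    simp
  · set A : Matrix (Fin n) (Fin n) ℝ := Matrix.of fun i j => l (f i) j with hA
    have hdet : A.det ≠ 0 := h0
    have hm := Real.map_matrix_volume_pi_eq_smul_volume_pi hdet
    have hT : Measurable (Matrix.toLin' A) :=
      (LinearMap.continuous_of_finiteDimensional (Matrix.toLin' A)).measurable
    have hmap : Measure.map (Prod.map (Matrix.toLin' A) (Matrix.toLin' A)) (volume : Measure (E2 n)) =
        (ENNReal.ofReal |A.det⁻¹| * ENNReal.ofReal |A.det⁻¹|) • (volume : Measure (E2 n)) := by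
      have h1 := Measure.map_prod_map (volume : Measure (Fin n → ℝ)) (volume : Measure (Fin n → ℝ))
        hT hT
      rw [hm] at h1
      rw [Measure.volume_eq_prod, ← h1, Measure.prod_smul_left, Measure.prod_smul_right, smul_smul]
    set G : E2 n → ℝ≥0∞ := fun z => ∏ i, b i ⟨z.1 i, z.2 i⟩ with hG
    have hGm : Measurable G := by
      refine Finset.measurable_fun_prod _ fun i _ => (hb i).comp ?_
      have : (fun z : E2 n => (⟨z.1 i, z.2 i⟩ : ℂ)) =
          fun z : E2 n => Complex.measurableEquivRealProd.symm (z.1 i, z.2 i) := rfl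
      rw [this]
      refine Complex.measurableEquivRealProd.symm.measurable.comp ?_
      exact ((measurable_pi_apply i).comp measurable_fst).prodMk
        ((measurable_pi_apply i).comp measurable_snd)
    have e1 : ∀ z : E2 n, ∏ i, b i (pk (l (f i)) z) =
        G (Prod.map (Matrix.toLin' A) (Matrix.toLin' A) z) := by
      intro z
      rfl
    have e2 : ∫⁻ z : E2 n, G z = ∏ i, ∫⁻ p, b i p := by
      rw [← FF.lintegral_prod_fin n b hb, ← (FF.mp_split n).lintegral_comp hGm]
    rw [lintegral_const_mul' _ _ ENNReal.ofReal_ne_top, lintegral_congr e1,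
      ← lintegral_map hGm (hT.prodMap hT), hmap, lintegral_smul_measure, e2, smul_eq_mul,
      ← mul_assoc]
    have e3 : ENNReal.ofReal ((dt l f) ^ 2) *
        (ENNReal.ofReal |A.det⁻¹| * ENNReal.ofReal |A.det⁻¹|) = 1 := by
      rw [← ENNReal.ofReal_mul (abs_nonneg _), ← ENNReal.ofReal_mul (sq_nonneg _)]
      have : (dt l f) ^ 2 * (|A.det⁻¹| * |A.det⁻¹|) = 1 := by
        rw [abs_mul_abs_self]
        have : dt l f = A.det := rfl
        rw [this]
        field_simp
      rw [this, ENNReal.ofReal_one]
    rw [e3, one_mul]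

end H712MA
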