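import Pool.Agent.H712R2.MA.Stm

/-! # Task H2 (helper760): the inverse `η` of `h` and the lens -/

set_option autoImplicit false

noncomputable section

open MeasureTheory Filter Topology
open scoped BigOperators Matrix ENNReal

namespace H712MA

namespace H2aux

theorem eta_spec {p : ℂ} (hp : p ∈ WW) : ‖eta p‖ < 1 ∧ hh (eta p) = p := by
  have hp' : ∃ z, z ∈ Metric.ball (0 : ℂ) 1 ∧ hh z = p := hp
  have h := Classical.choose_spec hp'
  have e : eta p = Classical.choose hp' := by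
    unfold eta
    rw [dif_pos hp']
  rw [e]
  exact ⟨by simpa using h.1, h.2⟩

theorem eta_off {p : ℂ} (hp : p ∉ WW) : eta p = 1 := by
  have hp' : ¬ ∃ z, z ∈ Metric.ball (0 : ℂ) 1 ∧ hh z = p := hp
  unfold eta
  rw [dif_neg hp']

theorem hh_mem {z : ℂ} (hz : ‖z‖ < 1) : hh z ∈ WW := ⟨z, by simpa using hz, rfl⟩

theorem norm_le_one (p : ℂ) : ‖eta p‖ ≤ 1 := by
  by_cases hp : p ∈ WW
  · exact (eta_spec hp).1.le
  · rw [eta_off hp, norm_one]

variable (h1 : S_H1)

include h1

theorem inj {z w : ℂ} (hz : ‖z‖ < 1) (hw : ‖w‖ < 1) (h : hh z = hh w) : z = w := by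
  obtain ⟨_, _, _, _, _, _, _, hL, _⟩ := h1
  have h2 := hL z w hz hw
  rw [h, sub_self, norm_zero] at h2
  have h3 : (0 : ℝ) < 4 / Real.pi ^ 2 := by positivity
  have h4 : ‖z - w‖ ≤ 0 := by
    by_contra hc
    push Not at hc
    have := mul_pos h3 hc
    linarith
  exact sub_eq_zero.1 (norm_le_zero_iff.1 h4)

theorem eta_hh {z : ℂ} (hz : ‖z‖ < 1) : eta (hh z) = z :=
  inj h1 (eta_spec (hh_mem hz)).1 hz (eta_spec (hh_mem hz)).2

theorem hd_ne {z : ℂ} (hz : ‖z‖ < 1) : hd z ≠ 0 := by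
  obtain ⟨_, hre, _⟩ := h1
  intro h
  have h2 := hre z hz
  rw [h, Complex.zero_re] at h2
  have h3 : (0 : ℝ) < 4 / Real.pi ^ 2 := by positivity
  linarith

theorem diff_hh : DifferentiableOn ℂ hh (Metric.ball 0 1) := by
  intro z hz
  exact (h1.1 z (by simpa using hz)).differentiableAt.differentiableWithinAt

theorem open_WW : IsOpen WW := by
  rw [isOpen_iff_mem_nhds]
  rintro p ⟨z, hz, rfl⟩
  have hz' : ‖z‖ < 1 := by simpa using hz
  have hb : Metric.ball (0 : ℂ) 1 ∈ 𝓝 z := Metric.isOpen_ball.mem_nhds hz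
  have ha : AnalyticAt ℂ hh z := (diff_hh h1).analyticAt hb
  have hs : HasStrictDerivAt hh (deriv hh z) z := ha.hasStrictDerivAt
  have hd' : deriv hh z = hd z := (h1.1 z hz').deriv
  rw [hd'] at hs
  have hm := hs.map_nhds_eq (hd_ne h1 hz')
  rw [← hm]
  exact image_mem_map hb

theorem lip {p q : ℂ} (hp : p ∈ WW) (hq : q ∈ WW) :
    ‖eta p - eta q‖ ≤ Real.pi ^ 2 / 4 * ‖p - q‖ := by
  have h2 := h1.2.2.2.2.2.2.2.1 (eta p) (eta q) (eta_spec hp).1 (eta_spec hq).1
  rw [(eta_spec hp).2, (eta_spec hq).2] at h2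
  have h3 : (0 : ℝ) < Real.pi ^ 2 / 4 := by positivity
  calc ‖eta p - eta q‖ = Real.pi ^ 2 / 4 * (4 / Real.pi ^ 2 * ‖eta p - eta q‖) := by
        have : Real.pi ≠ 0 := Real.pi_ne_zero
        field_simp
    _ ≤ Real.pi ^ 2 / 4 * ‖p - q‖ := mul_le_mul_of_nonneg_left h2 h3.le

theorem contAt {p : ℂ} (hp : p ∈ WW) : ContinuousAt eta p := by
  have hL : LipschitzOnWith (Real.toNNReal (Real.pi ^ 2 / 4)) eta WW := by
    apply LipschitzOnWith.of_dist_le_mul
    intro x hx y hy
    rw [dist_eq_norm, dist_eq_norm, Real.coe_toNNReal _ (by positivity)]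
    exact lip h1 hx hy
  exact hL.continuousOn.continuousAt ((open_WW h1).mem_nhds hp)

theorem contOn : ContinuousOn eta WW := fun _ hp => (contAt h1 hp).continuousWithinAt

theorem deriv_eta {p : ℂ} (hp : p ∈ WW) : HasDerivAt eta (1 / hd (eta p)) p := by
  rw [one_div]
  have hlt := (eta_spec hp).1
  refine HasDerivAt.of_local_left_inverse (contAt h1 hp) (h1.1 (eta p) hlt) (hd_ne h1 hlt) ?_
  filter_upwards [(open_WW h1).mem_nhds hp] with q hq
  exact (eta_spec hq).2

theorem level_eq {r : ℝ} (hr : r < 1) :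
    {p : ℂ | ‖eta p‖ ≤ r} = hh '' Metric.closedBall 0 r := by
  ext p
  constructor
  · intro hp
    simp only [Set.mem_ofPred_eq] at hp
    have hpW : p ∈ WW := by
      by_contra h
      rw [eta_off h, norm_one] at hp
      linarith
    exact ⟨eta p, by simpa using hp, (eta_spec hpW).2⟩
  · rintro ⟨z, hz, rfl⟩
    have hz' : ‖z‖ ≤ r := by simpa using hz
    simp only [Set.mem_ofPred_eq]
    rw [eta_hh h1 (lt_of_le_of_lt hz' hr)]
    exact hz'

theorem level_compact {r : ℝ} (hr : r < 1) : IsCompact {p : ℂ | ‖eta p‖ ≤ r} := by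
  rw [level_eq h1 hr]
  apply (isCompact_closedBall (0 : ℂ) r).image_of_continuousOn
  apply (diff_hh h1).continuousOn.mono
  exact Metric.closedBall_subset_ball hr

theorem cont_norm : Continuous (fun p => ‖eta p‖) := by
  rw [continuous_iff_continuousAt]
  intro p
  by_cases hp : p ∈ WW
  · exact (contAt h1 hp).norm
  · rw [Metric.continuousAt_iff']
    intro ε hε
    have h2 : {q : ℂ | ‖eta q‖ ≤ 1 - ε}ᶜ ∈ 𝓝 p := by
      apply (level_compact h1 (by linarith : 1 - ε < 1)).isClosed.isOpen_compl.mem_nhds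
      intro h
      simp only [Set.mem_ofPred_eq] at h
      rw [eta_off hp, norm_one] at h
      linarith
    filter_upwards [h2] with q hq
    have hq' : 1 - ε < ‖eta q‖ := by
      by_contra h
      exact hq (not_lt.1 h)
    rw [eta_off hp, norm_one, Real.dist_eq, abs_lt]
    have := norm_le_one q
    constructor <;> linarith

theorem meas : Measurable eta := by
  classical
  have e : eta = WW.piecewise eta (fun _ => 1) := by
    funext p
    by_cases hp : p ∈ WW
    · rw [Set.piecewise_eq_of_mem _ _ _ hp]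
    · rw [Set.piecewise_eq_of_notMem _ _ _ hp, eta_off hp]
  rw [e]
  exact (contOn h1).measurable_piecewise continuousOn_const (open_WW h1).measurableSet

theorem hh_zero : hh 0 = 0 := by
  have h2 := h1.2.2.2.2.1 0 (by simp)
  rw [norm_zero] at h2
  exact norm_le_zero_iff.1 h2

theorem norm_hd {z : ℂ} (hz : ‖z‖ < 1) : 4 / Real.pi ^ 2 ≤ ‖hd z‖ :=
  (h1.2.1 z hz).le.trans ((le_abs_self _).trans (Complex.abs_re_le_norm _))

/-- the lens -/
def lens : Lens where
  W := WW
  e := eta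
  c0 := Real.pi ^ 2 / 8
  C := 1
  B := Real.pi ^ 2 / 4
  isOpen := open_WW h1
  zero_mem := ⟨0, by simp, hh_zero h1⟩
  diff := fun p hp => (deriv_eta h1 hp).differentiableAt.differentiableWithinAt
  lt := fun p hp => (eta_spec hp).1
  off := fun p hp => eta_off hp
  comp := fun r hr => level_compact h1 hr
  e_zero := by
    have h2 := eta_hh h1 (z := 0) (by simp)
    rwa [hh_zero h1] at h2
  c0_pos := by positivity
  deriv_zero := by
    have h0 : (0 : ℂ) ∈ WW := ⟨0, by simp, hh_zero h1⟩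
    have h2 := eta_hh h1 (z := 0) (by simp)
    rw [hh_zero h1] at h2
    rw [(deriv_eta h1 h0).deriv, h2, h1.2.2.2.2.2.1]
    push_cast
    have : (Real.pi : ℂ) ≠ 0 := by exact_mod_cast Real.pi_ne_zero
    field_simp
  hC := fun p hp => by
    have h2 := h1.2.2.2.2.1 (eta p) (eta_spec hp).1
    rw [(eta_spec hp).2] at h2
    rw [one_mul]
    exact h2
  hB := fun p hp => by
    rw [(deriv_eta h1 hp).deriv, norm_div, norm_one]
    have h2 := norm_hd h1 (eta_spec hp).1
    have h3 : (0 : ℝ) < 4 / Real.pi ^ 2 := by positivity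
    rw [div_le_iff₀ (by linarith)]
    calc (1 : ℝ) = Real.pi ^ 2 / 4 * (4 / Real.pi ^ 2) := by
          have : Real.pi ≠ 0 := Real.pi_ne_zero
          field_simp
      _ ≤ Real.pi ^ 2 / 4 * ‖hd (eta p)‖ := mul_le_mul_of_nonneg_left h2 (by positivity)

end H2aux

open H2aux in
theorem H2 (h1 : S_H1) : S_H2 := by
  refine ⟨open_WW h1, fun p hp => eta_spec hp, fun z hz => eta_hh h1 hz, fun p hp => eta_off hp,
    fun p hp => deriv_eta h1 hp, ?_, ?_, meas h1, cont_norm h1, lens h1, rfl, rfl⟩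
  · rintro p ⟨z, hz, rfl⟩
    have hz' : ‖z‖ < 1 := by simpa using hz
    exact lt_of_le_of_lt (h1.2.2.2.2.1 z hz') hz'
  · rintro p ⟨z, hz, rfl⟩
    have hz' : ‖z‖ < 1 := by simpa using hz
    have hz'' : ‖starRingEnd ℂ z‖ < 1 := by
      rw [RCLike.norm_conj]
      exact hz'
    rw [← h1.2.2.1 z]
    exact ⟨hh_mem hz'', by rw [eta_hh h1 hz'', eta_hh h1 hz']⟩

end H712MA
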