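import Pool.Agent.H712R2.MA.Stm

set_option autoImplicit false

noncomputable section

open MeasureTheory Filter Topology
open scoped BigOperators Matrix ENNReal

namespace H712MA

/-- the Cayley transform -/
def cay (z : ℂ) : ℂ := (1 + z) / (1 - z)

lemma sub_ne_zero_of_norm {z : ℂ} (hz : ‖z‖ < 1) : (1 : ℂ) - z ≠ 0 := by
  intro h
  have : z = 1 := by linear_combination -h
  rw [this] at hz
  simp at hz

lemma hasSum_half_log {z : ℂ} (hz : ‖z‖ < 1) :
    HasSum (fun n : ℕ => z ^ (2 * n + 1) / ((2 * n + 1 : ℕ) : ℂ)) (1 / 2 * Complex.log (cay z)) := by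
  have h := Complex.hasSum_arctan (z := -Complex.I * z) (by simpa using hz)
  have h2 := h.mul_left Complex.I
  have e1 : Complex.I * Complex.arctan (-Complex.I * z) = 1 / 2 * Complex.log (cay z) := by
    unfold Complex.arctan cay
    have : -Complex.I * z * Complex.I = z := by
      have := Complex.I_mul_I
      linear_combination (-z) * this
    rw [this]
    have := Complex.I_mul_I
    linear_combination (-(1 / 2) * Complex.log ((1 + z) / (1 - z))) * this
  rw [e1] at h2
  convert! h2 using 1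
  ext n
  have hI : Complex.I * ((-1) ^ n * (-Complex.I * z) ^ (2 * n + 1)) = z ^ (2 * n + 1) := by
    rw [mul_pow, pow_succ (-Complex.I), pow_mul, neg_sq, Complex.I_sq]
    have h1 : ((-1 : ℂ) ^ n) * (-1) ^ n = 1 := by
      rw [← mul_pow]; simp
    have := Complex.I_mul_I
    linear_combination (-(z ^ (2 * n + 1)) * ((-1 : ℂ) ^ n * (-1) ^ n)) * this + (z ^ (2 * n + 1)) * h1
  rw [← hI]
  ring

lemma gg_eq {z : ℂ} (hz : ‖z‖ < 1) :
    gg z = (4 / (Real.pi : ℂ) ^ 2) * Complex.log (cay z) := by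
  unfold gg hd
  have h := (hasSum_half_log hz).tsum_eq
  have h2 : z * ((8 / (Real.pi : ℂ) ^ 2) * ∑' j : ℕ, z ^ (2 * j) / ((2 * j + 1 : ℕ) : ℂ)) =
      (8 / (Real.pi : ℂ) ^ 2) * ∑' j : ℕ, z ^ (2 * j + 1) / ((2 * j + 1 : ℕ) : ℂ) := by
    rw [mul_left_comm, ← tsum_mul_left]
    congr 2
    ext j
    rw [pow_succ]; ring
  rw [h2, h]
  ring

lemma cay_re (z : ℂ) : (cay z).re = (1 - Complex.normSq z) / Complex.normSq (1 - z) := by
  unfold cay
  rw [Complex.div_re]
  simp only [Complex.normSq_apply, Complex.add_re, Complex.one_re, Complex.sub_re, Complex.add_im,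
    Complex.one_im, Complex.sub_im]
  ring

lemma cay_im (z : ℂ) : (cay z).im = 2 * z.im / Complex.normSq (1 - z) := by
  unfold cay
  rw [Complex.div_im]
  simp only [Complex.normSq_apply, Complex.add_re, Complex.one_re, Complex.sub_re, Complex.add_im,
    Complex.one_im, Complex.sub_im]
  ring

lemma cay_re_pos {z : ℂ} (hz : ‖z‖ < 1) : 0 < (cay z).re := by
  rw [cay_re]
  apply div_pos
  · rw [Complex.normSq_eq_norm_sq]
    have := norm_nonneg z
    nlinarith
  · exact Complex.normSq_pos.mpr (sub_ne_zero_of_norm hz)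

lemma gg_im {z : ℂ} (hz : ‖z‖ < 1) : (gg z).im = 4 / Real.pi ^ 2 * (cay z).arg := by
  rw [gg_eq hz]
  have : (4 / (Real.pi : ℂ) ^ 2) = ((4 / Real.pi ^ 2 : ℝ) : ℂ) := by push_cast; ring
  rw [this, Complex.im_ofReal_mul, Complex.log_im]

lemma abs_arg_cay_lt {z : ℂ} (hz : ‖z‖ < 1) : |(cay z).arg| < Real.pi / 2 :=
  Complex.abs_arg_lt_pi_div_two_iff.mpr (Or.inl (cay_re_pos hz))

lemma c_pos : (0 : ℝ) < 4 / Real.pi ^ 2 := by positivity

lemma normSq_pos_of {z : ℂ} (hz : ‖z‖ < 1) : 0 < Complex.normSq (1 - z) :=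
  Complex.normSq_pos.mpr (sub_ne_zero_of_norm hz)

lemma scal_identity : Real.pi / 2 * (4 / Real.pi ^ 2 * (Real.pi / 2)) = 1 := by
  have := Real.pi_ne_zero
  field_simp
  norm_num

theorem H3 : S_H3 := by
  refine ⟨?_, ?_, ?_, ?_, ?_, ?_⟩
  · intro z hz hi
    rw [gg_im hz]
    have him : 0 < (cay z).im := by
      rw [cay_im]; exact div_pos (by linarith) (normSq_pos_of hz)
    have h0 : 0 ≤ (cay z).arg := Complex.arg_nonneg_iff.mpr him.le
    have h1 : (cay z).arg ≠ 0 := by
      intro h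
      exact him.ne' (Complex.arg_eq_zero_iff.mp h).2
    exact mul_pos c_pos (lt_of_le_of_ne h0 (Ne.symm h1))
  · intro z hz hi
    rw [gg_im hz]
    have him : (cay z).im < 0 := by
      rw [cay_im]; exact div_neg_of_neg_of_pos (by linarith) (normSq_pos_of hz)
    exact mul_neg_of_pos_of_neg c_pos (Complex.arg_neg_iff.mpr him)
  · intro z hz hi
    rw [gg_im hz]
    have him : (cay z).im = 0 := by
      rw [cay_im, hi]; simp
    rw [Complex.arg_eq_zero_iff.mpr ⟨(cay_re_pos hz).le, him⟩, mul_zero]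
  · intro z hz
    rw [gg_im hz, abs_mul, abs_of_pos c_pos, ← scal_identity]
    have := abs_arg_cay_lt hz
    have hp := Real.pi_pos
    have hc := c_pos
    gcongr
  · intro θ hθ
    have hq : ∀ r : ℝ, r ∈ Set.Ioo (0 : ℝ) 1 → ‖(r : ℂ) * Complex.exp (θ * Complex.I)‖ < 1 := by
      intro r hr
      rw [norm_mul, Complex.norm_exp_ofReal_mul_I, mul_one, Complex.norm_real, Real.norm_eq_abs,
        abs_of_pos hr.1]
      exact hr.2
    set w : ℂ := Complex.exp (θ * Complex.I) with hw
    have hwi : w.im = Real.sin θ := by rw [hw, Complex.exp_ofReal_mul_I_im]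
    have hwn : ‖w‖ = 1 := Complex.norm_exp_ofReal_mul_I θ
    have h1w : (1 : ℂ) - w ≠ 0 := by
      intro h
      have : (1 - w).im = 0 := by rw [h]; simp
      simp [hwi] at this
      exact hθ this
    have hns : Complex.normSq (1 - w) ≠ 0 := by
      rw [Ne, Complex.normSq_eq_zero]; exact h1w
    have hcre : (cay w).re = 0 := by
      rw [cay_re, Complex.normSq_eq_norm_sq, hwn]; simp
    have hcim : (cay w).im ≠ 0 := by
      rw [cay_im, hwi]
      exact div_ne_zero (mul_ne_zero two_ne_zero hθ) hns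
    have harg : |(cay w).arg| = Real.pi / 2 := by
      rcases lt_or_gt_of_ne hcim with h | h
      · rw [Complex.arg_eq_neg_pi_div_two_iff.mpr ⟨hcre, h⟩, abs_neg, abs_of_pos Real.pi_div_two_pos]
      · rw [Complex.arg_eq_pi_div_two_iff.mpr ⟨hcre, h⟩, abs_of_pos Real.pi_div_two_pos]
    have hcont : ContinuousAt (fun r : ℝ => (cay ((r : ℂ) * w))) 1 := by
      unfold cay
      apply ContinuousAt.div
      · fun_prop
      · fun_prop
      · simpa using h1w
    have hslit : cay w ∈ Complex.slitPlane := Complex.mem_slitPlane_iff.mpr (Or.inr hcim)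
    have hcarg : ContinuousAt (fun r : ℝ => (cay ((r : ℂ) * w)).arg) 1 := by
      have h2 : ContinuousAt Complex.arg (cay (((1 : ℝ) : ℂ) * w)) := by
        rw [Complex.ofReal_one, one_mul]
        exact Complex.continuousAt_arg hslit
      exact ContinuousAt.comp (f := fun r : ℝ => cay ((r : ℂ) * w)) h2 hcont
    have hlim : Tendsto (fun r : ℝ => Real.pi / 2 * |4 / Real.pi ^ 2 * (cay ((r : ℂ) * w)).arg|)
        (𝓝[<] 1) (𝓝 1) := by
      have h3 : ContinuousAt (fun r : ℝ => Real.pi / 2 * |4 / Real.pi ^ 2 * (cay ((r : ℂ) * w)).arg|) 1 := by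
        exact continuousAt_const.mul (continuousAt_const.mul hcarg).abs
      have h4 := h3.tendsto
      have e : Real.pi / 2 * |4 / Real.pi ^ 2 * (cay (((1 : ℝ) : ℂ) * w)).arg| = 1 := by
        rw [Complex.ofReal_one, one_mul, abs_mul, abs_of_pos c_pos, harg, scal_identity]
      rw [e] at h4
      exact h4.mono_left nhdsWithin_le_nhds
    refine hlim.congr' ?_
    have hev : ∀ᶠ r : ℝ in 𝓝[<] 1, r ∈ Set.Ioo (0 : ℝ) 1 :=
      Ioo_mem_nhdsLT (by norm_num)
    filter_upwards [hev] with r hr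
    rw [gg_im (hq r hr)]
  · have h1 : ContinuousOn (fun z : ℂ => (4 / (Real.pi : ℂ) ^ 2) * Complex.log (cay z))
        (Metric.ball 0 1) := by
      apply ContinuousOn.mul continuousOn_const
      apply ContinuousOn.clog
      · unfold cay
        apply ContinuousOn.div (by fun_prop) (by fun_prop)
        intro z hz
        exact sub_ne_zero_of_norm (by simpa using hz)
      · intro z hz
        exact Complex.mem_slitPlane_iff.mpr (Or.inl (cay_re_pos (by simpa using hz)))
    refine h1.congr ?_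
    intro z hz
    exact gg_eq (by simpa using hz)

end H712MA
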