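import Pool.Agent.H712R2.MA.Stm

set_option autoImplicit false

noncomputable section

open MeasureTheory Filter Topology
open scoped BigOperators Matrix

namespace H712MA

/-- sign of the imaginary part of `eta` -/
lemma H4_sign (h1 : S_H1) (h2 : S_H2) (x y : ℝ) (hp : (⟨x, y⟩ : ℂ) ∈ WW) :
    (0 < y → 0 < (eta ⟨x, y⟩).im) ∧ (y < 0 → (eta ⟨x, y⟩).im < 0) := by
  obtain ⟨-, -, hconj, -, -, -, him, -, -⟩ := h1
  obtain ⟨-, heta, -⟩ := h2
  obtain ⟨hlt, hh'⟩ := heta _ hp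
  set ζ := eta ⟨x, y⟩ with hζ
  have e1 : (hh ζ).im = y := by rw [hh']
  have hc : ‖(starRingEnd ℂ) ζ‖ < 1 := by simpa using hlt
  have key0 : ζ.im = 0 → y = 0 := by
    intro h0
    have : (starRingEnd ℂ) ζ = ζ := Complex.conj_eq_iff_im.2 h0
    have h2 := hconj ζ
    rw [this] at h2
    have h3 := Complex.conj_eq_iff_im.1 h2.symm
    rw [e1] at h3
    exact h3
  have keyp : 0 < ζ.im → 0 < y := by
    intro h0
    have := him ζ hlt h0
    rwa [e1] at this
  have keyn : ζ.im < 0 → y < 0 := by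
    intro h0
    have h4 : 0 < ((starRingEnd ℂ) ζ).im := by
      rw [Complex.conj_im]; linarith
    have := him _ hc h4
    rw [hconj, Complex.conj_im, e1] at this
    linarith
  constructor
  · intro hy
    rcases lt_trichotomy ζ.im 0 with h | h | h
    · exact absurd (keyn h) (by linarith)
    · exact absurd (key0 h) (by linarith)
    · exact h
  · intro hy
    rcases lt_trichotomy ζ.im 0 with h | h | h
    · exact h
    · exact absurd (key0 h) (by linarith)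
    · exact absurd (keyp h) (by linarith)

/-- derivative of `‖eta‖²` in the vertical direction -/
lemma H4_deriv (h2 : S_H2) (x y : ℝ) (hp : (⟨x, y⟩ : ℂ) ∈ WW) :
    HasDerivAt (fun t : ℝ => ‖eta ⟨x, t⟩‖ ^ 2)
      (2 * (gg (eta ⟨x, y⟩)).im / ‖hd (eta ⟨x, y⟩)‖ ^ 2) y := by
  obtain ⟨-, heta, -, -, hder, -⟩ := h2
  have hd1 := hder _ hp
  set ζ := eta ⟨x, y⟩ with hζ
  -- the path
  have hpath : HasDerivAt (fun t : ℝ => (⟨x, t⟩ : ℂ)) Complex.I y := by
    have h0 : (fun t : ℝ => (⟨x, t⟩ : ℂ)) = fun t : ℝ => (x : ℂ) + (t : ℂ) * Complex.I := by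
      funext t
      exact Complex.mk_eq_add_mul_I x t
    rw [h0]
    have := ((Complex.ofRealCLM.hasDerivAt (x := y)).mul_const Complex.I).const_add (x : ℂ)
    simpa using this
  have hcomp : HasDerivAt (fun t : ℝ => eta ⟨x, t⟩) (1 / hd ζ * Complex.I) y := by
    have := HasDerivAt.scomp y (h := fun t : ℝ => (⟨x, t⟩ : ℂ)) (g₁ := eta) (h' := Complex.I)
      (g₁' := 1 / hd ζ) hd1 hpath
    have e : (Complex.I • (1 / hd ζ)) = 1 / hd ζ * Complex.I := by
      rw [smul_eq_mul, mul_comm]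
    rw [e] at this
    exact this
  have hre : HasDerivAt (fun t : ℝ => (eta ⟨x, t⟩).re) (1 / hd ζ * Complex.I).re y := by
    exact (Complex.reCLM.hasFDerivAt (x := eta ⟨x, y⟩)).comp_hasDerivAt y hcomp
  have him : HasDerivAt (fun t : ℝ => (eta ⟨x, t⟩).im) (1 / hd ζ * Complex.I).im y := by
    exact (Complex.imCLM.hasFDerivAt (x := eta ⟨x, y⟩)).comp_hasDerivAt y hcomp
  have hsum := (hre.mul hre).add (him.mul him)
  have hfun : (fun t : ℝ => ‖eta ⟨x, t⟩‖ ^ 2) =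
      (fun t : ℝ => (eta ⟨x, t⟩).re) * (fun t : ℝ => (eta ⟨x, t⟩).re) +
      (fun t : ℝ => (eta ⟨x, t⟩).im) * (fun t : ℝ => (eta ⟨x, t⟩).im) := by
    funext t
    simp only [Pi.add_apply, Pi.mul_apply]
    rw [← Complex.normSq_eq_norm_sq, Complex.normSq_apply]
  rw [hfun]
  refine hsum.congr_deriv ?_
  by_cases h0 : hd ζ = 0
  · simp [h0]
  have hn : Complex.normSq (hd ζ) ≠ 0 := by
    simpa using h0
  rw [← Complex.normSq_eq_norm_sq]
  have hg : (gg ζ).im = ζ.re * (hd ζ).im + ζ.im * (hd ζ).re := by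
    unfold gg
    rw [Complex.mul_im]
  rw [hg]
  simp only [one_div, Complex.mul_re, Complex.mul_im, Complex.inv_re, Complex.inv_im,
    Complex.I_re, Complex.I_im, ← hζ]
  field_simp
  ring

lemma H4_norm_eq_one (h2 : S_H2) (p : ℂ) (hp : p ∉ WW) : ‖eta p‖ = 1 := by
  obtain ⟨-, -, -, hoff, -⟩ := h2
  rw [hoff p hp]; simp

lemma H4_mem (h2 : S_H2) (p : ℂ) (hp : ‖eta p‖ < 1) : p ∈ WW := by
  by_contra h
  rw [H4_norm_eq_one h2 p h] at hp
  exact lt_irrefl _ hp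

/-- strict monotonicity on the upper slice -/
lemma H4_mono (h1 : S_H1) (h2 : S_H2) (h3 : S_H3) (x y t : ℝ) (hp : (⟨x, y⟩ : ℂ) ∈ WW)
    (ht : 0 ≤ t) (hty : t < y) : ‖eta ⟨x, t⟩‖ < ‖eta ⟨x, y⟩‖ := by
  by_contra hcon
  push Not at hcon
  set N : ℝ → ℝ := fun t => ‖eta ⟨x, t⟩‖ ^ 2 with hN
  have hcont : Continuous N := by
    have hc : Continuous (fun p => ‖eta p‖) := h2.2.2.2.2.2.2.2.2.1
    have hpath : Continuous (fun t : ℝ => (⟨x, t⟩ : ℂ)) := by
      have h0 : (fun t : ℝ => (⟨x, t⟩ : ℂ)) = fun t : ℝ => (x : ℂ) + (t : ℂ) * Complex.I := by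
        funext t
        exact Complex.mk_eq_add_mul_I x t
      rw [h0]
      fun_prop
    exact (hc.comp hpath).pow 2
  have hNty : N y ≤ N t := by
    simp only [hN]
    gcongr
  -- no minimum point in (t, y]
  have key : ∀ s, t < s → s ≤ y → (∀ u ∈ Set.Icc t y, N s ≤ N u) → False := by
    intro s hts hsy hmin
    have hNs : N s ≤ N y := hmin y ⟨hty.le, le_rfl⟩
    have hy1 : ‖eta ⟨x, y⟩‖ < 1 := (h2.2.1 _ hp).1
    have hs1 : ‖eta ⟨x, s⟩‖ < 1 := by
      have : ‖eta ⟨x, s⟩‖ ≤ ‖eta ⟨x, y⟩‖ := by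
        simp only [hN] at hNs
        exact le_of_sq_le_sq hNs (norm_nonneg _)
      linarith
    have hsW := H4_mem h2 _ hs1
    have hs0 : 0 < s := by linarith
    have him := (H4_sign h1 h2 x s hsW).1 hs0
    have hgg := h3.1 _ hs1 him
    have hhd : 0 < ‖hd (eta ⟨x, s⟩)‖ := by
      rw [norm_pos_iff]
      intro h0
      have := h1.2.1 _ hs1
      rw [h0] at this
      simp only [Complex.zero_re] at this
      have : (0 : ℝ) < 4 / Real.pi ^ 2 := by positivity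
      linarith
    have hder := H4_deriv h2 x s hsW
    have hpos : 0 < 2 * (gg (eta ⟨x, s⟩)).im / ‖hd (eta ⟨x, s⟩)‖ ^ 2 := by positivity
    rw [hasDerivAt_iff_tendsto_slope] at hder
    have hev := hder.eventually (lt_mem_nhds hpos)
    have hev2 : ∀ᶠ u in 𝓝[<] s, 0 < slope (fun t : ℝ => ‖eta ⟨x, t⟩‖ ^ 2) s u :=
      hev.filter_mono (nhdsWithin_mono _ (fun u hu => ne_of_lt hu))
    have hev3 : ∀ᶠ u in 𝓝[<] s, t < u :=
      (lt_mem_nhds hts).filter_mono nhdsWithin_le_nhds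
    obtain ⟨u, ⟨hu1, hu2⟩, hu3⟩ :=
      ((hev2.and hev3).and (self_mem_nhdsWithin : Set.Iio s ∈ 𝓝[<] s)).exists
    have hu3' : u < s := hu3
    rw [slope_def_field] at hu1
    have h5 : N u - N s < 0 := by
      by_contra h6
      push Not at h6
      have : (N u - N s) / (u - s) ≤ 0 := div_nonpos_of_nonneg_of_nonpos h6 (by linarith)
      simp only [hN] at this
      linarith
    have := hmin u ⟨hu2.le, by linarith⟩
    linarith
  obtain ⟨s, hs, hmin⟩ := isCompact_Icc.exists_isMinOn (Set.nonempty_Icc.2 hty.le)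
    hcont.continuousOn
  have hmin' : ∀ u ∈ Set.Icc t y, N s ≤ N u := fun u hu => hmin hu
  rcases eq_or_lt_of_le hs.1 with h | h
  · subst h
    exact key y hty le_rfl (fun u hu => le_trans hNty (hmin' u hu))
  · exact key s h hs.2 hmin'

lemma H4_abs (h2 : S_H2) (x t : ℝ) : ‖eta ⟨x, |t|⟩‖ = ‖eta ⟨x, t⟩‖ := by
  rcases abs_choice t with h | h
  · rw [h]
  · rw [h]
    have hconj := h2.2.2.2.2.2.2.1
    have e1 : (starRingEnd ℂ) (⟨x, t⟩ : ℂ) = ⟨x, -t⟩ := by
      apply Complex.ext <;> simp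
    have e2 : (starRingEnd ℂ) (⟨x, -t⟩ : ℂ) = ⟨x, t⟩ := by
      apply Complex.ext <;> simp
    by_cases hp : (⟨x, t⟩ : ℂ) ∈ WW
    · have := (hconj _ hp).2
      rw [e1] at this
      rw [this]; simp
    · have hp' : (⟨x, -t⟩ : ℂ) ∉ WW := by
        intro h'
        have := (hconj _ h').1
        rw [e2] at this
        exact hp this
      rw [H4_norm_eq_one h2 _ hp, H4_norm_eq_one h2 _ hp']

theorem H4 (h1 : S_H1) (h2 : S_H2) (h3 : S_H3) : S_H4 := by
  have strict : ∀ x y y' : ℝ, (⟨x, y⟩ : ℂ) ∈ WW → |y'| < |y| →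
      ‖eta ⟨x, y'⟩‖ < ‖eta ⟨x, y⟩‖ := by
    intro x y y' hp hlt
    rw [← H4_abs h2 x y, ← H4_abs h2 x y']
    refine H4_mono h1 h2 h3 x |y| |y'| ?_ (abs_nonneg _) hlt
    apply H4_mem h2
    rw [H4_abs h2]
    exact (h2.2.1 _ hp).1
  refine ⟨?_, strict, fun x y hp => H4_sign h1 h2 x y hp, ?_⟩
  · intro x y y' hp hle
    have hle2 : ‖eta ⟨x, y'⟩‖ ≤ ‖eta ⟨x, y⟩‖ := by
      rcases lt_or_eq_of_le hle with h | h
      · exact (strict x y y' hp h).le
      · rw [← H4_abs h2 x y, ← H4_abs h2 x y', h]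
    refine ⟨?_, hle2⟩
    apply H4_mem h2
    exact lt_of_le_of_lt hle2 (h2.2.1 _ hp).1
  · intro L hW he m hm x y hp
    have hder := (H4_deriv h2 x y hp).pow m
    have hfun : (fun t : ℝ => ‖gf L m ⟨x, t⟩‖ ^ 2) = (fun t : ℝ => ‖eta ⟨x, t⟩‖ ^ 2) ^ m := by
      funext t
      simp only [gf, he, Pi.pow_apply, norm_pow]
      ring
    rw [hfun]
    refine hder.congr_deriv ?_
    have hdv : deriv L.e ⟨x, y⟩ = 1 / hd (eta ⟨x, y⟩) := by
      rw [he]
      exact (h2.2.2.2.2.1 _ hp).deriv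
    have hgd : gd L m ⟨x, y⟩ = (m : ℂ) * eta ⟨x, y⟩ ^ (m - 1) * (1 / hd (eta ⟨x, y⟩)) := by
      unfold gd
      rw [if_pos (by rw [hW]; exact hp), hdv, he]
    have hm0 : (m : ℝ) ≠ 0 := by
      have : (0 : ℝ) < m := by exact_mod_cast hm
      exact this.ne'
    have hnpos : (0:ℝ) < ‖hd (eta ⟨x, y⟩)‖ := by
      rw [norm_pos_iff]
      intro h0
      have := h1.2.1 _ (h2.2.1 _ hp).1
      rw [h0] at this
      simp only [Complex.zero_re] at this
      have : (0 : ℝ) < 4 / Real.pi ^ 2 := by positivity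
      linarith
    unfold af
    rw [hgd]
    simp only [norm_mul, norm_pow, norm_div, norm_one, Complex.norm_natCast]
    field_simp
    ring

end H712MA

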