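import Pool.Agent.H712R2.MA.Stm

/-!
Task H5 (helper28): integrals of `a` and concentration at the boundary.
-/

set_option autoImplicit false

noncomputable section

open MeasureTheory Filter Topology Set
open scoped BigOperators ENNReal

namespace H712MA

/-- real determinant of the multiplication by a complex number -/
theorem H5_det (c : ℂ) :
    ((ContinuousLinearMap.toSpanSingleton ℂ c).restrictScalars ℝ).det = ‖c‖ ^ 2 := by
  have h : (((ContinuousLinearMap.toSpanSingleton ℂ c).restrictScalars ℝ : ℂ →L[ℝ] ℂ) :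
      ℂ →ₗ[ℝ] ℂ) = LinearMap.mulLeft ℝ c := by
    ext z <;> simp [mul_comm]
  rw [ContinuousLinearMap.det, h]
  have h2 : LinearMap.det (LinearMap.mulLeft ℝ c) = Algebra.norm ℝ c := by
    rw [Algebra.norm_apply]; rfl
  rw [h2, Algebra.norm_complex_apply, Complex.normSq_eq_norm_sq]

/-- change of variables `p = h(z)` -/
theorem H5_cov (h1 : S_H1) (g : ℂ → ℝ≥0∞) :
    ∫⁻ p in WW, g p = ∫⁻ z in Metric.ball (0 : ℂ) 1, ENNReal.ofReal (‖hd z‖ ^ 2) * g (hh z) := by
  obtain ⟨hder, -, -, -, -, -, -, hinj, -⟩ := h1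
  have hinj' : InjOn hh (Metric.ball (0 : ℂ) 1) := by
    intro z hz w hw e
    rw [Metric.mem_ball, dist_zero_right] at hz hw
    have h := hinj z w hz hw
    rw [e, sub_self, norm_zero] at h
    have hpi : (0 : ℝ) < 4 / Real.pi ^ 2 := by positivity
    have h0 : ‖z - w‖ ≤ 0 := by
      by_contra h'
      have := mul_pos hpi (not_le.1 h')
      linarith
    exact sub_eq_zero.1 (norm_le_zero_iff.1 h0)
  have h := lintegral_image_eq_lintegral_abs_det_fderiv_mul (volume : Measure ℂ)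
    (s := Metric.ball (0 : ℂ) 1) (f := hh)
    (f' := fun z => (ContinuousLinearMap.toSpanSingleton ℂ (hd z)).restrictScalars ℝ)
    measurableSet_ball (fun z hz => by
      rw [Metric.mem_ball, dist_zero_right] at hz
      exact ((hder z hz).hasFDerivAt.restrictScalars ℝ).hasFDerivWithinAt) hinj' g
  simp only [H5_det] at h
  unfold WW
  rw [h]
  refine lintegral_congr fun z => ?_
  rw [abs_of_nonneg (by positivity)]

/-- polar coordinates on the disc -/
theorem H5_polar (F : ℂ → ℝ) (hF : ContinuousOn F (Metric.ball 0 1)) :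
    ∫⁻ z in Metric.ball (0 : ℂ) 1, ENNReal.ofReal (F z) =
      ∫⁻ θ in Ioo (-Real.pi) Real.pi, ∫⁻ r in Ioo (0 : ℝ) 1,
        ENNReal.ofReal (r * F ((r : ℂ) * Complex.exp (θ * Complex.I))) := by
  classical
  set f : ℂ → ℝ≥0∞ := (Metric.ball (0 : ℂ) 1).indicator fun z => ENNReal.ofReal (F z) with hf
  have hfm : Measurable f := by
    rw [hf, ← piecewise_eq_indicator]
    exact ContinuousOn.measurable_piecewise (ENNReal.continuous_ofReal.comp_continuousOn hF)
      continuousOn_const measurableSet_ball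
  rw [← lintegral_indicator measurableSet_ball]
  change ∫⁻ z, f z = _
  rw [← Complex.lintegral_comp_polarCoord_symm]
  have hsymm : Measurable fun p : ℝ × ℝ => Complex.polarCoord.symm p := by
    have : (fun p : ℝ × ℝ => Complex.polarCoord.symm p) =
        fun p : ℝ × ℝ => (p.1 : ℂ) * (Real.cos p.2 + Real.sin p.2 * Complex.I) := by
      funext p; exact Complex.polarCoord_symm_apply p
    rw [this]
    fun_prop
  rw [show (polarCoord.target : Set (ℝ × ℝ)) = Ioi (0 : ℝ) ×ˢ Ioo (-Real.pi) Real.pi from rfl,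
    Measure.volume_eq_prod, ← Measure.prod_restrict]
  rw [lintegral_prod_symm _ (by
    exact ((ENNReal.measurable_ofReal.comp measurable_fst).smul (hfm.comp hsymm)).aemeasurable)]
  refine lintegral_congr fun θ => ?_
  have e1 : ∀ r : ℝ, Complex.polarCoord.symm (r, θ) = (r : ℂ) * Complex.exp (θ * Complex.I) := by
    intro r
    rw [Complex.polarCoord_symm_apply, Complex.exp_mul_I, Complex.ofReal_cos, Complex.ofReal_sin]
  rw [← lintegral_indicator measurableSet_Ioi, ← lintegral_indicator measurableSet_Ioo]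
  refine lintegral_congr fun r => ?_
  by_cases h0 : 0 < r
  · rw [indicator_of_mem (show r ∈ Ioi (0 : ℝ) from h0)]
    dsimp only
    rw [e1, hf]
    have hn : ‖(r : ℂ) * Complex.exp (θ * Complex.I)‖ = r := by
      rw [norm_mul, Complex.norm_exp_ofReal_mul_I, mul_one, Complex.norm_real,
        Real.norm_of_nonneg h0.le]
    by_cases h1 : r < 1
    · rw [indicator_of_mem (show r ∈ Ioo (0 : ℝ) 1 from ⟨h0, h1⟩), indicator_of_mem (by
        rw [Metric.mem_ball, dist_zero_right, hn]; exact h1), smul_eq_mul,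
        ← ENNReal.ofReal_mul h0.le]
    · rw [indicator_of_notMem (show r ∉ Ioo (0 : ℝ) 1 from fun h => h1 h.2), indicator_of_notMem (by
        rw [Metric.mem_ball, dist_zero_right, hn]; exact h1), smul_zero]
  · rw [indicator_of_notMem (show r ∉ Ioi (0 : ℝ) from h0),
      indicator_of_notMem (show r ∉ Ioo (0 : ℝ) 1 from fun h => h0 h.1)]

/-- the coefficient in the disc -/
theorem H5_af (h1 : S_H1) (h2 : S_H2) (L : Lens) (hW : L.W = WW) (he : L.e = eta) (m : ℕ) (z : ℂ)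
    (hz : ‖z‖ < 1) : ‖hd z‖ ^ 2 * af L m (hh z) = (m : ℝ) ^ 2 * ‖z‖ ^ (2 * (m - 1)) := by
  obtain ⟨-, hre, -⟩ := h1
  obtain ⟨-, -, hinv, -, hder, -⟩ := h2
  have hmem : hh z ∈ WW := ⟨z, by rw [Metric.mem_ball, dist_zero_right]; exact hz, rfl⟩
  have hne : ‖hd z‖ ≠ 0 := by
    intro h
    have h3 := hre z hz
    rw [norm_eq_zero.1 h] at h3
    have : (0 : ℝ) < 4 / Real.pi ^ 2 := by positivity
    simp only [Complex.zero_re] at h3
    linarith
  have hd1 : deriv L.e (hh z) = 1 / hd z := by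
    rw [he, (hder _ hmem).deriv, hinv z hz]
  unfold af gd
  rw [if_pos (by rw [hW]; exact hmem), hd1, he, hinv z hz, norm_mul, norm_mul, norm_pow,
    Complex.norm_natCast, norm_div, norm_one]
  field_simp
  rw [← pow_mul, mul_comm (m - 1) 2]

theorem H5_off (L : Lens) (hW : L.W = WW) (m : ℕ) (p : ℂ) (hp : p ∉ WW) : af L m p = 0 := by
  unfold af gd
  rw [if_neg (by rw [hW]; exact hp)]
  simp

/-- integrals against `a` are integrals over the disc -/
theorem H5_int (h1 : S_H1) (h2 : S_H2) (L : Lens) (hW : L.W = WW) (he : L.e = eta) (m : ℕ)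
    (G : ℂ → ℝ) :
    ∫⁻ p, ENNReal.ofReal (af L m p * G p) =
      ∫⁻ z in Metric.ball (0 : ℂ) 1,
        ENNReal.ofReal ((m : ℝ) ^ 2 * ‖z‖ ^ (2 * (m - 1)) * G (hh z)) := by
  have e1 : ∫⁻ p, ENNReal.ofReal (af L m p * G p) =
      ∫⁻ p in WW, ENNReal.ofReal (af L m p * G p) := by
    rw [← lintegral_indicator h2.1.measurableSet]
    refine lintegral_congr fun p => ?_
    by_cases hp : p ∈ WW
    · rw [indicator_of_mem hp]
    · rw [indicator_of_notMem hp, H5_off L hW m p hp, zero_mul, ENNReal.ofReal_zero]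
  rw [e1, H5_cov h1]
  refine setLIntegral_congr_fun measurableSet_ball fun z hz => ?_
  rw [Metric.mem_ball, dist_zero_right] at hz
  rw [← ENNReal.ofReal_mul (by positivity), ← mul_assoc, H5_af h1 h2 L hW he m z hz]

theorem H5_pow (m : ℕ) (hm : 1 ≤ m) (t : ℝ) (ht : 0 ≤ t) :
    ∫⁻ r in Ioo (0 : ℝ) t, ENNReal.ofReal ((m : ℝ) ^ 2 * r ^ (2 * m - 1)) =
      ENNReal.ofReal ((m : ℝ) / 2 * t ^ (2 * m)) := by
  have hm0 : (0 : ℝ) < m := by exact_mod_cast hm
  rw [← ofReal_integral_eq_lintegral_ofReal]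
  · congr 1
    rw [← integral_Ioc_eq_integral_Ioo, ← intervalIntegral.integral_of_le ht,
      intervalIntegral.integral_const_mul, integral_pow]
    have e2 : 2 * m - 1 + 1 = 2 * m := by omega
    rw [e2]
    have e3 : (((2 * m - 1 : ℕ) : ℝ) + 1) = 2 * m := by
      have : (((2 * m - 1 + 1 : ℕ)) : ℝ) = ((2 * m : ℕ) : ℝ) := by rw [e2]
      push_cast at this
      linarith
    rw [e3, zero_pow (by omega)]
    field_simp
    ring
  · have hc : Continuous fun r : ℝ => (m : ℝ) ^ 2 * r ^ (2 * m - 1) := by fun_prop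
    exact (hc.integrableOn_Icc (a := 0) (b := t)).mono_set Ioo_subset_Icc_self
  · refine (ae_restrict_iff' measurableSet_Ioo).2 (Eventually.of_forall fun r hr => ?_)
    have := hr.1
    positivity

theorem H5_normexp (r θ : ℝ) (hr : 0 ≤ r) : ‖(r : ℂ) * Complex.exp (θ * Complex.I)‖ = r := by
  rw [norm_mul, Complex.norm_exp_ofReal_mul_I, mul_one, Complex.norm_real,
    Real.norm_of_nonneg hr]

theorem H5_vol : volume (Ioo (-Real.pi) Real.pi) = ENNReal.ofReal (2 * Real.pi) := by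
  rw [Real.volume_Ioo]
  congr 1
  ring

theorem H5_one (h1 : S_H1) (h2 : S_H2) (L : Lens) (hW : L.W = WW) (he : L.e = eta) (m : ℕ)
    (hm : 1 ≤ m) : ∫⁻ p, ENNReal.ofReal (af L m p) = ENNReal.ofReal (m * Real.pi) := by
  have hm0 : (0 : ℝ) < m := by exact_mod_cast hm
  have e0 : ∫⁻ p, ENNReal.ofReal (af L m p) =
      ∫⁻ p, ENNReal.ofReal (af L m p * (fun _ => (1 : ℝ)) p) :=
    lintegral_congr fun p => by simp
  rw [e0, H5_int h1 h2 L hW he m (fun _ => 1), H5_polar _ (by fun_prop)]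
  have e1 : ∀ θ : ℝ, ∫⁻ r in Ioo (0 : ℝ) 1, ENNReal.ofReal (r * ((m : ℝ) ^ 2 *
      ‖(r : ℂ) * Complex.exp (θ * Complex.I)‖ ^ (2 * (m - 1)) * 1)) =
      ENNReal.ofReal ((m : ℝ) / 2) := by
    intro θ
    have := H5_pow m hm 1 zero_le_one
    rw [one_pow, mul_one] at this
    rw [← this]
    refine setLIntegral_congr_fun measurableSet_Ioo fun r hr => ?_
    rw [H5_normexp r θ hr.1.le]
    congr 1
    have e2 : 2 * m - 1 = 2 * (m - 1) + 1 := by omega
    rw [e2, pow_succ]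
    ring
  simp only [e1]
  rw [setLIntegral_const, H5_vol, ← ENNReal.ofReal_mul (by positivity)]
  congr 1
  ring

/-- the function `Q` on the disc -/
def H5_Q (z : ℂ) : ℝ := Real.pi / 2 * |(gg z).im|

theorem H5_inner_le (m : ℕ) (hm : 1 ≤ m) (θ : ℝ) (t ε : ℝ) (ht0 : 0 ≤ t)
    (hε : 0 ≤ ε)
    (hQ : ∀ r : ℝ, t ≤ r → r < 1 → 1 - H5_Q ((r : ℂ) * Complex.exp (θ * Complex.I)) ≤ ε) :
    ∫⁻ r in Ioo (0 : ℝ) 1, ENNReal.ofReal (r * ((m : ℝ) ^ 2 *
      ‖(r : ℂ) * Complex.exp (θ * Complex.I)‖ ^ (2 * (m - 1)) *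
        (1 - H5_Q ((r : ℂ) * Complex.exp (θ * Complex.I))))) ≤
      ENNReal.ofReal ((m : ℝ) / 2 * (ε + t ^ (2 * m))) := by
  have hm0 : (0 : ℝ) < m := by exact_mod_cast hm
  have hQ1 : ∀ r : ℝ, 0 < r → r < 1 → 1 - H5_Q ((r : ℂ) * Complex.exp (θ * Complex.I)) ≤ 1 := by
    intro r _ _
    have : 0 ≤ H5_Q ((r : ℂ) * Complex.exp (θ * Complex.I)) := by
      unfold H5_Q; positivity
    linarith
  have hle : ∀ r ∈ Ioo (0 : ℝ) 1, ENNReal.ofReal (r * ((m : ℝ) ^ 2 *
      ‖(r : ℂ) * Complex.exp (θ * Complex.I)‖ ^ (2 * (m - 1)) *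
        (1 - H5_Q ((r : ℂ) * Complex.exp (θ * Complex.I))))) ≤
      ENNReal.ofReal ε * ENNReal.ofReal ((m : ℝ) ^ 2 * r ^ (2 * m - 1)) +
        (Ioo (0 : ℝ) t).indicator (fun r => ENNReal.ofReal ((m : ℝ) ^ 2 * r ^ (2 * m - 1))) r := by
    intro r hr
    rw [H5_normexp r θ hr.1.le]
    have e2 : 2 * m - 1 = 2 * (m - 1) + 1 := by omega
    have e3 : r * ((m : ℝ) ^ 2 * r ^ (2 * (m - 1)) *
        (1 - H5_Q ((r : ℂ) * Complex.exp (θ * Complex.I)))) =
        ((m : ℝ) ^ 2 * r ^ (2 * m - 1)) *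
          (1 - H5_Q ((r : ℂ) * Complex.exp (θ * Complex.I))) := by
      rw [e2, pow_succ]; ring
    rw [e3]
    have hp : 0 ≤ (m : ℝ) ^ 2 * r ^ (2 * m - 1) := by
      have := hr.1
      positivity
    by_cases hrt : r < t
    · rw [indicator_of_mem (show r ∈ Ioo (0 : ℝ) t from ⟨hr.1, hrt⟩)]
      refine le_trans ?_ le_add_self
      exact ENNReal.ofReal_le_ofReal (by
        calc _ ≤ (m : ℝ) ^ 2 * r ^ (2 * m - 1) * 1 :=
              mul_le_mul_of_nonneg_left (hQ1 r hr.1 hr.2) hp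
          _ = _ := mul_one _)
    · rw [indicator_of_notMem (show r ∉ Ioo (0 : ℝ) t from fun h => hrt h.2), add_zero,
        ← ENNReal.ofReal_mul hε]
      exact ENNReal.ofReal_le_ofReal (by
        rw [mul_comm ε]
        exact mul_le_mul_of_nonneg_left (hQ r (not_lt.1 hrt) hr.2) hp)
  have hmeas : Measurable fun r : ℝ => ENNReal.ofReal ((m : ℝ) ^ 2 * r ^ (2 * m - 1)) := by
    fun_prop
  calc _ ≤ ∫⁻ r in Ioo (0 : ℝ) 1, (ENNReal.ofReal ε * ENNReal.ofReal ((m : ℝ) ^ 2 *
          r ^ (2 * m - 1)) + (Ioo (0 : ℝ) t).indicator (fun r => ENNReal.ofReal ((m : ℝ) ^ 2 *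
          r ^ (2 * m - 1))) r) := setLIntegral_mono' measurableSet_Ioo hle
    _ = ENNReal.ofReal ε * ENNReal.ofReal ((m : ℝ) / 2) +
        ∫⁻ r in Ioo (0 : ℝ) 1, (Ioo (0 : ℝ) t).indicator (fun r => ENNReal.ofReal ((m : ℝ) ^ 2 *
          r ^ (2 * m - 1))) r := by
        rw [lintegral_add_left (hmeas.const_mul _), lintegral_const_mul _ hmeas,
          H5_pow m hm 1 zero_le_one, one_pow, mul_one]
    _ ≤ ENNReal.ofReal ε * ENNReal.ofReal ((m : ℝ) / 2) +
        ∫⁻ r in Ioo (0 : ℝ) t, ENNReal.ofReal ((m : ℝ) ^ 2 * r ^ (2 * m - 1)) := by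
        refine add_le_add le_rfl ?_
        exact (setLIntegral_le_lintegral _ _).trans
          (le_of_eq (lintegral_indicator measurableSet_Ioo _))
    _ = ENNReal.ofReal ((m : ℝ) / 2 * (ε + t ^ (2 * m))) := by
        rw [H5_pow m hm t ht0, ← ENNReal.ofReal_mul hε, ← ENNReal.ofReal_add (by positivity)
          (by positivity)]
        congr 1
        ring

theorem H5_two (h1 : S_H1) (h2 : S_H2) (h3 : S_H3) (L : Lens) (hW : L.W = WW) (he : L.e = eta) :
    Tendsto (fun m : ℕ => (∫⁻ p, ENNReal.ofReal (af L m p * (1 - qq p))) / (m : ℝ≥0∞))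
      atTop (𝓝 0) := by
  have hgg : ContinuousOn gg (Metric.ball 0 1) := h3.2.2.2.2.2
  have hQc : ContinuousOn H5_Q (Metric.ball 0 1) := by
    unfold H5_Q
    exact continuousOn_const.mul (Complex.continuous_im.comp_continuousOn hgg).abs
  -- the inner function
  set H : ℕ → ℝ → ℝ≥0∞ := fun m θ => (∫⁻ r in Ioo (0 : ℝ) 1, ENNReal.ofReal (r * ((m : ℝ) ^ 2 *
      ‖(r : ℂ) * Complex.exp (θ * Complex.I)‖ ^ (2 * (m - 1)) *
        (1 - H5_Q ((r : ℂ) * Complex.exp (θ * Complex.I)))))) / (m : ℝ≥0∞) with hH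
  have hFc : ∀ m : ℕ, ContinuousOn (fun z : ℂ => (m : ℝ) ^ 2 * ‖z‖ ^ (2 * (m - 1)) *
      (1 - H5_Q z)) (Metric.ball 0 1) := by
    intro m
    exact (by fun_prop : Continuous fun z : ℂ => (m : ℝ) ^ 2 * ‖z‖ ^ (2 * (m - 1))).continuousOn.mul
      (continuousOn_const.sub hQc)
  -- measurability of the inner function
  have hmeas : ∀ m, Measurable (H m) := by
    intro m
    classical
    set f : ℂ → ℝ≥0∞ := (Metric.ball (0 : ℂ) 1).indicator fun z => ENNReal.ofReal
      ((m : ℝ) ^ 2 * ‖z‖ ^ (2 * (m - 1)) * (1 - H5_Q z)) with hf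
    have hfm : Measurable f := by
      rw [hf, ← piecewise_eq_indicator]
      exact ContinuousOn.measurable_piecewise (ENNReal.continuous_ofReal.comp_continuousOn (hFc m))
        continuousOn_const measurableSet_ball
    have e : H m = fun θ : ℝ => (∫⁻ r in Ioo (0 : ℝ) 1, ENNReal.ofReal r *
        f ((r : ℂ) * Complex.exp (θ * Complex.I))) / (m : ℝ≥0∞) := by
      funext θ
      simp only [hH]
      congr 1
      refine setLIntegral_congr_fun measurableSet_Ioo fun r hr => ?_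
      rw [hf, indicator_of_mem (by
        rw [Metric.mem_ball, dist_zero_right, H5_normexp r θ hr.1.le]; exact hr.2),
        ← ENNReal.ofReal_mul hr.1.le]
    rw [e]
    refine Measurable.div_const ?_ _
    have hj : Measurable fun q : ℝ × ℝ => ENNReal.ofReal q.2 *
        f ((q.2 : ℂ) * Complex.exp (q.1 * Complex.I)) := by
      refine (ENNReal.measurable_ofReal.comp measurable_snd).mul (hfm.comp ?_)
      fun_prop
    exact hj.lintegral_prod_right'
  -- the integral in polar coordinates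
  have hint : ∀ m : ℕ, (∫⁻ p, ENNReal.ofReal (af L m p * (1 - qq p))) / (m : ℝ≥0∞) =
      ∫⁻ θ in Ioo (-Real.pi) Real.pi, H m θ := by
    intro m
    have e1 : ∫⁻ p, ENNReal.ofReal (af L m p * (1 - qq p)) =
        ∫⁻ z in Metric.ball (0 : ℂ) 1,
          ENNReal.ofReal ((m : ℝ) ^ 2 * ‖z‖ ^ (2 * (m - 1)) * (1 - H5_Q z)) := by
      rw [H5_int h1 h2 L hW he m (fun p => 1 - qq p)]
      refine setLIntegral_congr_fun measurableSet_ball fun z hz => ?_
      rw [Metric.mem_ball, dist_zero_right] at hz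
      unfold qq H5_Q
      rw [h2.2.2.1 z hz]
    rw [e1, H5_polar _ (hFc m)]
    simp only [hH, div_eq_mul_inv]
    rw [← lintegral_mul_const _ ?_]
    have := (hmeas m)
    simp only [hH] at this
    by_cases hm : m = 0
    · subst hm
      simp
    · have h4 : (fun θ : ℝ => ∫⁻ r in Ioo (0 : ℝ) 1, ENNReal.ofReal (r * ((m : ℝ) ^ 2 *
          ‖(r : ℂ) * Complex.exp (θ * Complex.I)‖ ^ (2 * (m - 1)) *
          (1 - H5_Q ((r : ℂ) * Complex.exp (θ * Complex.I)))))) = fun θ : ℝ =>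
          ((∫⁻ r in Ioo (0 : ℝ) 1, ENNReal.ofReal (r * ((m : ℝ) ^ 2 *
          ‖(r : ℂ) * Complex.exp (θ * Complex.I)‖ ^ (2 * (m - 1)) *
          (1 - H5_Q ((r : ℂ) * Complex.exp (θ * Complex.I)))))) / (m : ℝ≥0∞)) * (m : ℝ≥0∞) := by
        funext θ
        rw [ENNReal.div_mul_cancel (by exact_mod_cast hm) (ENNReal.natCast_ne_top m)]
      rw [h4]
      exact this.mul_const _
  simp only [hint]
  have hbound : ∀ m θ, H m θ ≤ 1 := by
    intro m θ
    simp only [hH]
    by_cases hm : m = 0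
    · subst hm; simp
    · have hm1 : 1 ≤ m := Nat.one_le_iff_ne_zero.2 hm
      have h4 := H5_inner_le m hm1 θ 0 1 le_rfl zero_le_one (fun r hr0 hr1 => by
        have : 0 ≤ H5_Q ((r : ℂ) * Complex.exp (θ * Complex.I)) := by
          unfold H5_Q; positivity
        linarith)
      rw [zero_pow (by omega), add_zero, mul_one] at h4
      refine ENNReal.div_le_of_le_mul (h4.trans ?_)
      rw [one_mul, ← ENNReal.ofReal_natCast]
      exact ENNReal.ofReal_le_ofReal (by
        have : (0 : ℝ) ≤ m := Nat.cast_nonneg m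
        linarith)
  have h0 : (0 : ℝ≥0∞) = ∫⁻ θ in Ioo (-Real.pi) Real.pi, (fun _ : ℝ => (0 : ℝ≥0∞)) θ := by simp
  rw [h0]
  refine tendsto_lintegral_of_dominated_convergence (fun _ => 1) hmeas
    (fun m => Eventually.of_forall fun θ => hbound m θ) ?_ ?_
  · rw [lintegral_const, one_mul, Measure.restrict_apply_univ, H5_vol]
    exact ENNReal.ofReal_ne_top
  · -- pointwise limit
    have hae : ∀ᵐ θ : ℝ ∂(volume.restrict (Ioo (-Real.pi) Real.pi)), Real.sin θ ≠ 0 := by
      have hcount : ({θ : ℝ | Real.sin θ = 0}).Countable := by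
        have : {θ : ℝ | Real.sin θ = 0} ⊆ Set.range fun n : ℤ => (n : ℝ) * Real.pi := by
          intro θ hθ
          obtain ⟨n, hn⟩ := Real.sin_eq_zero_iff.1 hθ
          exact ⟨n, hn⟩
        exact (countable_range _).mono this
      refine ae_restrict_of_ae ?_
      rw [ae_iff]
      simpa using hcount.measure_zero volume
    filter_upwards [hae] with θ hθ
    rw [ENNReal.tendsto_nhds_zero]
    intro ε hε
    -- choose a real number below ε
    obtain ⟨δ, hδ0, hδ⟩ : ∃ δ : ℝ, 0 < δ ∧ ENNReal.ofReal δ ≤ ε := by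
      rcases eq_or_ne ε ⊤ with h | h
      · exact ⟨1, one_pos, by rw [h]; exact le_top⟩
      · refine ⟨ε.toReal, ENNReal.toReal_pos hε.ne' h, ?_⟩
        rw [ENNReal.ofReal_toReal h]
    have hlim := h3.2.2.2.2.1 θ hθ
    have hev : ∀ᶠ r : ℝ in 𝓝[<] 1, 1 - δ <
        Real.pi / 2 * |(gg ((r : ℂ) * Complex.exp (θ * Complex.I))).im| :=
      (tendsto_order.1 hlim).1 (1 - δ) (by linarith)
    obtain ⟨a, ha1, hball⟩ := (mem_nhdsLT_iff_exists_Ioo_subset' (zero_lt_one' ℝ)).1 hev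
    set t : ℝ := max 0 ((a + 1) / 2) with ht
    have ha1' : a < 1 := ha1
    have ht0 : 0 ≤ t := le_max_left _ _
    have ht1 : t < 1 := by
      rw [ht]; exact max_lt one_pos (by linarith)
    have hta : a < t := lt_of_lt_of_le (by linarith) (le_max_right 0 ((a + 1) / 2))
    have hpow : Tendsto (fun m : ℕ => t ^ (2 * m)) atTop (𝓝 0) := by
      have h5 : Tendsto (fun m : ℕ => (t ^ 2) ^ m) atTop (𝓝 0) :=
        tendsto_pow_atTop_nhds_zero_of_lt_one (by positivity) (by nlinarith)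
      simpa only [pow_mul] using h5
    have hev2 : ∀ᶠ m : ℕ in atTop, t ^ (2 * m) < δ := (tendsto_order.1 hpow).2 δ hδ0
    filter_upwards [hev2, eventually_ge_atTop 1] with m hm hm1
    have h6 := H5_inner_le m hm1 θ t δ ht0 hδ0.le (fun r hr0 hr1 => by
      have h7 : r ∈ Ioo a 1 := ⟨lt_of_lt_of_le hta hr0, hr1⟩
      have h8 := hball h7
      have h9 : 1 - δ < H5_Q ((r : ℂ) * Complex.exp (θ * Complex.I)) := h8
      linarith)
    simp only [hH]
    refine ENNReal.div_le_of_le_mul (h6.trans ?_)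
    calc ENNReal.ofReal ((m : ℝ) / 2 * (δ + t ^ (2 * m))) ≤ ENNReal.ofReal (δ * m) := by
          refine ENNReal.ofReal_le_ofReal ?_
          have hm0 : (0 : ℝ) ≤ m := Nat.cast_nonneg m
          have : (m : ℝ) / 2 * (δ + t ^ (2 * m)) ≤ (m : ℝ) / 2 * (δ + δ) :=
            mul_le_mul_of_nonneg_left (by linarith) (by linarith)
          linarith
      _ = ENNReal.ofReal δ * (m : ℝ≥0∞) := by
          rw [ENNReal.ofReal_mul hδ0.le, ENNReal.ofReal_natCast]
      _ ≤ ε * (m : ℝ≥0∞) := mul_le_mul_left hδ _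

/-- **Task H5** -/
theorem H5 (h1 : S_H1) (h2 : S_H2) (h3 : S_H3) : S_H5 := fun L hW he =>
  ⟨fun m hm => H5_one h1 h2 L hW he m hm, H5_two h1 h2 h3 L hW he⟩

end H712MA
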