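import Pool.Agent.H712R2.MA.Stm

/-! Task P (helper541): sublevel sets of `V`, smoothness of cut-off functions. -/

set_option autoImplicit false

noncomputable section

open MeasureTheory Filter Topology
open scoped BigOperators Matrix ENNReal

namespace H712MA

namespace TaskP

/-- `|e|` is continuous on the whole plane. -/
theorem norm_e_cont (L : Lens) : Continuous (fun p => ‖L.e p‖) := by
  have hle : ∀ p, ‖L.e p‖ ≤ 1 := by
    intro p
    by_cases hp : p ∈ L.W
    · exact (L.lt p hp).le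
    · rw [L.off p hp]; simp
  rw [OrderTopology.continuous_iff]
  intro r
  constructor
  · by_cases hr : r < 1
    · have h := (L.comp r hr).isClosed
      have : (fun p => ‖L.e p‖) ⁻¹' Set.Ioi r = {p : ℂ | ‖L.e p‖ ≤ r}ᶜ := by
        ext p
        simp [Set.mem_Ioi]
      rw [this]
      exact h.isOpen_compl
    · have : (fun p => ‖L.e p‖) ⁻¹' Set.Ioi r = ∅ := by
        ext p
        simp only [Set.mem_preimage, Set.mem_Ioi, Set.mem_empty_iff_false, iff_false, not_lt]
        exact (hle p).trans (not_lt.mp hr)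
      rw [this]
      exact isOpen_empty
  · by_cases hr : r ≤ 1
    · have : (fun p => ‖L.e p‖) ⁻¹' Set.Iio r = L.W ∩ (fun p => ‖L.e p‖) ⁻¹' Set.Iio r := by
        ext p
        simp only [Set.mem_preimage, Set.mem_Iio, Set.mem_inter_iff]
        constructor
        · intro h
          refine ⟨?_, h⟩
          by_contra hp
          rw [L.off p hp] at h
          simp at h
          linarith
        · exact fun h => h.2
      rw [this]
      have hc : ContinuousOn (fun p => ‖L.e p‖) L.W := L.diff.continuousOn.norm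
      exact hc.isOpen_inter_preimage L.isOpen isOpen_Iio
    · have : (fun p => ‖L.e p‖) ⁻¹' Set.Iio r = Set.univ := by
        ext p
        simp only [Set.mem_preimage, Set.mem_Iio, Set.mem_univ, iff_true]
        exact (hle p).trans_lt (not_le.mp hr)
      rw [this]
      exact isOpen_univ

/-- `pk v` as a continuous linear map. -/
def pkL {n : ℕ} (v : Fin n → ℝ) : E2 n →ₗ[ℝ] ℂ where
  toFun z := pk v z
  map_add' a b := by
    apply Complex.ext
    · simp [pk, dotProduct_add]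
    · simp [pk, dotProduct_add]
  map_smul' t a := by
    apply Complex.ext
    · simp [pk, dotProduct_smul]
    · simp [pk, dotProduct_smul]

theorem pk_contDiff {n : ℕ} (v : Fin n → ℝ) : ContDiff ℝ (⊤ : ℕ∞) (fun z : E2 n => pk v z) :=
  (LinearMap.toContinuousLinearMap (pkL v)).contDiff

theorem pk_cont {n : ℕ} (v : Fin n → ℝ) : Continuous (fun z : E2 n => pk v z) :=
  (LinearMap.toContinuousLinearMap (pkL v)).continuous

theorem e_contDiffOn (L : Lens) : ContDiffOn ℝ (⊤ : ℕ∞) L.e L.W :=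
  (L.diff.contDiffOn L.isOpen).restrict_scalars ℝ

theorem de_contDiffOn (L : Lens) : ContDiffOn ℝ (⊤ : ℕ∞) (deriv L.e) L.W :=
  ((L.diff.deriv L.isOpen).contDiffOn L.isOpen).restrict_scalars ℝ

theorem gf_contDiffOn (L : Lens) (m : ℕ) : ContDiffOn ℝ (⊤ : ℕ∞) (gf L m) L.W :=
  (e_contDiffOn L).pow m

theorem gd_contDiffOn (L : Lens) (m : ℕ) : ContDiffOn ℝ (⊤ : ℕ∞) (gd L m) L.W := by
  have h : ContDiffOn ℝ (⊤ : ℕ∞) (fun p => (m : ℂ) * L.e p ^ (m - 1) * deriv L.e p) L.W :=
    (contDiffOn_const.mul ((e_contDiffOn L).pow (m - 1))).mul (de_contDiffOn L)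
  refine h.congr ?_
  intro p hp
  simp [gd, hp]

theorem norm_gf (L : Lens) (m : ℕ) (p : ℂ) : ‖gf L m p‖ ^ 2 = ‖L.e p‖ ^ (2 * m) := by
  rw [gf, norm_pow, ← pow_mul, mul_comm]

section
variable {κ : Type} [Fintype κ] {n : ℕ}

theorem VV_nonneg (L : Lens) (m : ℕ) (l : κ → Fin n → ℝ) (z : E2 n) : 0 ≤ VV L m l z :=
  Finset.sum_nonneg fun k _ => by positivity

theorem term_le (L : Lens) (m : ℕ) (l : κ → Fin n → ℝ) (z : E2 n) (k : κ) :
    ‖L.e (pk (l k) z)‖ ^ (2 * m) ≤ VV L m l z := by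
  rw [← norm_gf]
  exact Finset.single_le_sum (f := fun k => ‖gf L m (pk (l k) z)‖ ^ 2)
    (fun k _ => by positivity) (Finset.mem_univ k)

theorem VV_cont (L : Lens) (m : ℕ) (l : κ → Fin n → ℝ) : Continuous (VV L m l) := by
  have : VV L m l = fun z => ∑ k, ‖L.e (pk (l k) z)‖ ^ (2 * m) := by
    funext z
    exact Finset.sum_congr rfl fun k _ => norm_gf L m _
  rw [this]
  refine continuous_finsetSum _ fun k _ => ?_
  exact ((norm_e_cont L).comp (pk_cont (l k))).pow _

theorem UU_open (L : Lens) (l : κ → Fin n → ℝ) : IsOpen (UU L l) := by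
  have : UU L l = ⋂ k, (fun z => pk (l k) z) ⁻¹' L.W := by
    ext z
    simp [UU]
  rw [this]
  exact isOpen_iInter_of_finite fun k => L.isOpen.preimage (pk_cont (l k))

theorem VV_off (L : Lens) (m : ℕ) (l : κ → Fin n → ℝ) (z : E2 n) (hz : z ∉ UU L l) :
    1 ≤ VV L m l z := by
  have : ∃ k, pk (l k) z ∉ L.W := by
    by_contra h
    push Not at h
    exact hz h
  obtain ⟨k, hk⟩ := this
  have h := term_le L m l z k
  rw [L.off _ hk] at h
  simpa using h

theorem VV_contDiffOn (L : Lens) (m : ℕ) (l : κ → Fin n → ℝ) :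
    ContDiffOn ℝ (⊤ : ℕ∞) (VV L m l) (UU L l) := by
  have : VV L m l = fun z => ∑ k, ‖gf L m (pk (l k) z)‖ ^ 2 := rfl
  rw [this]
  refine ContDiffOn.sum fun k _ => ?_
  refine ContDiffOn.norm_sq ℝ ?_
  exact (gf_contDiffOn L m).comp (pk_contDiff (l k)).contDiffOn (fun z hz => hz k)

omit [Fintype κ] in
/-- the real matrix of the chosen basis -/
theorem bounded_of_spans (l : κ → Fin n → ℝ) (hl : Spans l) (R : ℝ) :
    Bornology.IsBounded {z : E2 n | ∀ k, ‖pk (l k) z‖ ≤ R} := by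
  obtain ⟨f, hf⟩ := hl
  set M : Matrix (Fin n) (Fin n) ℝ := Matrix.of fun i j => l (f i) j with hM
  have hdet : IsUnit M.det := isUnit_iff_ne_zero.mpr hf
  -- x = M⁻¹ (M x)
  have key : ∀ x : Fin n → ℝ, (∀ i, |l (f i) ⬝ᵥ x| ≤ R) →
      ∀ j, |x j| ≤ ∑ i, |M⁻¹ j i| * R := by
    intro x hx j
    have h1 : x = M⁻¹ *ᵥ (M *ᵥ x) := by
      rw [Matrix.mulVec_mulVec, Matrix.nonsing_inv_mul _ hdet, Matrix.one_mulVec]
    have h2 : x j = ∑ i, M⁻¹ j i * (l (f i) ⬝ᵥ x) := by
      conv_lhs => rw [h1]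
      rfl
    rw [h2]
    refine (Finset.abs_sum_le_sum_abs _ _).trans ?_
    refine Finset.sum_le_sum fun i _ => ?_
    rw [abs_mul]
    exact mul_le_mul_of_nonneg_left (hx i) (abs_nonneg _)
  -- bounded
  refine (Bornology.IsBounded.subset (s := {z : E2 n | ∀ k, ‖pk (l k) z‖ ≤ R})
    (t := Metric.closedBall (0 : E2 n) (∑ j, ∑ i, |M⁻¹ j i| * |R|)) ?_ ?_)
  · exact Metric.isBounded_closedBall
  · intro z hz
    have hz' : ∀ k, ‖pk (l k) z‖ ≤ R := hz
    rw [mem_closedBall_zero_iff]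
    have hS : 0 ≤ ∑ j, ∑ i, |M⁻¹ j i| * |R| := by positivity
    have hterm : ∀ j, ∑ i, |M⁻¹ j i| * R ≤ ∑ j, ∑ i, |M⁻¹ j i| * |R| := by
      intro j
      calc ∑ i, |M⁻¹ j i| * R ≤ ∑ i, |M⁻¹ j i| * |R| :=
            Finset.sum_le_sum fun i _ => mul_le_mul_of_nonneg_left (le_abs_self R) (abs_nonneg _)
        _ ≤ _ := Finset.single_le_sum (f := fun j => ∑ i, |M⁻¹ j i| * |R|)
            (fun j _ => by positivity) (Finset.mem_univ j)
    rw [Prod.norm_def]
    refine max_le ?_ ?_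
    · rw [pi_norm_le_iff_of_nonneg hS]
      intro j
      rw [Real.norm_eq_abs]
      refine (key z.1 (fun i => ?_) j).trans (hterm j)
      have := Complex.abs_re_le_norm (pk (l (f i)) z)
      exact this.trans (hz' (f i))
    · rw [pi_norm_le_iff_of_nonneg hS]
      intro j
      rw [Real.norm_eq_abs]
      refine (key z.2 (fun i => ?_) j).trans (hterm j)
      have := Complex.abs_im_le_norm (pk (l (f i)) z)
      exact this.trans (hz' (f i))

theorem sub_compact (L : Lens) (m : ℕ) (hm : 1 ≤ m) (l : κ → Fin n → ℝ) (hl : Spans l)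
    (v : ℝ) (hv : v < 1) : IsCompact {z : E2 n | VV L m l z ≤ v} := by
  have hclosed : IsClosed {z : E2 n | VV L m l z ≤ v} :=
    isClosed_le (VV_cont L m l) continuous_const
  -- choose r < 1 with t^(2m) ≤ v → t ≤ r
  have hr : ∃ r : ℝ, r < 1 ∧ ∀ t : ℝ, 0 ≤ t → t ^ (2 * m) ≤ v → t ≤ r := by
    by_cases hv0 : v < 0
    · refine ⟨0, by norm_num, fun t ht h => ?_⟩
      have : 0 ≤ t ^ (2 * m) := by positivity
      linarith
    · push Not at hv0
      -- r = v^(1/(2m))
      refine ⟨v ^ (1 / ((2 * m : ℕ) : ℝ)), ?_, fun t ht h => ?_⟩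
      · refine Real.rpow_lt_one hv0 hv ?_
        have : (0 : ℝ) < ((2 * m : ℕ) : ℝ) := by
          exact_mod_cast (by omega : 0 < 2 * m)
        positivity
      · have hne : (2 * m : ℕ) ≠ 0 := by omega
        have h1 : (t ^ (2 * m)) ^ (1 / ((2 * m : ℕ) : ℝ)) = t := by
          rw [one_div]
          exact Real.pow_rpow_inv_natCast ht hne
        calc t = (t ^ (2 * m)) ^ (1 / ((2 * m : ℕ) : ℝ)) := h1.symm
          _ ≤ v ^ (1 / ((2 * m : ℕ) : ℝ)) :=
            Real.rpow_le_rpow (by positivity) h (by positivity)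
  obtain ⟨r, hr1, hrt⟩ := hr
  obtain ⟨R, hR⟩ := (L.comp r hr1).isBounded.subset_closedBall 0
  refine Metric.isCompact_of_isClosed_isBounded hclosed ?_
  refine (bounded_of_spans l hl R).subset ?_
  intro z hz k
  have h1 : ‖L.e (pk (l k) z)‖ ^ (2 * m) ≤ v := (term_le L m l z k).trans hz
  have h2 : ‖L.e (pk (l k) z)‖ ≤ r := hrt _ (norm_nonneg _) h1
  have h3 := hR h2
  rwa [mem_closedBall_zero_iff] at h3

end

end TaskP

open TaskP in
theorem P : S_P := by
  intro κ _ n L m hm l hl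
  refine ⟨UU_open L l, sub_compact L m hm l hl, VV_off L m l, VV_cont L m l, VV_contDiffOn L m l,
    gf_contDiffOn L m, gd_contDiffOn L m, ?_⟩
  intro φ v1 hφ hv1 hφ0 c hc G hG
  have hzero : ∀ z, v1 < VV L m l z → (φ (c * VV L m l z) : ℂ) * G z = 0 := by
    intro z hz
    have h0 := VV_nonneg L m l z
    have : v1 ≤ c * VV L m l z := by nlinarith
    rw [hφ0 _ this]
    simp
  constructor
  · rw [contDiff_iff_contDiffAt]
    intro z
    by_cases hz : z ∈ UU L l
    · have h1 : ContDiffOn ℝ (⊤ : ℕ∞) (fun z => φ (c * VV L m l z)) (UU L l) :=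
        hφ.comp_contDiffOn (contDiffOn_const.mul (VV_contDiffOn L m l))
      have h2 : ContDiffOn ℝ (⊤ : ℕ∞) (fun z => (φ (c * VV L m l z) : ℂ)) (UU L l) :=
        Complex.ofRealCLM.contDiff.comp_contDiffOn h1
      exact (h2.mul hG).contDiffAt ((UU_open L l).mem_nhds hz)
    · have hz1 : v1 < VV L m l z := hv1.trans_le (VV_off L m l z hz)
      have hev : ∀ᶠ y in 𝓝 z, v1 < VV L m l y :=
        (VV_cont L m l).continuousAt.eventually (lt_mem_nhds hz1)
      have : (fun z => (φ (c * VV L m l z) : ℂ) * G z) =ᶠ[𝓝 z] fun _ => (0 : ℂ) :=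
        hev.mono fun y hy => hzero y hy
      exact contDiffAt_const.congr_of_eventuallyEq this
  · refine HasCompactSupport.intro (sub_compact L m hm l hl v1 hv1) ?_
    intro z hz
    exact hzero z (not_le.mp hz)

end H712MA
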