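import Pool.Agent.H712R2.MA.Stm

set_option autoImplicit false

noncomputable section

open MeasureTheory Filter Topology
open scoped BigOperators Matrix ENNReal Pointwise

namespace H712MA

namespace R1aux

variable {κ : Type} [Fintype κ] {n : ℕ}

lemma spans_inj {κ : Type} {n : ℕ} (l : κ → Fin n → ℝ) (h : Spans l) (v : Fin n → ℝ)
    (hv : ∀ k, l k ⬝ᵥ v = 0) : v = 0 := by
  obtain ⟨f, hf⟩ := h
  apply Matrix.eq_zero_of_mulVec_eq_zero hf
  funext i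
  simp only [Matrix.mulVec, Matrix.of_apply, Pi.zero_apply]
  exact hv (f i)

/-- the slice function -/
def FF (m : ℕ) (x y : ℝ) : ℝ := ‖eta ⟨x, y⟩‖ ^ (2 * m) * (SignType.sign y : ℝ)

lemma FF_lt (h4 : S_H4) (m : ℕ) (hm : 1 ≤ m) (x y y' : ℝ) (hy : (⟨x, y⟩ : ℂ) ∈ WW)
    (hy' : (⟨x, y'⟩ : ℂ) ∈ WW) (hn : y ≠ 0) (hn' : y' ≠ 0) (hlt : y < y') :
    FF m x y < FF m x y' := by
  obtain ⟨-, hs, -, -⟩ := h4
  have h2m : 2 * m ≠ 0 := by omega
  have pos : ∀ t : ℝ, (⟨x, t⟩ : ℂ) ∈ WW → t ≠ 0 → 0 < ‖eta ⟨x, t⟩‖ := by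
    intro t ht h0
    have := hs x t 0 ht (by simpa using h0)
    exact lt_of_le_of_lt (norm_nonneg _) this
  unfold FF
  rcases lt_or_gt_of_ne hn with h1 | h1
  · rcases lt_or_gt_of_ne hn' with h2 | h2
    · rw [sign_neg h1, sign_neg h2]
      have := hs x y y' hy (by rw [abs_of_neg h1, abs_of_neg h2]; linarith)
      have := pow_lt_pow_left₀ this (norm_nonneg _) h2m
      simp only [SignType.coe_neg_one]
      linarith
    · rw [sign_neg h1, sign_pos h2]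
      have a1 := pow_pos (pos y hy hn) (2 * m)
      have a2 := pow_pos (pos y' hy' hn') (2 * m)
      simp only [SignType.coe_neg_one, SignType.coe_one]
      linarith
  · have h2 : 0 < y' := lt_trans h1 hlt
    rw [sign_pos h1, sign_pos h2]
    have := hs x y' y hy' (by rw [abs_of_pos h1, abs_of_pos h2]; linarith)
    have := pow_lt_pow_left₀ this (norm_nonneg _) h2m
    simp only [SignType.coe_one]
    linarith

lemma norm_gf (L : Lens) (he : L.e = eta) (m : ℕ) (p : ℂ) :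
    ‖gf L m p‖ ^ 2 = ‖eta p‖ ^ (2 * m) := by
  unfold gf
  rw [he, norm_pow, ← pow_mul, mul_comm m 2]

/-- the map `T` -/
def TT (m : ℕ) (l : κ → Fin n → ℝ) (x u : Fin n → ℝ) : Fin n → ℝ :=
  ∑ k, ((m : ℝ) * FF m (l k ⬝ᵥ x) (l k ⬝ᵥ u)) • l k

/-- the good set -/
def GU (m : ℕ) (L : Lens) (l : κ → Fin n → ℝ) (x : Fin n → ℝ) : Set (Fin n → ℝ) :=
  {u | VV L m l (x, u) < 1} ∩ ⋂ k, {u | l k ≠ 0 → l k ⬝ᵥ u ≠ 0}

lemma mem_WW_of_VV (L : Lens) (hW : L.W = WW) (he : L.e = eta) (m : ℕ)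
    (l : κ → Fin n → ℝ) (z : E2 n) (h : VV L m l z < 1) (k : κ) : pk (l k) z ∈ WW := by
  by_contra hk
  have h1 : ‖gf L m (pk (l k) z)‖ ^ 2 = 1 := by
    have h2 := L.off (pk (l k) z) (by rw [hW]; exact hk)
    unfold gf
    rw [h2]; simp
  have h3 : ‖gf L m (pk (l k) z)‖ ^ 2 ≤ VV L m l z := by
    unfold VV
    exact Finset.single_le_sum (f := fun k => ‖gf L m (pk (l k) z)‖ ^ 2)
      (fun i _ => by positivity) (Finset.mem_univ k)
  linarith

lemma measurable_GU (h2 : S_H2) (L : Lens) (he : L.e = eta) (m : ℕ)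
    (l : κ → Fin n → ℝ) (x : Fin n → ℝ) : MeasurableSet (GU m L l x) := by
  have hc : Continuous (fun p => ‖eta p‖) := h2.2.2.2.2.2.2.2.2.1
  have hV : Continuous (fun u : Fin n → ℝ => VV L m l (x, u)) := by
    unfold VV
    refine continuous_finsetSum _ fun k _ => ?_
    have : (fun u : Fin n → ℝ => ‖gf L m (pk (l k) (x, u))‖ ^ 2) =
        fun u => (‖eta (pk (l k) (x, u))‖) ^ (2 * m) := by
      funext u; exact norm_gf L he m _
    rw [this]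
    refine Continuous.pow ?_ _
    refine hc.comp ?_
    have : (fun u : Fin n → ℝ => pk (l k) (x, u)) =
        fun u => ((l k ⬝ᵥ x : ℝ) : ℂ) + ((l k ⬝ᵥ u : ℝ) : ℂ) * Complex.I := by
      funext u
      apply Complex.ext <;> simp [pk]
    rw [this]
    have : Continuous fun u : Fin n → ℝ => l k ⬝ᵥ u := by
      unfold dotProduct
      fun_prop
    fun_prop
  refine MeasurableSet.inter ?_ ?_
  · exact (isOpen_lt hV continuous_const).measurableSet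
  · refine MeasurableSet.iInter fun k => ?_
    by_cases hk : l k = 0
    · have : {u : Fin n → ℝ | l k ≠ 0 → l k ⬝ᵥ u ≠ 0} = Set.univ := by
        ext u; simp [hk]
      rw [this]; exact MeasurableSet.univ
    · have hd : Continuous fun u : Fin n → ℝ => l k ⬝ᵥ u := by
        unfold dotProduct
        fun_prop
      have : {u : Fin n → ℝ | l k ≠ 0 → l k ⬝ᵥ u ≠ 0} = {u | l k ⬝ᵥ u ≠ 0} := by
        ext u; simp [hk]
      rw [this]
      exact (isOpen_ne_fun hd continuous_const).measurableSet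

lemma TT_inj (h4 : S_H4) (L : Lens) (hW : L.W = WW) (he : L.e = eta) (m : ℕ) (hm : 1 ≤ m)
    (l : κ → Fin n → ℝ) (hl : Spans l) (x : Fin n → ℝ) :
    Set.InjOn (TT m l x) (GU m L l x) := by
  intro u hu u' hu' h
  have key : ∀ k, 0 ≤ (FF m (l k ⬝ᵥ x) (l k ⬝ᵥ u) - FF m (l k ⬝ᵥ x) (l k ⬝ᵥ u')) *
      (l k ⬝ᵥ u - l k ⬝ᵥ u') ∧
      ((FF m (l k ⬝ᵥ x) (l k ⬝ᵥ u) - FF m (l k ⬝ᵥ x) (l k ⬝ᵥ u')) *
      (l k ⬝ᵥ u - l k ⬝ᵥ u') = 0 → l k ⬝ᵥ u = l k ⬝ᵥ u') := by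
    intro k
    by_cases hk : l k = 0
    · simp [hk]
    have m1 := mem_WW_of_VV L hW he m l (x, u) hu.1 k
    have m2 := mem_WW_of_VV L hW he m l (x, u') hu'.1 k
    have n1 : l k ⬝ᵥ u ≠ 0 := (Set.mem_iInter.mp hu.2 k) hk
    have n2 : l k ⬝ᵥ u' ≠ 0 := (Set.mem_iInter.mp hu'.2 k) hk
    simp only [pk] at m1 m2
    rcases lt_trichotomy (l k ⬝ᵥ u) (l k ⬝ᵥ u') with h1 | h1 | h1
    · have := FF_lt h4 m hm _ _ _ m1 m2 n1 n2 h1
      have : 0 < (FF m (l k ⬝ᵥ x) (l k ⬝ᵥ u) - FF m (l k ⬝ᵥ x) (l k ⬝ᵥ u')) *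
          (l k ⬝ᵥ u - l k ⬝ᵥ u') := mul_pos_of_neg_of_neg (by linarith) (by linarith)
      exact ⟨this.le, fun h => by linarith⟩
    · exact ⟨by rw [h1]; simp, fun _ => h1⟩
    · have := FF_lt h4 m hm _ _ _ m2 m1 n2 n1 h1
      have : 0 < (FF m (l k ⬝ᵥ x) (l k ⬝ᵥ u) - FF m (l k ⬝ᵥ x) (l k ⬝ᵥ u')) *
          (l k ⬝ᵥ u - l k ⬝ᵥ u') := mul_pos (by linarith) (by linarith)
      exact ⟨this.le, fun h => by linarith⟩
  have hsum : ∑ k, (FF m (l k ⬝ᵥ x) (l k ⬝ᵥ u) - FF m (l k ⬝ᵥ x) (l k ⬝ᵥ u')) *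
      (l k ⬝ᵥ u - l k ⬝ᵥ u') = 0 := by
    have e1 : (TT m l x u - TT m l x u') ⬝ᵥ (u - u') = 0 := by
      rw [h]; simp
    have e2 : (TT m l x u - TT m l x u') ⬝ᵥ (u - u') =
        (m : ℝ) * ∑ k, (FF m (l k ⬝ᵥ x) (l k ⬝ᵥ u) - FF m (l k ⬝ᵥ x) (l k ⬝ᵥ u')) *
      (l k ⬝ᵥ u - l k ⬝ᵥ u') := by
      unfold TT
      rw [← Finset.sum_sub_distrib, sum_dotProduct, Finset.mul_sum]
      refine Finset.sum_congr rfl fun k _ => ?_
      rw [← sub_smul, smul_dotProduct, dotProduct_sub, smul_eq_mul]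
      ring
    rw [e2] at e1
    have hm0 : (m : ℝ) ≠ 0 := by positivity
    exact (mul_eq_zero.mp e1).resolve_left hm0
  have hz := (Finset.sum_eq_zero_iff_of_nonneg (fun k _ => (key k).1)).mp hsum
  have : u - u' = 0 := by
    apply spans_inj l hl
    intro k
    rw [dotProduct_sub, (key k).2 (hz k (Finset.mem_univ k)), sub_self]
  exact sub_eq_zero.mp this

lemma TT_mem (L : Lens) (he : L.e = eta) (m : ℕ) (hm : 1 ≤ m)
    (l : κ → Fin n → ℝ) (x : Fin n → ℝ) :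
    TT m l x '' (GU m L l x) ⊆ (m : ℝ) • Pol l := by
  rintro _ ⟨u, hu, rfl⟩
  have hm0 : (m : ℝ) ≠ 0 := by positivity
  rw [Set.mem_smul_set_iff_inv_smul_mem₀ hm0]
  intro x' hx'
  have hV := hu.1
  simp only [Set.mem_ofPred_eq, VV] at hV
  have e : x' ⬝ᵥ ((m : ℝ)⁻¹ • TT m l x u) =
      ∑ k, FF m (l k ⬝ᵥ x) (l k ⬝ᵥ u) * (l k ⬝ᵥ x') := by
    unfold TT
    rw [dotProduct_smul, dotProduct_sum, smul_eq_mul, Finset.mul_sum]
    refine Finset.sum_congr rfl fun k _ => ?_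
    rw [dotProduct_smul, smul_eq_mul, dotProduct_comm x' (l k)]
    field_simp
  rw [e]
  refine le_trans (Finset.sum_le_sum (g := fun k => ‖gf L m (pk (l k) (x, u))‖ ^ 2) ?_) hV.le
  intro k _
  rw [norm_gf L he]
  unfold FF
  have h1 : |(SignType.sign (l k ⬝ᵥ u) : ℝ)| ≤ 1 := by
    rcases lt_trichotomy (l k ⬝ᵥ u) 0 with h | h | h
    · rw [sign_neg h]; simp
    · rw [h]; simp
    · rw [sign_pos h]; simp
  have h2 : |(SignType.sign (l k ⬝ᵥ u) : ℝ) * (l k ⬝ᵥ x')| ≤ 1 := by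
    rw [abs_mul]
    exact mul_le_one₀ h1 (abs_nonneg _) (hx' k)
  have h3 := le_trans (le_abs_self _) h2
  have h4 : 0 ≤ ‖eta ⟨l k ⬝ᵥ x, l k ⬝ᵥ u⟩‖ ^ (2 * m) := by positivity
  calc ‖eta ⟨l k ⬝ᵥ x, l k ⬝ᵥ u⟩‖ ^ (2 * m) * (SignType.sign (l k ⬝ᵥ u) : ℝ) * (l k ⬝ᵥ x')
      = ‖eta ⟨l k ⬝ᵥ x, l k ⬝ᵥ u⟩‖ ^ (2 * m) * ((SignType.sign (l k ⬝ᵥ u) : ℝ) * (l k ⬝ᵥ x')) := by ring
    _ ≤ ‖eta ⟨l k ⬝ᵥ x, l k ⬝ᵥ u⟩‖ ^ (2 * m) * 1 := mul_le_mul_of_nonneg_left h3 h4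
    _ = ‖eta (pk (l k) (x, u))‖ ^ (2 * m) := by rw [mul_one]; rfl

/-- the weights -/
def bb (L : Lens) (m : ℕ) (l : κ → Fin n → ℝ) (x u : Fin n → ℝ) (k : κ) : ℝ :=
  4 / Real.pi * qq (pk (l k) (x, u)) * af L m (pk (l k) (x, u))

/-- the derivative of `T` -/
def TD (L : Lens) (m : ℕ) (l : κ → Fin n → ℝ) (x u : Fin n → ℝ) : (Fin n → ℝ) →L[ℝ] (Fin n → ℝ) :=
  LinearMap.toContinuousLinearMap
    (Matrix.toLin' (∑ k, bb L m l x u k • Matrix.vecMulVec (l k) (l k)))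

omit [Fintype κ] in
lemma bb_nonneg (L : Lens) (m : ℕ) (l : κ → Fin n → ℝ) (x u : Fin n → ℝ) (k : κ) :
    0 ≤ bb L m l x u k := by
  unfold bb qq af
  positivity

/-- the linear functional `u ↦ v ⬝ᵥ u` -/
def lf (v : Fin n → ℝ) : (Fin n → ℝ) →L[ℝ] ℝ :=
  LinearMap.toContinuousLinearMap (dotProductBilin ℝ ℝ v)

lemma term_deriv (h3 : S_H3) (h4 : S_H4) (L : Lens) (hW : L.W = WW) (he : L.e = eta)
    (m : ℕ) (hm : 1 ≤ m) (l : κ → Fin n → ℝ) (x u : Fin n → ℝ) (hu : u ∈ GU m L l x) (k : κ) :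
    HasFDerivAt (fun v : Fin n → ℝ => ((m : ℝ) * FF m (l k ⬝ᵥ x) (l k ⬝ᵥ v)) • l k)
      (bb L m l x u k • (lf (l k)).smulRight (l k)) u := by
  by_cases hk : l k = 0
  · have e1 : (fun v : Fin n → ℝ => ((m : ℝ) * FF m (l k ⬝ᵥ x) (l k ⬝ᵥ v)) • l k) =
        fun _ => (0 : Fin n → ℝ) := by
      funext v; rw [hk, smul_zero]
    have e2 : bb L m l x u k • (lf (l k)).smulRight (l k) = 0 := by
      ext v; simp [hk]
    rw [e1, e2]
    exact hasFDerivAt_const _ _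
  have hm0 : (m : ℝ) ≠ 0 := by positivity
  have hmem := mem_WW_of_VV L hW he m l (x, u) hu.1 k
  have hy : l k ⬝ᵥ u ≠ 0 := (Set.mem_iInter.mp hu.2 k) hk
  have hd := h4.2.2.2 L hW he m hm (l k ⬝ᵥ x) (l k ⬝ᵥ u) hmem
  have hsgn := h4.2.2.1 (l k ⬝ᵥ x) (l k ⬝ᵥ u) hmem
  have hlt : ‖eta (pk (l k) (x, u))‖ < 1 := by
    have := L.lt (pk (l k) (x, u)) (by rw [hW]; exact hmem)
    rwa [he] at this
  have hd2 : HasDerivAt (fun t : ℝ => ‖gf L m ⟨l k ⬝ᵥ x, t⟩‖ ^ 2 * (SignType.sign (l k ⬝ᵥ u) : ℝ))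
      (2 / m * af L m ⟨l k ⬝ᵥ x, l k ⬝ᵥ u⟩ * (gg (eta ⟨l k ⬝ᵥ x, l k ⬝ᵥ u⟩)).im *
        (SignType.sign (l k ⬝ᵥ u) : ℝ)) (l k ⬝ᵥ u) := hd.mul_const _
  have hd3 : HasDerivAt (fun t : ℝ => FF m (l k ⬝ᵥ x) t)
      (2 / m * af L m ⟨l k ⬝ᵥ x, l k ⬝ᵥ u⟩ * (gg (eta ⟨l k ⬝ᵥ x, l k ⬝ᵥ u⟩)).im *
        (SignType.sign (l k ⬝ᵥ u) : ℝ)) (l k ⬝ᵥ u) := by
    refine hd2.congr_of_eventuallyEq ?_
    rcases lt_or_gt_of_ne hy with h | h
    · filter_upwards [Iio_mem_nhds h] with t ht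
      rw [sign_neg h]
      unfold FF
      rw [sign_neg ht, norm_gf L he]
    · filter_upwards [Ioi_mem_nhds h] with t ht
      rw [sign_pos h]
      unfold FF
      rw [sign_pos ht, norm_gf L he]
  have e3 : 2 / m * af L m ⟨l k ⬝ᵥ x, l k ⬝ᵥ u⟩ * (gg (eta ⟨l k ⬝ᵥ x, l k ⬝ᵥ u⟩)).im *
        (SignType.sign (l k ⬝ᵥ u) : ℝ) = (1 / m) * bb L m l x u k := by
    have : (gg (eta ⟨l k ⬝ᵥ x, l k ⬝ᵥ u⟩)).im * (SignType.sign (l k ⬝ᵥ u) : ℝ) =
        |(gg (eta (pk (l k) (x, u)))).im| := by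
      rcases lt_or_gt_of_ne hy with h | h
      · have := h3.2.1 _ hlt (hsgn.2 h)
        rw [sign_neg h, abs_of_neg this]
        simp [pk]
      · have := h3.1 _ hlt (hsgn.1 h)
        rw [sign_pos h, abs_of_pos this]
        simp [pk]
    rw [mul_assoc, this]
    unfold bb qq
    have : (⟨l k ⬝ᵥ x, l k ⬝ᵥ u⟩ : ℂ) = pk (l k) (x, u) := rfl
    rw [this]
    have := Real.pi_ne_zero
    field_simp
    ring
  rw [e3] at hd3
  have hlin : HasFDerivAt (fun v : Fin n → ℝ => l k ⬝ᵥ v) (lf (l k)) u := (lf (l k)).hasFDerivAt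
  have hc := hd3.comp_hasFDerivAt u hlin
  have hc2 := (hc.const_mul (m : ℝ)).smul_const (l k)
  have hfin : bb L m l x u k • (lf (l k)).smulRight (l k) =
      ((m : ℝ) • ((1 / (m : ℝ) * bb L m l x u k) • lf (l k))).smulRight (l k) := by
    ext v i
    simp only [ContinuousLinearMap.smulRight_apply, smul_apply, Pi.smul_apply, smul_eq_mul]
    field_simp
  rw [hfin]
  exact hc2

lemma TT_deriv (h3 : S_H3) (h4 : S_H4) (L : Lens) (hW : L.W = WW) (he : L.e = eta)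
    (m : ℕ) (hm : 1 ≤ m) (l : κ → Fin n → ℝ) (x u : Fin n → ℝ) (hu : u ∈ GU m L l x) :
    HasFDerivAt (TT m l x) (TD L m l x u) u := by
  have h := HasFDerivAt.fun_sum (u := (Finset.univ : Finset κ))
    (fun k _ => term_deriv h3 h4 L hW he m hm l x u hu k)
  have e : TD L m l x u = ∑ k, bb L m l x u k • (lf (l k)).smulRight (l k) := by
    ext v i
    simp only [TD, LinearMap.coe_toContinuousLinearMap', Matrix.toLin'_apply,
      Matrix.sum_mulVec, Matrix.smul_mulVec, Finset.sum_apply, Pi.smul_apply, smul_eq_mul,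
      sum_apply, smul_apply,
      ContinuousLinearMap.smulRight_apply]
    refine Finset.sum_congr rfl fun k _ => ?_
    congr 1
    rw [Matrix.vecMulVec_mulVec]
    simp [lf, mul_comm]
  rw [e]
  exact h

lemma TD_det (ha3 : S_A3) (L : Lens) (m : ℕ) (l : κ → Fin n → ℝ) (x u : Fin n → ℝ) :
    (n.factorial : ℝ) * (TD L m l x u).det = DS l (bb L m l x u) := by
  rw [← ha3]
  congr 1
  unfold TD
  rw [LinearMap.det_toContinuousLinearMap, LinearMap.det_toLin']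

lemma DS_nonneg (l : κ → Fin n → ℝ) (a : κ → ℝ) (ha : ∀ k, 0 ≤ a k) : 0 ≤ DS l a := by
  unfold DS
  exact Finset.sum_nonneg fun f _ => mul_nonneg (Finset.prod_nonneg fun i _ => ha _) (sq_nonneg _)

lemma null_hyper (v : Fin n → ℝ) (hv : v ≠ 0) : volume {u : Fin n → ℝ | v ⬝ᵥ u = 0} = 0 := by
  have h := Measure.addHaar_submodule (volume : Measure (Fin n → ℝ)) (LinearMap.ker (lf v).toLinearMap) ?_
  · convert h using 2
    ext u
    simp [lf]
  · intro htop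
    rw [LinearMap.ker_eq_top] at htop
    have : v ⬝ᵥ v = 0 := by
      have := congrArg (fun f => f v) htop
      simpa [lf] using this
    exact hv (dotProduct_self_eq_zero.mp this)

end R1aux

open R1aux

/-- R1: the real side for fixed `x` -/
theorem R1 (h2 : S_H2) (h3 : S_H3) (h4 : S_H4) (ha3 : S_A3) : S_R1 := by
  intro L hW he κ _ n m hm l hl x
  have hsub : ∫⁻ u in {u : Fin n → ℝ | VV L m l (x, u) < 1},
        ENNReal.ofReal (DS l (fun k => 4 / Real.pi * qq (pk (l k) (x, u)) * af L m (pk (l k) (x, u)))) ≤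
      ∫⁻ u in GU m L l x, ENNReal.ofReal (DS l (bb L m l x u)) := by
    refine lintegral_mono_set' ?_
    have hall : ∀ᵐ u : Fin n → ℝ, ∀ k, l k ≠ 0 → l k ⬝ᵥ u ≠ 0 := by
      rw [ae_all_iff]
      intro k
      by_cases hk : l k = 0
      · exact Eventually.of_forall fun u h => absurd hk h
      · rw [ae_iff]
        refine measure_mono_null ?_ (null_hyper (l k) hk)
        intro u hu
        simp only [Set.mem_ofPred_eq, not_forall] at hu ⊢
        obtain ⟨_, hu⟩ := hu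
        exact not_not.mp hu
    filter_upwards [hall] with u hu hV
    exact ⟨hV, Set.mem_iInter.mpr fun k => hu k⟩
  refine hsub.trans ?_
  have hint : ∫⁻ u in GU m L l x, ENNReal.ofReal (DS l (bb L m l x u)) =
      (n.factorial : ℝ≥0∞) * ∫⁻ u in GU m L l x, ENNReal.ofReal |(TD L m l x u).det| := by
    rw [← lintegral_const_mul' _ _ (ENNReal.natCast_ne_top _)]
    refine lintegral_congr fun u => ?_
    have h1 := TD_det ha3 L m l x u
    have h5 := DS_nonneg l (bb L m l x u) (bb_nonneg L m l x u)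
    have hn : (0 : ℝ) < n.factorial := by positivity
    have h6 : 0 ≤ (TD L m l x u).det := by
      by_contra hneg
      push Not at hneg
      have := mul_neg_of_pos_of_neg hn hneg
      linarith
    rw [abs_of_nonneg h6, ← h1, ENNReal.ofReal_mul hn.le, ENNReal.ofReal_natCast]
  rw [hint, mul_assoc]
  refine mul_le_mul_right ?_ _
  rw [lintegral_abs_det_fderiv_eq_addHaar_image volume (measurable_GU h2 L he m l x)
    (fun u hu => (TT_deriv h3 h4 L hW he m hm l x u hu).hasFDerivWithinAt)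
    (TT_inj h4 L hW he m hm l hl x)]
  refine (measure_mono (TT_mem L he m hm l x)).trans ?_
  rw [Measure.addHaar_smul]
  simp only [Module.finrank_fintype_fun_eq_card, Fintype.card_fin]
  rw [abs_of_nonneg (by positivity), ENNReal.ofReal_pow (by positivity), ENNReal.ofReal_natCast]

end H712MA
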