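import Pool.Agent.H712R2.MA.Stm

set_option autoImplicit false

noncomputable section

open MeasureTheory Filter Topology
open scoped BigOperators Matrix ENNReal

namespace H712MA

/-- `pk v` is measurable. -/
theorem R2_measurable_pk {n : ℕ} (v : Fin n → ℝ) : Measurable (fun z : E2 n => pk v z) := by
  have h1 : Measurable (fun z : E2 n => ((v ⬝ᵥ z.1 : ℝ) : ℂ) + ((v ⬝ᵥ z.2 : ℝ) : ℂ) * Complex.I) := by
    have a : Continuous (fun z : E2 n => v ⬝ᵥ z.1) := by
      unfold dotProduct; fun_prop
    have b : Continuous (fun z : E2 n => v ⬝ᵥ z.2) := by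
      unfold dotProduct; fun_prop
    exact ((Complex.continuous_ofReal.comp a).add
      ((Complex.continuous_ofReal.comp b).mul continuous_const)).measurable
  have h2 : (fun z : E2 n => pk v z) =
      fun z : E2 n => ((v ⬝ᵥ z.1 : ℝ) : ℂ) + ((v ⬝ᵥ z.2 : ℝ) : ℂ) * Complex.I := by
    funext z
    exact Complex.mk_eq_add_mul_I _ _
  rw [h2]; exact h1

theorem R2_measurable_qq (hH2 : S_H2) : Measurable qq := by
  obtain ⟨hopen, hlt, -, hoff, hder, hnorm, -, hmeas, -, -⟩ := hH2
  have hgg : Measurable (fun p => gg (eta p)) := by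
    classical
    have e : (fun p => gg (eta p)) =
        fun p => if p ∈ WW then eta p * (deriv eta p)⁻¹ else gg 1 := by
      funext p
      by_cases hp : p ∈ WW
      · simp only [hp, if_true]
        rw [(hder p hp).deriv]; unfold gg; simp
      · simp only [hp, if_false]; rw [hoff p hp]
    rw [e]
    exact Measurable.ite hopen.measurableSet (hmeas.mul (measurable_deriv eta).inv)
      measurable_const
  have e2 : qq = fun p => Real.pi / 2 * |(gg (eta p)).im| := rfl
  rw [e2]
  exact ((Complex.measurable_im.comp hgg).abs).const_mul _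

theorem R2_measurable_gd (L : Lens) (hm : Measurable L.e) (m : ℕ) : Measurable (gd L m) := by
  classical
  have e : gd L m = fun p => if p ∈ L.W then (m : ℂ) * L.e p ^ (m - 1) * deriv L.e p else 0 := by
    funext p; unfold gd; split_ifs <;> rfl
  rw [e]
  exact Measurable.ite L.isOpen.measurableSet
    (((hm.pow_const _).const_mul _).mul (measurable_deriv _)) measurable_const

theorem R2_measurable_af (L : Lens) (hm : Measurable L.e) (m : ℕ) : Measurable (af L m) :=
  ((R2_measurable_gd L hm m).norm).pow_const 2

theorem R2_measurable_VV {κ : Type} [Fintype κ] {n : ℕ} (L : Lens) (hm : Measurable L.e) (m : ℕ)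
    (l : κ → Fin n → ℝ) : Measurable (VV L m l) := by
  unfold VV gf
  exact Finset.measurable_sum _ fun k _ =>
    (((hm.comp (R2_measurable_pk (l k))).pow_const m).norm).pow_const 2

theorem R2_measurable_DS {κ : Type} [Fintype κ] {n : ℕ} (l : κ → Fin n → ℝ)
    (a : κ → E2 n → ℝ) (ha : ∀ k, Measurable (a k)) :
    Measurable (fun z : E2 n => DS l (fun k => a k z)) := by
  unfold DS
  exact Finset.measurable_sum _ fun f _ =>
    (Finset.measurable_prod _ fun i _ => ha (f i)).mul_const _

/-- R2: the real side, integrated over `x`. -/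
theorem R2 (h1 : S_R1) (hH2 : S_H2) : S_R2 := by
  intro L hW he κ _ n m hm l hl
  have hqm := R2_measurable_qq hH2
  obtain ⟨hopen, hlt, -, hoff, hder, hnorm, -, hmeas, -, -⟩ := hH2
  have heL : Measurable L.e := by rw [he]; exact hmeas
  have haf : Measurable (af L m) := R2_measurable_af L heL m
  have hVV : Measurable (VV L m l) := R2_measurable_VV L heL m l
  have hf : Measurable (fun z : E2 n => ENNReal.ofReal (DS l
      (fun k => 4 / Real.pi * qq (pk (l k) z) * af L m (pk (l k) z)))) := by
    refine ENNReal.measurable_ofReal.comp ?_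
    refine R2_measurable_DS l
      (fun k z => 4 / Real.pi * qq (pk (l k) z) * af L m (pk (l k) z)) fun k => ?_
    exact ((hqm.comp (R2_measurable_pk (l k))).const_mul _).mul
      (haf.comp (R2_measurable_pk (l k)))
  set f : E2 n → ℝ≥0∞ := fun z : E2 n => ENNReal.ofReal (DS l
      (fun k => 4 / Real.pi * qq (pk (l k) z) * af L m (pk (l k) z))) with hfdef
  set A : Set (E2 n) := {z | VV L m l z < 1} with hAdef
  have hA : MeasurableSet A := measurableSet_lt hVV measurable_const
  have hBd : MeasurableSet (Bd l) := by
    have hcl : IsClosed (Bd l) := by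
      have e : Bd l = ⋂ k, {x | |l k ⬝ᵥ x| ≤ 1} := by
        ext x; simp [Bd]
      rw [e]
      refine isClosed_iInter fun k => isClosed_le ?_ continuous_const
      unfold dotProduct; fun_prop
    exact hcl.measurableSet
  -- if `V(x,u) < 1` then `x` is in the polytope
  have hin : ∀ x u : Fin n → ℝ, (x, u) ∈ A → x ∈ Bd l := by
    intro x u hxu k
    have hV : VV L m l (x, u) < 1 := hxu
    have hk : ‖gf L m (pk (l k) (x, u))‖ ^ 2 < 1 := by
      refine lt_of_le_of_lt ?_ hV
      unfold VV
      exact Finset.single_le_sum (f := fun k => ‖gf L m (pk (l k) (x, u))‖ ^ 2)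
        (fun i _ => by positivity) (Finset.mem_univ k)
    have hp : pk (l k) (x, u) ∈ WW := by
      by_contra hno
      have : L.e (pk (l k) (x, u)) = 1 := by rw [he]; exact hoff _ hno
      unfold gf at hk
      rw [this] at hk
      simp at hk
    have hlt1 : ‖pk (l k) (x, u)‖ < 1 := hnorm _ hp
    have hre : |(pk (l k) (x, u)).re| ≤ ‖pk (l k) (x, u)‖ := Complex.abs_re_le_norm _
    have : (pk (l k) (x, u)).re = l k ⬝ᵥ x := rfl
    rw [this] at hre
    linarith
  calc ∫⁻ z in A, f z = ∫⁻ z, A.indicator f z := (lintegral_indicator hA f).symm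
    _ = ∫⁻ x, ∫⁻ u, A.indicator f (x, u) := by
        rw [Measure.volume_eq_prod, lintegral_prod _ (hf.indicator hA).aemeasurable]
    _ ≤ ∫⁻ x, (Bd l).indicator
          (fun _ => (n.factorial : ℝ≥0∞) * (m : ℝ≥0∞) ^ n * volume (Pol l)) x := by
        apply lintegral_mono; intro x
        by_cases hx : x ∈ Bd l
        · rw [Set.indicator_of_mem hx]
          refine le_trans (le_of_eq ?_) (h1 L hW he κ n m hm l hl x)
          rw [← lintegral_indicator]
          · rfl
          · exact measurableSet_lt (hVV.comp measurable_prodMk_left) measurable_const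
        · rw [Set.indicator_of_notMem hx]
          have h0 : ∀ u, A.indicator f (x, u) = 0 := fun u =>
            Set.indicator_of_notMem (fun h => hx (hin x u h)) _
          simp [h0]
    _ = (n.factorial : ℝ≥0∞) * (m : ℝ≥0∞) ^ n * volume (Bd l) * volume (Pol l) := by
        rw [lintegral_indicator hBd, setLIntegral_const]; ring

end H712MA
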