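import Pool.Agent.H712R2.MA.Stm

set_option autoImplicit false

noncomputable section

open MeasureTheory Filter Topology
open scoped BigOperators Matrix ENNReal

namespace H712MA

namespace TS

/-- the open/closed simplex -/
def Sx (n : ℕ) (v : ℝ) : Set (Fin n → ℝ) := {s | (∀ i, 0 < s i) ∧ ∑ i, s i ≤ v}

lemma meas_Sx (n : ℕ) (v : ℝ) : MeasurableSet (Sx n v) := by
  have h1 : MeasurableSet {s : Fin n → ℝ | ∀ i, 0 < s i} := by
    rw [show {s : Fin n → ℝ | ∀ i, 0 < s i} = ⋂ i, {s | 0 < s i} by ext; simp]
    exact MeasurableSet.iInter fun i => measurableSet_lt measurable_const (measurable_pi_apply i)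
  have h2 : MeasurableSet {s : Fin n → ℝ | ∑ i, s i ≤ v} :=
    measurableSet_le (Finset.measurable_sum _ fun i _ => measurable_pi_apply i) measurable_const
  exact h1.inter h2

lemma vol_Sx (n : ℕ) : ∀ v : ℝ, 0 ≤ v → volume (Sx n v) = ENNReal.ofReal (v ^ n / n.factorial) := by
  induction n with
  | zero =>
    intro v hv
    have h : Sx 0 v = Set.univ := by
      ext s
      simp [Sx, hv]
    rw [h]
    simp [volume_pi]
  | succ n ih =>
    intro v hv
    have hmp := (volume_preserving_piFinSuccAbove (fun _ : Fin (n+1) => ℝ) 0)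
    have hset : Sx (n+1) v = (MeasurableEquiv.piFinSuccAbove (fun _ : Fin (n+1) => ℝ) 0) ⁻¹'
        {p : ℝ × (Fin n → ℝ) | 0 < p.1 ∧ p.2 ∈ Sx n (v - p.1)} := by
      ext s
      simp only [Sx, Set.mem_setOf_eq, Set.mem_preimage, Fin.forall_fin_succ, Fin.sum_univ_succ]
      simp only [MeasurableEquiv.piFinSuccAbove_apply, Fin.insertNthEquiv_symm_apply,
        Fin.removeNth_zero, Fin.tail]
      constructor
      · rintro ⟨⟨h1, h2⟩, h3⟩
        exact ⟨h1, h2, by linarith⟩
      · rintro ⟨h1, h2, h3⟩
        exact ⟨⟨h1, h2⟩, by linarith⟩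
    have hms : MeasurableSet {p : ℝ × (Fin n → ℝ) | 0 < p.1 ∧ p.2 ∈ Sx n (v - p.1)} := by
      have h1 : MeasurableSet {p : ℝ × (Fin n → ℝ) | 0 < p.1} :=
        measurableSet_lt measurable_const measurable_fst
      have h2 : MeasurableSet {p : ℝ × (Fin n → ℝ) | ∀ i, 0 < p.2 i} := by
        rw [show {p : ℝ × (Fin n → ℝ) | ∀ i, 0 < p.2 i} = ⋂ i, {p | 0 < p.2 i} by ext; simp]
        exact MeasurableSet.iInter fun i => measurableSet_lt measurable_const
          ((measurable_pi_apply i).comp measurable_snd)
      have h3 : MeasurableSet {p : ℝ × (Fin n → ℝ) | ∑ i, p.2 i ≤ v - p.1} :=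
        measurableSet_le (Finset.measurable_sum _ fun i _ =>
          (measurable_pi_apply i).comp measurable_snd) (measurable_const.sub measurable_fst)
      exact h1.inter (h2.inter h3)
    rw [hset, hmp.measure_preimage hms.nullMeasurableSet, Measure.volume_eq_prod, Measure.prod_apply hms]
    have hsl : ∀ t : ℝ, volume (Prod.mk t ⁻¹' {p : ℝ × (Fin n → ℝ) | 0 < p.1 ∧ p.2 ∈ Sx n (v - p.1)}) =
        (Set.Ioc 0 v).indicator (fun t => ENNReal.ofReal ((v - t) ^ n / n.factorial)) t := by
      intro t
      by_cases ht : t ∈ Set.Ioc 0 v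
      · rw [Set.indicator_of_mem ht, ← ih (v - t) (by linarith [ht.2])]
        congr 1
        ext s
        simp [ht.1]
      · rw [Set.indicator_of_notMem ht]
        by_cases h0 : 0 < t
        · have hv' : v < t := by
            by_contra h
            exact ht ⟨h0, not_lt.1 h⟩
          have : Prod.mk t ⁻¹' {p : ℝ × (Fin n → ℝ) | 0 < p.1 ∧ p.2 ∈ Sx n (v - p.1)} = ∅ := by
            ext s
            simp only [Set.mem_preimage, Set.mem_setOf_eq, Sx, Set.mem_empty_iff_false, iff_false,
              not_and, not_le]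
            intro _ hs
            have : 0 ≤ ∑ i, s i := Finset.sum_nonneg fun i _ => (hs i).le
            linarith
          rw [this, measure_empty]
        · have : Prod.mk t ⁻¹' {p : ℝ × (Fin n → ℝ) | 0 < p.1 ∧ p.2 ∈ Sx n (v - p.1)} = ∅ := by
            ext s
            simp [h0]
          rw [this, measure_empty]
    simp_rw [hsl]
    rw [lintegral_indicator measurableSet_Ioc]
    have hint : IntervalIntegrable (fun t : ℝ => (v - t) ^ n / n.factorial) volume 0 v := by
      apply Continuous.intervalIntegrable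
      fun_prop
    rw [← ofReal_integral_eq_lintegral_ofReal]
    · rw [← intervalIntegral.integral_of_le hv]
      congr 1
      have h := intervalIntegral.integral_comp_sub_left (a := 0) (b := v)
        (fun t : ℝ => t ^ n / n.factorial) v
      rw [h]
      simp only [sub_self, sub_zero]
      rw [intervalIntegral.integral_div, integral_pow]
      rw [Nat.factorial_succ]
      push_cast
      field_simp
      simp
    · exact (intervalIntegrable_iff_integrableOn_Ioc_of_le hv).1 hint
    · refine (ae_restrict_iff' measurableSet_Ioc).2 (Filter.Eventually.of_forall fun t ht => ?_)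
      have : 0 ≤ v - t := by linarith [ht.2]
      positivity

end TS

open TS in
theorem S : S_S := by
  intro v0 h0 h1
  set v1 : ℝ := (1 + v0) / 2 with hv1
  have hd : 0 < v1 - v0 := by rw [hv1]; linarith
  set ψ : ℝ → ℝ := fun v => Real.smoothTransition ((v1 - v) / (v1 - v0)) with hψ
  have hcut : Cut ψ v1 := by
    refine ⟨?_, ?_, ?_, ?_, ?_, ?_⟩
    · exact Real.smoothTransition.contDiff.comp ((contDiff_const.sub contDiff_id).div_const _)
    · intro a b hab
      apply Real.smoothTransition.monotone
      exact div_le_div_of_nonneg_right (by linarith) hd.le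
    · intro v
      exact Real.smoothTransition.nonneg _
    · rw [hv1]; linarith
    · rw [hv1]; linarith
    · intro v hv
      apply Real.smoothTransition.zero_of_nonpos
      exact div_nonpos_of_nonpos_of_nonneg (by linarith) hd.le
  have hle : ∀ v, ψ v ≤ 1 := fun v => Real.smoothTransition.le_one _
  have hone : ∀ v, v ≤ v0 → ψ v = 1 := by
    intro v hv
    apply Real.smoothTransition.one_of_one_le
    rw [le_div_iff₀ hd]
    linarith
  refine ⟨ψ, v1, hcut, hle, fun n => ?_⟩
  have hψc : Continuous ψ := hcut.smooth.continuous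
  have hP : MeasurableSet {s : Fin n → ℝ | ∀ i, 0 < s i} := by
    rw [show {s : Fin n → ℝ | ∀ i, 0 < s i} = ⋂ i, {s | 0 < s i} by ext; simp]
    exact MeasurableSet.iInter fun i => measurableSet_lt measurable_const (measurable_pi_apply i)
  have hcs : Continuous (fun s : Fin n → ℝ => ψ (∑ i, s i)) := by fun_prop
  have h1nn : 0 ≤ v1 := hcut.pos1.le
  -- integrability
  have hint : IntegrableOn (fun s : Fin n → ℝ => ψ (∑ i, s i)) {s | ∀ i, 0 < s i} := by
    have hI : IntegrableOn (fun s : Fin n → ℝ => ψ (∑ i, s i)) (Sx n v1) := by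
      refine Measure.integrableOn_of_bounded (M := 1) ?_ hcs.aestronglyMeasurable ?_
      · rw [vol_Sx n v1 h1nn]; exact ENNReal.ofReal_ne_top
      · refine Filter.Eventually.of_forall fun s => ?_
        rw [Real.norm_eq_abs, abs_of_nonneg (hcut.nonneg _)]
        exact hle _
    refine IntegrableOn.of_forall_diff_eq_zero hI hP ?_
    rintro s ⟨hs1, hs2⟩
    apply hcut.zero
    by_contra h
    exact hs2 ⟨hs1, (not_le.1 h).le⟩
  have hsub : Sx n v0 ⊆ {s | ∀ i, 0 < s i} := fun s hs => hs.1
  calc v0 ^ n / n.factorial = (volume (Sx n v0)).toReal := by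
        rw [vol_Sx n v0 h0.le, ENNReal.toReal_ofReal (by positivity)]
    _ = ∫ s in Sx n v0, ψ (∑ i, s i) := by
        rw [setIntegral_congr_fun (g := fun _ => (1:ℝ)) (meas_Sx n v0) (fun s hs => hone _ hs.2)]
        simp [Measure.real]
    _ ≤ _ := by
        refine setIntegral_mono_set hint ?_ (HasSubset.Subset.eventuallyLE hsub)
        exact Filter.Eventually.of_forall fun s => hcut.nonneg _

end H712MA
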