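import Pool.Agent.H712R2.MA.Stm

set_option autoImplicit false

noncomputable section

open MeasureTheory Filter Topology
open scoped BigOperators Matrix ENNReal

namespace H712MA

namespace Z0

theorem DS_nonneg {κ : Type} [Fintype κ] {n : ℕ} (l : κ → Fin n → ℝ) (a : κ → ℝ)
    (ha : ∀ k, 0 ≤ a k) : 0 ≤ DS l a := by
  unfold DS
  exact Finset.sum_nonneg fun f _ =>
    mul_nonneg (Finset.prod_nonneg fun i _ => ha (f i)) (sq_nonneg _)

theorem DS_smul {κ : Type} [Fintype κ] {n : ℕ} (l : κ → Fin n → ℝ) (a : κ → ℝ) (c : ℝ) :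
    DS l (fun k => c * a k) = c ^ n * DS l a := by
  unfold DS
  rw [Finset.mul_sum]
  refine Finset.sum_congr rfl fun f _ => ?_
  rw [Finset.prod_mul_distrib, Finset.prod_const, Finset.card_univ, Fintype.card_fin]
  ring

theorem af_nonneg (L : Lens) (m : ℕ) (p : ℂ) : 0 ≤ af L m p := sq_nonneg _

/-- the case of dimension zero -/
theorem dim0 {κ : Type} [Fintype κ] (l : κ → Fin 0 → ℝ) :
    ENNReal.ofReal ((4 : ℝ) ^ 0 / Nat.factorial 0) ≤ volume (Bd l) * volume (Pol l) := by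
  have h1 : Bd l = Set.univ := by
    ext x
    simp [Bd, dotProduct]
  have h2 : Pol l = Set.univ := by
    ext y
    simp [Pol, dotProduct]
  rw [h1, h2]
  have h3 : volume (Set.univ : Set (Fin 0 → ℝ)) = 1 := by
    rw [MeasureTheory.volume_pi, MeasureTheory.Measure.pi_of_empty]
    simp
  rw [h3]
  simp

/-- the basic inequality for one `m` and one cut-off -/
theorem basic (hC6 : S_C6) (hR2 : S_R2) (hE : S_E) (hS : S_S) (L : Lens) (hLW : L.W = WW)
    (hLe : L.e = eta) {κ : Type} [Fintype κ] (r : ℕ) (l : κ → Fin (r + 1) → ℝ)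
    (hl : Spans l) (m : ℕ) (hm : 1 ≤ m) (v0 : ℝ) (h0 : 0 < v0) (h1 : v0 < 1) :
    ENNReal.ofReal ((4 * v0) ^ (r + 1)) ≤
      ((r + 1).factorial : ℝ≥0∞) * (volume (Bd l) * volume (Pol l)) +
      (ENNReal.ofReal ((4 / Real.pi) ^ (r + 1)) * ((Fintype.card κ : ℝ≥0∞) ^ (r + 1) *
        ((r + 1 : ℕ) : ℝ≥0∞)) * ENNReal.ofReal Real.pi ^ r) *
      ((∫⁻ p, ENNReal.ofReal (af L m p * (1 - qq p))) / (m : ℝ≥0∞)) := by
  obtain ⟨ψ, v1, hcut, hψ1, hint⟩ := hS v0 h0 h1
  have hmr : (0 : ℝ) < m := by exact_mod_cast hm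
  have hpi := Real.pi_pos
  -- complex side
  have e1 : ((m : ℝ) * Real.pi * v0) ^ (r + 1) ≤
      ∫ z : E2 (r + 1), ψ (VV L m l z) * DS l (fun k => af L m (pk (l k) z)) := by
    refine le_trans ?_ (hC6 κ r L m hm l hl ψ v1 hcut)
    have h2 := hint (r + 1)
    have hf : (0 : ℝ) < ((r + 1).factorial : ℝ) := by
      exact_mod_cast Nat.factorial_pos _
    calc ((m : ℝ) * Real.pi * v0) ^ (r + 1) =
        ((r + 1).factorial : ℝ) * (m * Real.pi) ^ (r + 1) *
          (v0 ^ (r + 1) / (r + 1).factorial) := by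
          field_simp
          rw [← mul_pow]
      _ ≤ _ := mul_le_mul_of_nonneg_left h2 (by positivity)
  have e2 : ENNReal.ofReal (((m : ℝ) * Real.pi * v0) ^ (r + 1)) ≤
      ∫⁻ z in {z : E2 (r + 1) | VV L m l z < 1},
        ENNReal.ofReal (DS l (fun k => af L m (pk (l k) z))) := by
    calc ENNReal.ofReal (((m : ℝ) * Real.pi * v0) ^ (r + 1))
        ≤ ENNReal.ofReal (∫ z : E2 (r + 1), ψ (VV L m l z) *
            DS l (fun k => af L m (pk (l k) z))) := ENNReal.ofReal_le_ofReal e1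
      _ ≤ ‖∫ z : E2 (r + 1), ψ (VV L m l z) * DS l (fun k => af L m (pk (l k) z))‖ₑ := by
          rw [← ofReal_norm]
          exact ENNReal.ofReal_le_ofReal (le_abs_self _)
      _ ≤ ∫⁻ z : E2 (r + 1), ‖ψ (VV L m l z) * DS l (fun k => af L m (pk (l k) z))‖ₑ :=
          enorm_integral_le_lintegral_enorm _
      _ ≤ ∫⁻ z : E2 (r + 1), ({z : E2 (r + 1) | VV L m l z < 1}).indicator
            (fun z => ENNReal.ofReal (DS l (fun k => af L m (pk (l k) z)))) z := by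
          refine lintegral_mono fun z => ?_
          have hD : 0 ≤ DS l (fun k => af L m (pk (l k) z)) :=
            DS_nonneg l _ fun k => af_nonneg L m _
          by_cases hz : VV L m l z < 1
          · rw [Set.indicator_of_mem (by exact hz)]
            rw [← ofReal_norm]
            refine ENNReal.ofReal_le_ofReal ?_
            rw [Real.norm_eq_abs, abs_mul, abs_of_nonneg (hcut.nonneg _), abs_of_nonneg hD]
            calc ψ (VV L m l z) * DS l (fun k => af L m (pk (l k) z)) ≤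
                1 * DS l (fun k => af L m (pk (l k) z)) :=
                  mul_le_mul_of_nonneg_right (hψ1 _) hD
              _ = _ := one_mul _
          · have h3 : ψ (VV L m l z) = 0 := hcut.zero _ (by
              have := hcut.lt1
              push Not at hz
              linarith)
            rw [h3, zero_mul, enorm_zero]
            exact zero_le
      _ ≤ _ := lintegral_indicator_le _ _
  -- error term
  have e3 := e2.trans (hE L hLW hLe κ r m hm l)
  -- real side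
  have e4 := hR2 L hLW hLe κ (r + 1) m hm l hl
  have e5 : ENNReal.ofReal ((4 / Real.pi) ^ (r + 1)) *
      (∫⁻ z in {z : E2 (r + 1) | VV L m l z < 1},
        ENNReal.ofReal (DS l (fun k => qq (pk (l k) z) * af L m (pk (l k) z)))) ≤
      ((r + 1).factorial : ℝ≥0∞) * (m : ℝ≥0∞) ^ (r + 1) * volume (Bd l) * volume (Pol l) := by
    refine le_trans (le_of_eq ?_) e4
    rw [← lintegral_const_mul' _ _ ENNReal.ofReal_ne_top]
    refine lintegral_congr fun z => ?_
    rw [← ENNReal.ofReal_mul (by positivity), ← DS_smul]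
    congr 2
    funext k
    ring
  -- combine
  have e6 : ENNReal.ofReal ((4 / Real.pi) ^ (r + 1)) *
      ENNReal.ofReal (((m : ℝ) * Real.pi * v0) ^ (r + 1)) ≤
      ((r + 1).factorial : ℝ≥0∞) * (m : ℝ≥0∞) ^ (r + 1) * volume (Bd l) * volume (Pol l) +
      ENNReal.ofReal ((4 / Real.pi) ^ (r + 1)) *
      (((Fintype.card κ : ℝ≥0∞) ^ (r + 1) * ((r + 1 : ℕ) : ℝ≥0∞)) *
        (ENNReal.ofReal (m * Real.pi) ^ r * ∫⁻ p, ENNReal.ofReal (af L m p * (1 - qq p)))) := by
    refine (mul_le_mul_right e3 _).trans ?_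
    rw [mul_add]
    exact add_le_add e5 le_rfl
  have hm0 : (m : ℝ≥0∞) ≠ 0 := by
    have : m ≠ 0 := by omega
    exact_mod_cast this
  have hmt : (m : ℝ≥0∞) ≠ ∞ := ENNReal.natCast_ne_top m
  have hmp0 : (m : ℝ≥0∞) ^ (r + 1) ≠ 0 := pow_ne_zero _ hm0
  have hmpt : (m : ℝ≥0∞) ^ (r + 1) ≠ ∞ := ENNReal.pow_ne_top hmt
  have e7 : ENNReal.ofReal ((4 / Real.pi) ^ (r + 1)) *
      ENNReal.ofReal (((m : ℝ) * Real.pi * v0) ^ (r + 1)) =
      (m : ℝ≥0∞) ^ (r + 1) * ENNReal.ofReal ((4 * v0) ^ (r + 1)) := by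
    rw [← ENNReal.ofReal_mul (by positivity)]
    rw [← ENNReal.ofReal_natCast, ← ENNReal.ofReal_pow hmr.le, ← ENNReal.ofReal_mul (by positivity)]
    congr 1
    rw [← mul_pow, ← mul_pow]
    congr 1
    field_simp
  have e8 : ENNReal.ofReal ((4 / Real.pi) ^ (r + 1)) *
      (((Fintype.card κ : ℝ≥0∞) ^ (r + 1) * ((r + 1 : ℕ) : ℝ≥0∞)) *
        (ENNReal.ofReal (m * Real.pi) ^ r * ∫⁻ p, ENNReal.ofReal (af L m p * (1 - qq p)))) =
      (m : ℝ≥0∞) ^ (r + 1) *
      ((ENNReal.ofReal ((4 / Real.pi) ^ (r + 1)) * ((Fintype.card κ : ℝ≥0∞) ^ (r + 1) *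
        ((r + 1 : ℕ) : ℝ≥0∞)) * ENNReal.ofReal Real.pi ^ r) *
      ((∫⁻ p, ENNReal.ofReal (af L m p * (1 - qq p))) / (m : ℝ≥0∞))) := by
    have h5 : ENNReal.ofReal (m * Real.pi) = (m : ℝ≥0∞) * ENNReal.ofReal Real.pi := by
      rw [ENNReal.ofReal_mul hmr.le, ENNReal.ofReal_natCast]
    rw [h5, mul_pow]
    have h6 : ∀ X : ℝ≥0∞, X = (m : ℝ≥0∞) * (X / m) := fun X =>
      (ENNReal.mul_div_cancel hm0 hmt).symm
    conv_lhs => rw [h6 (∫⁻ p, ENNReal.ofReal (af L m p * (1 - qq p)))]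
    rw [pow_succ (m : ℝ≥0∞) r]
    ring
  rw [e7, e8] at e6
  have e9 : ((r + 1).factorial : ℝ≥0∞) * (m : ℝ≥0∞) ^ (r + 1) * volume (Bd l) * volume (Pol l) =
      (m : ℝ≥0∞) ^ (r + 1) *
        (((r + 1).factorial : ℝ≥0∞) * (volume (Bd l) * volume (Pol l))) := by ring
  rw [e9, ← mul_add] at e6
  exact (ENNReal.mul_le_mul_iff_right hmp0 hmpt).1 e6

end Z0

open Z0 in
theorem Z (hH2 : S_H2) (hH5 : S_H5) (hC6 : S_C6) (hR2 : S_R2) (hE : S_E) (hS : S_S) : S_Z := by
  intro κ _ n l hl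
  obtain ⟨L, hLW, hLe⟩ := hH2.2.2.2.2.2.2.2.2.2
  cases n with
  | zero => exact dim0 l
  | succ r =>
    set C : ℝ≥0∞ := ENNReal.ofReal ((4 / Real.pi) ^ (r + 1)) * ((Fintype.card κ : ℝ≥0∞) ^ (r + 1) *
        ((r + 1 : ℕ) : ℝ≥0∞)) * ENNReal.ofReal Real.pi ^ r with hC
    have hCt : C ≠ ∞ := by
      rw [hC]
      refine ENNReal.mul_ne_top (ENNReal.mul_ne_top ENNReal.ofReal_ne_top ?_)
        (ENNReal.pow_ne_top ENNReal.ofReal_ne_top)
      exact ENNReal.mul_ne_top (ENNReal.pow_ne_top (ENNReal.natCast_ne_top _))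
        (ENNReal.natCast_ne_top _)
    set T : ℝ≥0∞ := ((r + 1).factorial : ℝ≥0∞) * (volume (Bd l) * volume (Pol l)) with hT
    have h1 : ∀ v0 : ℝ, 0 < v0 → v0 < 1 → ENNReal.ofReal ((4 * v0) ^ (r + 1)) ≤ T := by
      intro v0 h0 h1
      have ht : Tendsto (fun m : ℕ => T + C *
          ((∫⁻ p, ENNReal.ofReal (af L m p * (1 - qq p))) / (m : ℝ≥0∞))) atTop (𝓝 T) := by
        have h3 := ENNReal.Tendsto.const_mul (a := C) (hH5 L hLW hLe).2 (Or.inr hCt)
        rw [mul_zero] at h3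
        have h4 := (tendsto_const_nhds (x := T)).add h3
        rw [add_zero] at h4
        exact h4
      refine ge_of_tendsto ht ?_
      filter_upwards [eventually_ge_atTop 1] with m hm
      exact basic hC6 hR2 hE hS L hLW hLe r l hl m hm v0 h0 h1
    have h2 : ENNReal.ofReal ((4 : ℝ) ^ (r + 1)) ≤ T := by
      have hc : Tendsto (fun v0 : ℝ => ENNReal.ofReal ((4 * v0) ^ (r + 1))) (𝓝[<] 1)
          (𝓝 (ENNReal.ofReal ((4 * 1) ^ (r + 1)))) := by
        have : Continuous (fun v0 : ℝ => ENNReal.ofReal ((4 * v0) ^ (r + 1))) :=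
          ENNReal.continuous_ofReal.comp (by fun_prop)
        exact (this.tendsto 1).mono_left nhdsWithin_le_nhds
      rw [mul_one] at hc
      refine le_of_tendsto hc ?_
      have hev : ∀ᶠ v0 : ℝ in 𝓝[<] 1, v0 ∈ Set.Ioo (0 : ℝ) 1 :=
        Ioo_mem_nhdsLT (by norm_num)
      filter_upwards [hev] with v0 hv
      exact h1 v0 hv.1 hv.2
    have hf0 : ((r + 1).factorial : ℝ≥0∞) ≠ 0 := by
      have := Nat.factorial_ne_zero (r + 1)
      exact_mod_cast this
    have hft : ((r + 1).factorial : ℝ≥0∞) ≠ ∞ := ENNReal.natCast_ne_top _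
    have hfr : (0 : ℝ) < ((r + 1).factorial : ℝ) := by
      exact_mod_cast Nat.factorial_pos (r + 1)
    rw [← ENNReal.mul_le_mul_iff_right hf0 hft]
    refine le_trans (le_of_eq ?_) h2
    rw [← ENNReal.ofReal_natCast, ← ENNReal.ofReal_mul hfr.le]
    congr 1
    field_simp

end H712MA
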