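import Pool.Agent.H712R2.MA.Stm

set_option autoImplicit false

noncomputable section

open MeasureTheory Filter Topology
open scoped BigOperators Matrix ENNReal

namespace H712MA

/-- product change of variables for lintegrals -/
theorem C5_pi {α β : Type} [MeasurableSpace α] [MeasurableSpace β] (μ : Measure α) (ν : Measure β)
    [SigmaFinite μ] [SigmaFinite ν] (T : α → β) (hT : Measurable T) (ρ : α → ℝ≥0∞)
    (hρ : Measurable ρ) (c : ℝ≥0∞)
    (h1 : ∀ F : β → ℝ≥0∞, Measurable F → ∫⁻ a, F (T a) * ρ a ∂μ = c * ∫⁻ b, F b ∂ν) :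
    ∀ (n : ℕ) (F : (Fin n → β) → ℝ≥0∞), Measurable F →
      ∫⁻ p, F (fun i => T (p i)) * ∏ i, ρ (p i) ∂(Measure.pi fun _ : Fin n => μ) =
        c ^ n * ∫⁻ s, F s ∂(Measure.pi fun _ : Fin n => ν) := by
  intro n
  induction n with
  | zero =>
    intro F hF
    rw [Measure.pi_of_empty (fun _ : Fin 0 => μ) (fun i => i.elim0),
      Measure.pi_of_empty (fun _ : Fin 0 => ν) (fun i => i.elim0), lintegral_dirac, lintegral_dirac]
    simp only [Finset.univ_eq_empty, Finset.prod_empty, mul_one, pow_zero, one_mul]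
    congr 1
    funext i
    exact i.elim0
  | succ n ih =>
    intro F hF
    have hα := (measurePreserving_piFinSuccAbove (fun _ : Fin (n + 1) => μ) 0).symm
    have hβ := (measurePreserving_piFinSuccAbove (fun _ : Fin (n + 1) => ν) 0).symm
    have hTm : Measurable (fun p : Fin (n + 1) → α => fun i => T (p i)) := by fun_prop
    have hG : Measurable (fun p : Fin (n + 1) → α => F (fun i => T (p i)) * ∏ i, ρ (p i)) := by
      refine (hF.comp hTm).mul ?_
      exact Finset.measurable_prod _ fun i _ => hρ.comp (measurable_pi_apply i)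
    have e1 := hα.lintegral_comp_emb (MeasurableEquiv.measurableEmbedding _)
      (fun p : Fin (n + 1) → α => F (fun i => T (p i)) * ∏ i, ρ (p i))
    have e2 := hβ.lintegral_comp_emb (MeasurableEquiv.measurableEmbedding _) F
    rw [← e1, ← e2]
    have hm1 : Measurable (fun q : α × (Fin n → α) =>
        (fun p : Fin (n + 1) → α => F (fun i => T (p i)) * ∏ i, ρ (p i))
          ((MeasurableEquiv.piFinSuccAbove (fun _ : Fin (n + 1) => α) 0).symm q)) :=
      hG.comp (MeasurableEquiv.measurable _)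
    have hm2 : Measurable (fun q : β × (Fin n → β) =>
        F ((MeasurableEquiv.piFinSuccAbove (fun _ : Fin (n + 1) => β) 0).symm q)) :=
      hF.comp (MeasurableEquiv.measurable _)
    rw [lintegral_prod _ hm1.aemeasurable, lintegral_prod _ hm2.aemeasurable]
    have hinner : ∀ a : α, ∫⁻ b, (fun p : Fin (n + 1) → α => F (fun i => T (p i)) * ∏ i, ρ (p i))
          ((MeasurableEquiv.piFinSuccAbove (fun _ : Fin (n + 1) => α) 0).symm (a, b))
            ∂(Measure.pi fun _ : Fin n => μ) =
        (c ^ n * ∫⁻ s, F ((MeasurableEquiv.piFinSuccAbove (fun _ : Fin (n + 1) => β) 0).symm (T a, s))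
            ∂(Measure.pi fun _ : Fin n => ν)) * ρ a := by
      intro a
      have hFa : Measurable (fun s : Fin n → β =>
          F ((MeasurableEquiv.piFinSuccAbove (fun _ : Fin (n + 1) => β) 0).symm (T a, s))) :=
        hm2.comp (measurable_const.prodMk measurable_id)
      rw [← ih _ hFa, ← lintegral_mul_const]
      · refine lintegral_congr fun b => ?_
        have e3 : (fun i => T ((MeasurableEquiv.piFinSuccAbove (fun _ : Fin (n + 1) => α) 0).symm (a, b) i)) =
            (MeasurableEquiv.piFinSuccAbove (fun _ : Fin (n + 1) => β) 0).symm (T a, fun i => T (b i)) := by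
          funext i
          refine Fin.cases ?_ (fun j => ?_) i
          · simp [MeasurableEquiv.piFinSuccAbove]
          · simp [MeasurableEquiv.piFinSuccAbove]
        have e4 : ∏ i, ρ ((MeasurableEquiv.piFinSuccAbove (fun _ : Fin (n + 1) => α) 0).symm (a, b) i) =
            ρ a * ∏ i, ρ (b i) := by
          rw [Fin.prod_univ_succ]
          simp [MeasurableEquiv.piFinSuccAbove]
        simp only
        rw [e3, e4]
        ring
      · refine (hFa.comp ?_).mul ?_
        · fun_prop
        · exact Finset.measurable_prod _ fun i _ => hρ.comp (measurable_pi_apply i)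
    simp only [] at hinner
    rw [lintegral_congr hinner]
    have hΦ : Measurable (fun t : β => ∫⁻ s, F ((MeasurableEquiv.piFinSuccAbove
        (fun _ : Fin (n + 1) => β) 0).symm (t, s)) ∂(Measure.pi fun _ : Fin n => ν)) :=
      hm2.lintegral_prod_right'
    have e5 := h1 (fun t => c ^ n * ∫⁻ s, F ((MeasurableEquiv.piFinSuccAbove
        (fun _ : Fin (n + 1) => β) 0).symm (t, s)) ∂(Measure.pi fun _ : Fin n => ν)) (hΦ.const_mul _)
    rw [e5, lintegral_const_mul _ hΦ, pow_succ]
    ring

/-- one variable: polar coordinates and `s = w r^(2m)` -/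
theorem C5_one (m : ℕ) (hm : 1 ≤ m) (w : ℝ) (hw : 0 < w) (F : ℝ → ℝ≥0∞) (hF : Measurable F) :
    ∫⁻ p : ℂ, F (w * ‖p‖ ^ (2 * m)) * ENNReal.ofReal (w * (m : ℝ) ^ 2 * ‖p‖ ^ (2 * m - 2)) =
      ENNReal.ofReal (m * Real.pi) * ∫⁻ s, F s ∂(volume.restrict (Set.Ioi (0 : ℝ))) := by
  rw [← Complex.lintegral_comp_polarCoord_symm]
  have hT : polarCoord.target = Set.Ioi (0 : ℝ) ×ˢ Set.Ioo (-Real.pi) Real.pi := rfl
  have hcongr : ∫⁻ p in polarCoord.target, ENNReal.ofReal p.1 •
      (F (w * ‖Complex.polarCoord.symm p‖ ^ (2 * m)) *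
        ENNReal.ofReal (w * (m : ℝ) ^ 2 * ‖Complex.polarCoord.symm p‖ ^ (2 * m - 2))) =
      ∫⁻ p in Set.Ioi (0 : ℝ) ×ˢ Set.Ioo (-Real.pi) Real.pi,
        (ENNReal.ofReal (m / 2) * (ENNReal.ofReal |2 * m * w * p.1 ^ (2 * m - 1)| *
          F (w * p.1 ^ (2 * m)))) * 1 := by
    rw [hT]
    refine setLIntegral_congr_fun (measurableSet_Ioi.prod measurableSet_Ioo) fun p hp => ?_
    have hp1 : 0 < p.1 := hp.1
    have e1 : ‖Complex.polarCoord.symm p‖ = p.1 := by
      rw [Complex.norm_polarCoord_symm, abs_of_pos hp1]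
    simp only [e1, smul_eq_mul, mul_one]
    rw [abs_of_nonneg (by positivity)]
    rw [← mul_assoc (ENNReal.ofReal ((m : ℝ) / 2)), ← ENNReal.ofReal_mul (by positivity),
      mul_comm (F _), ← mul_assoc, ← ENNReal.ofReal_mul hp1.le]
    congr 2
    have e2 : 2 * m - 1 = (2 * m - 2) + 1 := by omega
    rw [e2, pow_succ]
    ring
  rw [hcongr, Measure.volume_eq_prod, ← Measure.prod_restrict]
  have hg : Measurable (fun r : ℝ => ENNReal.ofReal |2 * m * w * r ^ (2 * m - 1)| *
      F (w * r ^ (2 * m))) := by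
    refine Measurable.mul ?_ (hF.comp (by fun_prop))
    exact ENNReal.measurable_ofReal.comp (by fun_prop)
  rw [lintegral_prod_mul (f := fun r : ℝ => ENNReal.ofReal (m / 2) *
      (ENNReal.ofReal |2 * m * w * r ^ (2 * m - 1)| * F (w * r ^ (2 * m))))
      (g := fun _ : ℝ => (1 : ℝ≥0∞)) (hg.const_mul _).aemeasurable aemeasurable_const]
  rw [lintegral_const_mul _ hg, lintegral_const, Measure.restrict_apply MeasurableSet.univ,
    Set.univ_inter, Real.volume_Ioo, one_mul]
  have himg : (fun r : ℝ => w * r ^ (2 * m)) '' Set.Ioi 0 = Set.Ioi 0 := by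
    ext s
    constructor
    · rintro ⟨r, hr, rfl⟩
      have hr' : (0 : ℝ) < r := hr
      exact mul_pos hw (pow_pos hr' _)
    · intro hs
      have hs' : (0 : ℝ) < s := hs
      refine ⟨(s / w) ^ (((2 * m : ℕ) : ℝ)⁻¹), Real.rpow_pos_of_pos (div_pos hs' hw) _, ?_⟩
      simp only
      rw [Real.rpow_inv_natCast_pow (div_pos hs' hw).le (by omega)]
      field_simp
  have hinj : Set.InjOn (fun r : ℝ => w * r ^ (2 * m)) (Set.Ioi 0) := by
    intro a ha b hb hab
    have h2 : a ^ (2 * m) = b ^ (2 * m) := mul_left_cancel₀ hw.ne' hab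
    exact (pow_left_inj₀ (le_of_lt ha) (le_of_lt hb) (by omega)).1 h2
  have hder : ∀ x ∈ Set.Ioi (0 : ℝ), HasDerivWithinAt (fun r : ℝ => w * r ^ (2 * m))
      (2 * m * w * x ^ (2 * m - 1)) (Set.Ioi 0) x := by
    intro x _
    have h3 := ((hasDerivAt_pow (2 * m) x).const_mul w).hasDerivWithinAt (s := Set.Ioi (0 : ℝ))
    refine h3.congr_deriv ?_
    push_cast
    ring
  have h4 := lintegral_image_eq_lintegral_abs_deriv_mul measurableSet_Ioi hder hinj F
  rw [himg] at h4
  rw [← h4]
  have e6 : ENNReal.ofReal (m * Real.pi) = ENNReal.ofReal (m / 2) *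
      ENNReal.ofReal (Real.pi - -Real.pi) := by
    rw [← ENNReal.ofReal_mul (by positivity)]
    congr 1
    ring
  rw [e6]
  ring

/-- `DS` for `n` vectors in dimension `n` -/
theorem C5_DS (n : ℕ) (l : Fin n → Fin n → ℝ) (a : Fin n → ℝ) :
    DS l a = (n.factorial : ℝ) * ((∏ i, a i) * (dt l id) ^ 2) := by
  classical
  unfold DS
  have h1 : ∑ f : Fin n → Fin n, (∏ i, a (f i)) * (dt l f) ^ 2 =
      ∑ σ : Equiv.Perm (Fin n), (∏ i, a i) * (dt l id) ^ 2 := by
    have h2 : ∑ σ : Equiv.Perm (Fin n), (∏ i, a i) * (dt l id) ^ 2 =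
        ∑ σ : Equiv.Perm (Fin n), (∏ i, a ((σ : Fin n → Fin n) i)) * (dt l (σ : Fin n → Fin n)) ^ 2 := by
      refine Finset.sum_congr rfl fun σ _ => ?_
      rw [Equiv.prod_comp σ a]
      congr 1
      have h3 : dt l (σ : Fin n → Fin n) = (Equiv.Perm.sign σ : ℤ) * dt l id := by
        unfold dt
        have := Matrix.det_permute σ (Matrix.of fun i j => l (id i) j)
        rw [← this]
        rfl
      rw [h3, mul_pow]
      have h4 : ((Equiv.Perm.sign σ : ℤ) : ℝ) ^ 2 = 1 := by
        rcases Int.units_eq_one_or (Equiv.Perm.sign σ) with h | h <;> rw [h] <;> simp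
      rw [h4, one_mul]
    rw [h2]
    symm
    refine Finset.sum_of_injOn (fun σ : Equiv.Perm (Fin n) => (σ : Fin n → Fin n))
      (fun σ _ τ _ h => Equiv.coe_fn_injective h) (fun σ _ => Finset.mem_univ _) ?_ (fun σ _ => rfl)
    intro f _ hf
    have hninj : ¬ Function.Injective f := by
      intro hinj
      apply hf
      refine ⟨Equiv.ofBijective f ((Finite.injective_iff_bijective).1 hinj), Finset.mem_coe.2 (Finset.mem_univ _), ?_⟩
      rfl
    have hdt : dt l f = 0 := by
      unfold dt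
      obtain ⟨i, j, hij, hne⟩ : ∃ i j, f i = f j ∧ i ≠ j := by
        by_contra hcon
        push Not at hcon
        exact hninj fun i j h => hcon i j h
      refine Matrix.det_zero_of_row_eq hne ?_
      funext k
      simp [hij]
    rw [hdt]
    ring
  rw [h1, Finset.sum_const, Finset.card_univ, Fintype.card_perm, Fintype.card_fin, nsmul_eq_mul]

/-- linear change of variables -/
theorem C5_lin (n : ℕ) (l : Fin n → Fin n → ℝ) (hl : dt l id ≠ 0) (G : (Fin n → ℂ) → ℝ≥0∞)
    (hG : Measurable G) :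
    ∫⁻ z : E2 n, ENNReal.ofReal ((dt l id) ^ 2) * G (fun i => pk (l i) z) = ∫⁻ p, G p := by
  classical
  set M : Matrix (Fin n) (Fin n) ℝ := Matrix.of l with hM
  have hdet : M.det = dt l id := rfl
  have hMd : M.det ≠ 0 := by rw [hdet]; exact hl
  have hmap := Real.map_matrix_volume_pi_eq_smul_volume_pi hMd
  -- measure-preserving equivalence with complex vectors
  have h1 := (volume_measurePreserving_arrowProdEquivProdArrow ℝ ℝ (Fin n)).symm
  have h2 := volume_preserving_pi (fun _ : Fin n => Complex.volume_preserving_equiv_real_prod.symm)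
  have h3 := h2.comp h1
  have hG3 : Measurable (fun z : E2 n => G (fun i => (⟨z.1 i, z.2 i⟩ : ℂ))) := by
    refine hG.comp (measurable_pi_lambda _ fun i => ?_)
    have : (fun z : E2 n => (⟨z.1 i, z.2 i⟩ : ℂ)) =
        fun z : E2 n => Complex.measurableEquivRealProd.symm (z.1 i, z.2 i) := by
      funext z; rfl
    rw [this]
    fun_prop
  have e1 : ∫⁻ p, G p = ∫⁻ z : E2 n, G (fun i => (⟨z.1 i, z.2 i⟩ : ℂ)) := by
    rw [← h3.lintegral_comp hG]
    rfl
  rw [e1]
  have hlin : Measurable (Matrix.toLin' M : (Fin n → ℝ) → (Fin n → ℝ)) :=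
    (LinearMap.continuous_of_finiteDimensional _).measurable
  have e2 : ∫⁻ z : E2 n, ENNReal.ofReal ((dt l id) ^ 2) * G (fun i => pk (l i) z) =
      ENNReal.ofReal ((dt l id) ^ 2) * ∫⁻ z : E2 n, (fun z' : E2 n => G (fun i => (⟨z'.1 i, z'.2 i⟩ : ℂ)))
        (Prod.map (Matrix.toLin' M) (Matrix.toLin' M) z) := by
    rw [lintegral_const_mul]
    · rfl
    · exact hG3.comp (hlin.prodMap hlin)
  rw [e2, ← lintegral_map hG3 (hlin.prodMap hlin), Measure.volume_eq_prod,
    ← Measure.map_prod_map _ _ hlin hlin, hmap, Measure.prod_smul_left, Measure.prod_smul_right,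
    lintegral_smul_measure, lintegral_smul_measure, smul_eq_mul, smul_eq_mul, ← mul_assoc, ← mul_assoc,
    ← ENNReal.ofReal_mul (sq_nonneg _), ← ENNReal.ofReal_mul (by positivity), hdet]
  have e3 : dt l id ^ 2 * |(dt l id)⁻¹| * |(dt l id)⁻¹| = 1 := by
    rw [mul_assoc, ← abs_mul, abs_of_nonneg (mul_self_nonneg _)]
    field_simp
  rw [e3, ENNReal.ofReal_one, one_mul]

/-- C5: the value for a basis -/
theorem C5 : S_C5 := by
  intro n m hm l hl ψ v1 hψ w hw
  classical
  have hψm : Measurable ψ := hψ.smooth.continuous.measurable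
  have hpk : ∀ v : Fin n → ℝ, Measurable (fun z : E2 n => pk v z) := by
    intro v
    have : (fun z : E2 n => pk v z) =
        fun z : E2 n => Complex.measurableEquivRealProd.symm (v ⬝ᵥ z.1, v ⬝ᵥ z.2) := by
      funext z; rfl
    rw [this]
    refine Complex.measurableEquivRealProd.symm.measurable.comp (Measurable.prodMk ?_ ?_)
    · unfold dotProduct; fun_prop
    · unfold dotProduct; fun_prop
  -- both sides as lintegrals
  have hl0 : 0 ≤ᵐ[volume] fun z : E2 n => ψ (V0 m l (fun _ => w) z) * DS l (a0 m l (fun _ => w) z) := by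
    refine Eventually.of_forall fun z => mul_nonneg (hψ.nonneg _) ?_
    unfold DS
    refine Finset.sum_nonneg fun f _ => mul_nonneg (Finset.prod_nonneg fun i _ => ?_) (sq_nonneg _)
    unfold a0
    positivity
  have hVm : Measurable (fun z : E2 n => V0 m l (fun _ => w) z) := by
    unfold V0
    refine Finset.measurable_sum _ fun k _ => ?_
    exact ((hpk (l k)).norm.pow_const _).const_mul _
  have ham : ∀ k, Measurable (fun z : E2 n => a0 m l (fun _ => w) z k) := by
    intro k
    unfold a0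
    exact ((hpk (l k)).norm.pow_const _).const_mul _
  have hDm : Measurable (fun z : E2 n => DS l (a0 m l (fun _ => w) z)) := by
    unfold DS
    refine Finset.measurable_sum _ fun f _ => Measurable.mul_const ?_ _
    exact Finset.measurable_prod _ fun i _ => ham _
  unfold J0
  rw [integral_eq_lintegral_of_nonneg_ae hl0 ((hψm.comp hVm).mul hDm).aestronglyMeasurable]
  have hr0 : 0 ≤ᵐ[volume.restrict {s : Fin n → ℝ | ∀ i, 0 < s i}] fun s : Fin n → ℝ => ψ (∑ i, s i) :=
    Eventually.of_forall fun s => hψ.nonneg _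
  have hsm : Measurable (fun s : Fin n → ℝ => ψ (∑ i, s i)) := hψm.comp (by fun_prop)
  rw [integral_eq_lintegral_of_nonneg_ae hr0 hsm.aestronglyMeasurable]
  -- the lintegral identity
  have hres : (volume.restrict {s : Fin n → ℝ | ∀ i, 0 < s i}) =
      Measure.pi fun _ : Fin n => (volume : Measure ℝ).restrict (Set.Ioi 0) := by
    have hset : {s : Fin n → ℝ | ∀ i, 0 < s i} = Set.univ.pi fun _ => Set.Ioi (0 : ℝ) := by
      ext s; simp
    rw [hset, volume_pi, Measure.restrict_pi_pi]
  have hTm : Measurable (fun p : ℂ => w * ‖p‖ ^ (2 * m)) := by fun_prop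
  have hρm : Measurable (fun p : ℂ => ENNReal.ofReal (w * (m : ℝ) ^ 2 * ‖p‖ ^ (2 * m - 2))) := by
    fun_prop
  have hpi := C5_pi (volume : Measure ℂ) ((volume : Measure ℝ).restrict (Set.Ioi 0))
    (fun p => w * ‖p‖ ^ (2 * m)) hTm
    (fun p => ENNReal.ofReal (w * (m : ℝ) ^ 2 * ‖p‖ ^ (2 * m - 2))) hρm
    (ENNReal.ofReal (m * Real.pi)) (fun F hF => C5_one m hm w hw F hF) n
    (fun s => ENNReal.ofReal (ψ (∑ i, s i))) (ENNReal.measurable_ofReal.comp hsm)
  have hlin := C5_lin n l hl (fun p : Fin n → ℂ =>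
    (ENNReal.ofReal (ψ (∑ i, w * ‖p i‖ ^ (2 * m)))) *
      ∏ i, ENNReal.ofReal (w * (m : ℝ) ^ 2 * ‖p i‖ ^ (2 * m - 2))) (by
        refine Measurable.mul (ENNReal.measurable_ofReal.comp (hψm.comp ?_)) ?_
        · fun_prop
        · exact Finset.measurable_prod _ fun i _ => hρm.comp (measurable_pi_apply i))
  have hkey : ∫⁻ z : E2 n, ENNReal.ofReal (ψ (V0 m l (fun _ => w) z) * DS l (a0 m l (fun _ => w) z)) =
      ENNReal.ofReal (n.factorial : ℝ) * (ENNReal.ofReal (m * Real.pi) ^ n *
        ∫⁻ s in {s : Fin n → ℝ | ∀ i, 0 < s i}, ENNReal.ofReal (ψ (∑ i, s i))) := by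
    rw [hres, ← hpi, ← volume_pi, ← hlin, ← lintegral_const_mul']
    · refine lintegral_congr fun z => ?_
      rw [C5_DS]
      have hp : ∏ i, ENNReal.ofReal (w * (m : ℝ) ^ 2 * ‖pk (l i) z‖ ^ (2 * m - 2)) =
          ENNReal.ofReal (∏ i, a0 m l (fun _ => w) z i) := by
        rw [ENNReal.ofReal_prod_of_nonneg]
        · rfl
        · intro i _
          unfold a0
          positivity
      rw [hp]
      have hpnn : 0 ≤ ∏ i, a0 m l (fun _ => w) z i :=
        Finset.prod_nonneg fun i _ => by unfold a0; positivity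
      rw [← ENNReal.ofReal_mul (hψ.nonneg _), ← ENNReal.ofReal_mul (sq_nonneg _),
        ← ENNReal.ofReal_mul (Nat.cast_nonneg _)]
      congr 1
      unfold V0
      ring
    · exact ENNReal.ofReal_ne_top
  rw [hkey, ENNReal.toReal_mul, ENNReal.toReal_mul, ENNReal.toReal_ofReal (Nat.cast_nonneg _),
    ENNReal.toReal_pow, ENNReal.toReal_ofReal (by positivity)]
  ring

end H712MA
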