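import Mathlib

set_option autoImplicit false

noncomputable section

open MeasureTheory Filter Topology
open scoped BigOperators Matrix

namespace H712MA

/-- the lens map `h(z) = (8/π²) Σ_j z^(2j+1)/(2j+1)²` on the unit disc -/
def hh (z : ℂ) : ℂ := (8 / (Real.pi : ℂ) ^ 2) * ∑' j : ℕ, z ^ (2 * j + 1) / ((2 * j + 1 : ℕ) : ℂ) ^ 2

/-- its derivative `h'(z) = (8/π²) Σ_j z^(2j)/(2j+1)` -/
def hd (z : ℂ) : ℂ := (8 / (Real.pi : ℂ) ^ 2) * ∑' j : ℕ, z ^ (2 * j) / ((2 * j + 1 : ℕ) : ℂ)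

/-- `z h'(z) = (4/π²) log ((1+z)/(1-z))` -/
def gg (z : ℂ) : ℂ := z * hd z

/-- the lens -/
def WW : Set ℂ := hh '' Metric.ball (0 : ℂ) 1

open Classical in
/-- inverse of `hh` (value `1` off the lens) -/
def eta (p : ℂ) : ℂ :=
  if hp : ∃ z, z ∈ Metric.ball (0 : ℂ) 1 ∧ hh z = p then Classical.choose hp else 1

/-- abstract data used on the complex side: a domain `W` with a holomorphic `η : W → D`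
vanishing at `0`, proper. (`|η| = 1` off `W` by convention.) -/
structure Lens where
  W : Set ℂ
  e : ℂ → ℂ
  c0 : ℝ
  C : ℝ
  B : ℝ
  isOpen : IsOpen W
  zero_mem : (0 : ℂ) ∈ W
  diff : DifferentiableOn ℂ e W
  lt : ∀ p ∈ W, ‖e p‖ < 1
  off : ∀ p, p ∉ W → e p = 1
  comp : ∀ r : ℝ, r < 1 → IsCompact {p : ℂ | ‖e p‖ ≤ r}
  e_zero : e 0 = 0
  c0_pos : 0 < c0
  deriv_zero : deriv e 0 = (c0 : ℂ)
  hC : ∀ p ∈ W, ‖p‖ ≤ C * ‖e p‖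
  hB : ∀ p ∈ W, ‖deriv e p‖ ≤ B

/-- the complex number `l(x) + i l(u)` for `z = (x, u)` -/
def pk {n : ℕ} (v : Fin n → ℝ) (z : (Fin n → ℝ) × (Fin n → ℝ)) : ℂ :=
  ⟨v ⬝ᵥ z.1, v ⬝ᵥ z.2⟩

variable {κ : Type} [Fintype κ]

/-- `g = e^m` -/
def gf (L : Lens) (m : ℕ) (p : ℂ) : ℂ := L.e p ^ m

open Classical in
/-- `g' = m e^(m-1) e'` on `W`, zero off `W` -/
def gd (L : Lens) (m : ℕ) (p : ℂ) : ℂ :=
  if p ∈ L.W then (m : ℂ) * L.e p ^ (m - 1) * deriv L.e p else 0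

/-- `a = |g'|²` -/
def af (L : Lens) (m : ℕ) (p : ℂ) : ℝ := ‖gd L m p‖ ^ 2

/-- `V(z) = Σ_k |e(l_k(z))|^(2m)` -/
def VV {n : ℕ} (L : Lens) (m : ℕ) (l : κ → Fin n → ℝ) (z : (Fin n → ℝ) × (Fin n → ℝ)) : ℝ :=
  ∑ k, ‖gf L m (pk (l k) z)‖ ^ 2

/-- determinant with rows `l (f i)` -/
def dt {n : ℕ} (l : κ → Fin n → ℝ) (f : Fin n → κ) : ℝ :=
  Matrix.det (Matrix.of fun i j => l (f i) j)

/-- `Σ_f a_f det(l_f)²  ( = n! det(Σ_k a_k l_k l_kᵀ) )` -/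
def DS {n : ℕ} (l : κ → Fin n → ℝ) (a : κ → ℝ) : ℝ :=
  ∑ f : Fin n → κ, (∏ i, a (f i)) * (dt l f) ^ 2

/-- determinant with first row `v` and the other rows `l (s i)` -/
def dc {r : ℕ} (l : κ → Fin (r + 1) → ℝ) (s : Fin r → κ) (v : Fin (r + 1) → ℝ) : ℝ :=
  Matrix.det (Matrix.of (Fin.cons v (fun i => l (s i)) : Fin (r + 1) → Fin (r + 1) → ℝ))

/-- `Σ_s a_s |Σ_k b_k det(l_k; l_s)|²` -/
def QS {r : ℕ} (l : κ → Fin (r + 1) → ℝ) (a : κ → ℝ) (b : κ → ℂ) : ℝ :=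
  ∑ s : Fin r → κ, (∏ i, a (s i)) * ‖∑ k, b k * (dc l s (l k) : ℂ)‖ ^ 2

/-- admissible cut-off functions: smooth, antitone, nonnegative, zero from `v1 < 1` on -/
structure Cut (ψ : ℝ → ℝ) (v1 : ℝ) : Prop where
  smooth : ContDiff ℝ (⊤ : ℕ∞) ψ
  anti : Antitone ψ
  nonneg : ∀ v, 0 ≤ ψ v
  pos1 : 0 < v1
  lt1 : v1 < 1
  zero : ∀ v, v1 ≤ v → ψ v = 0

/-- homogeneous potential `V_w(z) = Σ_k w_k |l_k(z)|^(2m)` -/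
def V0 {n : ℕ} (m : ℕ) (l : κ → Fin n → ℝ) (w : κ → ℝ) (z : (Fin n → ℝ) × (Fin n → ℝ)) : ℝ :=
  ∑ k, w k * ‖pk (l k) z‖ ^ (2 * m)

/-- homogeneous coefficient `w_k m² |l_k(z)|^(2m-2)` -/
def a0 {n : ℕ} (m : ℕ) (l : κ → Fin n → ℝ) (w : κ → ℝ) (z : (Fin n → ℝ) × (Fin n → ℝ)) (k : κ) : ℝ :=
  w k * (m : ℝ) ^ 2 * ‖pk (l k) z‖ ^ (2 * m - 2)

/-- `J(w) = ∫ ψ(V_w) D_w` -/
def J0 {n : ℕ} (ψ : ℝ → ℝ) (m : ℕ) (l : κ → Fin n → ℝ) (w : κ → ℝ) : ℝ :=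
  ∫ z : (Fin n → ℝ) × (Fin n → ℝ), ψ (V0 m l w z) * DS l (a0 m l w z)

/-- `N(c) = c^n ∫ ψ(cV) D` -/
def NN {n : ℕ} (ψ : ℝ → ℝ) (L : Lens) (m : ℕ) (l : κ → Fin n → ℝ) (c : ℝ) : ℝ :=
  c ^ n * ∫ z : (Fin n → ℝ) × (Fin n → ℝ),
    ψ (c * VV L m l z) * DS l (fun k => af L m (pk (l k) z))

/-- the function `q = (π/2) |Im (ζ h'(ζ))|`, `ζ = η(p)` -/
def qq (p : ℂ) : ℝ := Real.pi / 2 * |(gg (eta p)).im|

end H712MA
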