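import Pool.Agent.H712R2.MA.Stm

/-!
# Task H1: the map `h` on the disc (helper503)
-/

set_option autoImplicit false

noncomputable section

open MeasureTheory Filter Topology
open scoped BigOperators Matrix ENNReal

namespace H712MA

namespace H1aux

lemma oddne (j : ℕ) : ((2 * j + 1 : ℕ) : ℂ) ≠ 0 := by
  exact_mod_cast (by omega : 2 * j + 1 ≠ 0)

lemma norm_odd (j : ℕ) : ‖((2 * j + 1 : ℕ) : ℂ)‖ = (2 * j + 1 : ℕ) := by
  rw [Complex.norm_natCast]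

lemma one_le_norm_odd (j : ℕ) : 1 ≤ ‖((2 * j + 1 : ℕ) : ℂ)‖ := by
  rw [norm_odd]
  exact_mod_cast (by omega : 1 ≤ 2 * j + 1)

/-- bound of the terms of the derivative series -/
lemma term_le (z : ℂ) (ρ : ℝ) (hz : ‖z‖ ≤ ρ) (j : ℕ) :
    ‖z ^ (2 * j) / ((2 * j + 1 : ℕ) : ℂ)‖ ≤ (ρ ^ 2) ^ j := by
  rw [norm_div, norm_pow]
  calc ‖z‖ ^ (2 * j) / ‖((2 * j + 1 : ℕ) : ℂ)‖ ≤ ‖z‖ ^ (2 * j) / 1 :=
        div_le_div_of_nonneg_left (by positivity) one_pos (one_le_norm_odd j)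
    _ = (‖z‖ ^ 2) ^ j := by rw [div_one, pow_mul]
    _ ≤ (ρ ^ 2) ^ j := by gcongr

lemma geo (ρ : ℝ) (h0 : 0 ≤ ρ) (h1 : ρ < 1) : Summable fun j : ℕ => (ρ ^ 2) ^ j :=
  summable_geometric_of_lt_one (by positivity) (by nlinarith)

/-- the undivided series of `h` -/
def S0 (z : ℂ) : ℂ := ∑' j : ℕ, z ^ (2 * j + 1) / ((2 * j + 1 : ℕ) : ℂ) ^ 2

/-- the undivided series of `h'` -/
def S1 (z : ℂ) : ℂ := ∑' j : ℕ, z ^ (2 * j) / ((2 * j + 1 : ℕ) : ℂ)

lemma hh_eq (z : ℂ) : hh z = (8 / (Real.pi : ℂ) ^ 2) * S0 z := rfl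

lemma hd_eq (z : ℂ) : hd z = (8 / (Real.pi : ℂ) ^ 2) * S1 z := rfl

lemma exists_between' (z : ℂ) (hz : ‖z‖ < 1) : ∃ ρ : ℝ, 0 < ρ ∧ ‖z‖ < ρ ∧ ρ < 1 := by
  obtain ⟨ρ, h1, h2⟩ := exists_between hz
  exact ⟨ρ, lt_of_le_of_lt (norm_nonneg z) h1, h1, h2⟩

lemma deriv_S0 (z : ℂ) (hz : ‖z‖ < 1) : HasDerivAt S0 (S1 z) z := by
  obtain ⟨ρ, hρ0, hzρ, hρ1⟩ := exists_between' z hz
  refine hasDerivAt_tsum_of_isPreconnected (u := fun j : ℕ => (ρ ^ 2) ^ j)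
    (t := Metric.ball (0 : ℂ) ρ) (g := fun (j : ℕ) (z : ℂ) => z ^ (2 * j + 1) / ((2 * j + 1 : ℕ) : ℂ) ^ 2)
    (g' := fun (j : ℕ) (z : ℂ) => z ^ (2 * j) / ((2 * j + 1 : ℕ) : ℂ)) (y₀ := 0) (y := z)
    (geo ρ hρ0.le hρ1) Metric.isOpen_ball (convex_ball (0 : ℂ) ρ).isPreconnected ?_ ?_ ?_ ?_ ?_
  · intro j y _
    have h := (hasDerivAt_pow (2 * j + 1) y).div_const (((2 * j + 1 : ℕ) : ℂ) ^ 2)
    refine h.congr_deriv ?_
    have := oddne j
    rw [Nat.add_sub_cancel]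
    field_simp
  · intro j y hy
    exact term_le y ρ (by simpa using (mem_ball_zero_iff.1 hy).le) j
  · simpa using hρ0
  · have : (fun n : ℕ => (0 : ℂ) ^ (2 * n + 1) / ((2 * n + 1 : ℕ) : ℂ) ^ 2) = fun _ => 0 := by
      funext n
      simp
    rw [this]
    exact summable_zero
  · simpa using hzρ

lemma diff_S1 : DifferentiableOn ℂ S1 (Metric.ball 0 1) := by
  intro z hz
  have hz' : ‖z‖ < 1 := by simpa using hz
  obtain ⟨ρ, hρ0, hzρ, hρ1⟩ := exists_between' z hz'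
  have h : DifferentiableOn ℂ S1 (Metric.ball (0 : ℂ) ρ) := by
    refine Complex.differentiableOn_tsum_of_summable_norm (u := fun j : ℕ => (ρ ^ 2) ^ j)
      (F := fun (j : ℕ) (z : ℂ) => z ^ (2 * j) / ((2 * j + 1 : ℕ) : ℂ))
      (geo ρ hρ0.le hρ1) ?_ Metric.isOpen_ball ?_
    · intro j
      exact ((differentiable_id.pow (2 * j)).div_const _).differentiableOn
    · intro j y hy
      exact term_le y ρ (by simpa using (mem_ball_zero_iff.1 hy).le) j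
  exact (h.differentiableAt (Metric.isOpen_ball.mem_nhds (by simpa using hzρ))).differentiableWithinAt

/-- `Re 1/(1-w) > 1/2` for `|w| < 1` -/
lemma re_inv (w : ℂ) (hw : ‖w‖ < 1) : 1 / 2 < ((1 - w)⁻¹).re := by
  have hne : (1 - w) ≠ 0 := by
    intro h
    have : w = 1 := (sub_eq_zero.1 h).symm
    rw [this] at hw
    simp at hw
  have hpos : 0 < Complex.normSq (1 - w) := Complex.normSq_pos.2 hne
  rw [Complex.inv_re, lt_div_iff₀ hpos]
  have h1 : Complex.normSq w < 1 := by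
    rw [Complex.normSq_eq_norm_sq]
    have := norm_nonneg w
    nlinarith
  rw [Complex.normSq_apply] at h1 ⊢
  simp only [Complex.sub_re, Complex.one_re, Complex.sub_im, Complex.one_im]
  nlinarith

/-- the radial primitive of `1/(1-r²z²)` -/
lemma deriv_rad (z : ℂ) (hz : ‖z‖ < 1) (r : ℝ) (hr : r ∈ Set.Icc (0 : ℝ) 1) :
    HasDerivAt (fun r : ℝ => ∑' j : ℕ, ((r : ℂ) ^ (2 * j + 1)) * (z ^ (2 * j) / ((2 * j + 1 : ℕ) : ℂ)))
      ((1 - (r : ℂ) ^ 2 * z ^ 2)⁻¹) r := by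
  obtain ⟨ρ, hρ0, hzρ, hρ1⟩ := exists_between' z hz
  have hw : ‖(r : ℂ) ^ 2 * z ^ 2‖ < 1 := by
    rw [norm_mul, norm_pow, norm_pow, Complex.norm_real, Real.norm_of_nonneg hr.1]
    have h1 : r ^ 2 ≤ 1 := by nlinarith [hr.1, hr.2]
    have h2 : ‖z‖ ^ 2 < 1 := by nlinarith [norm_nonneg z]
    have h3 : 0 ≤ ‖z‖ ^ 2 := by positivity
    nlinarith
  have hsum : (1 - (r : ℂ) ^ 2 * z ^ 2)⁻¹ = ∑' j : ℕ, (r : ℂ) ^ (2 * j) * z ^ (2 * j) := by
    rw [← tsum_geometric_of_norm_lt_one hw]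
    refine tsum_congr fun j => ?_
    rw [mul_pow, pow_mul, pow_mul]
  rw [hsum]
  -- radius of the interval: `(ρ/‖z‖)`-ish; use `t = ball 0 R` with `R ‖z‖ ≤ q < 1`
  obtain ⟨R, hR1, hRz⟩ : ∃ R : ℝ, 1 < R ∧ R * ‖z‖ < 1 := by
    rcases eq_or_lt_of_le (norm_nonneg z) with h0 | h0
    · exact ⟨2, by norm_num, by rw [← h0]; norm_num⟩
    · refine ⟨ρ / ‖z‖, (one_lt_div h0).2 hzρ, ?_⟩
      rw [div_mul_cancel₀ _ h0.ne']
      exact hρ1
  have hq0 : 0 ≤ R * ‖z‖ := by positivity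
  refine hasDerivAt_tsum_of_isPreconnected (u := fun j : ℕ => ((R * ‖z‖) ^ 2) ^ j)
    (t := Metric.ball (0 : ℝ) R)
    (g := fun (j : ℕ) (r : ℝ) => ((r : ℂ) ^ (2 * j + 1)) * (z ^ (2 * j) / ((2 * j + 1 : ℕ) : ℂ)))
    (g' := fun (j : ℕ) (r : ℝ) => (r : ℂ) ^ (2 * j) * z ^ (2 * j)) (y₀ := 0) (y := r)
    (geo _ hq0 hRz) Metric.isOpen_ball (convex_ball (0 : ℝ) R).isPreconnected ?_ ?_ ?_ ?_ ?_
  · intro j y _
    have h := ((hasDerivAt_pow (2 * j + 1) (y : ℂ)).comp_ofReal).mul_const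
      (z ^ (2 * j) / ((2 * j + 1 : ℕ) : ℂ))
    refine h.congr_deriv ?_
    have := oddne j
    rw [Nat.add_sub_cancel]
    field_simp
  · intro j y hy
    have hy' : |y| < R := by simpa using hy
    rw [norm_mul, norm_pow, norm_pow, Complex.norm_real, Real.norm_eq_abs, ← mul_pow, ← pow_mul]
    gcongr
  · simpa using lt_trans one_pos hR1
  · have : (fun n : ℕ => (((0 : ℝ) : ℂ) ^ (2 * n + 1)) * (z ^ (2 * n) / ((2 * n + 1 : ℕ) : ℂ))) =
        fun _ => 0 := by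
      funext n
      simp
    rw [this]
    exact summable_zero
  · simp only [Metric.mem_ball, dist_zero_right, Real.norm_eq_abs]
    rw [abs_of_nonneg hr.1]
    linarith [hr.2]

lemma re_S1 (z : ℂ) (hz : ‖z‖ < 1) : 1 / 2 < (S1 z).re := by
  set G : ℝ → ℂ := fun r : ℝ => ∑' j : ℕ, ((r : ℂ) ^ (2 * j + 1)) * (z ^ (2 * j) / ((2 * j + 1 : ℕ) : ℂ))
    with hG
  have hre : ∀ r ∈ Set.Icc (0 : ℝ) 1, HasDerivAt (fun r => (G r).re)
      (((1 - (r : ℂ) ^ 2 * z ^ 2)⁻¹).re) r := by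
    intro r hr
    exact (Complex.reCLM.hasFDerivAt.comp_hasDerivAt r (deriv_rad z hz r hr))
  obtain ⟨r, hr, hslope⟩ := exists_hasDerivAt_eq_slope (fun r => (G r).re)
    (fun r : ℝ => ((1 - (r : ℂ) ^ 2 * z ^ 2)⁻¹).re) one_pos
    (fun r hr => (hre r hr).continuousAt.continuousWithinAt)
    (fun r hr => hre r (Set.Ioo_subset_Icc_self hr))
  have hw : ‖(r : ℂ) ^ 2 * z ^ 2‖ < 1 := by
    rw [norm_mul, norm_pow, norm_pow, Complex.norm_real, Real.norm_of_nonneg hr.1.le]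
    have h1 : r ^ 2 ≤ 1 := by nlinarith [hr.1, hr.2]
    have h2 : ‖z‖ ^ 2 < 1 := by nlinarith [norm_nonneg z]
    have h3 : 0 ≤ ‖z‖ ^ 2 := by positivity
    nlinarith
  have h5 := re_inv _ hw
  have hG1 : G 1 = S1 z := by
    simp only [hG, S1, Complex.ofReal_one, one_pow, one_mul]
  have hG0 : G 0 = 0 := by
    simp [hG]
  simp only [hG1, hG0, Complex.zero_re, sub_zero, div_one] at hslope
  linarith

lemma pi_sq_ne : ((Real.pi : ℂ) ^ 2) ≠ 0 := by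
  have : (Real.pi : ℂ) ≠ 0 := by exact_mod_cast Real.pi_ne_zero
  exact pow_ne_zero 2 this

lemma cst_eq : (8 / (Real.pi : ℂ) ^ 2) = ((8 / Real.pi ^ 2 : ℝ) : ℂ) := by
  push_cast
  ring

/-- `Σ 1/(2j+1)² = π²/8` -/
lemma odd_sq : HasSum (fun j : ℕ => 1 / ((2 * j + 1 : ℕ) : ℝ) ^ 2) (Real.pi ^ 2 / 8) := by
  have h := hasSum_zeta_two
  have hs := h.summable
  have he : HasSum (fun j : ℕ => 1 / ((2 * j : ℕ) : ℝ) ^ 2) (Real.pi ^ 2 / 24) := by
    have h2 := h.mul_left (1 / 4)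
    have e1 : (fun j : ℕ => 1 / 4 * (1 / (j : ℝ) ^ 2)) = fun j : ℕ => 1 / ((2 * j : ℕ) : ℝ) ^ 2 := by
      funext j
      push_cast
      rw [mul_pow]
      ring
    have e2 : 1 / 4 * (Real.pi ^ 2 / 6) = Real.pi ^ 2 / 24 := by ring
    rw [e1, e2] at h2
    exact h2
  have ho : Summable fun j : ℕ => 1 / ((2 * j + 1 : ℕ) : ℝ) ^ 2 := by
    refine hs.comp_injective (i := fun j : ℕ => 2 * j + 1) ?_
    intro a b hab
    simp only at hab
    omega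
  have h3 : HasSum (fun n : ℕ => 1 / (n : ℝ) ^ 2)
      (Real.pi ^ 2 / 24 + ∑' j : ℕ, 1 / ((2 * j + 1 : ℕ) : ℝ) ^ 2) :=
    HasSum.even_add_odd he ho.hasSum
  have h4 := h.unique h3
  have h5 : ∑' j : ℕ, 1 / ((2 * j + 1 : ℕ) : ℝ) ^ 2 = Real.pi ^ 2 / 8 := by linarith
  rw [← h5]
  exact ho.hasSum

lemma norm_S0 (z : ℂ) (hz : ‖z‖ < 1) : ‖S0 z‖ ≤ ‖z‖ * (Real.pi ^ 2 / 8) := by
  have hle : ∀ j : ℕ, ‖z ^ (2 * j + 1) / ((2 * j + 1 : ℕ) : ℂ) ^ 2‖ ≤
      ‖z‖ * (1 / ((2 * j + 1 : ℕ) : ℝ) ^ 2) := by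
    intro j
    rw [norm_div, norm_pow, norm_pow, norm_odd, pow_succ, mul_one_div]
    apply div_le_div_of_nonneg_right _ (by positivity)
    have h1 : ‖z‖ ^ (2 * j) ≤ 1 := pow_le_one₀ (norm_nonneg z) hz.le
    nlinarith [norm_nonneg z]
  have h := odd_sq.mul_left ‖z‖
  exact tsum_of_norm_bounded h hle

lemma mean_val (z w : ℂ) (hz : ‖z‖ < 1) (hw : ‖w‖ < 1) :
    1 / 2 * ‖z - w‖ ^ 2 ≤ ((starRingEnd ℂ) (z - w) * (S0 z - S0 w)).re := by
  have hseg : ∀ t ∈ Set.Icc (0 : ℝ) 1, ‖w + (t : ℂ) * (z - w)‖ < 1 := by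
    intro t ht
    have h := (convex_ball (0 : ℂ) 1) (x := w) (by simpa using hw) (y := z) (by simpa using hz)
      (a := 1 - t) (b := t) (by linarith [ht.2]) ht.1 (by ring)
    have e : (1 - t) • w + t • z = w + (t : ℂ) * (z - w) := by
      simp only [Complex.real_smul]
      push_cast
      ring
    rw [e] at h
    simpa using h
  have hder : ∀ t ∈ Set.Icc (0 : ℝ) 1, HasDerivAt
      (fun t : ℝ => ((starRingEnd ℂ) (z - w) * S0 (w + (t : ℂ) * (z - w))).re)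
      (((starRingEnd ℂ) (z - w) * (S1 (w + (t : ℂ) * (z - w)) * (z - w))).re) t := by
    intro t ht
    have h1 : HasDerivAt (fun t : ℝ => w + (t : ℂ) * (z - w)) (z - w) t := by
      have := ((hasDerivAt_id (t : ℂ)).comp_ofReal.mul_const (z - w)).const_add w
      simpa using this
    have h2 := (deriv_S0 (w + (t : ℂ) * (z - w)) (hseg t ht)).comp_of_eq t h1 rfl
    have h3 := h2.const_mul ((starRingEnd ℂ) (z - w))
    exact Complex.reCLM.hasFDerivAt.comp_hasDerivAt t h3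
  obtain ⟨t, ht, hslope⟩ := exists_hasDerivAt_eq_slope _ _ (one_pos : (0 : ℝ) < 1)
    (fun t ht => (hder t ht).continuousAt.continuousWithinAt)
    (fun t ht => hder t (Set.Ioo_subset_Icc_self ht))
  have e1 : ((starRingEnd ℂ) (z - w) * (S1 (w + (t : ℂ) * (z - w)) * (z - w))).re =
      ‖z - w‖ ^ 2 * (S1 (w + (t : ℂ) * (z - w))).re := by
    have : (starRingEnd ℂ) (z - w) * (S1 (w + (t : ℂ) * (z - w)) * (z - w)) =
        ((‖z - w‖ ^ 2 : ℝ) : ℂ) * S1 (w + (t : ℂ) * (z - w)) := by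
      have h : ((‖z - w‖ ^ 2 : ℝ) : ℂ) = (z - w) * (starRingEnd ℂ) (z - w) := by
        rw [Complex.mul_conj, Complex.normSq_eq_norm_sq]
      rw [h]
      ring
    rw [this, Complex.re_ofReal_mul]
  have h5 := re_S1 _ (hseg t (Set.Ioo_subset_Icc_self ht))
  rw [e1] at hslope
  simp only [Complex.ofReal_one, one_mul, add_sub_cancel, Complex.ofReal_zero, zero_mul, add_zero,
    sub_zero, div_one] at hslope
  have h6 : ((starRingEnd ℂ) (z - w) * (S0 z - S0 w)).re =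
      ((starRingEnd ℂ) (z - w) * S0 z).re - ((starRingEnd ℂ) (z - w) * S0 w).re := by
    rw [mul_sub, Complex.sub_re]
  rw [h6, ← hslope]
  nlinarith [sq_nonneg ‖z - w‖]

end H1aux

open H1aux in
/-- H1: the map `h` on the disc -/
theorem H1 : S_H1 := by
  have hpi : (0 : ℝ) < Real.pi ^ 2 := by positivity
  have hconj : ∀ z : ℂ, hh (starRingEnd ℂ z) = starRingEnd ℂ (hh z) := by
    intro z
    rw [hh_eq, hh_eq, cst_eq, map_mul, Complex.conj_ofReal]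
    congr 1
    unfold S0
    rw [Complex.conj_tsum]
    refine tsum_congr fun j => ?_
    rw [map_div₀, map_pow, map_pow, Complex.conj_natCast]
  have hmean : ∀ z w : ℂ, ‖z‖ < 1 → ‖w‖ < 1 →
      4 / Real.pi ^ 2 * ‖z - w‖ ^ 2 ≤ ((starRingEnd ℂ) (z - w) * (hh z - hh w)).re := by
    intro z w hz hw
    have h := mean_val z w hz hw
    have e : (starRingEnd ℂ) (z - w) * (hh z - hh w) =
        ((8 / Real.pi ^ 2 : ℝ) : ℂ) * ((starRingEnd ℂ) (z - w) * (S0 z - S0 w)) := by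
      rw [hh_eq, hh_eq, cst_eq]
      ring
    rw [e, Complex.re_ofReal_mul]
    have h2 : 0 ≤ 8 / Real.pi ^ 2 := by positivity
    calc 4 / Real.pi ^ 2 * ‖z - w‖ ^ 2 = 8 / Real.pi ^ 2 * (1 / 2 * ‖z - w‖ ^ 2) := by ring
      _ ≤ _ := mul_le_mul_of_nonneg_left h h2
  refine ⟨?_, ?_, hconj, ?_, ?_, ?_, ?_, ?_, ?_⟩
  · intro z hz
    exact (deriv_S0 z hz).const_mul _
  · intro z hz
    rw [hd_eq, cst_eq, Complex.re_ofReal_mul]
    have h := re_S1 z hz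
    have h2 : 0 < 8 / Real.pi ^ 2 := by positivity
    calc 4 / Real.pi ^ 2 = 8 / Real.pi ^ 2 * (1 / 2) := by ring
      _ < _ := mul_lt_mul_of_pos_left h h2
  · intro z
    rw [hd_eq, hd_eq, cst_eq, map_mul, Complex.conj_ofReal]
    congr 1
    unfold S1
    rw [Complex.conj_tsum]
    refine tsum_congr fun j => ?_
    rw [map_div₀, map_pow, Complex.conj_natCast]
  · intro z hz
    rw [hh_eq, cst_eq, norm_mul, Complex.norm_real, Real.norm_of_nonneg (by positivity)]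
    have h := norm_S0 z hz
    have h2 : 0 ≤ 8 / Real.pi ^ 2 := by positivity
    calc 8 / Real.pi ^ 2 * ‖S0 z‖ ≤ 8 / Real.pi ^ 2 * (‖z‖ * (Real.pi ^ 2 / 8)) :=
          mul_le_mul_of_nonneg_left h h2
      _ = ‖z‖ := by field_simp
  · unfold hd
    rw [tsum_eq_single 0]
    · simp
    · intro j hj
      have : 2 * j ≠ 0 := by omega
      rw [zero_pow this, zero_div]
  · intro z hz him
    have hzc : ‖(starRingEnd ℂ) z‖ < 1 := by rwa [Complex.norm_conj]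
    have h := hmean z ((starRingEnd ℂ) z) hz hzc
    rw [hconj z] at h
    have e1 : z - (starRingEnd ℂ) z = (2 * z.im : ℝ) * Complex.I := by
      rw [Complex.sub_conj]
    have e2 : hh z - (starRingEnd ℂ) (hh z) = (2 * (hh z).im : ℝ) * Complex.I := by
      rw [Complex.sub_conj]
    rw [e1, e2] at h
    have e3 : ((starRingEnd ℂ) ((2 * z.im : ℝ) * Complex.I) * ((2 * (hh z).im : ℝ) * Complex.I)).re =
        4 * z.im * (hh z).im := by
      simp [Complex.mul_re, Complex.mul_im]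
      ring
    rw [e3] at h
    have h0 : (0 : ℝ) < ‖((2 * z.im : ℝ) : ℂ) * Complex.I‖ := by
      rw [norm_mul, Complex.norm_I, mul_one, Complex.norm_real, Real.norm_of_nonneg (by linarith)]
      linarith
    have h1 : 0 < 4 / Real.pi ^ 2 * ‖((2 * z.im : ℝ) : ℂ) * Complex.I‖ ^ 2 := by positivity
    have h2 : 0 < 4 * z.im * (hh z).im := lt_of_lt_of_le h1 h
    by_contra hcon
    push Not at hcon
    nlinarith
  · intro z w hz hw
    rcases eq_or_ne z w with rfl | hne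
    · simp
    have h := hmean z w hz hw
    have hpos : 0 < ‖z - w‖ := norm_pos_iff.2 (sub_ne_zero.2 hne)
    have h1 : ((starRingEnd ℂ) (z - w) * (hh z - hh w)).re ≤ ‖z - w‖ * ‖hh z - hh w‖ := by
      refine (Complex.re_le_norm _).trans (le_of_eq ?_)
      rw [norm_mul, Complex.norm_conj]
    have h2 : ‖z - w‖ * (4 / Real.pi ^ 2 * ‖z - w‖) ≤ ‖z - w‖ * ‖hh z - hh w‖ := by
      calc _ = 4 / Real.pi ^ 2 * ‖z - w‖ ^ 2 := by ring
        _ ≤ _ := h.trans h1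
    exact le_of_mul_le_mul_left h2 hpos
  · exact diff_S1.const_mul _

end H712MA
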