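import Pool.Agent.H712R2.MA.Defs

/-!
Statements (as `Prop`s) of all the tasks of the proof of the symmetric Mahler conjecture.
Task `X` proves `theorem X : S_X` (or `theorem X (h : S_Y) ... : S_X`) in
`Pool/Agent/H712R2/MA/X.lean`, importing this file only.
-/

set_option autoImplicit false

noncomputable section

open MeasureTheory Filter Topology
open scoped BigOperators Matrix ENNReal

namespace H712MA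

/-- phase space `R^n × R^n` -/
abbrev E2 (n : ℕ) := (Fin n → ℝ) × (Fin n → ℝ)

/-- the polytope `{x : |l_k(x)| ≤ 1}` -/
def Bd {κ : Type} {n : ℕ} (l : κ → Fin n → ℝ) : Set (Fin n → ℝ) := {x | ∀ k, |l k ⬝ᵥ x| ≤ 1}

/-- its polar -/
def Pol {κ : Type} {n : ℕ} (l : κ → Fin n → ℝ) : Set (Fin n → ℝ) :=
  {y | ∀ x, (∀ k, |l k ⬝ᵥ x| ≤ 1) → x ⬝ᵥ y ≤ 1}

/-- the normals span: some `n` of them are a basis -/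
def Spans {κ : Type} {n : ℕ} (l : κ → Fin n → ℝ) : Prop := ∃ f : Fin n → κ, dt l f ≠ 0

/-! ### one variable -/

/-- H1: the map `h` on the disc -/
def S_H1 : Prop :=
  (∀ z : ℂ, ‖z‖ < 1 → HasDerivAt hh (hd z) z) ∧
  (∀ z : ℂ, ‖z‖ < 1 → 4 / Real.pi ^ 2 < (hd z).re) ∧
  (∀ z : ℂ, hh (starRingEnd ℂ z) = starRingEnd ℂ (hh z)) ∧
  (∀ z : ℂ, hd (starRingEnd ℂ z) = starRingEnd ℂ (hd z)) ∧
  (∀ z : ℂ, ‖z‖ < 1 → ‖hh z‖ ≤ ‖z‖) ∧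
  hd 0 = 8 / (Real.pi : ℂ) ^ 2 ∧
  (∀ z : ℂ, ‖z‖ < 1 → 0 < z.im → 0 < (hh z).im) ∧
  (∀ z w : ℂ, ‖z‖ < 1 → ‖w‖ < 1 → 4 / Real.pi ^ 2 * ‖z - w‖ ≤ ‖hh z - hh w‖) ∧
  DifferentiableOn ℂ hd (Metric.ball 0 1)

/-- H2: the inverse `η` and the lens -/
def S_H2 : Prop :=
  IsOpen WW ∧
  (∀ p ∈ WW, ‖eta p‖ < 1 ∧ hh (eta p) = p) ∧
  (∀ z : ℂ, ‖z‖ < 1 → eta (hh z) = z) ∧
  (∀ p, p ∉ WW → eta p = 1) ∧
  (∀ p ∈ WW, HasDerivAt eta (1 / hd (eta p)) p) ∧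
  (∀ p ∈ WW, ‖p‖ < 1) ∧
  (∀ p, p ∈ WW → starRingEnd ℂ p ∈ WW ∧ eta (starRingEnd ℂ p) = starRingEnd ℂ (eta p)) ∧
  Measurable eta ∧ Continuous (fun p => ‖eta p‖) ∧
  ∃ L : Lens, L.W = WW ∧ L.e = eta

/-- H3: `Im (z h'(z))` -/
def S_H3 : Prop :=
  (∀ z : ℂ, ‖z‖ < 1 → 0 < z.im → 0 < (gg z).im) ∧
  (∀ z : ℂ, ‖z‖ < 1 → z.im < 0 → (gg z).im < 0) ∧
  (∀ z : ℂ, ‖z‖ < 1 → z.im = 0 → (gg z).im = 0) ∧
  (∀ z : ℂ, ‖z‖ < 1 → Real.pi / 2 * |(gg z).im| ≤ 1) ∧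
  (∀ θ : ℝ, Real.sin θ ≠ 0 →
    Tendsto (fun r : ℝ => Real.pi / 2 * |(gg ((r : ℂ) * Complex.exp (θ * Complex.I))).im|)
      (𝓝[<] 1) (𝓝 1)) ∧
  ContinuousOn gg (Metric.ball 0 1)

/-- H4: vertical slices of the lens; monotonicity and derivative of `|η|^(2m)` -/
def S_H4 : Prop :=
  (∀ x y y' : ℝ, (⟨x, y⟩ : ℂ) ∈ WW → |y'| ≤ |y| →
    (⟨x, y'⟩ : ℂ) ∈ WW ∧ ‖eta ⟨x, y'⟩‖ ≤ ‖eta ⟨x, y⟩‖) ∧
  (∀ x y y' : ℝ, (⟨x, y⟩ : ℂ) ∈ WW → |y'| < |y| → ‖eta ⟨x, y'⟩‖ < ‖eta ⟨x, y⟩‖) ∧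
  (∀ x y : ℝ, (⟨x, y⟩ : ℂ) ∈ WW → (0 < y → 0 < (eta ⟨x, y⟩).im) ∧ (y < 0 → (eta ⟨x, y⟩).im < 0)) ∧
  (∀ L : Lens, L.W = WW → L.e = eta → ∀ m : ℕ, 1 ≤ m → ∀ x y : ℝ, (⟨x, y⟩ : ℂ) ∈ WW →
    HasDerivAt (fun t : ℝ => ‖gf L m ⟨x, t⟩‖ ^ 2)
      (2 / m * af L m ⟨x, y⟩ * (gg (eta ⟨x, y⟩)).im) y)

/-- H5: integrals of `a` and concentration at the boundary -/
def S_H5 : Prop :=
  ∀ L : Lens, L.W = WW → L.e = eta →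
    (∀ m : ℕ, 1 ≤ m → ∫⁻ p, ENNReal.ofReal (af L m p) = ENNReal.ofReal (m * Real.pi)) ∧
    Tendsto (fun m : ℕ => (∫⁻ p, ENNReal.ofReal (af L m p * (1 - qq p))) / (m : ℝ≥0∞))
      atTop (𝓝 0)

/-! ### algebra -/

/-- A1: `n Q ≤ (Σ|c|²) D` -/
def S_A1 : Prop :=
  ∀ (κ : Type) [Fintype κ] (r : ℕ) (l : κ → Fin (r + 1) → ℝ) (c d : κ → ℂ),
    ((r : ℝ) + 1) * QS l (fun k => ‖d k‖ ^ 2) (fun k => c k * d k) ≤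
      (∑ k, ‖c k‖ ^ 2) * DS l (fun k => ‖d k‖ ^ 2)

/-- A2: Cramer identity `cof(A) A w = det(A) w` in index form -/
def S_A2 : Prop :=
  ∀ (κ : Type) [Fintype κ] (r : ℕ) (l : κ → Fin (r + 1) → ℝ) (a : κ → ℝ) (v w : Fin (r + 1) → ℝ),
    ((r : ℝ) + 1) * ∑ s : Fin r → κ, (∏ i, a (s i)) * dc l s v *
        (∑ k, a k * (l k ⬝ᵥ w) * dc l s (l k)) =
      (v ⬝ᵥ w) * DS l a

/-- A3: Cauchy–Binet -/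
def S_A3 : Prop :=
  ∀ (κ : Type) [Fintype κ] (n : ℕ) (l : κ → Fin n → ℝ) (a : κ → ℝ),
    (n.factorial : ℝ) * Matrix.det (∑ k, a k • Matrix.vecMulVec (l k) (l k)) = DS l a

/-- A4: splitting off one index; `dc` is linear in `v` and kills `l (s i)`; derivative of `DS` -/
def S_A4 : Prop :=
  (∀ (κ : Type) [Fintype κ] (r : ℕ) (l : κ → Fin (r + 1) → ℝ) (a : κ → ℝ),
    DS l a = ∑ s : Fin r → κ, (∏ i, a (s i)) * ∑ k, a k * (dc l s (l k)) ^ 2) ∧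
  (∀ (κ : Type) [Fintype κ] (r : ℕ) (l : κ → Fin (r + 1) → ℝ) (s : Fin r → κ),
    ∃ d : Fin (r + 1) → ℝ, (∀ v, dc l s v = v ⬝ᵥ d) ∧ ∀ i, l (s i) ⬝ᵥ d = 0) ∧
  (∀ (κ : Type) [Fintype κ] (r : ℕ) (l : κ → Fin (r + 1) → ℝ) (a : ℝ → κ → ℝ) (a' : κ → ℝ) (t : ℝ),
    (∀ k, HasDerivAt (fun t => a t k) (a' k) t) →
    HasDerivAt (fun t => DS l (a t))
      (((r : ℝ) + 1) * ∑ s : Fin r → κ, (∏ i, a t (s i)) * ∑ k, a' k * (dc l s (l k)) ^ 2) t)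

/-! ### complex side -/

/-- the open set where all `l_k(z)` are in `W` -/
def UU {κ : Type} {n : ℕ} (L : Lens) (l : κ → Fin n → ℝ) : Set (E2 n) := {z | ∀ k, pk (l k) z ∈ L.W}

/-- P: sublevel sets of `V`, smoothness of cut-off functions -/
def S_P : Prop :=
  ∀ (κ : Type) [Fintype κ] (n : ℕ) (L : Lens) (m : ℕ), 1 ≤ m → ∀ (l : κ → Fin n → ℝ), Spans l →
    IsOpen (UU L l) ∧ (∀ v : ℝ, v < 1 → IsCompact {z : E2 n | VV L m l z ≤ v}) ∧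
    (∀ z : E2 n, z ∉ UU L l → 1 ≤ VV L m l z) ∧ Continuous (VV L m l) ∧
    ContDiffOn ℝ (⊤ : ℕ∞) (VV L m l) (UU L l) ∧
    ContDiffOn ℝ (⊤ : ℕ∞) (gf L m) L.W ∧ ContDiffOn ℝ (⊤ : ℕ∞) (gd L m) L.W ∧
    ∀ (φ : ℝ → ℝ) (v1 : ℝ), ContDiff ℝ (⊤ : ℕ∞) φ → v1 < 1 → (∀ v, v1 ≤ v → φ v = 0) →
      ∀ c : ℝ, 1 ≤ c → ∀ G : E2 n → ℂ, ContDiffOn ℝ (⊤ : ℕ∞) G (UU L l) →
        ContDiff ℝ (⊤ : ℕ∞) (fun z => (φ (c * VV L m l z) : ℂ) * G z) ∧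
        HasCompactSupport (fun z => (φ (c * VV L m l z) : ℂ) * G z)

/-- C0: integral of a directional derivative -/
def S_C0 : Prop :=
  ∀ (n : ℕ) (F : E2 n → ℂ), ContDiff ℝ 1 F → HasCompactSupport F → ∀ v : E2 n,
    ∫ z, fderiv ℝ F z v = 0

/-- C1: integration by parts `∫ ψ(cV) D = - c ∫ ψ'(cV) Q` -/
def S_C1 : Prop :=
  ∀ (κ : Type) [Fintype κ] (r : ℕ) (L : Lens) (m : ℕ), 1 ≤ m → ∀ (l : κ → Fin (r + 1) → ℝ),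
    Spans l → ∀ (ψ : ℝ → ℝ) (v1 : ℝ), Cut ψ v1 → ∀ c : ℝ, 1 ≤ c →
    ∫ z : E2 (r + 1), ψ (c * VV L m l z) * DS l (fun k => af L m (pk (l k) z)) =
      - c * ∫ z : E2 (r + 1), deriv ψ (c * VV L m l z) *
        QS l (fun k => af L m (pk (l k) z))
          (fun k => starRingEnd ℂ (gf L m (pk (l k) z)) * gd L m (pk (l k) z))

/-- C2: `N` is antitone on `[1, ∞)` -/
def S_C2 : Prop :=
  ∀ (κ : Type) [Fintype κ] (r : ℕ) (L : Lens) (m : ℕ), 1 ≤ m → ∀ (l : κ → Fin (r + 1) → ℝ),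
    Spans l → ∀ (ψ : ℝ → ℝ) (v1 : ℝ), Cut ψ v1 → ∀ c c' : ℝ, 1 ≤ c → c ≤ c' →
    NN ψ L m l c' ≤ NN ψ L m l c

/-- C3: limit `c → ∞` -/
def S_C3 : Prop :=
  ∀ (κ : Type) [Fintype κ] (r : ℕ) (L : Lens) (m : ℕ), 1 ≤ m → ∀ (l : κ → Fin (r + 1) → ℝ),
    Spans l → ∀ (ψ : ℝ → ℝ) (v1 : ℝ), Cut ψ v1 →
    Tendsto (fun c : ℝ => NN ψ L m l c) atTop (𝓝 (J0 ψ m l (fun _ => L.c0 ^ (2 * m))))

/-- C4: `J(w)` does not depend on the weights outside a basis -/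
def S_C4 : Prop :=
  ∀ (κ : Type) [Fintype κ] (r : ℕ) (m : ℕ), 1 ≤ m → ∀ (l : κ → Fin (r + 1) → ℝ) (b : Fin (r + 1) → κ),
    dt l b ≠ 0 → ∀ (ψ : ℝ → ℝ) (v1 : ℝ), Cut ψ v1 → ∀ w : ℝ, 0 < w →
    J0 ψ m l (fun _ => w) = J0 ψ m (fun i => l (b i)) (fun _ => w)

/-- C5: the value for a basis -/
def S_C5 : Prop :=
  ∀ (n : ℕ) (m : ℕ), 1 ≤ m → ∀ (l : Fin n → Fin n → ℝ),
    dt l id ≠ 0 → ∀ (ψ : ℝ → ℝ) (v1 : ℝ), Cut ψ v1 → ∀ w : ℝ, 0 < w →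
    J0 ψ m l (fun _ => w) =
      (n.factorial : ℝ) * (m * Real.pi) ^ n * ∫ s in {s : Fin n → ℝ | ∀ i, 0 < s i}, ψ (∑ i, s i)

/-- C6 (assembly of the complex side) -/
def S_C6 : Prop :=
  ∀ (κ : Type) [Fintype κ] (r : ℕ) (L : Lens) (m : ℕ), 1 ≤ m → ∀ (l : κ → Fin (r + 1) → ℝ),
    Spans l → ∀ (ψ : ℝ → ℝ) (v1 : ℝ), Cut ψ v1 →
    ((r + 1).factorial : ℝ) * (m * Real.pi) ^ (r + 1) *
        ∫ s in {s : Fin (r + 1) → ℝ | ∀ i, 0 < s i}, ψ (∑ i, s i) ≤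
      ∫ z : E2 (r + 1), ψ (VV L m l z) * DS l (fun k => af L m (pk (l k) z))

/-! ### real side -/

/-- R1: for fixed `x` -/
def S_R1 : Prop :=
  ∀ L : Lens, L.W = WW → L.e = eta →
  ∀ (κ : Type) [Fintype κ] (n : ℕ) (m : ℕ), 1 ≤ m → ∀ (l : κ → Fin n → ℝ), Spans l →
    ∀ x : Fin n → ℝ,
    ∫⁻ u in {u : Fin n → ℝ | VV L m l (x, u) < 1},
        ENNReal.ofReal (DS l (fun k => 4 / Real.pi * qq (pk (l k) (x, u)) * af L m (pk (l k) (x, u)))) ≤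
      (n.factorial : ℝ≥0∞) * (m : ℝ≥0∞) ^ n * volume (Pol l)

/-- R2: integrated over `x` -/
def S_R2 : Prop :=
  ∀ L : Lens, L.W = WW → L.e = eta →
  ∀ (κ : Type) [Fintype κ] (n : ℕ) (m : ℕ), 1 ≤ m → ∀ (l : κ → Fin n → ℝ), Spans l →
    ∫⁻ z in {z : E2 n | VV L m l z < 1},
        ENNReal.ofReal (DS l (fun k => 4 / Real.pi * qq (pk (l k) z) * af L m (pk (l k) z))) ≤
      (n.factorial : ℝ≥0∞) * (m : ℝ≥0∞) ^ n * volume (Bd l) * volume (Pol l)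

/-- F: change of variables `z ↦ (l_{f i}(z))_i` -/
def S_F : Prop :=
  ∀ (κ : Type) (n : ℕ) (l : κ → Fin n → ℝ) (f : Fin n → κ) (b : Fin n → ℂ → ℝ≥0∞),
    (∀ i, Measurable (b i)) →
    ∫⁻ z : E2 n, ENNReal.ofReal ((dt l f) ^ 2) * ∏ i, b i (pk (l (f i)) z) ≤
      ∏ i, ∫⁻ p, b i p

/-- E: the error term -/
def S_E : Prop :=
  ∀ L : Lens, L.W = WW → L.e = eta →
  ∀ (κ : Type) [Fintype κ] (r : ℕ) (m : ℕ), 1 ≤ m → ∀ (l : κ → Fin (r + 1) → ℝ),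
    ∫⁻ z in {z : E2 (r + 1) | VV L m l z < 1}, ENNReal.ofReal (DS l (fun k => af L m (pk (l k) z))) ≤
      (∫⁻ z in {z : E2 (r + 1) | VV L m l z < 1},
        ENNReal.ofReal (DS l (fun k => qq (pk (l k) z) * af L m (pk (l k) z)))) +
      ((Fintype.card κ : ℝ≥0∞) ^ (r + 1) * ((r + 1 : ℕ) : ℝ≥0∞)) *
        (ENNReal.ofReal (m * Real.pi) ^ r * ∫⁻ p, ENNReal.ofReal (af L m p * (1 - qq p)))

/-- S: cut-off functions and the simplex -/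
def S_S : Prop :=
  ∀ v0 : ℝ, 0 < v0 → v0 < 1 → ∃ (ψ : ℝ → ℝ) (v1 : ℝ), Cut ψ v1 ∧ (∀ v, ψ v ≤ 1) ∧
    ∀ n : ℕ, v0 ^ n / n.factorial ≤ ∫ s in {s : Fin n → ℝ | ∀ i, 0 < s i}, ψ (∑ i, s i)

/-- Z: the polytope case of Mahler's conjecture -/
def S_Z : Prop :=
  ∀ (κ : Type) [Fintype κ] (n : ℕ) (l : κ → Fin n → ℝ), Spans l →
    ENNReal.ofReal ((4 : ℝ) ^ n / n.factorial) ≤ volume (Bd l) * volume (Pol l)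

end H712MA
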